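import Pool.Agent.H23.CE.Strip

/-! # The main energy bound -/

set_option linter.unusedSectionVars false

open Finset Classical

namespace RDCE

variable {β 𝒞 : Type}

/-- reduced words -/
def Red (inv : β → β) (w : List β) : Prop := w.IsChain (fun a b => b ≠ inv a)

/-- the triples `(p,q,r)` for `s = p ++ q`, `y = r ++ q`, `q` the longest common suffix -/
noncomputable def Tr (S Y : Finset (List β)) : Finset (Tri β) :=
  (prefs S ×ˢ sufs S ×ˢ prefs Y).filter (fun t => t.1 ++ t.2.1 ∈ S ∧ t.2.2 ++ t.2.1 ∈ Y ∧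
    t.1.getLast? ≠ t.2.2.getLast?)

lemma mem_Tr {S Y : Finset (List β)} {t : Tri β} : t ∈ Tr S Y ↔ t.1 ++ t.2.1 ∈ S ∧
    t.2.2 ++ t.2.1 ∈ Y ∧ t.1.getLast? ≠ t.2.2.getLast? := by
  unfold Tr
  rw [Finset.mem_filter]
  refine ⟨fun h => h.2, fun h => ⟨?_, h⟩⟩
  rw [Finset.mem_product, Finset.mem_product]
  exact ⟨mem_prefs_of h.1, mem_sufs_of h.1, mem_prefs_of h.2.1⟩

/-- least number of pieces -/
noncomputable def pc (pie : List β → Prop) (w : List β) : ℕ := sInf {k | Dec pie k w}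

lemma dec_pc {pie : List β → Prop} (hp : PieOK pie) (w : List β) : Dec pie (pc pie w) w :=
  Nat.sInf_mem (s := {k | Dec pie k w}) ⟨_, dec_length hp w⟩

lemma not_dec_lt {pie : List β → Prop} {w : List β} {k : ℕ} (h : k < pc pie w) :
    ¬ Dec pie k w := fun hk => absurd (Nat.sInf_le (s := {k | Dec pie k w}) hk) (by
      unfold pc at h; omega)

lemma pc_le {pie : List β → Prop} {w : List β} {k : ℕ} (h : Dec pie k w) : pc pie w ≤ k :=
  Nat.sInf_le h

section parts

variable [Nonempty 𝒞] (F : Fam β 𝒞)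

/-- the next letter of `g` does not need a new piece -/
def cont (i : ℕ) (t : Tri β) : Prop :=
  ∃ y, t.1 ++ [y] <+: gw F.inv t ∧ Dec F.pie i (t.1 ++ [y])

/-- the letter before `q` in `y` is in the first piece of `q` -/
def contR (j : ℕ) (t : Tri β) : Prop :=
  ∃ r₀ z, t.2.2 = r₀ ++ [z] ∧ Dec F.pie j (z :: t.2.1)

lemma pie_cls {F : Fam β 𝒞} {w : List β} (h : F.pie w) {a b : β} (ha : a ∈ w) (hb : b ∈ w) :
    F.cls a = F.cls b := by
  obtain ⟨c, hc⟩ := h
  rw [F.mem_cls c w hc a ha, F.mem_cls c w hc b hb]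

lemma pie_nodup {F : Fam β 𝒞} {w : List β} (h : F.pie w) : w.Nodup := by
  obtain ⟨c, hc⟩ := h
  exact (F.sys c).mem_nodup hc

/-- part `(i,j)` -/
noncomputable def Tij (S Y : Finset (List β)) (i j : ℕ) : Finset (Tri β) :=
  (Tr S Y).filter (fun t => pc F.pie t.1 = i ∧ pc F.pie t.2.1 = j)

lemma mem_Tij {S Y : Finset (List β)} {i j : ℕ} {t : Tri β} : t ∈ Tij F S Y i j ↔
    (t.1 ++ t.2.1 ∈ S ∧ t.2.2 ++ t.2.1 ∈ Y ∧ t.1.getLast? ≠ t.2.2.getLast?) ∧
      pc F.pie t.1 = i ∧ pc F.pie t.2.1 = j := by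
  unfold Tij
  rw [Finset.mem_filter, mem_Tr]

lemma prefix_of_gw_eq {inv : β → β} {t t' : Tri β} (h : gw inv t = gw inv t')
    (hl : t.1.length ≤ t'.1.length) : ∃ x, t'.1 = t.1 ++ x := by
  have h1 : t.1 <+: gw inv t' := by rw [← h]; exact ⟨_, rfl⟩
  have h2 : t'.1 <+: gw inv t' := ⟨_, rfl⟩
  obtain ⟨x, hx⟩ := List.prefix_of_prefix_length_le h1 h2 hl
  exact ⟨x, hx.symm⟩

/-- if `pc (p ++ x) = pc p = i` and `x ≠ []`, then `i ≥ 1` and there is a piece -/
lemma last_piece_of_pc {p x : List β} {i : ℕ} (hi : pc F.pie p = i) (h : Dec F.pie i (p ++ x))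
    (hx : x ≠ []) : ∃ p₁ p₂, p = p₁ ++ p₂ ∧ p₂ ≠ [] ∧ F.pie (p₂ ++ x) := by
  rcases i with _ | i
  · have : p ++ x = [] := h
    exact absurd (List.append_eq_nil_iff.1 this).2 hx
  · exact dec_last_piece F.pieOK h (not_dec_lt (by omega))

lemma first_piece_of_pc {x q : List β} {j : ℕ} (hj : pc F.pie q = j) (h : Dec F.pie j (x ++ q))
    (hx : x ≠ []) : ∃ q₁ q₂, q = q₁ ++ q₂ ∧ q₁ ≠ [] ∧ F.pie (x ++ q₁) := by
  rcases j with _ | j
  · have : x ++ q = [] := h
    exact absurd (List.append_eq_nil_iff.1 this).1 hx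
  · exact dec_first_piece F.pieOK h (not_dec_lt (by omega))

lemma GC_part {S Y : Finset (List β)} {i j : ℕ} :
    GC F.inv ((Tij F S Y i j).filter (fun t => ¬ cont F i t)) := by
  have key : ∀ t ∈ (Tij F S Y i j).filter (fun t => ¬ cont F i t),
      ∀ t' ∈ (Tij F S Y i j).filter (fun t => ¬ cont F i t), gw F.inv t = gw F.inv t' →
      ¬ t.1.length < t'.1.length := by
    intro t ht t' ht' he hlt
    obtain ⟨ht1, ht2⟩ := Finset.mem_filter.1 ht
    obtain ⟨ht1', ht2'⟩ := Finset.mem_filter.1 ht'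
    rw [mem_Tij] at ht1 ht1'
    obtain ⟨x, hx⟩ := prefix_of_gw_eq he hlt.le
    rcases x with _ | ⟨y, x⟩
    · rw [hx] at hlt; simp at hlt
    · apply ht2
      refine ⟨y, ?_, ?_⟩
      · rw [he]
        have : t'.1 <+: gw F.inv t' := ⟨_, rfl⟩
        refine List.IsPrefix.trans ?_ this
        rw [hx]
        exact ⟨x, by simp⟩
      · have h1 := dec_pc F.pieOK t'.1
        rw [ht1'.2.1, hx] at h1
        apply dec_prefix F.pieOK (b := x)
        simpa using h1
  intro t ht t' ht' he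
  have h1 := key t ht t' ht' he
  have h2 := key t' ht' t ht he.symm
  omega

lemma head_ne_of_red {inv : β → β} {r₀ q : List β} {b : β} (h : Red inv ((r₀ ++ [b]) ++ q)) :
    q.head? ≠ some (inv b) := by
  intro hq
  rcases q with _ | ⟨z, q⟩
  · simp at hq
  · simp only [List.head?_cons, Option.some.injEq] at hq
    subst hq
    unfold Red at h
    rw [List.append_assoc, List.isChain_append] at h
    have h2 := h.2.1
    rw [List.singleton_append, List.isChain_cons_cons] at h2
    exact h2.1 rfl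

lemma XC_part {S Y : Finset (List β)} (hY : ∀ y ∈ Y, Red F.inv y) {i j : ℕ} :
    XC F.inv ((Tij F S Y i j).filter (fun t => cont F i t ∧ ¬ contR F j t)) := by
  have hmem : ∀ t ∈ (Tij F S Y i j).filter (fun t => cont F i t ∧ ¬ contR F j t),
      (t.1 ++ t.2.1 ∈ S ∧ t.2.2 ++ t.2.1 ∈ Y) ∧ pc F.pie t.1 = i ∧ pc F.pie t.2.1 = j ∧
        cont F i t ∧ ¬ contR F j t ∧ t.2.2 ≠ [] := by
    intro t ht
    obtain ⟨ht1, ht2, ht3⟩ := Finset.mem_filter.1 ht
    rw [mem_Tij] at ht1
    refine ⟨⟨ht1.1.1, ht1.1.2.1⟩, ht1.2.1, ht1.2.2, ht2, ht3, ?_⟩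
    intro hr
    obtain ⟨y, hy, -⟩ := ht2
    rw [gw, hr] at hy
    have := hy.length_le
    simp at this
  refine ⟨fun t ht => (hmem t ht).2.2.2.2.2, ?_, ?_, ?_⟩
  · intro t ht r₀ b hr
    have h1 := hY _ (hmem t ht).1.2
    rw [hr] at h1
    exact head_ne_of_red h1
  · have key : ∀ t ∈ (Tij F S Y i j).filter (fun t => cont F i t ∧ ¬ contR F j t),
        ∀ t' ∈ (Tij F S Y i j).filter (fun t => cont F i t ∧ ¬ contR F j t),
        t.2.2 ++ t.2.1 = t'.2.2 ++ t'.2.1 → ¬ t.2.2.length < t'.2.2.length := by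
      intro t ht t' ht' he hlt
      have h1 := hmem t ht
      have h1' := hmem t' ht'
      have h2 : t.2.2 <+: t'.2.2 := by
        apply List.prefix_of_prefix_length_le (l₃ := t'.2.2 ++ t'.2.1) ⟨t.2.1, he⟩ ⟨_, rfl⟩ hlt.le
      obtain ⟨x, hx⟩ := h2
      rw [← hx, List.append_assoc] at he
      have hq : t.2.1 = x ++ t'.2.1 := List.append_cancel_left he
      rcases List.eq_nil_or_concat x with rfl | ⟨x₀, z, rfl⟩
      · rw [← hx] at hlt; simp at hlt
      · apply h1'.2.2.2.2.1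
        refine ⟨t.2.2 ++ x₀, z, by rw [← hx]; simp, ?_⟩
        have h3 := dec_pc F.pieOK t.2.1
        rw [h1.2.2.1, hq] at h3
        apply dec_suffix F.pieOK (a := x₀)
        simpa using h3
    intro t ht t' ht' he
    have h1 := key t ht t' ht' he
    have h2 := key t' ht' t ht he.symm
    omega
  · intro t ht t' ht' he hlt
    have h1 := hmem t ht
    obtain ⟨y, hy, hdec⟩ := (hmem t' ht').2.2.2.1
    obtain ⟨x, hx⟩ := prefix_of_gw_eq he hlt.le
    have h3 : (((gw F.inv t).drop t.1.length).take (t'.1.length + 1 - t.1.length)) = x ++ [y] := by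
      obtain ⟨u, hu⟩ := hy
      have e1 : gw F.inv t = t.1 ++ ((x ++ [y]) ++ u) := by
        rw [he, ← hu, hx]; simp
      have e2 : t'.1.length + 1 - t.1.length = (x ++ [y]).length := by
        rw [hx]; simp; omega
      rw [e1, e2, List.drop_left, List.take_left]
    rw [h3]
    rw [hx, List.append_assoc] at hdec
    obtain ⟨p₁, p₂, -, -, h4⟩ := last_piece_of_pc F h1.2.1 hdec (by simp)
    have := pie_nodup h4
    exact (List.nodup_append.1 this).2.1

lemma XC_part_swap {S Y : Finset (List β)} (hS : ∀ y ∈ S, Red F.inv y) {i j : ℕ} :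
    XC F.inv (((Tij F S Y i j).filter (fun t => cont F i t ∧ contR F j t)).image swap3) := by
  have hmem : ∀ t ∈ (Tij F S Y i j).filter (fun t => cont F i t ∧ contR F j t),
      (t.1 ++ t.2.1 ∈ S ∧ t.2.2 ++ t.2.1 ∈ Y) ∧ pc F.pie t.1 = i ∧ pc F.pie t.2.1 = j ∧
        cont F i t ∧ contR F j t ∧ t.1 ≠ [] := by
    intro t ht
    obtain ⟨ht1, ht2, ht3⟩ := Finset.mem_filter.1 ht
    rw [mem_Tij] at ht1
    refine ⟨⟨ht1.1.1, ht1.1.2.1⟩, ht1.2.1, ht1.2.2, ht2, ht3, ?_⟩
    intro hp
    obtain ⟨y, -, hy⟩ := ht2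
    have h0 : i = 0 := by
      rw [← ht1.2.1, hp]
      have := pc_le (pie := F.pie) (w := ([] : List β)) (k := 0) rfl
      omega
    rw [h0, hp] at hy
    have : [] ++ [y] = ([] : List β) := hy
    simp at this
  refine ⟨?_, ?_, ?_, ?_⟩
  · intro t ht
    obtain ⟨u, hu, rfl⟩ := Finset.mem_image.1 ht
    exact (hmem u hu).2.2.2.2.2
  · intro t ht r₀ b hr
    obtain ⟨u, hu, rfl⟩ := Finset.mem_image.1 ht
    have h1 := hS _ (hmem u hu).1.1
    have hr' : u.1 = r₀ ++ [b] := hr
    rw [hr'] at h1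
    exact head_ne_of_red h1
  · have key : ∀ t ∈ (Tij F S Y i j).filter (fun t => cont F i t ∧ contR F j t),
        ∀ t' ∈ (Tij F S Y i j).filter (fun t => cont F i t ∧ contR F j t),
        t.1 ++ t.2.1 = t'.1 ++ t'.2.1 → ¬ t.1.length < t'.1.length := by
      intro t ht t' ht' he hlt
      have h1 := hmem t ht
      have h1' := hmem t' ht'
      have h2 : t.1 <+: t'.1 := by
        apply List.prefix_of_prefix_length_le (l₃ := t'.1 ++ t'.2.1) ⟨t.2.1, he⟩ ⟨_, rfl⟩ hlt.le
      obtain ⟨x, hx⟩ := h2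
      rw [← hx, List.append_assoc] at he
      have hq : t.2.1 = x ++ t'.2.1 := List.append_cancel_left he
      rcases x with _ | ⟨h, x⟩
      · rw [← hx] at hlt; simp at hlt
      · -- `p ++ [h]` has `i` pieces
        have h3 : Dec F.pie i (t.1 ++ [h]) := by
          have h3 := dec_pc F.pieOK t'.1
          rw [h1'.2.1, ← hx] at h3
          apply dec_prefix F.pieOK (b := x)
          simpa using h3
        obtain ⟨p₁, p₂, hp, hp2, h4⟩ := last_piece_of_pc F h1.2.1 h3 (by simp)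
        obtain ⟨y, hy, hdec⟩ := h1.2.2.2.1
        obtain ⟨p₁', p₂', hp', hp2', h4'⟩ := last_piece_of_pc F h1.2.1 hdec (by simp)
        obtain ⟨r₀, z, hr, hdz⟩ := h1.2.2.2.2.1
        have hdz' : Dec F.pie j ([z] ++ t.2.1) := hdz
        obtain ⟨q₁, q₂, hq1, hq2, h5⟩ := first_piece_of_pc F h1.2.2.1 hdz' (by simp)
        -- last letter of `p`
        obtain ⟨a₂, b, rfl⟩ := (List.eq_nil_or_concat p₂).resolve_left hp2
        obtain ⟨a₂', b', rfl⟩ := (List.eq_nil_or_concat p₂').resolve_left hp2'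
        simp only [List.concat_eq_append] at hp hp2 h4 hp' hp2' h4'
        have hbb : b = b' := by
          have := hp.symm.trans hp'
          have := congrArg List.getLast? this
          simpa using this
        subst hbb
        have e1 : F.cls b = F.cls h := pie_cls h4 (by simp) (by simp)
        have e2 : F.cls b = F.cls y := pie_cls h4' (by simp) (by simp)
        -- head of `q`
        rcases q₁ with _ | ⟨h', q₁⟩
        · exact absurd rfl hq2
        have hh : h = h' := by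
          rw [hq] at hq1
          simp at hq1
          exact hq1.1
        subst hh
        have e3 : F.cls z = F.cls h := pie_cls h5 (by simp) (by simp)
        -- `y = inv z`
        have e4 : y = F.inv z := by
          rw [gw, hr] at hy
          obtain ⟨u, hu⟩ := hy
          rw [List.append_assoc] at hu
          have := List.append_cancel_left hu
          simp at this
          exact this.1
        apply F.cls_inv z
        rw [← e4, ← e2, e1, e3]
    intro t ht t' ht' he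
    obtain ⟨u, hu, rfl⟩ := Finset.mem_image.1 ht
    obtain ⟨u', hu', rfl⟩ := Finset.mem_image.1 ht'
    have h1 := key u hu u' hu' he
    have h2 := key u' hu' u hu he.symm
    show u.1.length = u'.1.length
    omega
  · intro t ht t' ht' he hlt
    obtain ⟨u, hu, rfl⟩ := Finset.mem_image.1 ht
    obtain ⟨u', hu', rfl⟩ := Finset.mem_image.1 ht'
    have h1 := hmem u hu
    have h1' := hmem u' hu'
    have he' : u.2.2 ++ invL F.inv u.1 = u'.2.2 ++ invL F.inv u'.1 := he
    have hlt' : u.2.2.length < u'.2.2.length := hlt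
    have h2 : u.2.2 <+: u'.2.2 := by
      apply List.prefix_of_prefix_length_le (l₃ := u'.2.2 ++ invL F.inv u'.1) ⟨_, he'⟩ ⟨_, rfl⟩
        hlt'.le
    obtain ⟨x, hx⟩ := h2
    rw [← hx, List.append_assoc] at he'
    have h3 : invL F.inv u.1 = x ++ invL F.inv u'.1 := List.append_cancel_left he'
    have h4 : u.1 = u'.1 ++ invL F.inv x := by
      have := congrArg (invL F.inv) h3
      rwa [invL_append, invL_invL F.inv_inv, invL_invL F.inv_inv] at this
    have hx0 : x ≠ [] := by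
      rintro rfl
      rw [← hx] at hlt'; simp at hlt'
    have hd : Dec F.pie i (u'.1 ++ invL F.inv x) := by
      have := dec_pc F.pieOK u.1
      rwa [h1.2.1, h4] at this
    obtain ⟨p₁, p₂, hp, hp2, h5⟩ := last_piece_of_pc F h1'.2.1 hd (by
      intro h; apply hx0
      have := congrArg (invL F.inv) h
      rw [invL_invL F.inv_inv] at this
      simpa [invL] using this)
    obtain ⟨a₂, b, rfl⟩ := (List.eq_nil_or_concat p₂).resolve_left hp2
    simp only [List.concat_eq_append] at hp hp2 h5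
    have h6 : ([b] ++ invL F.inv x).Nodup := by
      have := pie_nodup h5
      rw [List.append_assoc] at this
      exact (List.nodup_append.1 this).2.1
    have h7 : (x ++ [F.inv b]).Nodup := by
      have : x ++ [F.inv b] = invL F.inv ([b] ++ invL F.inv x) := by
        rw [invL_append, invL_invL F.inv_inv]; rfl
      rw [this, invL, List.nodup_reverse]
      exact h6.map (fun a b h => by
        have := congrArg F.inv h
        rwa [F.inv_inv, F.inv_inv] at this)
    have h8 : (((gw F.inv (swap3 u)).drop (swap3 u).1.length).take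
        ((swap3 u').1.length + 1 - (swap3 u).1.length)) = x ++ [F.inv b] := by
      have e1 : gw F.inv (swap3 u) = u.2.2 ++ ((x ++ [F.inv b]) ++ invL F.inv (p₁ ++ a₂)) := by
        show u.2.2 ++ invL F.inv u.1 = _
        rw [h3, hp, ← List.append_assoc p₁, invL_append (p₁ ++ a₂)]
        simp [invL]
      have e2 : (swap3 u').1.length + 1 - (swap3 u).1.length = (x ++ [F.inv b]).length := by
        show u'.2.2.length + 1 - u.2.2.length = _
        rw [← hx]; simp; omega
      rw [e1, e2]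
      show (((u.2.2 ++ ((x ++ [F.inv b]) ++ invL F.inv (p₁ ++ a₂))).drop u.2.2.length).take _) = _
      rw [List.drop_left, List.take_left]
    rw [h8]
    exact h7

lemma hg_part {S Y : Finset (List β)} {i j L0 κ R : ℕ}
    (hcl : ∀ s ∈ S, ∀ b ∈ s, Good F L0 κ R (F.cls b)) :
    ∀ t ∈ Tij F S Y i j, ∀ t' ∈ Tij F S Y i j, gw F.inv t = gw F.inv t' →
      t.1.length ≤ t'.1.length + κ := by
  intro t ht t' ht' he
  rw [mem_Tij] at ht ht'
  by_cases hlt : t.1.length ≤ t'.1.length
  · omega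
  · obtain ⟨x, hx⟩ := prefix_of_gw_eq he.symm (by omega)
    have hx0 : x ≠ [] := by
      rintro rfl
      rw [hx] at hlt; simp at hlt
    have hd : Dec F.pie i (t'.1 ++ x) := by
      have := dec_pc F.pieOK t.1
      rwa [ht.2.1, hx] at this
    obtain ⟨p₁, p₂, hp, hp2, ⟨c, hc⟩⟩ := last_piece_of_pc F ht'.2.1 hd hx0
    obtain ⟨b, hb⟩ := List.exists_mem_of_ne_nil x hx0
    have h1 : F.cls b = c := F.mem_cls c _ hc b (by simp [hb])
    have h2 : Good F L0 κ R (F.cls b) := by
      apply hcl _ ht.1.1 b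
      rw [hx]; simp [hb]
    have h3 := h2.hlen (p₂ ++ x) (by rw [h1]; exact hc)
    rw [hx, List.length_append]
    rw [List.length_append] at h3
    omega

end parts

/-- The main energy bound. -/
theorem ball_bound [Nonempty 𝒞] (F : Fam β 𝒞) {L0 κ R m : ℕ} (hc : Cst L0 κ) (c₀ : 𝒞)
    (hc₀ : Good F L0 κ R c₀) {S Y : Finset (List β)}
    (hS : ∀ s ∈ S, Red F.inv s) (hY : ∀ y ∈ Y, Red F.inv y)
    (hcl : ∀ s ∈ S, ∀ b ∈ s, Good F L0 κ R (F.cls b)) (hm : ∀ s ∈ S, Dec F.pie m s) :
    Bd F.inv (Tr S Y) (144 * ((m : ℝ) + 1) ^ 4 * leafC L0 R * (S.card * Y.card)) := by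
  set A : ℝ := 16 * leafC L0 R * (S.card * Y.card) with hA
  have hA0 : 0 ≤ A := mul_nonneg (mul_nonneg (by norm_num)
    (leafC_nonneg L0 (Nat.cast_nonneg R))) (by positivity)
  -- a part with `LC` has the bound
  have hpart : ∀ (i j : ℕ) (T : Finset (Tri β)), T ⊆ Tij F S Y i j → LC F.inv T →
      Bd F.inv T A := by
    intro i j T hT hLC
    have hmem : ∀ t ∈ T, (t.1 ++ t.2.1 ∈ S ∧ t.2.2 ++ t.2.1 ∈ Y ∧
        t.1.getLast? ≠ t.2.2.getLast?) ∧ pc F.pie t.1 = i ∧ pc F.pie t.2.1 = j := fun t ht =>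
      (mem_Tij F).1 (hT ht)
    have hg : ∀ t ∈ T, ∀ t' ∈ T, gw F.inv t = gw F.inv t' → t.1.length ≤ t'.1.length + κ :=
      fun t ht t' ht' => hg_part F hcl t (hT ht) t' (hT ht')
    rcases j with _ | j
    · apply mid F hc hc₀ (fun t ht => (hmem t ht).1.1) (fun t ht => (hmem t ht).1.2.1) _
        (fun t ht => (hmem t ht).1.2.2) hg hLC
      intro t ht
      have h1 := dec_pc F.pieOK t.2.1
      rw [(hmem t ht).2.2] at h1
      have h2 : t.2.1 = [] := h1
      rw [h2]; exact F.mem_nil c₀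
    · apply strip F hc j hcl (fun t ht => (hmem t ht).1.1) (fun t ht => (hmem t ht).1.2.1) _
        (fun t ht => (hmem t ht).1.2.2) hg hLC
      intro t ht
      have h1 := dec_pc F.pieOK t.2.1
      rw [(hmem t ht).2.2] at h1
      exact ⟨h1, not_dec_lt (by rw [(hmem t ht).2.2]; omega)⟩
  set K : Finset ((ℕ × ℕ) × Fin 3) :=
    (Finset.range (m + 1) ×ˢ Finset.range (m + 1)) ×ˢ Finset.univ with hK
  set Tk : (ℕ × ℕ) × Fin 3 → Finset (Tri β) := fun k =>
    if k.2 = 0 then (Tij F S Y k.1.1 k.1.2).filter (fun t => ¬ cont F k.1.1 t)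
    else if k.2 = 1 then
      (Tij F S Y k.1.1 k.1.2).filter (fun t => cont F k.1.1 t ∧ ¬ contR F k.1.2 t)
    else (Tij F S Y k.1.1 k.1.2).filter (fun t => cont F k.1.1 t ∧ contR F k.1.2 t) with hTk
  have hcov : ∀ t ∈ Tr S Y, ∃ k ∈ K, t ∈ Tk k := by
    intro t ht
    have ht' := mem_Tr.1 ht
    have h1 : pc F.pie t.1 ≤ m := pc_le (dec_prefix F.pieOK (hm _ ht'.1))
    have h2 : pc F.pie t.2.1 ≤ m := pc_le (dec_suffix F.pieOK (hm _ ht'.1))
    have h3 : t ∈ Tij F S Y (pc F.pie t.1) (pc F.pie t.2.1) := (mem_Tij F).2 ⟨ht', rfl, rfl⟩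
    have hk : ∀ x : Fin 3, ((pc F.pie t.1, pc F.pie t.2.1), x) ∈ K := by
      intro x
      rw [hK, Finset.mem_product, Finset.mem_product, Finset.mem_range, Finset.mem_range]
      exact ⟨⟨Nat.lt_succ_of_le h1, Nat.lt_succ_of_le h2⟩, Finset.mem_univ _⟩
    by_cases hcont : cont F (pc F.pie t.1) t
    · by_cases hcontR : contR F (pc F.pie t.2.1) t
      · refine ⟨_, hk 2, ?_⟩
        rw [hTk]
        show t ∈ (if (2 : Fin 3) = 0 then _ else if (2 : Fin 3) = 1 then _ else _)
        rw [if_neg (by decide), if_neg (by decide)]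
        exact Finset.mem_filter.2 ⟨h3, hcont, hcontR⟩
      · refine ⟨_, hk 1, ?_⟩
        rw [hTk]
        show t ∈ (if (1 : Fin 3) = 0 then _ else if (1 : Fin 3) = 1 then _ else _)
        rw [if_neg (by decide), if_pos rfl]
        exact Finset.mem_filter.2 ⟨h3, hcont, hcontR⟩
    · refine ⟨_, hk 0, ?_⟩
      rw [hTk]
      show t ∈ (if (0 : Fin 3) = 0 then _ else _)
      rw [if_pos rfl]
      exact Finset.mem_filter.2 ⟨h3, hcont⟩
  have hb : ∀ k ∈ K, Bd F.inv (Tk k) A := by
    rintro ⟨⟨i, j⟩, x⟩ -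
    simp only [hTk]
    split_ifs
    · exact hpart i j _ (Finset.filter_subset _ _) (Or.inl (GC_part F))
    · exact hpart i j _ (Finset.filter_subset _ _) (Or.inr (Or.inl (XC_part F hY)))
    · exact hpart i j _ (Finset.filter_subset _ _) (Or.inr (Or.inr (XC_part_swap F hS)))
  have := Bd_card K Tk hcov A hA0 hb
  refine Bd_mono (le_of_eq ?_) this
  have hcard : (K.card : ℝ) = 3 * ((m : ℝ) + 1) ^ 2 := by
    rw [hK, Finset.card_product, Finset.card_product, Finset.card_range, Finset.card_univ,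
      Fintype.card_fin]
    push_cast; ring
  rw [hcard, hA]; ring

end RDCE
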