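import Pool.Agent.H23.CE.TDefs

/-! # Energy bounds in dual form and generic combination lemmas -/

open Finset Classical

namespace RDCE

variable {β : Type}

/-- triples `(p,q,r)` -/
abbrev Tri (β : Type) : Type := List β × List β × List β

/-- energy bound in dual form -/
def Bd (inv : β → β) (T : Finset (Tri β)) (A : ℝ) : Prop :=
  ∀ (Γ : Finset (List β)) (h : List β → ℝ), (∀ w, 0 ≤ h w) → (∀ t ∈ T, gw inv t ∈ Γ) →
    (∑ t ∈ T, h (gw inv t)) ^ 2 ≤ A * ∑ w ∈ Γ, h w ^ 2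

variable {inv : β → β}

lemma sum_le_of_Bd {T : Finset (Tri β)} {A : ℝ} (hA : 0 ≤ A) (hb : Bd inv T A)
    (Γ : Finset (List β)) (h : List β → ℝ) (hh : ∀ w, 0 ≤ h w) (hΓ : ∀ t ∈ T, gw inv t ∈ Γ) :
    ∑ t ∈ T, h (gw inv t) ≤ √A * √(∑ w ∈ Γ, h w ^ 2) := by
  rw [← Real.sqrt_mul hA]
  exact Real.le_sqrt_of_sq_le (hb Γ h hh hΓ)

lemma Bd_mono {T : Finset (Tri β)} {A A' : ℝ} (hA : A ≤ A') (hb : Bd inv T A) : Bd inv T A' :=
  fun Γ h hh hΓ => (hb Γ h hh hΓ).trans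
    (mul_le_mul_of_nonneg_right hA (Finset.sum_nonneg (fun _ _ => sq_nonneg _)))

lemma Bd_subset {T T' : Finset (Tri β)} {A : ℝ} (_hA : 0 ≤ A) (hT : T ⊆ T') (hb : Bd inv T' A) :
    Bd inv T A := by
  intro Γ h hh hΓ
  set h' : List β → ℝ := fun w => if w ∈ Γ then h w else 0
  have hh' : ∀ w, 0 ≤ h' w := by
    intro w; simp only [h']; split_ifs; exacts [hh w, le_rfl]
  have := hb (Γ ∪ T'.image (gw inv)) h' hh'
    (fun t ht => Finset.mem_union_right _ (Finset.mem_image_of_mem _ ht))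
  have h1 : ∑ w ∈ Γ ∪ T'.image (gw inv), h' w ^ 2 = ∑ w ∈ Γ, h w ^ 2 := by
    rw [← Finset.sum_subset (Finset.subset_union_left (s₁ := Γ) (s₂ := T'.image (gw inv)))]
    · apply Finset.sum_congr rfl
      intro w hw; simp [h', hw]
    · intro w _ hw; simp [h', hw]
  rw [h1] at this
  refine le_trans ?_ this
  have h2 : ∑ t ∈ T, h (gw inv t) = ∑ t ∈ T, h' (gw inv t) := by
    apply Finset.sum_congr rfl
    intro t ht; simp [h', hΓ t ht]
  rw [h2]
  have h3 : ∑ t ∈ T, h' (gw inv t) ≤ ∑ t ∈ T', h' (gw inv t) :=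
    Finset.sum_le_sum_of_subset_of_nonneg hT (fun _ _ _ => hh' _)
  have h4 : 0 ≤ ∑ t ∈ T, h' (gw inv t) := Finset.sum_nonneg (fun _ _ => hh' _)
  exact pow_le_pow_left₀ h4 h3 2

lemma sum_cover {κ : Type*} {T : Finset (Tri β)} (K : Finset κ) (Tk : κ → Finset (Tri β))
    (hT : ∀ t ∈ T, ∃ k ∈ K, t ∈ Tk k) (h : List β → ℝ) (hh : ∀ w, 0 ≤ h w) :
    ∑ t ∈ T, h (gw inv t) ≤ ∑ k ∈ K, ∑ t ∈ (Tk k) ∩ T, h (gw inv t) := by
  have h1 : ∀ k ∈ K, ∑ t ∈ (Tk k) ∩ T, h (gw inv t)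
      = ∑ t ∈ T, if t ∈ Tk k then h (gw inv t) else 0 := by
    intro k _
    rw [← Finset.sum_filter]
    apply Finset.sum_congr _ (fun _ _ => rfl)
    ext t; simp [and_comm]
  rw [Finset.sum_congr rfl h1, Finset.sum_comm]
  apply Finset.sum_le_sum
  intro t ht
  obtain ⟨k, hk, htk⟩ := hT t ht
  have : h (gw inv t) = if t ∈ Tk k then h (gw inv t) else 0 := by simp [htk]
  refine this.le.trans ?_
  exact Finset.single_le_sum (f := fun k => if t ∈ Tk k then h (gw inv t) else 0)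
    (fun k _ => by split_ifs; exacts [hh _, le_rfl]) hk

/-- combination with square roots (keys determined by `s` and by `y`) -/
lemma Bd_keys {κ : Type*} {T : Finset (Tri β)} (K : Finset κ) (Tk : κ → Finset (Tri β))
    (hT : ∀ t ∈ T, ∃ k ∈ K, t ∈ Tk k) (A X Y : ℝ) (x y : κ → ℝ) (hA : 0 ≤ A)
    (hx : ∀ k ∈ K, 0 ≤ x k) (hy : ∀ k ∈ K, 0 ≤ y k) 
    (hb : ∀ k ∈ K, Bd inv (Tk k) (A * (x k * y k)))
    (hX : ∑ k ∈ K, x k ≤ X) (hY : ∑ k ∈ K, y k ≤ Y) : Bd inv T (A * (X * Y)) := by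
  intro Γ h hh hΓ
  have h1 := sum_cover (inv := inv) K Tk hT h hh
  have hAk : ∀ k ∈ K, 0 ≤ A * (x k * y k) := fun k hk => mul_nonneg hA (mul_nonneg (hx k hk) (hy k hk))
  have h2 : ∀ k ∈ K, ∑ t ∈ (Tk k) ∩ T, h (gw inv t)
      ≤ √(A * (x k * y k)) * √(∑ w ∈ Γ, h w ^ 2) := by
    intro k hk
    exact sum_le_of_Bd (hAk k hk) (Bd_subset (hAk k hk) Finset.inter_subset_left (hb k hk)) Γ h hh
      (fun t ht => hΓ t (Finset.mem_of_mem_inter_right ht))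
  have h3 : ∑ t ∈ T, h (gw inv t) ≤ (∑ k ∈ K, √(A * (x k * y k))) * √(∑ w ∈ Γ, h w ^ 2) := by
    rw [Finset.sum_mul]
    exact h1.trans (Finset.sum_le_sum h2)
  have h0 : 0 ≤ ∑ t ∈ T, h (gw inv t) := Finset.sum_nonneg (fun _ _ => hh _)
  have h4 : (∑ t ∈ T, h (gw inv t)) ^ 2
      ≤ ((∑ k ∈ K, √(A * (x k * y k))) * √(∑ w ∈ Γ, h w ^ 2)) ^ 2 := pow_le_pow_left₀ h0 h3 2
  refine h4.trans ?_
  rw [mul_pow, Real.sq_sqrt (Finset.sum_nonneg (fun _ _ => sq_nonneg _))]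
  apply mul_le_mul_of_nonneg_right _ (Finset.sum_nonneg (fun _ _ => sq_nonneg _))
  have h5 : ∑ k ∈ K, √(A * (x k * y k)) = √A * ∑ k ∈ K, √(x k) * √(y k) := by
    rw [Finset.mul_sum]
    apply Finset.sum_congr rfl
    intro k hk
    rw [Real.sqrt_mul hA, Real.sqrt_mul (hx k hk)]
  rw [h5, mul_pow, Real.sq_sqrt hA]
  apply mul_le_mul_of_nonneg_left _ hA
  have h6 := Finset.sum_mul_sq_le_sq_mul_sq K (fun k => √(x k)) (fun k => √(y k))
  have h7 : ∑ k ∈ K, √(x k) ^ 2 = ∑ k ∈ K, x k :=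
    Finset.sum_congr rfl (fun k hk => Real.sq_sqrt (hx k hk))
  have h8 : ∑ k ∈ K, √(y k) ^ 2 = ∑ k ∈ K, y k :=
    Finset.sum_congr rfl (fun k hk => Real.sq_sqrt (hy k hk))
  rw [h7, h8] at h6
  refine h6.trans ?_
  exact mul_le_mul hX hY (Finset.sum_nonneg hy) ((Finset.sum_nonneg hx).trans hX)

/-- combination with bounded multiplicity of the words `g` -/
lemma Bd_mult {κ : Type*} {T : Finset (Tri β)} (K : Finset κ) (Tk : κ → Finset (Tri β))
    (hT : ∀ t ∈ T, ∃ k ∈ K, t ∈ Tk k) (A : κ → ℝ) (m : ℕ) (hA : ∀ k ∈ K, 0 ≤ A k)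
    (hb : ∀ k ∈ K, Bd inv (Tk k) (A k))
    (hm : ∀ w, (K.filter (fun k => ∃ t ∈ Tk k, gw inv t = w)).card ≤ m) :
    Bd inv T (m * ∑ k ∈ K, A k) := by
  intro Γ h hh hΓ
  have h1 := sum_cover (inv := inv) K Tk hT h hh
  set Γk : κ → Finset (List β) := fun k => Γ.filter (fun w => ∃ t ∈ Tk k, gw inv t = w)
  have h2 : ∀ k ∈ K, ∑ t ∈ (Tk k) ∩ T, h (gw inv t)
      ≤ √(A k) * √(∑ w ∈ Γk k, h w ^ 2) := by
    intro k hk
    exact sum_le_of_Bd (hA k hk) (Bd_subset (hA k hk) Finset.inter_subset_left (hb k hk)) (Γk k) h hh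
      (fun t ht => by
        have ht' := Finset.mem_inter.1 ht
        exact Finset.mem_filter.2 ⟨hΓ t ht'.2, t, ht'.1, rfl⟩)
  have h0 : 0 ≤ ∑ t ∈ T, h (gw inv t) := Finset.sum_nonneg (fun _ _ => hh _)
  have h3 : (∑ t ∈ T, h (gw inv t)) ^ 2 ≤ (∑ k ∈ K, √(A k) * √(∑ w ∈ Γk k, h w ^ 2)) ^ 2 :=
    pow_le_pow_left₀ h0 (h1.trans (Finset.sum_le_sum h2)) 2
  refine h3.trans ?_
  have h4 := Finset.sum_mul_sq_le_sq_mul_sq K (fun k => √(A k)) (fun k => √(∑ w ∈ Γk k, h w ^ 2))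
  refine h4.trans ?_
  have h5 : ∑ k ∈ K, √(A k) ^ 2 = ∑ k ∈ K, A k :=
    Finset.sum_congr rfl (fun k hk => Real.sq_sqrt (hA k hk))
  have h6 : ∑ k ∈ K, √(∑ w ∈ Γk k, h w ^ 2) ^ 2 = ∑ k ∈ K, ∑ w ∈ Γk k, h w ^ 2 :=
    Finset.sum_congr rfl (fun k hk => Real.sq_sqrt (Finset.sum_nonneg (fun _ _ => sq_nonneg _)))
  rw [h5, h6]
  have h7 : ∑ k ∈ K, ∑ w ∈ Γk k, h w ^ 2 ≤ m * ∑ w ∈ Γ, h w ^ 2 := by
    simp only [Γk, Finset.sum_filter]
    rw [Finset.sum_comm, Finset.mul_sum]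
    apply Finset.sum_le_sum
    intro w _
    rw [← Finset.sum_filter, Finset.sum_const, nsmul_eq_mul]
    exact mul_le_mul_of_nonneg_right (by exact_mod_cast hm w) (sq_nonneg _)
  calc (∑ k ∈ K, A k) * ∑ k ∈ K, ∑ w ∈ Γk k, h w ^ 2
      ≤ (∑ k ∈ K, A k) * (m * ∑ w ∈ Γ, h w ^ 2) :=
        mul_le_mul_of_nonneg_left h7 (Finset.sum_nonneg hA)
    _ = m * ∑ k ∈ K, A k * (∑ w ∈ Γ, h w ^ 2) := by rw [← Finset.sum_mul]; ring
    _ = _ := by rw [← Finset.sum_mul]; ring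

/-- combination of a bounded number of parts -/
lemma Bd_card {κ : Type*} {T : Finset (Tri β)} (K : Finset κ) (Tk : κ → Finset (Tri β))
    (hT : ∀ t ∈ T, ∃ k ∈ K, t ∈ Tk k) (A : ℝ) (hA : 0 ≤ A)
    (hb : ∀ k ∈ K, Bd inv (Tk k) A) : Bd inv T ((K.card : ℝ) ^ 2 * A) := by
  have := Bd_mult (inv := inv) K Tk hT (fun _ => A) K.card (fun _ _ => hA) hb
    (fun w => Finset.card_filter_le _ _)
  refine Bd_mono ?_ this
  rw [Finset.sum_const, nsmul_eq_mul]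
  apply le_of_eq; ring

lemma Bd_map {T : Finset (Tri β)} {A : ℝ} (φ : Tri β → Tri β)
    (hφ : ∀ t ∈ T, ∀ t' ∈ T, φ t = φ t' → t = t') (hg : ∀ t ∈ T, gw inv (φ t) = gw inv t)
    (hb : Bd inv (T.image φ) A) : Bd inv T A := by
  intro Γ h hh hΓ
  have := hb Γ h hh (by
    intro t ht
    obtain ⟨t', ht', rfl⟩ := Finset.mem_image.1 ht
    rw [hg t' ht']; exact hΓ t' ht')
  rw [Finset.sum_image (fun t ht t' ht' => hφ t ht t' ht')] at this
  rwa [Finset.sum_congr rfl (fun t ht => by rw [hg t ht])] at this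

/-- inverse of a word -/
def invL (inv : β → β) (w : List β) : List β := (w.map inv).reverse

lemma invL_invL (hinv : ∀ b, inv (inv b) = b) (w : List β) : invL inv (invL inv w) = w := by
  simp [invL, List.map_reverse, Function.comp_def, hinv]

lemma invL_append (a b : List β) : invL inv (a ++ b) = invL inv b ++ invL inv a := by
  simp [invL]

/-- swap of a triple -/
def swap3 (t : Tri β) : Tri β := (t.2.2, t.2.1, t.1)

lemma swap3_swap3 (t : Tri β) : swap3 (swap3 t) = t := rfl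

lemma gw_inv_eq (t : Tri β) : gw inv t = t.1 ++ invL inv t.2.2 := rfl

lemma gw_swap3 (hinv : ∀ b, inv (inv b) = b) (t : Tri β) :
    gw inv (swap3 t) = invL inv (gw inv t) := by
  simp only [gw_inv_eq, swap3, invL_append, invL_invL hinv]

lemma Bd_swap (hinv : ∀ b, inv (inv b) = b) {T : Finset (Tri β)} {A : ℝ}
    (hb : Bd inv (T.image swap3) A) : Bd inv T A := by
  intro Γ h hh hΓ
  have := hb (Γ.image (invL inv)) (fun w => h (invL inv w)) (fun w => hh _) (by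
    intro t ht
    obtain ⟨t', ht', rfl⟩ := Finset.mem_image.1 ht
    rw [gw_swap3 hinv]
    exact Finset.mem_image_of_mem _ (hΓ t' ht'))
  rw [Finset.sum_image (fun t _ t' _ h => by
    have := congrArg swap3 h; simpa [swap3_swap3] using this)] at this
  rw [Finset.sum_image (fun w _ w' _ h => by
    have := congrArg (invL inv) h; simpa only [invL_invL hinv] using this)] at this
  simp only [gw_swap3 hinv, invL_invL hinv] at this
  exact this

/-- the energy itself -/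
lemma energy_le_of_Bd {T : Finset (Tri β)} {A : ℝ} (hb : Bd inv T A) (Γ : Finset (List β))
    (hΓ : ∀ t ∈ T, gw inv t ∈ Γ) :
    ∑ w ∈ Γ, ((T.filter (fun t => gw inv t = w)).card : ℝ) ^ 2 ≤ A := by
  set n : List β → ℝ := fun w => ((T.filter (fun t => gw inv t = w)).card : ℝ)
  have h1 := hb Γ n (fun w => Nat.cast_nonneg _) hΓ
  have h2 : ∑ t ∈ T, n (gw inv t) = ∑ w ∈ Γ, n w ^ 2 := by
    rw [← Finset.sum_fiberwise_of_maps_to (s := T) (t := Γ) (g := gw inv) hΓ]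
    apply Finset.sum_congr rfl
    intro w _
    rw [Finset.sum_congr rfl (fun t ht => by rw [(Finset.mem_filter.1 ht).2]), Finset.sum_const,
      nsmul_eq_mul]
    simp only [n]; ring
  rw [h2] at h1
  have h3 : 0 ≤ ∑ w ∈ Γ, n w ^ 2 := Finset.sum_nonneg (fun _ _ => sq_nonneg _)
  rcases h3.eq_or_lt with h4 | h4
  · -- all n = 0
    change ∑ w ∈ Γ, n w ^ 2 ≤ A
    rw [← h4]
    -- need `0 ≤ A`
    have h5 := hb {([] : List β)} (fun w => if w = [] then 1 else 0)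
      (fun w => by split_ifs <;> norm_num)
    by_cases hT : T = ∅
    · subst hT
      have := h5 (by simp)
      simp at this
      exact this
    · exfalso
      obtain ⟨t, ht⟩ := Finset.nonempty_of_ne_empty hT
      have h6 : 0 < n (gw inv t) := by
        simp only [n]
        have : 0 < (T.filter (fun t' => gw inv t' = gw inv t)).card :=
          Finset.card_pos.2 ⟨t, Finset.mem_filter.2 ⟨ht, rfl⟩⟩
        exact_mod_cast this
      have h7 : n (gw inv t) ^ 2 ≤ ∑ w ∈ Γ, n w ^ 2 :=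
        Finset.single_le_sum (f := fun w => n w ^ 2) (fun _ _ => sq_nonneg _) (hΓ t ht)
      have h8 : 0 < n (gw inv t) ^ 2 := by positivity
      linarith
  · have : (∑ w ∈ Γ, n w ^ 2) * (∑ w ∈ Γ, n w ^ 2) ≤ A * ∑ w ∈ Γ, n w ^ 2 := by
      rw [← sq]; exact h1
    exact le_of_mul_le_mul_right this h4

end RDCE
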