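import Mathlib

/-!
# Definitions for the counterexample (MP_37447d_al, negative answer)

Words are lists over a letter type `β`.  `lev b = some k` means that the letter `b` belongs to the
language under consideration and has level `k`; `lev b = none` means foreign letter.
-/

open Finset Classical

namespace RDCE

variable {β : Type}

/-- number of words of `S` with prefix `p` -/
noncomputable def sz (S : Finset (List β)) (p : List β) : ℕ :=
  (S.filter (fun s => p <+: s)).card

/-- all prefixes of words of `S` -/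
noncomputable def prefs (S : Finset (List β)) : Finset (List β) :=
  S.biUnion (fun s => s.inits.toFinset)

/-- all suffixes of words of `S` -/
noncomputable def sufs (S : Finset (List β)) : Finset (List β) :=
  S.biUnion (fun s => s.tails.toFinset)

/-- `b` is an own letter of level `< l` -/
def low (lev : β → Option ℕ) (l : ℕ) (b : β) : Bool :=
  match lev b with
  | some k => decide (k < l)
  | none => false

/-- `b` is an own letter of level `≥ l` -/
def mark (lev : β → Option ℕ) (l : ℕ) (b : β) : Prop := ∃ k, lev b = some k ∧ l ≤ k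

/-- left half block of level `l` at the cut `(p,q)`: the longest suffix of `p` consisting of own
letters of level `< l` -/
abbrev lh (lev : β → Option ℕ) (l : ℕ) (p : List β) : List β := p.rtakeWhile (low lev l)

/-- what is left of `p` when the left half block is removed -/
abbrev ld (lev : β → Option ℕ) (l : ℕ) (p : List β) : List β := p.rdropWhile (low lev l)

/-- right half block of level `l` at the cut `(p,q)` -/
abbrev rh (lev : β → Option ℕ) (l : ℕ) (q : List β) : List β := q.takeWhile (low lev l)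

/-- The combinatorial data of one language (all that the upper bound uses). -/
structure Sys (β : Type) where
  lev : β → Option ℕ
  H : ℕ
  M : ℕ
  Λ : ℕ
  δ : ℝ
  mem : List β → Prop
  ok : ℕ → List β → List β → Prop
  H_pos : 0 < H
  δ_pos : 0 < δ
  δ_le : δ ≤ 1
  δ_sq : δ ^ 2 * (M + 1) ≤ 1
  mem_prefix : ∀ {a b : List β}, mem (a ++ b) → mem a
  mem_suffix : ∀ {a b : List β}, mem (a ++ b) → mem b
  mem_nodup : ∀ {a : List β}, mem a → a.Nodup
  mem_lev : ∀ {a : List β}, mem a → ∀ b ∈ a, ∃ k, k < H ∧ lev b = some k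
  mem_count : ∀ {a : List β}, mem a → ∀ j, (∀ b ∈ a, ∃ k, k ≤ j ∧ lev b = some k) →
    a.countP (fun b => decide (lev b = some j)) ≤ M
  mem_ok : ∀ l, 1 ≤ l → l < H → ∀ (p₀ : List β) (z : β) (u v : List β) (z' : β) (q₀ : List β),
    mem (z :: (u ++ v ++ [z'])) → (∀ b ∈ u ++ v, low lev l b = true) →
    mark lev l z → mark lev l z' → ok l (p₀ ++ z :: u) (v ++ z' :: q₀)
  /-- iterated mixing property at the levels `j₀ < l ≤ j₁` -/
  pr : ∀ j₀ j₁ : ℕ, j₀ < j₁ → j₁ < H → ∀ (U V : Finset (List β)) (f g : List β → ℕ) (F G : ℕ),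
    (∀ u, ∑ p ∈ U.filter (fun p => lh lev (j₀ + 1) p = u), f p ≤ F) →
    (∀ v, ∑ q ∈ V.filter (fun q => rh lev (j₀ + 1) q = v), g q ≤ G) →
    (∑ p ∈ U, ∑ q ∈ V,
        if (∀ l, j₀ < l → l ≤ j₁ → ok l p q) then ((f p : ℝ) * (g q : ℝ)) else 0)
      ≤ δ ^ (j₁ - j₀) * (∑ p ∈ U, (f p : ℝ)) * (∑ q ∈ V, (g q : ℝ))
        + H * Λ * ((∑ p ∈ U, (f p : ℝ)) * G + (∑ q ∈ V, (g q : ℝ)) * F)

/-! ### types of cuts -/

section types
variable (𝔖 : Sys β)

/-- the level `l` block containing the cut has a left marker (to the right of position `ν`) -/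
def leftdef (ν l : ℕ) (p : List β) : Prop :=
  ν ≤ (ld 𝔖.lev l p).length ∧ ∃ p₀ z, ld 𝔖.lev l p = p₀ ++ [z] ∧ mark 𝔖.lev l z

def rightdef (l : ℕ) (q : List β) : Prop :=
  ∃ z q₀, q.dropWhile (low 𝔖.lev l) = z :: q₀ ∧ mark 𝔖.lev l z

/-- the level `l` block at the cut `(p,q)` is complete and valid -/
def valid (ν l : ℕ) (p q : List β) : Prop :=
  leftdef 𝔖 ν l p ∧ rightdef 𝔖 l q ∧
  (lh 𝔖.lev l p ++ rh 𝔖.lev l q).countP (fun b => decide (𝔖.lev b = some (l - 1))) ≤ 𝔖.M ∧
  𝔖.ok l p q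

/-- low branching of the prefix tree of `S` on the right or left half block of level `l` -/
def poor (S : Finset (List β)) (K l : ℕ) (p q : List β) : Prop :=
  sz S p ≤ K * sz S (p ++ rh 𝔖.lev l q) ∨ sz S (ld 𝔖.lev l p) ≤ K * sz S p

/-- type `(j₀, j₁)` of a cut: blocks of level `≤ j₁` valid, level `j₁+1` not; poor at `j₀`,
rich above. -/
def IsType (S : Finset (List β)) (ν K j₀ j₁ : ℕ) (p q : List β) : Prop :=
  j₀ ≤ j₁ ∧ j₁ < 𝔖.H ∧ (∀ l, 1 ≤ l → l ≤ j₁ → valid 𝔖 ν l p q) ∧
  (j₁ + 1 < 𝔖.H → ¬ valid 𝔖 ν (j₁ + 1) p q) ∧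
  (j₀ = 0 ∨ poor 𝔖 S K j₀ p q) ∧ (∀ l, j₀ < l → l ≤ j₁ → ¬ poor 𝔖 S K l p q)

end types

/-- number of rectangles `(p,p',q,q')` in `S`, branching exactly at the cut, with `q,q'` in the
language and `|p|,|p'| ≥ ν` -/
noncomputable def rect (mem : List β → Prop) (S : Finset (List β)) (ν : ℕ) : ℕ :=
  ∑ q ∈ (sufs S).filter mem, ∑ q' ∈ (sufs S).filter mem,
    if q.head? ≠ q'.head? then
      ((prefs S).filter (fun p => ν ≤ p.length ∧ p ++ q ∈ S ∧ p ++ q' ∈ S)).card ^ 2 else 0

end RDCE
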