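import Mathlib

/-! # Definitions: length functions, property RD, indicator condition
(the same as in `Pool.Agent.Results.MP_37447d_al.LogPolyGrowth`) -/

namespace RDCE.RD

universe u

variable {G : Type u} [Group G]

/-- `L` is a length function on the group `G`. -/
structure IsLengthFunction (L : G → ℝ) : Prop where
  nonneg : ∀ g, 0 ≤ L g
  map_one : L 1 = 0
  map_inv : ∀ g, L g⁻¹ = L g
  map_mul_le : ∀ g h, L (g * h) ≤ L g + L h

/-- The ball `B(r)` of the length function `L`. -/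
def ball (L : G → ℝ) (r : ℝ) : Set G := {g | L g ≤ r}

/-- The convolution `(φ * ψ)(g) = ∑ h, φ(h) ψ(h⁻¹ g)`. -/
noncomputable def conv (φ ψ : G → ℂ) : G → ℂ := fun g => ∑' h, φ h * ψ (h⁻¹ * g)

/-- `f` is square summable, i.e. `f ∈ ℓ²(G)`. -/
def SqSummable (f : G → ℂ) : Prop := Summable fun g => ‖f g‖ ^ 2

/-- The square of the `ℓ²(G)` norm of `f`. -/
noncomputable def normSq (f : G → ℂ) : ℝ := ∑' g, ‖f g‖ ^ 2

/-- Property RD of `(G, L)`. -/
def PropertyRD (L : G → ℝ) : Prop :=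
  ∃ P : Polynomial ℝ, ∀ r : ℝ, 0 < r → ∀ φ ψ : G → ℂ,
    (∀ g, φ g ≠ 0 → g ∈ ball L r) → SqSummable φ → SqSummable ψ →
      SqSummable (conv φ ψ) ∧ normSq (conv φ ψ) ≤ P.eval r * normSq φ * normSq ψ

/-- The inequality of property RD for finitely supported functions (weaker than, in fact
equivalent to, property RD). -/
def PropertyRDfin (L : G → ℝ) : Prop :=
  ∃ P : Polynomial ℝ, ∀ r : ℝ, 0 < r → ∀ φ ψ : G → ℂ, φ.support.Finite → ψ.support.Finite →
    (∀ g, φ g ≠ 0 → g ∈ ball L r) → normSq (conv φ ψ) ≤ P.eval r * normSq φ * normSq ψ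

/-- The indicator condition for `(G, L)`. -/
def IndicatorCondition (L : G → ℝ) : Prop :=
  ∃ P : Polynomial ℝ, ∀ r : ℝ, 0 < r → ∀ S X : Finset G, (S : Set G) ⊆ ball L r →
    normSq (conv ((S : Set G).indicator 1) ((X : Set G).indicator 1))
      ≤ P.eval r * (S.card : ℝ) * (X.card : ℝ)

end RDCE.RD
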