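import Pool.Agent.H23.CE.Ball
import Pool.Agent.H23.CE.RDDefs

/-! # From words to the free group -/

open Finset Classical

namespace RDCE

variable {α 𝒞 : Type}

/-- inverse letter -/
def finv (b : α × Bool) : α × Bool := (b.1, !b.2)

lemma finv_finv (b : α × Bool) : finv (finv b) = b := by
  rcases b with ⟨a, s⟩; simp [finv]

/-- cost of a word: least total weight of a decomposition into words of the languages -/
noncomputable def cost (F : Fam (α × Bool) 𝒞) (wtc : 𝒞 → ℕ) (w : List (α × Bool)) : ℕ :=
  sInf {k | ∃ l : List (𝒞 × List (α × Bool)), (∀ x ∈ l, (F.sys x.1).mem x.2) ∧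
    (l.map Prod.snd).flatten = w ∧ (l.map (fun x => wtc x.1)).sum = k}

/-- the length function -/
noncomputable def LF (F : Fam (α × Bool) 𝒞) (wtc : 𝒞 → ℕ) (g : FreeGroup α) : ℝ :=
  cost F wtc g.toWord

/-! ### cost -/

lemma cost_exists (F : Fam (α × Bool) 𝒞) (wtc : 𝒞 → ℕ) (w : List (α × Bool)) :
    ∃ l : List (𝒞 × List (α × Bool)), (∀ x ∈ l, (F.sys x.1).mem x.2) ∧
      (l.map Prod.snd).flatten = w ∧ (l.map (fun x => wtc x.1)).sum = cost F wtc w := by
  have hne : {k | ∃ l : List (𝒞 × List (α × Bool)), (∀ x ∈ l, (F.sys x.1).mem x.2) ∧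
    (l.map Prod.snd).flatten = w ∧ (l.map (fun x => wtc x.1)).sum = k}.Nonempty := by
    refine ⟨_, w.map (fun b => (F.cls b, [b])), ?_, ?_, rfl⟩
    · intro x hx
      obtain ⟨b, -, rfl⟩ := List.mem_map.1 hx
      exact F.sing b
    · rw [List.map_map]
      induction w with
      | nil => rfl
      | cons b w ih => simp only [List.map_cons, List.flatten_cons, ih]; rfl
  exact Nat.sInf_mem hne

lemma cost_le (F : Fam (α × Bool) 𝒞) (wtc : 𝒞 → ℕ) {w : List (α × Bool)}
    (l : List (𝒞 × List (α × Bool))) (h1 : ∀ x ∈ l, (F.sys x.1).mem x.2)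
    (h2 : (l.map Prod.snd).flatten = w) : cost F wtc w ≤ (l.map (fun x => wtc x.1)).sum :=
  Nat.sInf_le ⟨l, h1, h2, rfl⟩

lemma cost_nil (F : Fam (α × Bool) 𝒞) (wtc : 𝒞 → ℕ) : cost F wtc [] = 0 := by
  have := cost_le F wtc (w := []) [] (by simp) rfl
  simpa using this

lemma cost_append_le (F : Fam (α × Bool) 𝒞) (wtc : 𝒞 → ℕ) (a b : List (α × Bool)) :
    cost F wtc (a ++ b) ≤ cost F wtc a + cost F wtc b := by
  obtain ⟨l, h1, h2, h3⟩ := cost_exists F wtc a
  obtain ⟨l', h1', h2', h3'⟩ := cost_exists F wtc b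
  rw [← h3, ← h3', ← List.sum_append, ← List.map_append]
  apply cost_le
  · intro x hx
    rcases List.mem_append.1 hx with h | h
    exacts [h1 x h, h1' x h]
  · rw [List.map_append, List.flatten_append, h2, h2']

lemma cost_prefix_le (F : Fam (α × Bool) 𝒞) (wtc : 𝒞 → ℕ) (a b : List (α × Bool)) :
    cost F wtc a ≤ cost F wtc (a ++ b) := by
  obtain ⟨l, h1, h2, h3⟩ := cost_exists F wtc (a ++ b)
  rw [← h3]
  clear h3
  induction l generalizing a with
  | nil =>
    have h4 : a ++ b = [] := by simpa using h2.symm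
    rw [(List.append_eq_nil_iff.1 h4).1, cost_nil]
    exact Nat.zero_le _
  | cons x l ih =>
    rw [List.map_cons, List.flatten_cons] at h2
    rw [List.map_cons, List.sum_cons]
    rcases List.append_eq_append_iff.1 h2 with ⟨e, he1, he2⟩ | ⟨e, he1, he2⟩
    · -- a = x.2 ++ e
      have h4 := ih e (fun y hy => h1 y (List.mem_cons_of_mem _ hy)) he2
      have h5 : cost F wtc x.2 ≤ wtc x.1 := by
        have := cost_le F wtc (w := x.2) [x] (by
          intro y hy
          rw [List.mem_singleton] at hy
          subst hy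
          exact h1 _ List.mem_cons_self) (by simp)
        simpa using this
      rw [he1]
      exact (cost_append_le F wtc _ _).trans (Nat.add_le_add h5 h4)
    · -- x.2 = a ++ e
      have h5 : cost F wtc a ≤ wtc x.1 := by
        have := cost_le F wtc (w := a) [(x.1, a)] (by
          intro y hy
          rw [List.mem_singleton] at hy
          subst hy
          have h6 := h1 x List.mem_cons_self
          rw [he1] at h6
          exact (F.sys x.1).mem_prefix h6) (by simp)
        simpa using this
      exact h5.trans (Nat.le_add_right _ _)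

lemma invL_finv_invL (w : List (α × Bool)) : invL finv (invL finv w) = w :=
  invL_invL finv_finv w

lemma flatten_invL (l : List (List (α × Bool))) :
    ((l.map (invL finv)).reverse).flatten = invL finv l.flatten := by
  induction l with
  | nil => rfl
  | cons a l ih =>
    rw [List.map_cons, List.reverse_cons, List.flatten_append, ih]
    simp only [List.flatten_cons, List.flatten_nil, List.append_nil, invL_append]

lemma cost_invL_le (F : Fam (α × Bool) 𝒞) (wtc : 𝒞 → ℕ)
    (hinv : ∀ c w, (F.sys c).mem w → ∃ c', wtc c' = wtc c ∧ (F.sys c').mem (invL finv w))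
    (w : List (α × Bool)) : cost F wtc (invL finv w) ≤ cost F wtc w := by
  obtain ⟨l, h1, h2, h3⟩ := cost_exists F wtc w
  rw [← h3]
  choose! c' hc' hc'' using hinv
  have := cost_le F wtc (w := invL finv w) (l.map (fun x => (c' x.1 x.2, invL finv x.2))).reverse
    (by
      intro y hy
      rw [List.mem_reverse, List.mem_map] at hy
      obtain ⟨x, hx, rfl⟩ := hy
      exact hc'' _ _ (h1 x hx))
    (by
      rw [← h2, ← flatten_invL, List.map_reverse, List.map_map, List.map_map]
      rfl)
  refine this.trans (le_of_eq ?_)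
  rw [List.map_reverse, List.sum_reverse, List.map_map]
  congr 1
  apply List.map_congr_left
  intro x hx
  exact hc' _ _ (h1 x hx)

lemma cost_invL (F : Fam (α × Bool) 𝒞) (wtc : 𝒞 → ℕ)
    (hinv : ∀ c w, (F.sys c).mem w → ∃ c', wtc c' = wtc c ∧ (F.sys c').mem (invL finv w))
    (w : List (α × Bool)) : cost F wtc (invL finv w) = cost F wtc w := by
  apply le_antisymm (cost_invL_le F wtc hinv w)
  have := cost_invL_le F wtc hinv (invL finv w)
  rwa [invL_finv_invL] at this

/-! ### words and products -/

/-- longest common suffix -/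
lemma exists_lcs {β : Type} (a b : List β) : ∃ p r q, a = p ++ q ∧ b = r ++ q ∧
    ((p = [] ∧ r = []) ∨ p.getLast? ≠ r.getLast?) := by
  induction a using List.reverseRecOn generalizing b with
  | nil =>
    rcases List.eq_nil_or_concat b with rfl | ⟨b', y, rfl⟩
    · exact ⟨[], [], [], rfl, rfl, Or.inl ⟨rfl, rfl⟩⟩
    · refine ⟨[], b' ++ [y], [], rfl, by simp, Or.inr ?_⟩
      simp
  | append_singleton a x ih =>
    rcases List.eq_nil_or_concat b with rfl | ⟨b', y, rfl⟩
    · refine ⟨a ++ [x], [], [], by simp, rfl, Or.inr ?_⟩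
      simp
    · by_cases hxy : x = y
      · subst hxy
        obtain ⟨p, r, q, h1, h2, h3⟩ := ih b'
        refine ⟨p, r, q ++ [x], ?_, ?_, h3⟩
        · rw [h1]; simp
        · rw [h2]; simp
      · refine ⟨a ++ [x], b' ++ [y], [], by simp, by simp, Or.inr ?_⟩
        simpa using hxy

lemma toWord_inv' (g : FreeGroup α) : g⁻¹.toWord = invL finv g.toWord := by
  rw [FreeGroup.toWord_inv]; rfl

/-- reduced words: `toWord` is reduced in the sense of `Red` -/
theorem red_toWord (g : FreeGroup α) : Red finv g.toWord := by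
  have h : FreeGroup.IsReduced g.toWord := FreeGroup.isReduced_toWord
  unfold Red
  unfold FreeGroup.IsReduced at h
  refine h.imp ?_
  intro a b hab he
  rw [he] at hab
  simp [finv] at hab

lemma isReduced_of_red {w : List (α × Bool)} (h : Red finv w) : FreeGroup.IsReduced w := by
  unfold Red at h
  unfold FreeGroup.IsReduced
  refine h.imp ?_
  intro a b hab he
  by_contra hne
  apply hab
  rcases a with ⟨a, s⟩
  rcases b with ⟨b, t⟩
  simp only at he hne
  subst he
  simp only [finv, Prod.mk.injEq, true_and]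
  cases s <;> cases t <;> simp_all

lemma red_invL {w : List (α × Bool)} (h : Red finv w) : Red finv (invL finv w) := by
  unfold Red invL at *
  rw [List.isChain_reverse, List.isChain_map]
  refine h.imp ?_
  intro a b hab he
  apply hab
  have := congrArg finv he
  rw [finv_finv, finv_finv] at this
  rw [this, finv_finv]

lemma red_append {p r : List (α × Bool)} (hp : Red finv p) (hr : Red finv r)
    (h : p.getLast? ≠ r.getLast?) : Red finv (p ++ invL finv r) := by
  have hr' := red_invL hr
  unfold Red at *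
  rw [List.isChain_append]
  refine ⟨hp, hr', ?_⟩
  intro x hx y hy he
  apply h
  have h1 : p.getLast? = some x := hx
  have h2 : (invL finv r).head? = some y := hy
  rw [h1]
  unfold invL at h2
  rw [List.head?_reverse, List.getLast?_map] at h2
  rcases hrl : r.getLast? with _ | z
  · rw [hrl] at h2; simp at h2
  · rw [hrl] at h2
    simp only [Option.map_some, Option.some.injEq] at h2
    rw [he] at h2
    have := congrArg finv h2
    rw [finv_finv, finv_finv] at this
    rw [this]

lemma red_prefix {p q : List (α × Bool)} (h : Red finv (p ++ q)) : Red finv p := by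
  unfold Red at *
  exact (List.isChain_append.1 h).1

/-- the word of a product -/
lemma toWord_mul_of {g h : FreeGroup α} {p q r : List (α × Bool)} (hg : g.toWord = p ++ q)
    (hh : h⁻¹.toWord = r ++ q) (hl : p.getLast? ≠ r.getLast?) :
    (g * h).toWord = p ++ invL finv r := by
  have h1 : h.toWord = invL finv q ++ invL finv r := by
    have : h = h⁻¹⁻¹ := (inv_inv h).symm
    rw [this, toWord_inv', hh, invL_append]
  have h2 : g * h = FreeGroup.mk (p ++ invL finv r) := by
    have e1 : g = FreeGroup.mk (p ++ q) := by rw [← hg, FreeGroup.mk_toWord]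
    have e2 : h = FreeGroup.mk (invL finv q ++ invL finv r) := by
      rw [← h1, FreeGroup.mk_toWord]
    rw [e1, e2, ← FreeGroup.mul_mk, ← FreeGroup.mul_mk, ← FreeGroup.mul_mk]
    have e3 : FreeGroup.mk (invL finv q) = (FreeGroup.mk q)⁻¹ := by
      rw [FreeGroup.inv_mk]; rfl
    rw [e3]; group
  rw [h2, FreeGroup.toWord_mk]
  apply FreeGroup.IsReduced.reduce_eq
  apply isReduced_of_red
  apply red_append _ _ hl
  · exact red_prefix (hg ▸ red_toWord g)
  · exact red_prefix (hh ▸ red_toWord h⁻¹)

/-- (A) `LF` is a length function.  Subadditivity: if `g.toWord = p ++ q`, `h⁻¹.toWord = r ++ q`, `q` the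
longest common suffix, then `(g * h).toWord = p ++ r⁻¹` and the languages are closed under
prefixes and suffixes. -/
theorem LF_isLengthFunction (F : Fam (α × Bool) 𝒞) (_hF : F.inv = finv) (wtc : 𝒞 → ℕ)
    (hinv : ∀ c w, (F.sys c).mem w → ∃ c', wtc c' = wtc c ∧ (F.sys c').mem (invL finv w)) :
    RD.IsLengthFunction (LF F wtc) where
  nonneg g := Nat.cast_nonneg _
  map_one := by
    unfold LF
    rw [FreeGroup.toWord_one, cost_nil, Nat.cast_zero]
  map_inv g := by
    unfold LF
    rw [toWord_inv', cost_invL F wtc hinv]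
  map_mul_le g h := by
    unfold LF
    rw [← Nat.cast_add, Nat.cast_le]
    obtain ⟨p, r, q, h1, h2, h3⟩ := exists_lcs g.toWord h⁻¹.toWord
    rcases h3 with ⟨rfl, rfl⟩ | h3
    · have h4 : g.toWord = h⁻¹.toWord := by rw [h1, h2]
      have h5 : g = h⁻¹ := FreeGroup.toWord_injective h4
      rw [h5, inv_mul_cancel, FreeGroup.toWord_one, cost_nil]
      exact Nat.zero_le _
    · rw [toWord_mul_of h1 h2 h3]
      refine (cost_append_le F wtc _ _).trans ?_
      apply Nat.add_le_add
      · rw [h1]; exact cost_prefix_le F wtc _ _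
      · rw [cost_invL F wtc hinv]
        have h6 : cost F wtc h.toWord = cost F wtc h⁻¹.toWord := by
          rw [toWord_inv', cost_invL F wtc hinv]
        rw [h6, h2]
        exact cost_prefix_le F wtc _ _

/-- (B) -/
theorem dec_of_cost_le [Nonempty 𝒞] (F : Fam (α × Bool) 𝒞) (wtc : 𝒞 → ℕ) (hw : ∀ c, 1 ≤ wtc c)
    {w : List (α × Bool)} {ρ : ℕ} (h : cost F wtc w ≤ ρ) :
    Dec F.pie ρ w ∧ ∀ b ∈ w, wtc (F.cls b) ≤ ρ := by
  obtain ⟨l, h1, h2, h3⟩ := cost_exists F wtc w
  rw [← h3] at h
  constructor
  · apply dec_mono F.pieOK (k := l.length)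
    · refine le_trans ?_ h
      clear h1 h2 h3 h
      induction l with
      | nil => simp
      | cons x l ih =>
        rw [List.length_cons, List.map_cons, List.sum_cons]
        have := hw x.1
        omega
    · rw [← h2]
      clear h2 h3 h
      induction l with
      | nil => exact rfl
      | cons x l ih =>
        refine ⟨x.2, (l.map Prod.snd).flatten, by simp, ⟨x.1, h1 x List.mem_cons_self⟩, ?_⟩
        exact ih (fun y hy => h1 y (List.mem_cons_of_mem _ hy))
  · intro b hb
    rw [← h2, List.mem_flatten] at hb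
    obtain ⟨v, hv, hbv⟩ := hb
    obtain ⟨x, hx, rfl⟩ := List.mem_map.1 hv
    have h4 : F.cls b = x.1 := F.mem_cls x.1 x.2 (h1 x hx) b hbv
    rw [h4]
    refine le_trans ?_ h
    exact List.single_le_sum (by simp) _ (List.mem_map.2 ⟨x, hx, rfl⟩)

/-- a word of one language costs at most its weight -/
theorem cost_le_of_mem (F : Fam (α × Bool) 𝒞) (wtc : 𝒞 → ℕ) {c : 𝒞} {w : List (α × Bool)}
    (h : (F.sys c).mem w) : cost F wtc w ≤ wtc c := by
  have := cost_le F wtc (w := w) [(c, w)] (by
    intro y hy
    rw [List.mem_singleton] at hy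
    subst hy
    exact h) (by simp)
  simpa using this

/-! ### convolutions -/

lemma norm_ind_conv {G : Type} [Group G] (S X : Finset G) (g : G) :
    RD.conv ((S : Set G).indicator 1) ((X : Set G).indicator 1) g
      = (((S ×ˢ X).filter (fun u => u.1 * u.2 = g)).card : ℂ) := by
  unfold RD.conv
  rw [tsum_eq_sum (s := S)]
  · rw [Finset.card_eq_sum_card_fiberwise (f := Prod.fst) (t := S)]
    · push_cast
      apply Finset.sum_congr rfl
      intro s hs
      rw [Set.indicator_of_mem (Finset.mem_coe.2 hs), Pi.one_apply, one_mul]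
      by_cases hx : s⁻¹ * g ∈ X
      · rw [Set.indicator_of_mem (Finset.mem_coe.2 hx), Pi.one_apply]
        have : ((S ×ˢ X).filter (fun u => u.1 * u.2 = g)).filter (fun u => u.1 = s)
            = {(s, s⁻¹ * g)} := by
          ext ⟨a, b⟩
          simp only [Finset.mem_filter, Finset.mem_product, Finset.mem_singleton, Prod.mk.injEq]
          constructor
          · rintro ⟨⟨-, rfl⟩, rfl⟩
            exact ⟨rfl, by group⟩
          · rintro ⟨rfl, rfl⟩
            exact ⟨⟨⟨hs, hx⟩, by group⟩, rfl⟩
        rw [this]; simp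
      · rw [Set.indicator_of_notMem (fun h => hx (Finset.mem_coe.1 h))]
        have : ((S ×ˢ X).filter (fun u => u.1 * u.2 = g)).filter (fun u => u.1 = s) = ∅ := by
          rw [Finset.filter_eq_empty_iff]
          rintro ⟨a, b⟩ hab rfl
          simp only [Finset.mem_filter, Finset.mem_product] at hab
          apply hx
          rw [← hab.2]
          simpa using hab.1.2
        rw [this]; simp
    · intro u hu
      exact (Finset.mem_product.1 (Finset.mem_filter.1 hu).1).1
  · intro s hs
    rw [Set.indicator_of_notMem (fun h => hs (Finset.mem_coe.1 h)), zero_mul]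

/-- (C) the squared norm of `1_S * 1_X` from the energy bound for the triples (see
`energy_le_of_Bd` in Bd.lean): `(s,x)` with `s x ≠ 1` corresponds to the triple `(p,q,r)` with
`s.toWord = p ++ q`, `x⁻¹.toWord = r ++ q` and `(s * x).toWord = p ++ r⁻¹ = gw finv (p,q,r)`.
The identity element contributes at most `|S| |X|`. -/
theorem normSq_conv_le (S X : Finset (FreeGroup α)) (A : ℝ)
    (hb : Bd finv (Tr (S.image FreeGroup.toWord) (X.image (fun x => x⁻¹.toWord))) A) :
    RD.normSq (RD.conv ((S : Set (FreeGroup α)).indicator 1)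
      ((X : Set (FreeGroup α)).indicator 1)) ≤ A + (S.card : ℝ) * (X.card : ℝ) := by
  set T := Tr (S.image FreeGroup.toWord) (X.image (fun x => x⁻¹.toWord)) with hT
  set n : FreeGroup α → ℕ := fun g => ((S ×ˢ X).filter (fun u => u.1 * u.2 = g)).card with hn
  set P : Finset (FreeGroup α) := (S ×ˢ X).image (fun u => u.1 * u.2) with hP
  have h0 : ∀ g, g ∉ P → n g = 0 := by
    intro g hg
    rw [hn]
    simp only
    rw [Finset.card_eq_zero, Finset.filter_eq_empty_iff]
    intro u hu he
    exact hg (Finset.mem_image.2 ⟨u, hu, he⟩)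
  have h1 : RD.normSq (RD.conv ((S : Set (FreeGroup α)).indicator 1)
      ((X : Set (FreeGroup α)).indicator 1)) = ∑ g ∈ P, (n g : ℝ) ^ 2 := by
    have e : ∀ g, RD.conv ((S : Set (FreeGroup α)).indicator 1)
      ((X : Set (FreeGroup α)).indicator 1) g = ((n g : ℕ) : ℂ) := by
      intro g
      rw [norm_ind_conv]
      simp only [hn]
      congr!
    unfold RD.normSq
    rw [tsum_eq_sum (s := P)]
    · apply Finset.sum_congr rfl
      intro g _
      rw [e, Complex.norm_natCast]
    · intro g hg
      rw [e, h0 g hg]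
      simp
  rw [h1]
  have h2 : ∑ g ∈ P, (n g : ℝ) ^ 2 ≤ ∑ g ∈ P.erase 1, (n g : ℝ) ^ 2 + (n 1 : ℝ) ^ 2 := by
    by_cases h : (1 : FreeGroup α) ∈ P
    · rw [Finset.sum_erase_add _ _ h]
    · rw [Finset.erase_eq_of_notMem h]
      have := sq_nonneg (n 1 : ℝ)
      linarith
  refine h2.trans (add_le_add ?_ ?_)
  · -- elements different from 1
    set Γ : Finset (List (α × Bool)) := T.image (gw finv) with hΓ
    have h3 : ∀ g ∈ P.erase 1, n g ≤ (T.filter (fun t => gw finv t = g.toWord)).card := by
      intro g hg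
      have hg1 := Finset.ne_of_mem_erase hg
      have hex : ∀ u ∈ (S ×ˢ X).filter (fun u => u.1 * u.2 = g), ∃ t ∈ T.filter
          (fun t => gw finv t = g.toWord), t.1 ++ t.2.1 = u.1.toWord ∧
            t.2.2 ++ t.2.1 = u.2⁻¹.toWord := by
        rintro ⟨s, x⟩ hu
        obtain ⟨hu1, hu2⟩ := Finset.mem_filter.1 hu
        obtain ⟨hs, hx⟩ := Finset.mem_product.1 hu1
        simp only at hu2 hs hx ⊢
        obtain ⟨p, r, q, e1, e2, e3⟩ := exists_lcs s.toWord x⁻¹.toWord
        rcases e3 with ⟨rfl, rfl⟩ | e3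
        · exfalso
          have h4 : s.toWord = x⁻¹.toWord := by rw [e1, e2]
          have h5 : s = x⁻¹ := FreeGroup.toWord_injective h4
          apply hg1
          rw [← hu2, h5, inv_mul_cancel]
        · refine ⟨(p, q, r), ?_, e1.symm, e2.symm⟩
          rw [Finset.mem_filter, hT, mem_Tr]
          refine ⟨⟨?_, ?_, e3⟩, ?_⟩
          · exact Finset.mem_image.2 ⟨s, hs, e1⟩
          · exact Finset.mem_image.2 ⟨x, hx, e2⟩
          · rw [← hu2, toWord_mul_of e1 e2 e3]; rfl
      choose! φ hφ1 hφ2 hφ3 using hex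
      apply Finset.card_le_card_of_injOn φ
      · intro u hu
        exact hφ1 u hu
      · intro u hu u' hu' he
        have a1 := hφ2 u hu
        have a2 := hφ3 u hu
        have b1 := hφ2 u' hu'
        have b2 := hφ3 u' hu'
        rw [he] at a1 a2
        have c1 : u.1 = u'.1 := FreeGroup.toWord_injective (a1.symm.trans b1)
        have c2 : u.2⁻¹ = u'.2⁻¹ := FreeGroup.toWord_injective (a2.symm.trans b2)
        exact Prod.ext c1 (inv_injective c2)
    set Γ' : Finset (List (α × Bool)) := Γ ∪ (P.erase 1).image FreeGroup.toWord with hΓ'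
    have h5 := energy_le_of_Bd hb Γ' (fun t ht =>
      Finset.mem_union_left _ (Finset.mem_image_of_mem _ ht))
    refine le_trans ?_ h5
    calc ∑ g ∈ P.erase 1, (n g : ℝ) ^ 2
        ≤ ∑ g ∈ P.erase 1, ((T.filter (fun t => gw finv t = g.toWord)).card : ℝ) ^ 2 := by
          apply Finset.sum_le_sum
          intro g hg
          apply pow_le_pow_left₀ (Nat.cast_nonneg _)
          exact_mod_cast h3 g hg
      _ = ∑ w ∈ (P.erase 1).image FreeGroup.toWord,
            ((T.filter (fun t => gw finv t = w)).card : ℝ) ^ 2 := by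
          rw [Finset.sum_image (fun g _ g' _ h => FreeGroup.toWord_injective h)]
      _ ≤ ∑ w ∈ Γ', ((T.filter (fun t => gw finv t = w)).card : ℝ) ^ 2 :=
          Finset.sum_le_sum_of_subset_of_nonneg Finset.subset_union_right
            (fun _ _ _ => sq_nonneg _)
      _ = _ := by congr!
  · have h3 : n 1 ≤ S.card := by
      apply Finset.card_le_card_of_injOn Prod.fst
      · intro u hu
        exact (Finset.mem_product.1 (Finset.mem_filter.1 hu).1).1
      · intro u hu u' hu' he
        have a := (Finset.mem_filter.1 hu).2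
        have b := (Finset.mem_filter.1 hu').2
        apply Prod.ext he
        rw [eq_comm, ← mul_left_cancel_iff (a := u.1), a, he, b]
    have h4 : n 1 ≤ X.card := by
      apply Finset.card_le_card_of_injOn Prod.snd
      · intro u hu
        exact (Finset.mem_product.1 (Finset.mem_filter.1 hu).1).2
      · intro u hu u' hu' he
        have a := (Finset.mem_filter.1 hu).2
        have b := (Finset.mem_filter.1 hu').2
        refine Prod.ext ?_ he
        rw [← mul_right_cancel_iff (a := u.2), a, he, b]
    rw [sq]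
    apply mul_le_mul _ _ (Nat.cast_nonneg _) (Nat.cast_nonneg _)
    · exact_mod_cast h3
    · exact_mod_cast h4

/-- (D) dual form of property RD, for finitely supported nonnegative functions, any group. -/
theorem rd_dual {G : Type} [Group G] {L : G → ℝ} (h : RD.PropertyRDfin L) :
    ∃ P : Polynomial ℝ, ∀ r : ℝ, 0 < r → ∀ (A B C : Finset G) (f g k : G → ℝ),
      (∀ x ∈ A, L x ≤ r) → (∀ x ∈ A, ∀ y ∈ B, x * y ∈ C) →
      (∀ x, 0 ≤ f x) → (∀ x, 0 ≤ g x) → (∀ x, 0 ≤ k x) →
      (∑ x ∈ A, ∑ y ∈ B, f x * g y * k (x * y)) ^ 2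
        ≤ P.eval r * (∑ x ∈ A, f x ^ 2) * (∑ y ∈ B, g y ^ 2) * ∑ z ∈ C, k z ^ 2 := by
  obtain ⟨P, hP⟩ := h
  refine ⟨P, ?_⟩
  intro r hr A B C f g k hA hC hf hg hk
  set φ : G → ℂ := fun x => if x ∈ A then ((f x : ℝ) : ℂ) else 0 with hφ
  set ψ : G → ℂ := fun x => if x ∈ B then ((g x : ℝ) : ℂ) else 0 with hψ
  have hφs : φ.support ⊆ (A : Set G) := by
    intro x hx
    by_contra hxA
    apply hx
    simp only [hφ]
    rw [if_neg (fun h => hxA (Finset.mem_coe.2 h))]
  have hψs : ψ.support ⊆ (B : Set G) := by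
    intro x hx
    by_contra hxB
    apply hx
    simp only [hψ]
    rw [if_neg (fun h => hxB (Finset.mem_coe.2 h))]
  have key := hP r hr φ ψ (A.finite_toSet.subset hφs) (B.finite_toSet.subset hψs)
    (fun x hx => hA x (Finset.mem_coe.1 (hφs hx)))
  have nφ : RD.normSq φ = ∑ x ∈ A, f x ^ 2 := by
    unfold RD.normSq
    rw [tsum_eq_sum (s := A)]
    · apply Finset.sum_congr rfl
      intro x hx
      simp only [hφ]
      rw [if_pos hx, Complex.norm_real, Real.norm_eq_abs, sq_abs]
    · intro x hx
      simp only [hφ]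
      rw [if_neg hx]; simp
  have nψ : RD.normSq ψ = ∑ x ∈ B, g x ^ 2 := by
    unfold RD.normSq
    rw [tsum_eq_sum (s := B)]
    · apply Finset.sum_congr rfl
      intro x hx
      simp only [hψ]
      rw [if_pos hx, Complex.norm_real, Real.norm_eq_abs, sq_abs]
    · intro x hx
      simp only [hψ]
      rw [if_neg hx]; simp
  set c : G → ℝ := fun z => ∑ u ∈ (A ×ˢ B).filter (fun u => u.1 * u.2 = z), f u.1 * g u.2 with hc
  have hconv : ∀ z, RD.conv φ ψ z = ((c z : ℝ) : ℂ) := by
    intro z
    unfold RD.conv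
    rw [tsum_eq_sum (s := A)]
    · simp only [hc]
      rw [Finset.sum_filter, Finset.sum_product]
      push_cast
      apply Finset.sum_congr rfl
      intro x hx
      simp only [hφ, hψ]
      rw [if_pos hx]
      by_cases hxz : x⁻¹ * z ∈ B
      · rw [if_pos hxz, Finset.sum_eq_single (x⁻¹ * z)]
        · rw [if_pos (by group)]; push_cast; rfl
        · intro b _ hb
          rw [if_neg]
          · simp
          · rintro rfl
            apply hb; group
        · intro h'; exact absurd hxz h'
      · rw [if_neg hxz, mul_zero, Finset.sum_eq_zero]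
        intro b hb
        rw [if_neg]
        · simp
        · rintro rfl
          apply hxz
          simpa using hb
    · intro x hx
      simp only [hφ]
      rw [if_neg hx, zero_mul]
  have hc0 : ∀ z, z ∉ C → c z = 0 := by
    intro z hz
    simp only [hc]
    apply Finset.sum_eq_zero
    rintro ⟨x, y⟩ hu
    exfalso
    obtain ⟨h1, h2⟩ := Finset.mem_filter.1 hu
    obtain ⟨h3, h4⟩ := Finset.mem_product.1 h1
    apply hz
    rw [← h2]
    exact hC x h3 y h4
  have nc : RD.normSq (RD.conv φ ψ) = ∑ z ∈ C, c z ^ 2 := by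
    unfold RD.normSq
    rw [tsum_eq_sum (s := C)]
    · apply Finset.sum_congr rfl
      intro z _
      rw [hconv, Complex.norm_real, Real.norm_eq_abs, sq_abs]
    · intro z hz
      rw [hconv, hc0 z hz]; simp
  rw [nφ, nψ, nc] at key
  have hsum : ∑ x ∈ A, ∑ y ∈ B, f x * g y * k (x * y) = ∑ z ∈ C, c z * k z := by
    rw [← Finset.sum_product']
    rw [← Finset.sum_fiberwise_of_maps_to (s := A ×ˢ B) (t := C) (g := fun u => u.1 * u.2)
      (fun u hu => hC _ (Finset.mem_product.1 hu).1 _ (Finset.mem_product.1 hu).2)]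
    apply Finset.sum_congr rfl
    intro z _
    simp only [hc]
    rw [Finset.sum_mul]
    apply Finset.sum_congr rfl
    intro u hu
    rw [(Finset.mem_filter.1 hu).2]
  rw [hsum]
  calc (∑ z ∈ C, c z * k z) ^ 2 ≤ (∑ z ∈ C, c z ^ 2) * ∑ z ∈ C, k z ^ 2 :=
        Finset.sum_mul_sq_le_sq_mul_sq _ _ _
    _ ≤ _ := mul_le_mul_of_nonneg_right key (Finset.sum_nonneg (fun _ _ => sq_nonneg _))

end RDCE
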