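import Pool.Agent.H23.CE.TDefs

open Finset Classical

namespace RDCE

variable {β : Type}

theorem LangP_suffix (P : LP β) {a b : List β} (h : LangP P (a ++ b)) : LangP P b := by
  induction a with
  | nil => simpa using h
  | cons z a ih =>
    have h' : LangP P (z :: (a ++ b)) := h
    exact ih h'.1

/-- number of letters of level exactly `l` in the initial low block of level `l+1` -/
noncomputable def cnt (lev : β → Option ℕ) (l : ℕ) (w : List β) : ℕ :=
  (w.takeWhile (low lev (l + 1))).countP (fun b => decide (lev b = some l))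

theorem low_some {lev : β → Option ℕ} {b : β} {m l : ℕ} (h : lev b = some m) :
    low lev l b = decide (m < l) := by
  simp [low, h]

theorem LangP_digit (P : LP β) (hB : 2 ≤ P.B) {w : List β} (h : LangP P w) (l : ℕ) :
    (stv P.lev P.B w / P.B ^ l) % P.B = cnt P.lev l w := by
  induction w with
  | nil => simp [stv, cnt]
  | cons z w ih =>
    obtain ⟨hw, _, m, hm, hz, hne, _, _⟩ := h
    have ihw := ih hw
    have hgd : (P.lev z).getD 0 = m := by simp [hz]
    have hBpos : 0 < P.B := by omega
    have hstv : stv P.lev P.B (z :: w) = (stv P.lev P.B w / P.B ^ m + 1) * P.B ^ m := by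
      simp [stv, hgd]
    rw [hstv]
    have hx : (stv P.lev P.B w / P.B ^ m) % P.B < P.B := Nat.mod_lt _ hBpos
    rcases lt_trichotomy l m with hlm | hlm | hlm
    · -- l < m
      have h1 : (stv P.lev P.B w / P.B ^ m + 1) * P.B ^ m / P.B ^ l
          = (stv P.lev P.B w / P.B ^ m + 1) * P.B ^ (m - l) := by
        have : P.B ^ m = P.B ^ (m - l) * P.B ^ l := by
          rw [← pow_add]; congr 1; omega
        rw [this, ← mul_assoc, Nat.mul_div_cancel _ (pow_pos hBpos l)]
      rw [h1]
      have h2 : P.B ^ (m - l) = P.B ^ (m - l - 1) * P.B := by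
        rw [← pow_succ]; congr 1; omega
      rw [h2, ← mul_assoc, Nat.mul_mod_left]
      have h3 : low P.lev (l + 1) z = false := by
        rw [low_some hz]; simp; omega
      simp [cnt, h3]
    · -- l = m
      subst hlm
      rw [Nat.mul_div_cancel _ (pow_pos hBpos l)]
      have h1 : (stv P.lev P.B w / P.B ^ l + 1) % P.B = (stv P.lev P.B w / P.B ^ l) % P.B + 1 := by
        rw [Nat.add_mod]
        have : 1 % P.B = 1 := Nat.mod_eq_of_lt (by omega)
        rw [this]
        apply Nat.mod_eq_of_lt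
        omega
      rw [h1, ihw]
      have h3 : low P.lev (l + 1) z = true := by
        rw [low_some hz]; simp
      simp [cnt, h3, hz]
    · -- m < l
      have h1 : (stv P.lev P.B w / P.B ^ m + 1) * P.B ^ m / P.B ^ l
          = stv P.lev P.B w / P.B ^ l := by
        have hpl : P.B ^ l = P.B ^ m * (P.B * P.B ^ (l - m - 1)) := by
          rw [← pow_succ', ← pow_add]; congr 1; omega
        rw [hpl, ← Nat.div_div_eq_div_mul, Nat.mul_div_cancel _ (pow_pos hBpos m),
          ← Nat.div_div_eq_div_mul, ← Nat.div_div_eq_div_mul, ← Nat.div_div_eq_div_mul]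
        congr 1
        have := Nat.div_add_mod (stv P.lev P.B w / P.B ^ m) P.B
        set X := stv P.lev P.B w / P.B ^ m with hX
        rw [Nat.succ_div_of_not_dvd]
        intro hd
        apply hne
        obtain ⟨c, hc⟩ := hd
        have hc' : X = P.B * c - 1 := by omega
        have hcpos : 1 ≤ c := by
          rcases Nat.eq_zero_or_pos c with h0 | h0
          · subst h0; simp at hc
          · exact h0
        have : X = P.B * (c - 1) + (P.B - 1) := by
          rw [hc', Nat.mul_sub_one]
          have : P.B * 1 ≤ P.B * c := Nat.mul_le_mul_left _ hcpos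
          omega
        rw [this, Nat.mul_add_mod]
        exact Nat.mod_eq_of_lt (by omega)
      rw [h1, ihw]
      have h3 : low P.lev (l + 1) z = true := by
        rw [low_some hz]; simp; omega
      have h4 : ¬ (P.lev z = some l) := by rw [hz]; simp; omega
      simp [cnt, h3, h4]

theorem takeWhile_prefix_append (p : β → Bool) (a b : List β) :
    (a.takeWhile p) <+: ((a ++ b).takeWhile p) := by
  induction a with
  | nil => simp
  | cons z a ih =>
    by_cases h : p z = true
    · simp [h, ih]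
    · simp [h]

theorem cnt_prefix_le (lev : β → Option ℕ) (l : ℕ) (a b : List β) :
    cnt lev l a ≤ cnt lev l (a ++ b) := by
  unfold cnt
  exact (takeWhile_prefix_append _ a b).sublist.countP_le

theorem takeWhile_append_of_exists {p : β → Bool} {a b : List β} (h : ∃ x ∈ a, ¬ p x = true) :
    (a ++ b).takeWhile p = a.takeWhile p := by
  induction a with
  | nil => simp at h
  | cons z a ih =>
    by_cases hz : p z = true
    · have : ∃ x ∈ a, ¬ p x = true := by
        obtain ⟨x, hx, hpx⟩ := h
        rcases List.mem_cons.1 hx with h1 | h1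
        · subst h1; exact absurd hz hpx
        · exact ⟨x, h1, hpx⟩
      simp [hz, ih this]
    · simp [hz]

theorem not_low_of_mark {lev : β → Option ℕ} {i : ℕ} {b : β} (h : mark lev i b) :
    ¬ low lev i b = true := by
  obtain ⟨k, hk, hik⟩ := h
  rw [low_some hk]; simp; omega

theorem LangP_prefix (P : LP β) (hB : 2 ≤ P.B) {a b : List β} (h : LangP P (a ++ b)) :
    LangP P a := by
  induction a with
  | nil => trivial
  | cons z a ih =>
    obtain ⟨hw, hid, m, hm, hz, hne, hchi, hcol⟩ := (h : LangP P (z :: (a ++ b)))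
    simp only [List.append_eq] at hw hid hne hchi
    have hBpos : 0 < P.B := by omega
    refine ⟨ih hw, ?_, m, hm, hz, ?_, ?_, hcol⟩
    · intro h1
      apply hid
      simp only [List.map_append, List.mem_append]
      exact Or.inl h1
    · rw [LangP_digit P hB (ih hw)]
      rw [LangP_digit P hB hw] at hne
      have h1 := cnt_prefix_le P.lev m a b
      have h2 : cnt P.lev m (a ++ b) < P.B := by
        rw [← LangP_digit P hB hw]; exact Nat.mod_lt _ hBpos
      omega
    · intro i hi hil hex
      have hex' : ∃ b' ∈ a ++ b, mark P.lev i b' := by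
        obtain ⟨x, hx, hmx⟩ := hex
        exact ⟨x, List.mem_append_left _ hx, hmx⟩
      have := hchi i hi hil hex'
      rw [show rh P.lev i (a ++ b) = rh P.lev i a from ?_] at this
      · exact this
      · obtain ⟨x, hx, hmx⟩ := hex
        exact takeWhile_append_of_exists ⟨x, hx, not_low_of_mark hmx⟩

theorem LangP_nodup (P : LP β) {a : List β} (h : LangP P a) : a.Nodup := by
  induction a with
  | nil => simp
  | cons z a ih =>
    obtain ⟨hw, hid, _⟩ := h
    rw [List.nodup_cons]
    refine ⟨fun hz => hid (List.mem_map_of_mem hz), ih hw⟩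

theorem LangP_lev (P : LP β) {a : List β} (h : LangP P a) :
    ∀ b ∈ a, ∃ k, k < P.H ∧ P.lev b = some k := by
  induction a with
  | nil => simp
  | cons z a ih =>
    obtain ⟨hw, hid, m, hm, hz, _⟩ := h
    intro b hb
    rcases List.mem_cons.1 hb with h1 | h1
    · subst h1; exact ⟨m, hm, hz⟩
    · exact ih hw b h1

theorem LangP_count (P : LP β) (hB : 2 ≤ P.B) {a : List β} (h : LangP P a) (j : ℕ)
    (ha : ∀ b ∈ a, ∃ k, k ≤ j ∧ P.lev b = some k) :
    a.countP (fun b => decide (P.lev b = some j)) ≤ P.B - 1 := by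
  have h1 : a.takeWhile (low P.lev (j + 1)) = a := by
    rw [List.takeWhile_eq_self_iff]
    intro b hb
    obtain ⟨k, hk, hk'⟩ := ha b hb
    rw [low_some hk']; simp; omega
  have h2 := LangP_digit P hB h j
  unfold cnt at h2
  rw [h1] at h2
  rw [← h2]
  have := Nat.mod_lt (stv P.lev P.B a / P.B ^ j) (show 0 < P.B by omega)
  omega

theorem LangP_stv_lt (P : LP β) (hB : 2 ≤ P.B) {a : List β} (h : LangP P a) :
    stv P.lev P.B a < P.B ^ P.H := by
  have hBpos : 0 < P.B := by omega
  induction a with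
  | nil => simpa [stv] using pow_pos hBpos P.H
  | cons z w ih =>
    obtain ⟨hw, _, m, hm, hz, hne, _, _⟩ := h
    have ihw := ih hw
    have hgd : (P.lev z).getD 0 = m := by simp [hz]
    have hstv : stv P.lev P.B (z :: w) = (stv P.lev P.B w / P.B ^ m + 1) * P.B ^ m := by
      simp [stv, hgd]
    rw [hstv]
    have hsplit : P.B ^ P.H = P.B ^ (P.H - m) * P.B ^ m := by
      rw [← pow_add]; congr 1; omega
    rw [hsplit] at ihw ⊢
    have h1 : stv P.lev P.B w / P.B ^ m < P.B ^ (P.H - m) :=
      Nat.div_lt_of_lt_mul (by rw [mul_comm]; exact ihw)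
    have h2 : stv P.lev P.B w / P.B ^ m ≠ P.B ^ (P.H - m) - 1 := by
      intro he
      apply hne
      rw [he]
      have : P.B ^ (P.H - m) = P.B * P.B ^ (P.H - m - 1) := by
        rw [← pow_succ']; congr 1; omega
      rw [this]
      have hc : 1 ≤ P.B ^ (P.H - m - 1) := Nat.one_le_pow _ _ hBpos
      set c := P.B ^ (P.H - m - 1) with hc'
      have : P.B * c - 1 = P.B * (c - 1) + (P.B - 1) := by
        rw [Nat.mul_sub_one]
        have : P.B * 1 ≤ P.B * c := Nat.mul_le_mul_left _ hc
        omega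
      rw [this, Nat.mul_add_mod]
      exact Nat.mod_eq_of_lt (by omega)
    have h3 : stv P.lev P.B w / P.B ^ m + 1 < P.B ^ (P.H - m) := by
      have h4 : 1 ≤ P.B ^ (P.H - m) := Nat.one_le_pow _ _ hBpos
      generalize stv P.lev P.B w / P.B ^ m = X at *
      generalize P.B ^ (P.H - m) = Y at *
      omega
    exact Nat.mul_lt_mul_of_pos_right h3 (pow_pos hBpos m)

theorem LangP_length_le (P : LP β) (hB : 2 ≤ P.B) {a : List β} (h : LangP P a) :
    a.length ≤ stv P.lev P.B a := by
  have hBpos : 0 < P.B := by omega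
  induction a with
  | nil => simp
  | cons z w ih =>
    obtain ⟨hw, _, m, hm, hz, hne, _, _⟩ := h
    have ihw := ih hw
    have hgd : (P.lev z).getD 0 = m := by simp [hz]
    have hstv : stv P.lev P.B (z :: w) = (stv P.lev P.B w / P.B ^ m + 1) * P.B ^ m := by
      simp [stv, hgd]
    rw [hstv, List.length_cons]
    have h1 : stv P.lev P.B w < (stv P.lev P.B w / P.B ^ m + 1) * P.B ^ m := by
      have := Nat.lt_mul_div_succ (stv P.lev P.B w) (pow_pos hBpos m)
      rw [mul_comm]; exact this
    omega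

theorem LangP_ok (P : LP β) (hB : 2 ≤ P.B) (l : ℕ) (hl : 1 ≤ l) (hl' : l < P.H)
    (p₀ : List β) (z : β) (u v : List β) (z' : β) (q₀ : List β)
    (h : LangP P (z :: (u ++ v ++ [z']))) (huv : ∀ b ∈ u ++ v, low P.lev l b = true)
    (hz : mark P.lev l z) (hz' : mark P.lev l z') :
    okc P.lev P.col P.χ (P.B ^ P.H) l (p₀ ++ z :: u) (v ++ z' :: q₀) := by
  have hlh : lh P.lev l (p₀ ++ z :: u) = u := by
    unfold lh
    have hu : ∀ b ∈ u, low P.lev l b = true := fun b hb => huv b (List.mem_append_left _ hb)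
    rw [List.rtakeWhile, show (p₀ ++ z :: u).reverse = u.reverse ++ (z :: p₀.reverse) by simp,
      List.takeWhile_append_of_pos (by simpa using hu), List.takeWhile_cons]
    simp [not_low_of_mark hz]
  have hrh : rh P.lev l (v ++ z' :: q₀) = v := by
    have hv : ∀ b ∈ v, low P.lev l b = true := fun b hb => huv b (List.mem_append_right _ hb)
    unfold rh
    rw [List.takeWhile_append_of_pos hv, List.takeWhile_cons]
    simp [not_low_of_mark hz']
  have hw : LangP P (u ++ v ++ [z']) := h.1
  have hlen : (u ++ v ++ [z']).length < P.B ^ P.H :=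
    lt_of_le_of_lt (LangP_length_le P hB hw) (LangP_stv_lt P hB hw)
  simp only [List.length_append, List.length_singleton] at hlen
  obtain ⟨_, _, m, hm, hzm, _, hchi, _⟩ := h
  refine ⟨⟨p₀, z, by rw [hlh], hz, ?_⟩, by rw [hlh]; omega, by rw [hrh]; omega⟩
  rw [hlh, hrh]
  have hlm : l ≤ m := by
    obtain ⟨k, hk, hlk⟩ := hz
    rw [hzm] at hk
    cases hk
    exact hlk
  have := hchi l hl hlm ⟨z', by simp, hz'⟩
  rw [← this]
  congr 1
  unfold rh
  rw [List.takeWhile_append_of_pos huv, List.takeWhile_cons]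
  simp [not_low_of_mark hz']

/-- The `Sys` of the positive language (`pr` comes from `exists_hash`, `D = 2^(H+1)`, `δ = 2/D`,
`B = M + 1 = 4^H`). -/
theorem exists_posSys (P : LP β) (hH : 0 < P.H) (hB : P.B = 4 ^ P.H) (Λ : ℕ)
    (pr : ∀ j₀ j₁ : ℕ, j₀ < j₁ → j₁ < P.H → ∀ (U V : Finset (List β)) (f g : List β → ℕ) (F G : ℕ),
        (∀ u, ∑ p ∈ U.filter (fun p => lh P.lev (j₀ + 1) p = u), f p ≤ F) →
        (∀ v, ∑ q ∈ V.filter (fun q => rh P.lev (j₀ + 1) q = v), g q ≤ G) →
        (∑ p ∈ U, ∑ q ∈ V,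
            if (∀ l, j₀ < l → l ≤ j₁ → okc P.lev P.col P.χ (P.B ^ P.H) l p q)
              then ((f p : ℝ) * (g q : ℝ)) else 0)
          ≤ (2 / ((2 ^ (P.H + 1) : ℕ) : ℝ)) ^ (j₁ - j₀) * (∑ p ∈ U, (f p : ℝ)) * (∑ q ∈ V, (g q : ℝ))
            + P.H * Λ * ((∑ p ∈ U, (f p : ℝ)) * G + (∑ q ∈ V, (g q : ℝ)) * F)) :
    ∃ 𝔖 : Sys β, 𝔖.lev = P.lev ∧ 𝔖.H = P.H ∧ 𝔖.M + 1 = P.B ∧ 𝔖.Λ = Λ ∧ 𝔖.mem = LangP P := by
  have hB2 : 2 ≤ P.B := by
    rw [hB]
    calc 2 ≤ 4 ^ 1 := by norm_num
      _ ≤ 4 ^ P.H := Nat.pow_le_pow_right (by norm_num) hH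
  have hM : P.B - 1 + 1 = P.B := by omega
  refine ⟨{ lev := P.lev, H := P.H, M := P.B - 1, Λ := Λ, δ := 2 / ((2 ^ (P.H + 1) : ℕ) : ℝ),
            mem := LangP P, ok := okc P.lev P.col P.χ (P.B ^ P.H), H_pos := hH,
            δ_pos := by positivity, δ_le := ?_, δ_sq := ?_,
            mem_prefix := fun h => LangP_prefix P hB2 h, mem_suffix := fun h => LangP_suffix P h,
            mem_nodup := fun h => LangP_nodup P h, mem_lev := fun h => LangP_lev P h,
            mem_count := fun h j hj => LangP_count P hB2 h j hj,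
            mem_ok := fun l hl hl' p₀ z u v z' q₀ h huv hz hz' =>
              LangP_ok P hB2 l hl hl' p₀ z u v z' q₀ h huv hz hz',
            pr := pr }, rfl, rfl, hM, rfl, rfl⟩
  · push_cast
    rw [div_le_one (by positivity), pow_succ]
    have : (1 : ℝ) ≤ 2 ^ P.H := one_le_pow₀ (by norm_num)
    linarith
  · have h1 : ((P.B - 1 : ℕ) : ℝ) + 1 = 4 ^ P.H := by
      have : (((P.B - 1 + 1 : ℕ)) : ℝ) = (P.B : ℝ) := by rw [hM]
      push_cast at this
      rw [this, hB]
      push_cast
      rfl
    rw [h1]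
    push_cast
    have h2 : ((2 : ℝ) ^ P.H) ^ 2 = 4 ^ P.H := by
      rw [← pow_mul, mul_comm, pow_mul]; norm_num
    have h3 : (0 : ℝ) < 4 ^ P.H := by positivity
    have h4 : (2 : ℝ) ^ (P.H + 1) = 2 * 2 ^ P.H := by rw [pow_succ]; ring
    rw [h4, div_pow, mul_pow, h2, div_mul_eq_mul_div, div_le_one (by positivity)]

/-! ### mirror image -/

/-- formal inverse of a word -/
def rv (inv : β → β) (w : List β) : List β := (w.map inv).reverse

section mirror
variable {inv : β → β} (hinv : ∀ b, inv (inv b) = b)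
include hinv

theorem rv_rv (w : List β) : rv inv (rv inv w) = w := by
  simp [rv, List.map_reverse, List.map_map, Function.comp_def, hinv]

theorem rv_injective : Function.Injective (rv inv) := by
  intro a b h
  rw [← rv_rv hinv a, h, rv_rv hinv]

omit hinv in
theorem rv_append (a b : List β) : rv inv (a ++ b) = rv inv b ++ rv inv a := by
  simp [rv]

omit hinv in
theorem lh_rv (lev : β → Option ℕ) (l : ℕ) (q : List β) :
    lh lev l (rv inv q) = rv inv (rh (fun b => lev (inv b)) l q) := by
  unfold lh rh rv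
  rw [List.rtakeWhile, List.reverse_reverse, List.takeWhile_map]
  rfl

omit hinv in
theorem rh_rv (lev : β → Option ℕ) (l : ℕ) (p : List β) :
    rh lev l (rv inv p) = rv inv (lh (fun b => lev (inv b)) l p) := by
  unfold lh rh rv
  rw [List.rtakeWhile, ← List.map_reverse, List.takeWhile_map, List.map_reverse,
    List.reverse_reverse]
  rfl

theorem sum_rv_image (V : Finset (List β)) (φ : List β → ℝ) :
    ∑ p ∈ V.image (rv inv), φ p = ∑ q ∈ V, φ (rv inv q) :=
  Finset.sum_image (fun _ _ _ _ h => rv_injective hinv h)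

theorem sum_rv_image_nat (V : Finset (List β)) (φ : List β → ℕ) :
    ∑ p ∈ V.image (rv inv), φ p = ∑ q ∈ V, φ (rv inv q) :=
  Finset.sum_image (fun _ _ _ _ h => rv_injective hinv h)

end mirror

/-- The mirror image of a `Sys` (for the language of inverses). -/
theorem exists_mirror (𝔖 : Sys β) (inv : β → β) (hinv : ∀ b, inv (inv b) = b) :
    ∃ 𝔗 : Sys β, 𝔗.lev = (fun b => 𝔖.lev (inv b)) ∧ 𝔗.H = 𝔖.H ∧ 𝔗.M = 𝔖.M ∧ 𝔗.Λ = 𝔖.Λ ∧
      𝔗.mem = (fun w => 𝔖.mem (w.map inv).reverse) := by
  have hlow : ∀ l b, low (fun b => 𝔖.lev (inv b)) l b = low 𝔖.lev l (inv b) := fun l b => rfl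
  refine ⟨{ lev := fun b => 𝔖.lev (inv b), H := 𝔖.H, M := 𝔖.M, Λ := 𝔖.Λ, δ := 𝔖.δ,
            mem := fun w => 𝔖.mem (rv inv w),
            ok := fun l p q => 𝔖.ok l (rv inv q) (rv inv p),
            H_pos := 𝔖.H_pos, δ_pos := 𝔖.δ_pos, δ_le := 𝔖.δ_le, δ_sq := 𝔖.δ_sq,
            mem_prefix := ?_, mem_suffix := ?_, mem_nodup := ?_, mem_lev := ?_, mem_count := ?_,
            mem_ok := ?_, pr := ?_ }, rfl, rfl, rfl, rfl, rfl⟩
  · intro a b h
    rw [rv_append] at h
    exact 𝔖.mem_suffix h
  · intro a b h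
    rw [rv_append] at h
    exact 𝔖.mem_prefix h
  · intro a h
    have := 𝔖.mem_nodup h
    unfold rv at this
    rw [List.nodup_reverse] at this
    exact this.of_map
  · intro a h b hb
    exact 𝔖.mem_lev h (inv b) (by
      unfold rv
      rw [List.mem_reverse]
      exact List.mem_map_of_mem hb)
  · intro a h j hj
    have := 𝔖.mem_count h j (by
      intro b hb
      unfold rv at hb
      rw [List.mem_reverse, List.mem_map] at hb
      obtain ⟨c, hc, rfl⟩ := hb
      exact hj c hc)
    unfold rv at this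
    rw [List.countP_reverse, List.countP_map] at this
    exact this
  · intro l hl hl' p₀ z u v z' q₀ h huv hz hz'
    have h1 : 𝔖.mem (inv z' :: (rv inv v ++ rv inv u ++ [inv z])) := by
      have : rv inv (z :: (u ++ v ++ [z'])) = inv z' :: (rv inv v ++ rv inv u ++ [inv z]) := by
        simp [rv]
      rw [← this]; exact h
    have h2 := 𝔖.mem_ok l hl hl' (rv inv q₀) (inv z') (rv inv v) (rv inv u) (inv z) (rv inv p₀) h1
      (by
        intro b hb
        rw [← rv_append] at hb
        unfold rv at hb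
        rw [List.mem_reverse, List.mem_map] at hb
        obtain ⟨c, hc, rfl⟩ := hb
        exact huv c hc) hz' hz
    have e1 : rv inv (v ++ z' :: q₀) = rv inv q₀ ++ inv z' :: rv inv v := by simp [rv]
    have e2 : rv inv (p₀ ++ z :: u) = rv inv u ++ inv z :: rv inv p₀ := by simp [rv]
    rw [e1, e2]
    exact h2
  · intro j₀ j₁ h01 h1H U V f g F G hF hG
    have key := 𝔖.pr j₀ j₁ h01 h1H (V.image (rv inv)) (U.image (rv inv)) (fun p => g (rv inv p))
      (fun q => f (rv inv q)) G F ?_ ?_
    · rw [sum_rv_image hinv, sum_rv_image hinv, sum_rv_image hinv] at key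
      simp only [sum_rv_image hinv, rv_rv hinv] at key
      rw [Finset.sum_comm] at key
      have e3 : (∑ p ∈ U, ∑ q ∈ V,
          if (∀ l, j₀ < l → l ≤ j₁ → 𝔖.ok l (rv inv q) (rv inv p))
            then ((f p : ℝ) * (g q : ℝ)) else 0)
          = ∑ p ∈ U, ∑ q ∈ V,
          if (∀ l, j₀ < l → l ≤ j₁ → 𝔖.ok l (rv inv q) (rv inv p))
            then ((g q : ℝ) * (f p : ℝ)) else 0 := by
        refine Finset.sum_congr rfl fun p _ => Finset.sum_congr rfl fun q _ => ?_
        rw [mul_comm (f p : ℝ)]
      rw [e3]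
      refine key.trans (le_of_eq ?_)
      ring
    · intro u
      rw [Finset.sum_filter, sum_rv_image_nat hinv]
      have := hG (rv inv u)
      rw [Finset.sum_filter] at this
      refine le_trans (le_of_eq (Finset.sum_congr rfl fun q _ => ?_)) this
      rw [rv_rv hinv, lh_rv]
      congr 1
      apply propext
      constructor
      · intro h; rw [← h, rv_rv hinv]
      · intro h; rw [h, rv_rv hinv]
    · intro v
      rw [Finset.sum_filter, sum_rv_image_nat hinv]
      have := hF (rv inv v)
      rw [Finset.sum_filter] at this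
      refine le_trans (le_of_eq (Finset.sum_congr rfl fun q _ => ?_)) this
      rw [rv_rv hinv, rh_rv]
      congr 1
      apply propext
      constructor
      · intro h; rw [← h, rv_rv hinv]
      · intro h; rw [h, rv_rv hinv]

end RDCE
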