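import Pool.Agent.H23.CE.LowerB

open Finset Classical

namespace RDCE

variable {H n D B : ℕ} {χ : ℕ → List (Letter H n D) → ℕ}

/-- (L1).  For a word `w` containing a letter of level `H-1`, `G(w) := ∑_{s : s ++ w ∈ 𝓛} wt s
≤ Φ(stv w)`, `Φ(v) = ∏_{l<H} (B - digit_l v)`.  Induction (prepending letters): every letter
`z` with `z :: w ∈ 𝓛` has all its colours `1 ≤ i ≤ level z` forced (and the others `0`), so there are
`≤ n` letters of level `l`, none if `digit_l (stv w) = B-1`, so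
`G(w) ≤ 1 + ∑_{l : d_l < B-1} B^(-l) Φ(step_l v) = Φ(v)`, `step_l v = (v/B^l+1) B^l`. -/
theorem lower_L1 (hH : 1 ≤ H) (hB : 4 ≤ B) (hD : 1 ≤ D) (zs : Letter H n D)
    (hzs : (zs.1 : ℕ) = H - 1) (SS : Finset (List (Letter H n D)))
    (hSS : ∀ s, s ∈ SS ↔ LangP (letterLP H n D B χ) (s ++ [zs])) :
    ∑ s ∈ SS, wt H n D B s ≤ (B : ℝ) ^ H := by
  have h1 : SS = ext B χ [zs] := by
    ext s
    rw [hSS, mem_ext]
  have h2 : ∑ s ∈ SS, wt H n D B s = Gw B χ [zs] := by rw [h1]; rfl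
  rw [h2]
  have h3 := Gw_le (χ := χ) (by omega : 2 ≤ B) hD (n + 1) [zs] (by omega)
  have h4 : mx [zs] = H - 1 := by
    rw [mx_cons]
    have := mx_le ([] : List (Letter H n D))
    omega
  rw [h4, Nat.sub_self, pow_zero, one_mul] at h3
  refine h3.trans ?_
  have := Ph_le (B := B) (H := H) (l := 0) (v := sv B [zs])
  exact_mod_cast this

/-- (L2).  Same with the potential `D^(H-1-m) Φ(v)`, `m` the maximal level of a letter of `w`
(`0` if `w = []`): a letter of level `l` has `≤ D^(l-m)` (if `l > m`), resp. `1` (if `l ≤ m`) possible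
colour vectors. -/
theorem lower_L2 (hH : 1 ≤ H) (hB : 4 ≤ B) (hD : 1 ≤ D) (PP : Finset (List (Letter H n D)))
    (hPP : ∀ p, p ∈ PP ↔ LangP (letterLP H n D B χ) p) :
    ∑ p ∈ PP, wt H n D B p ≤ (D : ℝ) ^ (H - 1) * (B : ℝ) ^ H := by
  have h1 : PP = ext B χ [] := by
    ext s
    rw [hPP, mem_ext, List.append_nil]
  have h2 : ∑ s ∈ PP, wt H n D B s = Gw B χ [] := by rw [h1]; rfl
  rw [h2]
  have h3 := Gw_le (χ := χ) (by omega : 2 ≤ B) hD (n + 1) [] (by simp)
  refine h3.trans ?_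
  apply mul_le_mul _ _ (by positivity) (by positivity)
  · exact pow_le_pow_right₀ (by exact_mod_cast hD) (Nat.sub_le _ _)
  · have := Ph_le (B := B) (H := H) (l := 0) (v := sv B ([] : List (Letter H n D)))
    exact_mod_cast this

/-! ### lower bounds -/

theorem mx_append_zs {zs : Letter H n D} (hzs : (zs.1 : ℕ) = H - 1) (q : List (Letter H n D)) :
    mx (q ++ [zs]) = H - 1 := by
  induction q with
  | nil =>
    rw [List.nil_append, mx_cons]
    have := mx_le ([] : List (Letter H n D))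
    omega
  | cons z q ih =>
    rw [List.cons_append, mx_cons, ih]
    have := z.1.2
    omega

theorem Lg_sv_lt (hB : 2 ≤ B) {w : List (Letter H n D)} (h : Lg B χ w) : sv B w < B ^ H :=
  LangP_stv_lt (letterLP H n D B χ) hB h

theorem Lg_len_le (hB : 2 ≤ B) {w : List (Letter H n D)} (h : Lg B χ w) : w.length ≤ sv B w :=
  LangP_length_le (letterLP H n D B χ) hB h

/-- the loss factor -/
noncomputable def cc (B H n : ℕ) : ℝ := 1 - (B : ℝ) ^ H / n

theorem n_pos (hB : 4 ≤ B) (hn : 4 * B ^ (2 * H) ≤ n) : 0 < n := by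
  have : 0 < B ^ (2 * H) := by positivity
  omega

theorem eps_le (hB : 4 ≤ B) (hn : 4 * B ^ (2 * H) ≤ n) :
    (B : ℝ) ^ H / n ≤ 1 / (4 * (B : ℝ) ^ H) := by
  have h1 : (4 * (B : ℝ) ^ (2 * H)) ≤ n := by exact_mod_cast hn
  have h2 : (0 : ℝ) < B := by exact_mod_cast (by omega : 0 < B)
  have h3 : (0 : ℝ) < n := by exact_mod_cast n_pos hB hn
  rw [div_le_div_iff₀ h3 (by positivity)]
  calc (B : ℝ) ^ H * (4 * (B : ℝ) ^ H) = 4 * (B : ℝ) ^ (2 * H) := by ring
    _ ≤ 1 * n := by linarith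

theorem cc_le_one : cc B H n ≤ 1 := by
  unfold cc
  have : (0 : ℝ) ≤ (B : ℝ) ^ H / n := by positivity
  linarith

theorem cc_nonneg (hB : 4 ≤ B) (hn : 4 * B ^ (2 * H) ≤ n) : 0 ≤ cc B H n := by
  unfold cc
  have h1 := eps_le hB hn
  have h4 : (1 : ℝ) ≤ (B : ℝ) ^ H := one_le_pow₀ (by exact_mod_cast (by omega : 1 ≤ B))
  have h5 : 1 / (4 * (B : ℝ) ^ H) ≤ 1 := by
    rw [div_le_one (by positivity)]
    linarith
  linarith

theorem cc_pow (hB : 4 ≤ B) (hn : 4 * B ^ (2 * H) ≤ n) : 3 / 4 ≤ cc B H n ^ (B ^ H) := by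
  have h1 := eps_le hB hn
  have h4 : (1 : ℝ) ≤ (B : ℝ) ^ H := one_le_pow₀ (by exact_mod_cast (by omega : 1 ≤ B))
  have h0 := cc_nonneg (H := H) hB hn
  have h2 := one_add_mul_le_pow (a := -((B : ℝ) ^ H / n)) (by unfold cc at h0; linarith) (B ^ H)
  have h3 : (1 : ℝ) + -((B : ℝ) ^ H / n) = cc B H n := by unfold cc; ring
  rw [h3] at h2
  refine le_trans ?_ h2
  have h5 : (B : ℝ) ^ H * ((B : ℝ) ^ H / n) ≤ (B : ℝ) ^ H * (1 / (4 * (B : ℝ) ^ H)) :=
    mul_le_mul_of_nonneg_left h1 (by positivity)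
  have h6 : (B : ℝ) ^ H * (1 / (4 * (B : ℝ) ^ H)) = 1 / 4 := by
    field_simp
  push_cast
  nlinarith

/-- number of letters which can be prepended, as a real -/
theorem card_Zl_ge (hB : 4 ≤ B) (hn : 4 * B ^ (2 * H) ≤ n) (hχ : ∀ i w, χ i w < D)
    {w : List (Letter H n D)} (hw : Lg B χ w) {l : ℕ} (hl : l < H)
    (hd : sv B w / B ^ l % B ≠ B - 1) : (n : ℝ) * cc B H n ≤ ((Zl B χ w l).card : ℝ) := by
  have h1 := le_card_Zl hχ hw hl hd
  have h2 := Lg_len_le (by omega : 2 ≤ B) hw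
  have h3 := Lg_sv_lt (by omega : 2 ≤ B) hw
  have h4 : n ≤ (Zl B χ w l).card + B ^ H := by omega
  have h5 : (n : ℝ) ≤ ((Zl B χ w l).card : ℝ) + (B : ℝ) ^ H := by exact_mod_cast h4
  have h6 : (0 : ℝ) < n := by exact_mod_cast n_pos hB hn
  unfold cc
  rw [mul_sub, mul_div_cancel₀ _ h6.ne']
  linarith

/-- lower bound for `G` -/
theorem Gw_ge (hB : 4 ≤ B) (hn : 4 * B ^ (2 * H) ≤ n) (hχ : ∀ i w, χ i w < D) :
    ∀ (k : ℕ) (w : List (Letter H n D)), Lg B χ w → B ^ H ≤ sv B w + k →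
      cc B H n ^ (B ^ H - sv B w) * (Ph B H 0 (sv B w) : ℝ) ≤ Gw B χ w := by
  intro k
  have h0 := cc_nonneg (H := H) hB hn
  have h1 := cc_le_one (B := B) (H := H) (n := n)
  have hn0 : (0 : ℝ) < n := by exact_mod_cast n_pos hB hn
  have hB0 : (0 : ℝ) < B := by exact_mod_cast (by omega : 0 < B)
  induction k with
  | zero =>
    intro w hw hk
    have := Lg_sv_lt (by omega : 2 ≤ B) hw
    omega
  | succ k ih =>
    intro w hw hk
    rw [Gw_rec' hw, Ph_telescope (by omega : 2 ≤ B), mul_add, mul_one]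
    apply add_le_add
    · exact pow_le_one₀ h0 h1
    · rw [Finset.mul_sum]
      apply Finset.sum_le_sum
      intro l hl
      have hlH := Finset.mem_range.1 hl
      have hvlt := Lg_sv_lt (by omega : 2 ≤ B) hw
      by_cases hd : sv B w / B ^ l % B = B - 1
      · rw [hd]
        rw [show B - (B - 1) - 1 = 0 by omega]
        simp only [Nat.cast_zero, zero_mul, mul_zero]
        exact mul_nonneg (by positivity) (Finset.sum_nonneg (fun z _ => Gw_nonneg _))
      · have hlt := lt_stp (B := B) (l := l) (v := sv B w) (by omega)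
        have hlt2 := stp_lt (by omega : 2 ≤ B) hlH hvlt hd
        have h2 : ((Zl B χ w l).card : ℝ) *
            (cc B H n ^ (B ^ H - stp B l (sv B w)) * (Ph B H 0 (stp B l (sv B w)) : ℝ)) ≤
              ∑ z ∈ Zl B χ w l, Gw B χ (z :: w) := by
          rw [← nsmul_eq_mul]
          apply Finset.card_nsmul_le_sum
          intro z hz
          rw [mem_Zl] at hz
          have h3 := ih (z :: w) hz.2 (by rw [sv_cons, hz.1]; omega)
          rw [sv_cons, hz.1] at h3
          exact h3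
        have h3 := card_Zl_ge hB hn hχ hw hlH hd
        have h4 : 0 ≤ 1 / ((n : ℝ) * (B : ℝ) ^ l) := by positivity
        refine le_trans ?_ (mul_le_mul_of_nonneg_left h2 h4)
        have h5 : (0 : ℝ) ≤
            cc B H n ^ (B ^ H - stp B l (sv B w)) * (Ph B H 0 (stp B l (sv B w)) : ℝ) := by
          positivity
        refine le_trans ?_ (mul_le_mul_of_nonneg_left (mul_le_mul_of_nonneg_right h3 h5) h4)
        rw [Ph_stp (by omega) hlH hd]
        push_cast
        have h6 : 1 / ((n : ℝ) * (B : ℝ) ^ l) * ((n : ℝ) * cc B H n *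
            (cc B H n ^ (B ^ H - stp B l (sv B w)) *
              ((B : ℝ) ^ l * (((B - sv B w / B ^ l % B - 1 : ℕ) : ℝ) *
                (Ph B H (l + 1) (sv B w) : ℝ))))) =
            cc B H n ^ (B ^ H - stp B l (sv B w) + 1) *
              (((B - sv B w / B ^ l % B - 1 : ℕ) : ℝ) * (Ph B H (l + 1) (sv B w) : ℝ)) := by
          field_simp
          ring
        rw [h6]
        apply mul_le_mul_of_nonneg_right _ (by positivity)
        apply pow_le_pow_of_le_one h0 h1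
        omega

/-- weight of the words `q` with `sv (q ++ [zs]) = v` -/
noncomputable def Qv (B : ℕ) (χ : ℕ → List (Letter H n D) → ℕ) (zs : Letter H n D) (v : ℕ) : ℝ :=
  ∑ q ∈ (ext B χ [zs]).filter (fun q => sv B (q ++ [zs]) = v), wt H n D B q

theorem exists_val {B H v : ℕ} (hB : 2 ≤ B) (hv : 0 < v) (hv2 : v < B ^ H) :
    ∃ l t, l < H ∧ v = t * B ^ l ∧ t % B ≠ 0 := by
  have hex : ∃ l, ¬ B ^ (l + 1) ∣ v := by
    refine ⟨H, fun h => ?_⟩
    have h1 := Nat.le_of_dvd hv h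
    have h2 : B ^ H ≤ B ^ (H + 1) := Nat.pow_le_pow_right (by omega) (by omega)
    omega
  have h1 := Nat.find_spec hex
  set l := Nat.find hex with hl
  have h2 : B ^ l ∣ v := by
    rcases Nat.eq_zero_or_pos l with h | h
    · rw [h, pow_zero]; exact one_dvd _
    · have h3 := Nat.find_min hex (m := l - 1) (by omega)
      rw [not_not, Nat.sub_add_cancel h] at h3
      exact h3
  obtain ⟨t, ht⟩ := h2
  refine ⟨l, t, ?_, by rw [ht, mul_comm], ?_⟩
  · by_contra hlH
    push Not at hlH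
    have h4 : B ^ H ∣ v := (pow_dvd_pow B hlH).trans ⟨t, ht⟩
    have := Nat.le_of_dvd hv h4
    omega
  · intro hmod
    apply h1
    obtain ⟨u, hu⟩ := Nat.dvd_of_mod_eq_zero hmod
    exact ⟨u, by rw [ht, hu, pow_succ]; ring⟩

theorem stp_Ico {B l t v : ℕ} (hB : 2 ≤ B) (ht : t % B ≠ 0) (h1 : (t - 1) * B ^ l ≤ v)
    (h2 : v < t * B ^ l) : stp B l v = t * B ^ l ∧ v / B ^ l % B ≠ B - 1 := by
  have htp : 0 < t := by
    rcases Nat.eq_zero_or_pos t with h | h
    · rw [h] at ht; simp at ht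
    · exact h
  have h3 : v / B ^ l = t - 1 := by
    apply Nat.div_eq_of_lt_le h1
    rw [Nat.sub_add_cancel htp]
    exact h2
  constructor
  · unfold stp
    rw [h3, Nat.sub_add_cancel htp]
  · rw [h3]
    intro h4
    apply ht
    have h5 : t = (t - 1) + 1 := by omega
    rw [h5, Nat.add_mod, h4, Nat.mod_eq_of_lt (show 1 < B by omega),
      show B - 1 + 1 = B by omega, Nat.mod_self]

theorem sv_zs {zs : Letter H n D} (hzs : (zs.1 : ℕ) = H - 1) : sv B [zs] = B ^ (H - 1) := by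
  rw [sv_cons, sv_nil, hzs]
  simp [stp]

theorem Lg_zs (hB : 4 ≤ B) {zs : Letter H n D} (hzs0 : ∀ i, (zs.2.2 i : ℕ) = 0) :
    Lg B χ [zs] := by
  rw [Lg_cons]
  refine ⟨Lg_nil, by simp, ?_, ?_, fun i _ => hzs0 i⟩
  · rw [sv_nil]
    simp
    omega
  · rintro i _ _ ⟨b, hb, _⟩
    exact absurd hb List.not_mem_nil

theorem Qv_ge (hH : 1 ≤ H) (hB : 4 ≤ B) (hn : 4 * B ^ (2 * H) ≤ n) (hχ : ∀ i w, χ i w < D)
    {zs : Letter H n D} (hzs : (zs.1 : ℕ) = H - 1) (hzs0 : ∀ i, (zs.2.2 i : ℕ) = 0) :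
    ∀ v, B ^ (H - 1) ≤ v → v < B ^ H → cc B H n ^ v ≤ Qv B χ zs v := by
  have h0 := cc_nonneg (H := H) hB hn
  have h1 := cc_le_one (B := B) (H := H) (n := n)
  have hn0 : (0 : ℝ) < n := by exact_mod_cast n_pos hB hn
  have hB0 : (0 : ℝ) < B := by exact_mod_cast (by omega : 0 < B)
  intro v
  induction v using Nat.strong_induction_on with
  | _ v ih =>
  intro hv1 hv2
  rcases hv1.eq_or_lt with hv | hv
  · -- the base case
    have h2 : ([] : List (Letter H n D)) ∈
        (ext B χ [zs]).filter (fun q => sv B (q ++ [zs]) = v) := by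
      rw [Finset.mem_filter, mem_ext, List.nil_append]
      exact ⟨Lg_zs hB hzs0, by rw [sv_zs hzs, hv]⟩
    have h3 := Finset.single_le_sum (f := fun q => wt H n D B q) (fun q _ => wt_nonneg q) h2
    simp only [wt_nil] at h3
    exact (pow_le_one₀ h0 h1).trans h3
  · obtain ⟨l, t, hlH, hvt, htm⟩ := exists_val (by omega : 2 ≤ B) (by omega : 0 < v) hv2
    have hBl : 0 < B ^ l := by positivity
    have htp : 0 < t := by
      rcases Nat.eq_zero_or_pos t with h | h
      · rw [h] at htm; simp at htm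
      · exact h
    -- the interval of predecessors
    have hlow : B ^ (H - 1) ≤ (t - 1) * B ^ l := by
      have h3 : B ^ (H - 1) = B ^ (H - 1 - l) * B ^ l := by
        rw [← pow_add]; congr 1; omega
      rw [h3]
      apply Nat.mul_le_mul_right
      have h4 : B ^ (H - 1 - l) * B ^ l < t * B ^ l := by rw [← h3, ← hvt]; exact hv
      have := Nat.lt_of_mul_lt_mul_right h4
      omega
    let I : Finset ℕ := Finset.Ico ((t - 1) * B ^ l) (t * B ^ l)
    let A := ((ext B χ [zs]).filter (fun q => sv B (q ++ [zs]) ∈ I)).sigma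
      (fun q => Zl B χ (q ++ [zs]) l)
    have hA : ∑ x ∈ A, wt H n D B (x.2 :: x.1) ≤ Qv B χ zs v := by
      have hinj : Set.InjOn (fun x : (_ : List (Letter H n D)) × Letter H n D => x.2 :: x.1)
          (A : Set ((_ : List (Letter H n D)) × Letter H n D)) := by
        rintro ⟨a, b⟩ _ ⟨a', b'⟩ _ hab
        simp only [List.cons.injEq] at hab
        obtain ⟨rfl, rfl⟩ := hab
        rfl
      rw [← Finset.sum_image (f := fun q => wt H n D B q) hinj]
      apply Finset.sum_le_sum_of_subset_of_nonneg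
      · intro p hp
        obtain ⟨⟨q, z⟩, hx, rfl⟩ := Finset.mem_image.1 hp
        obtain ⟨hq, hz⟩ := Finset.mem_sigma.1 hx
        obtain ⟨hq1, hq2⟩ := Finset.mem_filter.1 hq
        rw [mem_Zl] at hz
        rw [Finset.mem_filter, mem_ext]
        refine ⟨hz.2, ?_⟩
        show sv B (z :: (q ++ [zs])) = v
        have hI := Finset.mem_Ico.1 hq2
        rw [sv_cons, hz.1]
        simp only at hI ⊢
        rw [(stp_Ico (by omega) htm hI.1 hI.2).1, hvt]
      · intro q _ _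
        exact wt_nonneg q
    refine le_trans ?_ hA
    rw [Finset.sum_sigma]
    have h5 : ∀ q ∈ (ext B χ [zs]).filter (fun q => sv B (q ++ [zs]) ∈ I),
        cc B H n / (B : ℝ) ^ l * wt H n D B q ≤
          ∑ z ∈ Zl B χ (q ++ [zs]) l, wt H n D B (z :: q) := by
      intro q hq
      obtain ⟨hq1, hq2⟩ := Finset.mem_filter.1 hq
      rw [mem_ext] at hq1
      have hI := Finset.mem_Ico.1 hq2
      have hd := (stp_Ico (by omega) htm hI.1 hI.2).2
      have h6 : ∑ z ∈ Zl B χ (q ++ [zs]) l, wt H n D B (z :: q) =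
          ((Zl B χ (q ++ [zs]) l).card : ℝ) * (1 / ((n : ℝ) * (B : ℝ) ^ l) * wt H n D B q) := by
        rw [← nsmul_eq_mul, ← Finset.sum_const]
        apply Finset.sum_congr rfl
        intro z hz
        rw [mem_Zl] at hz
        rw [wt_cons, wt1, hz.1]
      rw [h6]
      have h7 := card_Zl_ge hB hn hχ hq1 hlH hd
      have h8 : 0 ≤ 1 / ((n : ℝ) * (B : ℝ) ^ l) * wt H n D B q :=
        mul_nonneg (by positivity) (wt_nonneg q)
      refine le_trans (le_of_eq ?_) (mul_le_mul_of_nonneg_right h7 h8)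
      field_simp
    refine le_trans ?_ (Finset.sum_le_sum h5)
    rw [← Finset.mul_sum]
    have h9 : ∑ q ∈ (ext B χ [zs]).filter (fun q => sv B (q ++ [zs]) ∈ I), wt H n D B q =
        ∑ v' ∈ I, Qv B χ zs v' := by
      rw [← Finset.sum_fiberwise_of_maps_to (s := (ext B χ [zs]).filter
        (fun q => sv B (q ++ [zs]) ∈ I)) (t := I) (g := fun q => sv B (q ++ [zs]))
        (fun q hq => (Finset.mem_filter.1 hq).2)]
      apply Finset.sum_congr rfl
      intro v' hv'
      unfold Qv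
      apply Finset.sum_congr _ (fun _ _ => rfl)
      ext q
      simp only [Finset.mem_filter]
      constructor
      · rintro ⟨⟨a, _⟩, b⟩
        exact ⟨a, b⟩
      · rintro ⟨a, b⟩
        exact ⟨⟨a, by rw [b]; exact hv'⟩, b⟩
    rw [h9]
    have h10 : ∀ v' ∈ I, cc B H n ^ (v - 1) ≤ Qv B χ zs v' := by
      intro v' hv'
      have hI := Finset.mem_Ico.1 hv'
      rw [← hvt] at hI
      refine le_trans ?_ (ih v' hI.2 (hlow.trans hI.1) (hI.2.trans hv2))
      apply pow_le_pow_of_le_one h0 h1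
      omega
    have h11 := Finset.card_nsmul_le_sum I _ _ h10
    have h12 : I.card = B ^ l := by
      simp only [I, Nat.card_Ico]
      rw [← Nat.sub_mul, show t - (t - 1) = 1 by omega, one_mul]
    rw [h12, nsmul_eq_mul] at h11
    refine le_trans (le_of_eq ?_) (mul_le_mul_of_nonneg_left h11 (by positivity))
    have h13 : cc B H n ^ v = cc B H n ^ (v - 1) * cc B H n := by
      rw [← pow_succ]; congr 1; omega
    rw [h13]
    push_cast
    field_simp

/-- the pairs with different last letters -/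
noncomputable def Aw (B : ℕ) (χ : ℕ → List (Letter H n D) → ℕ) (w : List (Letter H n D)) : ℝ :=
  ∑ p ∈ ext B χ w, ∑ r ∈ ext B χ w,
    if p.getLast? ≠ r.getLast? then wt H n D B p * wt H n D B r else 0

theorem Aw_nonneg (w : List (Letter H n D)) : 0 ≤ Aw B χ w := by
  unfold Aw
  apply Finset.sum_nonneg
  intro p _
  apply Finset.sum_nonneg
  intro r _
  split_ifs
  · exact mul_nonneg (wt_nonneg p) (wt_nonneg r)
  · exact le_rfl

theorem Gw_le' (hB : 2 ≤ B) (hD : 1 ≤ D) {w : List (Letter H n D)} (hw : mx w = H - 1) :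
    Gw B χ w ≤ (Ph B H 0 (sv B w) : ℝ) := by
  have := Gw_le (χ := χ) hB hD (n + 1) w (by omega)
  rw [hw, Nat.sub_self, pow_zero, one_mul] at this
  exact this

theorem Aw_ge (hB : 4 ≤ B) (hD : 1 ≤ D) (hn : 4 * B ^ (2 * H) ≤ n) (hχ : ∀ i w, χ i w < D)
    {w : List (Letter H n D)} (hL : Lg B χ w) (hw : mx w = H - 1) :
    9 / 16 * (Ph B H 0 (sv B w) : ℝ) ^ 2 - 5 / 4 ≤ Aw B χ w := by
  have hn0 : (0 : ℝ) < n := by exact_mod_cast n_pos hB hn
  have hB0 : (0 : ℝ) < B := by exact_mod_cast (by omega : 0 < B)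
  have hP : (Ph B H 0 (sv B w) : ℝ) ≤ (B : ℝ) ^ H := by
    have := Ph_le (B := B) (H := H) (l := 0) (v := sv B w)
    exact_mod_cast this
  -- the sum over all the pairs
  have h1 : Aw B χ w = Gw B χ w ^ 2 - ∑ p ∈ ext B χ w, wt H n D B p *
      ∑ r ∈ (ext B χ w).filter (fun r => r.getLast? = p.getLast?), wt H n D B r := by
    have h2 : Gw B χ w ^ 2 = ∑ p ∈ ext B χ w, ∑ r ∈ ext B χ w, wt H n D B p * wt H n D B r := by
      rw [sq, Gw, Finset.sum_mul_sum]
    rw [h2, ← Finset.sum_sub_distrib, Aw]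
    apply Finset.sum_congr rfl
    intro p _
    rw [Finset.mul_sum, Finset.sum_filter, ← Finset.sum_sub_distrib]
    apply Finset.sum_congr rfl
    intro r _
    by_cases h : p.getLast? = r.getLast?
    · rw [if_neg (not_not.2 h), if_pos h.symm]; ring
    · rw [if_pos h, if_neg (fun h' => h h'.symm)]; ring
  -- the diagonal terms
  have h2 : ∀ p ∈ ext B χ w, wt H n D B p *
      ∑ r ∈ (ext B χ w).filter (fun r => r.getLast? = p.getLast?), wt H n D B r ≤
      (if p = [] then 1 else 0) + wt H n D B p * ((B : ℝ) ^ H / n) := by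
    intro p hp
    by_cases hp0 : p = []
    · subst hp0
      rw [if_pos rfl, wt_nil, List.getLast?_nil, ext_none hL, Finset.sum_singleton, wt_nil]
      have : (0 : ℝ) ≤ 1 * ((B : ℝ) ^ H / n) := by positivity
      linarith
    · rw [if_neg hp0, zero_add]
      apply mul_le_mul_of_nonneg_left _ (wt_nonneg p)
      obtain ⟨z, hz⟩ := Option.ne_none_iff_exists'.1 (fun h => hp0 (List.getLast?_eq_none_iff.1 h))
      rw [hz, sum_some]
      by_cases hLz : Lg B χ (z :: w)
      swap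
      · rw [Gw_eq_zero hLz, mul_zero]; positivity
      have h3 : mx (z :: w) = H - 1 := by
        rw [mx_cons, hw]
        have := z.1.2
        omega
      have h4 := Gw_le' (χ := χ) (by omega : 2 ≤ B) hD h3
      have hd := (Lg_cons.1 hLz).2.2.1
      rw [sv_cons] at h4
      have h5 : (Ph B H 0 (stp B z.1 (sv B w)) : ℝ) ≤ (B : ℝ) ^ (z.1 : ℕ) * (Ph B H 0 (sv B w) : ℝ) := by
        exact_mod_cast Ph_stp_le (by omega) z.1.2 hd
      calc wt1 B z * Gw B χ (z :: w)
          ≤ wt1 B z * ((B : ℝ) ^ (z.1 : ℕ) * (B : ℝ) ^ H) := by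
            apply mul_le_mul_of_nonneg_left _ (wt1_nonneg z)
            refine h4.trans (h5.trans ?_)
            exact mul_le_mul_of_nonneg_left hP (by positivity)
        _ = (B : ℝ) ^ H / n := by
            unfold wt1
            field_simp
  have h3 : ∑ p ∈ ext B χ w, wt H n D B p *
      ∑ r ∈ (ext B χ w).filter (fun r => r.getLast? = p.getLast?), wt H n D B r ≤ 5 / 4 := by
    refine (Finset.sum_le_sum h2).trans ?_
    rw [Finset.sum_add_distrib, ← Finset.sum_mul]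
    have h4 : ∑ p ∈ ext B χ w, (if p = [] then (1 : ℝ) else 0) ≤ 1 := by
      rw [Finset.sum_ite_eq']
      split_ifs <;> norm_num
    have h5 : ∑ p ∈ ext B χ w, wt H n D B p ≤ (B : ℝ) ^ H :=
      (Gw_le' (χ := χ) (by omega : 2 ≤ B) hD hw).trans hP
    have h6 := eps_le (H := H) hB hn
    have h7 : (∑ p ∈ ext B χ w, wt H n D B p) * ((B : ℝ) ^ H / n) ≤
        (B : ℝ) ^ H * (1 / (4 * (B : ℝ) ^ H)) :=
      mul_le_mul h5 h6 (by positivity) (by positivity)
    have h8 : (B : ℝ) ^ H * (1 / (4 * (B : ℝ) ^ H)) = 1 / 4 := by field_simp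
    linarith
  have h4 : 3 / 4 * (Ph B H 0 (sv B w) : ℝ) ≤ Gw B χ w := by
    refine le_trans ?_ (Gw_ge hB hn hχ (B ^ H) w hL (by omega))
    apply mul_le_mul_of_nonneg_right _ (by positivity)
    refine (cc_pow hB hn).trans ?_
    exact pow_le_pow_of_le_one (cc_nonneg hB hn) cc_le_one (Nat.sub_le _ _)
  have h5 : (3 / 4 * (Ph B H 0 (sv B w) : ℝ)) ^ 2 ≤ Gw B χ w ^ 2 :=
    pow_le_pow_left₀ (by positivity) h4 2
  rw [h1]
  nlinarith

/-- (L3).  `c := 1 - B^H/n` (words of `𝓛` have length `≤ stv < B^H`), `c^(B^H) ≥ 3/4`.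
(i) `G(w) ≥ c^(B^H - stv w) Φ(stv w)` for `w ∈ 𝓛` containing a letter of level `H-1` (same recursion,
with at least `n - |w|` fresh identifiers and `stv (z :: w) > stv w`).
(ii) `Q(v) := ∑_{q : q ++ [zs] ∈ 𝓛, stv (q ++ [zs]) = v} wt q ≥ c^v` for
`B^(H-1) ≤ v < B^H`: strong induction on `v`; `Q(B^(H-1)) ≥ 1` (`q = []`); for `v > B^(H-1)` let `B^l ∣ v`,
`¬ B^(l+1) ∣ v`; the last (leftmost) letter has level `l` and `Q(v) ≥ c B^(-l) ∑_{v - B^l ≤ v' < v} Q(v')`.
(iii) for given `q` with `v = stv (q ++ [zs])`: `∑_{p,r, last p ≠ last r} wt p wt r ≥ G² - 1 - ∑_z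
(wt z G(z :: w))² ≥ (9/16) Φ(v)² - 5/4` (and it is `≥ 0`).
(iv) `∑_{B^(H-1) ≤ v < B^H} Φ(v)² = (∑_{k=1}^{B} k²)^(H-1) ∑_{k=1}^{B-1} k²`. -/
theorem lower_L3 (hH : 1 ≤ H) (hB : 4 ≤ B) (hD : 1 ≤ D) (hn : 4 * B ^ (2 * H) ≤ n)
    (hχ : ∀ i w, χ i w < D) (zs : Letter H n D) (hzs : (zs.1 : ℕ) = H - 1)
    (hzs0 : ∀ i, (zs.2.2 i : ℕ) = 0) (PP SS : Finset (List (Letter H n D)))
    (hPP : ∀ p, p ∈ PP ↔ LangP (letterLP H n D B χ) p)
    (hSS : ∀ s, s ∈ SS ↔ LangP (letterLP H n D B χ) (s ++ [zs])) :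
    ((B : ℝ) / 2) ^ (3 * H) / 16 ≤ ∑ p ∈ PP, ∑ q ∈ PP, ∑ r ∈ PP,
      if (p ++ q ∈ SS ∧ r ++ q ∈ SS ∧ p.getLast? ≠ r.getLast?)
        then wt H n D B p * wt H n D B q * wt H n D B r else 0 := by
  have hpre : ∀ {a b : List (Letter H n D)}, Lg B χ (a ++ b) → Lg B χ a := fun h =>
    LangP_prefix (letterLP H n D B χ) (show 2 ≤ B by omega) h
  have hSSe : SS = ext B χ [zs] := by
    ext s
    rw [hSS, mem_ext]
  have hsub : ext B χ [zs] ⊆ PP := by
    intro s hs
    rw [mem_ext] at hs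
    rw [hPP]
    exact hpre hs
  -- reorder the sum
  rw [Finset.sum_comm]
  have h1 : ∑ q ∈ ext B χ [zs], wt H n D B q * Aw B χ (q ++ [zs]) ≤
      ∑ q ∈ PP, ∑ p ∈ PP, ∑ r ∈ PP,
      if (p ++ q ∈ SS ∧ r ++ q ∈ SS ∧ p.getLast? ≠ r.getLast?)
        then wt H n D B p * wt H n D B q * wt H n D B r else 0 := by
    have hnn : ∀ p q r : List (Letter H n D), (0 : ℝ) ≤
        if (p ++ q ∈ SS ∧ r ++ q ∈ SS ∧ p.getLast? ≠ r.getLast?)
        then wt H n D B p * wt H n D B q * wt H n D B r else 0 := by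
      intro p q r
      split_ifs
      · exact mul_nonneg (mul_nonneg (wt_nonneg p) (wt_nonneg q)) (wt_nonneg r)
      · exact le_rfl
    refine le_trans ?_ (Finset.sum_le_sum_of_subset_of_nonneg hsub
      (fun q _ _ => Finset.sum_nonneg (fun p _ => Finset.sum_nonneg (fun r _ => hnn p q r))))
    apply Finset.sum_le_sum
    intro q hq
    have hsub2 : ext B χ (q ++ [zs]) ⊆ PP := by
      intro s hs
      rw [mem_ext] at hs
      rw [hPP]
      exact hpre hs
    refine le_trans ?_ (Finset.sum_le_sum_of_subset_of_nonneg hsub2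
      (fun p _ _ => Finset.sum_nonneg (fun r _ => hnn p q r)))
    rw [Aw, Finset.mul_sum]
    apply Finset.sum_le_sum
    intro p hp
    refine le_trans ?_ (Finset.sum_le_sum_of_subset_of_nonneg hsub2
      (fun r _ _ => hnn p q r))
    rw [Finset.mul_sum]
    apply Finset.sum_le_sum
    intro r hr
    rw [mem_ext] at hp hr
    have hp' : p ++ q ∈ SS := by rw [hSS, List.append_assoc]; exact hp
    have hr' : r ++ q ∈ SS := by rw [hSS, List.append_assoc]; exact hr
    by_cases h : p.getLast? = r.getLast?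
    · rw [if_neg (not_not.2 h), mul_zero]
      exact hnn p q r
    · rw [if_pos h, if_pos ⟨hp', hr', h⟩]
      apply le_of_eq
      ring
  refine le_trans ?_ h1
  -- group by the odometer value
  let I : Finset ℕ := Finset.Ico (B ^ (H - 1)) (B ^ H)
  have h2 : ∑ v ∈ I, 3 / 4 * (9 / 16 * (Ph B H 0 v : ℝ) ^ 2 - 5 / 4) ≤
      ∑ q ∈ ext B χ [zs], wt H n D B q * Aw B χ (q ++ [zs]) := by
    have h3 : ∑ q ∈ (ext B χ [zs]).filter (fun q => sv B (q ++ [zs]) ∈ I),
        wt H n D B q * Aw B χ (q ++ [zs]) ≤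
        ∑ q ∈ ext B χ [zs], wt H n D B q * Aw B χ (q ++ [zs]) :=
      Finset.sum_le_sum_of_subset_of_nonneg (Finset.filter_subset _ _)
        (fun q _ _ => mul_nonneg (wt_nonneg q) (Aw_nonneg _))
    refine le_trans ?_ h3
    rw [← Finset.sum_fiberwise_of_maps_to (s := (ext B χ [zs]).filter
        (fun q => sv B (q ++ [zs]) ∈ I)) (t := I) (g := fun q => sv B (q ++ [zs]))
        (fun q hq => (Finset.mem_filter.1 hq).2)]
    apply Finset.sum_le_sum
    intro v hv
    have hvI := Finset.mem_Ico.1 hv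
    have hQ := Qv_ge hH hB hn hχ hzs hzs0 v hvI.1 hvI.2
    have hc : 3 / 4 ≤ Qv B χ zs v := by
      refine (cc_pow hB hn).trans (le_trans ?_ hQ)
      exact pow_le_pow_of_le_one (cc_nonneg hB hn) cc_le_one hvI.2.le
    let x : ℝ := max 0 (9 / 16 * (Ph B H 0 v : ℝ) ^ 2 - 5 / 4)
    have h4 : Qv B χ zs v * x ≤ ∑ q ∈ ((ext B χ [zs]).filter
        (fun q => sv B (q ++ [zs]) ∈ I)).filter (fun q => sv B (q ++ [zs]) = v),
        wt H n D B q * Aw B χ (q ++ [zs]) := by
      have h5 : ((ext B χ [zs]).filter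
        (fun q => sv B (q ++ [zs]) ∈ I)).filter (fun q => sv B (q ++ [zs]) = v) =
        (ext B χ [zs]).filter (fun q => sv B (q ++ [zs]) = v) := by
        ext q
        simp only [Finset.mem_filter]
        constructor
        · rintro ⟨⟨a, _⟩, b⟩
          exact ⟨a, b⟩
        · rintro ⟨a, b⟩
          exact ⟨⟨a, by rw [b]; exact hv⟩, b⟩
      rw [h5, Qv, Finset.sum_mul]
      apply Finset.sum_le_sum
      intro q hq
      obtain ⟨hq1, hq2⟩ := Finset.mem_filter.1 hq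
      rw [mem_ext] at hq1
      apply mul_le_mul_of_nonneg_left _ (wt_nonneg q)
      apply max_le (Aw_nonneg _)
      have := Aw_ge hB hD hn hχ hq1 (mx_append_zs hzs q)
      rw [hq2] at this
      exact this
    refine le_trans ?_ h4
    have hx0 : 0 ≤ x := le_max_left _ _
    have hx1 : 9 / 16 * (Ph B H 0 v : ℝ) ^ 2 - 5 / 4 ≤ x := le_max_right _ _
    nlinarith
  refine le_trans ?_ h2
  obtain ⟨H', rfl⟩ : ∃ H', H = H' + 1 := ⟨H - 1, by omega⟩
  have h5 := sum_Ph_sq B hB H'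
  have h6 : ∑ v ∈ I, 3 / 4 * (9 / 16 * (Ph B (H' + 1) 0 v : ℝ) ^ 2 - 5 / 4) =
      27 / 64 * ∑ v ∈ I, (Ph B (H' + 1) 0 v : ℝ) ^ 2 - 15 / 16 * (I.card : ℝ) := by
    rw [Finset.mul_sum, ← nsmul_one I.card, ← Finset.sum_const, Finset.mul_sum,
      ← Finset.sum_sub_distrib]
    apply Finset.sum_congr rfl
    intro v _
    ring
  rw [h6]
  have h7 : (I.card : ℝ) ≤ (B : ℝ) ^ (H' + 1) := by
    have : I.card ≤ B ^ (H' + 1) := by
      simp only [I, Nat.card_Ico]
      exact Nat.sub_le _ _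
    exact_mod_cast this
  have h8 : I = Finset.Ico (B ^ H') (B ^ (H' + 1)) := by
    simp [I]
  rw [h8] at h7 ⊢
  have h9 : (0 : ℝ) ≤ ((B : ℝ) / 2) ^ (3 * (H' + 1)) := by positivity
  have h10 : (0 : ℝ) ≤ (B : ℝ) ^ (H' + 1) := by positivity
  linarith

end RDCE
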