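import Pool.Agent.H23.CE.Hash
import Pool.Agent.H23.CE.Lang
import Pool.Agent.H23.CE.Lower
import Pool.Agent.H23.CE.GroupSide

/-! # The concrete family of languages -/

open Finset Classical

namespace RDCE

section singles

variable {β : Type}

theorem exists_singles (𝔖 : Sys β) (hM : 1 ≤ 𝔖.M) :
    ∃ 𝔗 : Sys β, 𝔗.lev = 𝔖.lev ∧ 𝔗.H = 𝔖.H ∧ 𝔗.M = 𝔖.M ∧ 𝔗.Λ = 𝔖.Λ ∧
      𝔗.mem = fun w => 𝔖.mem w ∨ (w.length ≤ 1 ∧ ∀ b ∈ w, ∃ k, k < 𝔖.H ∧ 𝔖.lev b = some k) := by
  refine ⟨{ lev := 𝔖.lev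
            H := 𝔖.H
            M := 𝔖.M
            Λ := 𝔖.Λ
            δ := 𝔖.δ
            mem := fun w => 𝔖.mem w ∨
              (w.length ≤ 1 ∧ ∀ b ∈ w, ∃ k, k < 𝔖.H ∧ 𝔖.lev b = some k)
            ok := 𝔖.ok
            H_pos := 𝔖.H_pos
            δ_pos := 𝔖.δ_pos
            δ_le := 𝔖.δ_le
            δ_sq := 𝔖.δ_sq
            mem_prefix := ?_
            mem_suffix := ?_
            mem_nodup := ?_
            mem_lev := ?_
            mem_count := ?_
            mem_ok := ?_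
            pr := 𝔖.pr }, rfl, rfl, rfl, rfl, rfl⟩
  · rintro a b (h | ⟨h1, h2⟩)
    · exact Or.inl (𝔖.mem_prefix h)
    · refine Or.inr ⟨?_, fun x hx => h2 x (by simp [hx])⟩
      rw [List.length_append] at h1; omega
  · rintro a b (h | ⟨h1, h2⟩)
    · exact Or.inl (𝔖.mem_suffix h)
    · refine Or.inr ⟨?_, fun x hx => h2 x (by simp [hx])⟩
      rw [List.length_append] at h1; omega
  · rintro a (h | ⟨h1, h2⟩)
    · exact 𝔖.mem_nodup h
    · rcases a with _ | ⟨x, _ | ⟨y, a⟩⟩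
      · simp
      · simp
      · simp at h1
  · rintro a (h | ⟨h1, h2⟩)
    · exact 𝔖.mem_lev h
    · exact h2
  · rintro a (h | ⟨h1, h2⟩) j hj
    · exact 𝔖.mem_count h j hj
    · exact (List.countP_le_length).trans (h1.trans hM)
  · intro l hl hl' p₀ z u v z' q₀ h huv hz hz'
    rcases h with h | ⟨h1, h2⟩
    · exact 𝔖.mem_ok l hl hl' p₀ z u v z' q₀ h huv hz hz'
    · exfalso
      simp at h1

end singles

section transport

variable {β γ : Type}

/-- transport of the language along a map of letters -/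
theorem LangP_map (P : LP β) (Q : LP γ) (e : γ → β) (hlev : ∀ z, P.lev (e z) = Q.lev z)
    (hcol : ∀ z, P.col (e z) = Q.col z) (hidn : ∀ z, P.idn (e z) = Q.idn z)
    (hB : P.B = Q.B) (hH : P.H = Q.H) (hχ : ∀ i w, Q.χ i w = P.χ i (w.map e)) (w : List γ) :
    LangP Q w ↔ LangP P (w.map e) := by
  have hstv : ∀ w : List γ, stv P.lev P.B (w.map e) = stv Q.lev Q.B w := by
    rw [hB]
    intro w
    induction w with
    | nil => rfl
    | cons z w ih => simp only [List.map_cons, stv, ih, hlev]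
  have hlow : ∀ l z, low P.lev l (e z) = low Q.lev l z := by
    intro l z; unfold low; rw [hlev]
  have hmark : ∀ l z, mark P.lev l (e z) ↔ mark Q.lev l z := by
    intro l z; unfold mark; rw [hlev]
  have hrh : ∀ l (w : List γ), rh P.lev l (w.map e) = (rh Q.lev l w).map e := by
    intro l w
    unfold rh
    rw [List.takeWhile_map]
    congr 2
    funext z; exact hlow l z
  induction w with
  | nil => exact Iff.rfl
  | cons z w ih =>
    have h1 : P.idn (e z) ∉ (w.map e).map P.idn ↔ Q.idn z ∉ w.map Q.idn := by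
      rw [List.map_map, hidn]
      have : (P.idn ∘ e) = Q.idn := by funext x; exact hidn x
      rw [this]
    have h2 : ∀ i, (∃ b ∈ w.map e, mark P.lev i b) ↔ (∃ b ∈ w, mark Q.lev i b) := by
      intro i
      constructor
      · rintro ⟨b, hb, hm⟩
        obtain ⟨b', hb', rfl⟩ := List.mem_map.1 hb
        exact ⟨b', hb', (hmark i b').1 hm⟩
      · rintro ⟨b, hb, hm⟩
        exact ⟨e b, List.mem_map_of_mem hb, (hmark i b).2 hm⟩
    show (LangP Q w ∧ _ ∧ _) ↔ (LangP P (w.map e) ∧ _ ∧ _)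
    refine and_congr ih (and_congr h1.symm ?_)
    rw [hstv]
    simp only [hlev, hB, hH, hcol, h2, hrh, ← hχ]

end transport

/-! ### parameters -/

def pB (h : ℕ) : ℕ := 4 ^ (h + 1)
def pD (h : ℕ) : ℕ := 2 ^ (h + 2)
def pn (h : ℕ) : ℕ := 4 * pB h ^ (2 * (h + 1))
def pK (h : ℕ) : ℕ := pB h ^ (h + 1)

/-- alphabet of the free group -/
abbrev Al : Type := Σ h : ℕ, Letter (h + 1) (pn h) (pD h)
abbrev Be : Type := Al × Bool

noncomputable def levB (h : ℕ) (b : Be) : Option ℕ :=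
  if b.1.1 = h ∧ b.2 = true then some (b.1.2.1 : ℕ) else none
def colB (b : Be) (i : ℕ) : ℕ :=
  if hi : i < b.1.1 + 1 then (b.1.2.2.2 ⟨i, hi⟩ : ℕ) else 0
def idnB (b : Be) : ℕ := b.1.2.2.1
def embB (h : ℕ) (z : Letter (h + 1) (pn h) (pD h)) : Be := (⟨h, z⟩, true)
noncomputable def AB (h : ℕ) : Finset Be := Finset.univ.image (embB h)

noncomputable def pL (h : ℕ) : ℕ :=
  (2 * pK h + 1) * ((AB h).card + 1) * ((pK h + 2) * (Nat.log 2 ((AB h).card + 1) + 1)
      + Nat.log 2 (h + 1) + 10)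

lemma levB_mem (h : ℕ) (b : Be) (k : ℕ) (hb : levB h b = some k) : b ∈ AB h := by
  unfold levB at hb
  split_ifs at hb with h1
  obtain ⟨⟨h', z⟩, s⟩ := b
  obtain ⟨rfl, rfl⟩ := h1
  exact Finset.mem_image.2 ⟨z, Finset.mem_univ _, rfl⟩

def hash_h (h : ℕ) := exists_hash (AB h) (levB h) colB (h + 1) (pD h) (pK h) (pL h)
  (levB_mem h) (by unfold pD; have : 1 ≤ 2 ^ (h + 1) := Nat.one_le_two_pow
                   rw [pow_succ]; omega) (le_refl _)

noncomputable def χB (h : ℕ) : ℕ → List Be → ℕ := Classical.choose (hash_h h)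

lemma χB_lt (h : ℕ) : ∀ l w, χB h l w < pD h := (Classical.choose_spec (hash_h h)).1

noncomputable def PB (h : ℕ) : LP Be where
  lev := levB h
  col := colB
  idn := idnB
  χ := χB h
  B := pB h
  H := h + 1

def sys_h (h : ℕ) := exists_posSys (PB h) (Nat.succ_pos h) rfl (pL h)
  ((Classical.choose_spec (hash_h h)).2)

noncomputable def sys0 (h : ℕ) : Sys Be := Classical.choose (sys_h h)

lemma sys0_spec (h : ℕ) : (sys0 h).lev = levB h ∧ (sys0 h).H = h + 1 ∧ (sys0 h).M + 1 = pB h ∧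
    (sys0 h).Λ = pL h ∧ (sys0 h).mem = LangP (PB h) := Classical.choose_spec (sys_h h)

lemma sys0_M (h : ℕ) : 1 ≤ (sys0 h).M := by
  have h1 := (sys0_spec h).2.2.1
  have h2 : 4 ≤ pB h := by
    unfold pB
    have : 1 ≤ 4 ^ h := Nat.one_le_pow _ _ (by norm_num)
    rw [pow_succ]; omega
  omega

def sys1_h (h : ℕ) := exists_singles (sys0 h) (sys0_M h)

noncomputable def sys1 (h : ℕ) : Sys Be := Classical.choose (sys1_h h)

lemma sys1_spec (h : ℕ) : (sys1 h).lev = levB h ∧ (sys1 h).H = h + 1 ∧ (sys1 h).M + 1 = pB h ∧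
    (sys1 h).Λ = pL h ∧ (sys1 h).mem = fun w => LangP (PB h) w ∨ (w.length ≤ 1 ∧
      ∀ b ∈ w, ∃ k, k < h + 1 ∧ levB h b = some k) := by
  obtain ⟨h1, h2, h3, h4, h5⟩ := Classical.choose_spec (sys1_h h)
  obtain ⟨g1, g2, g3, g4, g5⟩ := sys0_spec h
  refine ⟨h1.trans g1, h2.trans g2, ?_, h4.trans g4, ?_⟩
  · rw [← g3]; exact congrArg (· + 1) h3
  · refine h5.trans ?_
    rw [g5, g2, g1]

def sys2_h (h : ℕ) := exists_mirror (sys1 h) finv finv_finv

noncomputable def sys2 (h : ℕ) : Sys Be := Classical.choose (sys2_h h)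

lemma sys2_spec (h : ℕ) : (sys2 h).lev = (fun b => (sys1 h).lev (finv b)) ∧
    (sys2 h).H = (sys1 h).H ∧ (sys2 h).M = (sys1 h).M ∧ (sys2 h).Λ = (sys1 h).Λ ∧
      (sys2 h).mem = (fun w => (sys1 h).mem (w.map finv).reverse) :=
  Classical.choose_spec (sys2_h h)

/-- the system of the class `(h, sign)` -/
noncomputable def sysB (c : ℕ × Bool) : Sys Be := if c.2 = true then sys1 c.1 else sys2 c.1

lemma langP_nil {β : Type} (P : LP β) : LangP P [] := trivial

lemma sys1_mem_nil (h : ℕ) : (sys1 h).mem [] := by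
  rw [(sys1_spec h).2.2.2.2]; exact Or.inl (langP_nil _)

lemma sys1_cls (h : ℕ) (w : List Be) (hw : (sys1 h).mem w) : ∀ b ∈ w, b.1.1 = h ∧ b.2 = true := by
  intro b hb
  obtain ⟨k, -, hk⟩ := (sys1 h).mem_lev hw b hb
  rw [(sys1_spec h).1] at hk
  unfold levB at hk
  split_ifs at hk with h1
  exact h1

lemma sys1_sing (h : ℕ) (b : Be) (h1 : b.1.1 = h) (h2 : b.2 = true) : (sys1 h).mem [b] := by
  rw [(sys1_spec h).2.2.2.2]
  refine Or.inr ⟨by simp, ?_⟩
  intro b' hb'
  rw [List.mem_singleton] at hb'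
  subst hb'
  subst h1
  refine ⟨b'.1.2.1, b'.1.2.1.2, ?_⟩
  unfold levB
  rw [if_pos ⟨rfl, h2⟩]

/-- the family -/
noncomputable def FB : Fam Be (ℕ × Bool) where
  inv := finv
  inv_inv := finv_finv
  cls := fun b => (b.1.1, b.2)
  cls_inv := by
    intro b h
    have := congrArg Prod.snd h
    simp [finv] at this
  sys := sysB
  mem_nil := by
    rintro ⟨h, s⟩
    rcases s with _ | _
    · show (sys2 h).mem []
      rw [(sys2_spec h).2.2.2.2]
      exact sys1_mem_nil h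
    · exact sys1_mem_nil h
  mem_cls := by
    rintro ⟨h, s⟩ w hw b hb
    rcases s with _ | _
    · have hw' : (sys2 h).mem w := hw
      rw [(sys2_spec h).2.2.2.2] at hw'
      have h1 := sys1_cls h _ hw' (finv b) (by
        rw [List.mem_reverse]; exact List.mem_map_of_mem hb)
      obtain ⟨⟨h', z⟩, s⟩ := b
      simp [finv] at h1
      simp [h1]
    · have h1 := sys1_cls h w hw b hb
      obtain ⟨⟨h', z⟩, s⟩ := b
      simp at h1
      simp [h1]
  sing := by
    rintro ⟨⟨h, z⟩, s⟩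
    rcases s with _ | _
    · show (sys2 h).mem _
      rw [(sys2_spec h).2.2.2.2]
      exact sys1_sing h _ rfl rfl
    · exact sys1_sing h _ rfl rfl

/-- weight of a class -/
def wB (c : ℕ × Bool) : ℕ := 4 ^ (c.1 + 1)

lemma wB_pos (c : ℕ × Bool) : 1 ≤ wB c := Nat.one_le_pow _ _ (by norm_num)

lemma FB_inv_closed : ∀ c w, (FB.sys c).mem w → ∃ c', wB c' = wB c ∧
    (FB.sys c').mem (invL finv w) := by
  rintro ⟨h, s⟩ w hw
  rcases s with _ | _
  · refine ⟨(h, true), rfl, ?_⟩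
    have hw' : (sys2 h).mem w := hw
    rw [(sys2_spec h).2.2.2.2] at hw'
    exact hw'
  · refine ⟨(h, false), rfl, ?_⟩
    show (sys2 h).mem _
    rw [(sys2_spec h).2.2.2.2]
    show (sys1 h).mem (invL finv (invL finv w))
    rw [invL_invL finv_finv]
    exact hw

lemma sys1_len (h : ℕ) (w : List Be) (hw : (sys1 h).mem w) : w.length ≤ pK h := by
  rw [(sys1_spec h).2.2.2.2] at hw
  have h2 : 2 ≤ (PB h).B := by
    show 2 ≤ 4 ^ (h + 1)
    have : 1 ≤ 4 ^ h := Nat.one_le_pow _ _ (by norm_num)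
    rw [pow_succ]; omega
  rcases hw with hw | hw
  · have h3 := LangP_length_le (PB h) h2 hw
    have h4 := LangP_stv_lt (PB h) h2 hw
    have h5 : (PB h).B ^ (PB h).H = pK h := rfl
    rw [h5] at h4
    omega
  · have : 1 ≤ pK h := Nat.one_le_pow _ _ (by
      have : (PB h).B = pB h := rfl
      omega)
    omega

/-- constants of a class -/
lemma FB_good {L0 κ R : ℕ} (c : ℕ × Bool) (h1 : c.1 + 1 ≤ L0) (h2 : pL c.1 ≤ 2 ^ L0)
    (h3 : pB c.1 ≤ R) (h4 : pK c.1 ≤ κ) : Good FB L0 κ R c := by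
  obtain ⟨h, s⟩ := c
  rcases s with _ | _
  · refine ⟨?_, ?_, ?_, ?_⟩
    · show (sys2 h).H ≤ L0
      rw [(sys2_spec h).2.1, (sys1_spec h).2.1]; exact h1
    · show (sys2 h).Λ ≤ _
      rw [(sys2_spec h).2.2.2.1, (sys1_spec h).2.2.2.1]; exact h2
    · show (sys2 h).M + 1 ≤ _
      rw [(sys2_spec h).2.2.1, (sys1_spec h).2.2.1]; exact h3
    · intro w hw
      have hw' : (sys2 h).mem w := hw
      rw [(sys2_spec h).2.2.2.2] at hw'
      have := sys1_len h _ hw'
      rw [List.length_reverse, List.length_map] at this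
      exact this.trans h4
  · refine ⟨?_, ?_, ?_, ?_⟩
    · show (sys1 h).H ≤ L0
      rw [(sys1_spec h).2.1]; exact h1
    · show (sys1 h).Λ ≤ _
      rw [(sys1_spec h).2.2.2.1]; exact h2
    · show (sys1 h).M + 1 ≤ _
      rw [(sys1_spec h).2.2.1]; exact h3
    · intro w hw
      exact (sys1_len h _ hw).trans h4

end RDCE
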