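import Pool.Agent.H23.CE.HashDefs

/-!
# From the single level crossing property to the iterated mixing property
-/

open Finset Classical

namespace RDCE

section layer
variable {ξ η α γ : Type*}

theorem cast_layer (n F : ℕ) (h : n ≤ F) : (n : ℝ) = ∑ i ∈ range F, if i < n then (1 : ℝ) else 0 := by
  rw [← Finset.sum_filter, Finset.sum_const, nsmul_eq_mul, mul_one]
  congr 1
  have : (range F).filter (fun i => i < n) = range n := by
    ext i
    simp only [mem_filter, mem_range]
    omega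
  rw [this, card_range]

theorem layer (X : Finset ξ) (Y : Finset η) (fh : ξ → ℕ) (gh : η → ℕ) (F G : ℕ)
    (hF : ∀ a ∈ X, fh a ≤ F) (hG : ∀ b ∈ Y, gh b ≤ G) (C : ξ → η → Prop) :
    ∑ a ∈ X, ∑ b ∈ Y, (if C a b then ((fh a : ℝ) * (gh b : ℝ)) else 0)
      = ∑ i ∈ range F, ∑ j ∈ range G,
        ((((X.filter (fun a => i < fh a)) ×ˢ (Y.filter (fun b => j < gh b))).filter
          (fun t => C t.1 t.2)).card : ℝ) := by
  let h : ξ → η → ℕ → ℕ → ℝ := fun a b i j =>
    if i < fh a then (if j < gh b then (if C a b then 1 else 0) else 0) else 0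
  calc ∑ a ∈ X, ∑ b ∈ Y, (if C a b then ((fh a : ℝ) * (gh b : ℝ)) else 0)
      = ∑ a ∈ X, ∑ b ∈ Y, ∑ i ∈ range F, ∑ j ∈ range G, h a b i j := by
        apply Finset.sum_congr rfl
        intro a ha
        apply Finset.sum_congr rfl
        intro b hb
        by_cases hC : C a b
        · rw [if_pos hC, cast_layer _ _ (hF a ha), cast_layer _ _ (hG b hb), Finset.sum_mul_sum]
          apply Finset.sum_congr rfl
          intro i _
          apply Finset.sum_congr rfl
          intro j _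
          simp only [h, if_pos hC]
          split_ifs <;> simp
        · rw [if_neg hC]
          symm
          apply Finset.sum_eq_zero
          intro i _
          apply Finset.sum_eq_zero
          intro j _
          simp only [h, if_neg hC]
          split_ifs <;> rfl
    _ = ∑ a ∈ X, ∑ i ∈ range F, ∑ b ∈ Y, ∑ j ∈ range G, h a b i j :=
        Finset.sum_congr rfl fun a _ => Finset.sum_comm
    _ = ∑ i ∈ range F, ∑ a ∈ X, ∑ b ∈ Y, ∑ j ∈ range G, h a b i j := Finset.sum_comm
    _ = ∑ i ∈ range F, ∑ a ∈ X, ∑ j ∈ range G, ∑ b ∈ Y, h a b i j :=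
        Finset.sum_congr rfl fun i _ => Finset.sum_congr rfl fun a _ => Finset.sum_comm
    _ = ∑ i ∈ range F, ∑ j ∈ range G, ∑ a ∈ X, ∑ b ∈ Y, h a b i j :=
        Finset.sum_congr rfl fun i _ => Finset.sum_comm
    _ = _ := by
        apply Finset.sum_congr rfl
        intro i _
        apply Finset.sum_congr rfl
        intro j _
        rw [Finset.card_filter, Finset.sum_product]
        push_cast
        rw [Finset.sum_filter]
        apply Finset.sum_congr rfl
        intro a _
        by_cases hi : i < fh a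
        · rw [if_pos hi, Finset.sum_filter]
          apply Finset.sum_congr rfl
          intro b _
          simp only [h, if_pos hi]
        · rw [if_neg hi]
          apply Finset.sum_eq_zero
          intro b _
          simp only [h, if_neg hi]

theorem layer_card (X : Finset ξ) (fh : ξ → ℕ) (F : ℕ) (hF : ∀ a ∈ X, fh a ≤ F) :
    ∑ i ∈ range F, ((X.filter (fun a => i < fh a)).card : ℝ) = ∑ a ∈ X, (fh a : ℝ) := by
  have h1 : ∀ i, ((X.filter (fun a => i < fh a)).card : ℝ) = ∑ a ∈ X, if i < fh a then (1 : ℝ) else 0 := by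
    intro i
    rw [Finset.card_filter]
    push_cast
    rfl
  rw [Finset.sum_congr rfl (fun i _ => h1 i), Finset.sum_comm]
  apply Finset.sum_congr rfl
  intro a ha
  exact (cast_layer _ _ (hF a ha)).symm

/-- the weighted version of a crossing inequality for sets, on the push-forward -/
theorem weighted (X : Finset ξ) (Y : Finset η) (fh : ξ → ℕ) (gh : η → ℕ) (F G : ℕ)
    (hF : ∀ a ∈ X, fh a ≤ F) (hG : ∀ b ∈ Y, gh b ≤ G) (C C' : ξ → η → Prop) (θ Λ : ℝ)
    (hcp : ∀ A ⊆ X, ∀ B ⊆ Y, (((A ×ˢ B).filter (fun t => C t.1 t.2)).card : ℝ)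
      ≤ θ * (((A ×ˢ B).filter (fun t => C' t.1 t.2)).card : ℝ) + Λ * ((A.card : ℝ) + B.card)) :
    ∑ a ∈ X, ∑ b ∈ Y, (if C a b then ((fh a : ℝ) * (gh b : ℝ)) else 0)
      ≤ θ * ∑ a ∈ X, ∑ b ∈ Y, (if C' a b then ((fh a : ℝ) * (gh b : ℝ)) else 0)
        + Λ * (G * (∑ a ∈ X, (fh a : ℝ)) + F * ∑ b ∈ Y, (gh b : ℝ)) := by
  rw [layer X Y fh gh F G hF hG C, layer X Y fh gh F G hF hG C', ← layer_card X fh F hF,
    ← layer_card Y gh G hG]
  calc _ ≤ ∑ i ∈ range F, ∑ j ∈ range G,
        (θ * ((((X.filter (fun a => i < fh a)) ×ˢ (Y.filter (fun b => j < gh b))).filter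
          (fun t => C' t.1 t.2)).card : ℝ) + Λ * (((X.filter (fun a => i < fh a)).card : ℝ)
            + (Y.filter (fun b => j < gh b)).card)) := by
        apply Finset.sum_le_sum
        intro i _
        apply Finset.sum_le_sum
        intro j _
        exact hcp _ (Finset.filter_subset _ _) _ (Finset.filter_subset _ _)
    _ = _ := by
        simp only [Finset.sum_add_distrib, ← Finset.mul_sum]
        congr 1
        simp only [Finset.sum_const, card_range, nsmul_eq_mul, ← Finset.mul_sum]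

/-- push-forward of double sums -/
theorem pushforward [DecidableEq ξ] [DecidableEq η] (U : Finset α) (V : Finset γ) (x : α → ξ) (y : γ → η) (f : α → ℕ) (g : γ → ℕ)
    (C : ξ → η → Prop) :
    ∑ p ∈ U, ∑ q ∈ V, (if C (x p) (y q) then ((f p : ℝ) * (g q : ℝ)) else 0)
      = ∑ a ∈ U.image x, ∑ b ∈ V.image y, (if C a b then
        (((∑ p ∈ U.filter (fun p => x p = a), f p : ℕ) : ℝ)
          * ((∑ q ∈ V.filter (fun q => y q = b), g q : ℕ) : ℝ)) else 0) := by
  rw [← Finset.sum_fiberwise_of_maps_to (g := x) (t := U.image x)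
    (fun p hp => Finset.mem_image_of_mem _ hp)]
  apply Finset.sum_congr rfl
  intro a _
  have h1 : ∀ p ∈ U.filter (fun p => x p = a),
      ∑ q ∈ V, (if C (x p) (y q) then ((f p : ℝ) * (g q : ℝ)) else 0)
      = ∑ b ∈ V.image y, (if C a b then ((f p : ℝ) *
          ((∑ q ∈ V.filter (fun q => y q = b), g q : ℕ) : ℝ)) else 0) := by
    intro p hp
    rw [(Finset.mem_filter.1 hp).2]
    rw [← Finset.sum_fiberwise_of_maps_to (g := y) (t := V.image y)
      (fun q hq => Finset.mem_image_of_mem _ hq)]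
    apply Finset.sum_congr rfl
    intro b _
    by_cases hC : C a b
    · rw [if_pos hC]
      push_cast
      rw [Finset.mul_sum]
      apply Finset.sum_congr rfl
      intro q hq
      rw [(Finset.mem_filter.1 hq).2, if_pos hC]
    · rw [if_neg hC]
      apply Finset.sum_eq_zero
      intro q hq
      rw [(Finset.mem_filter.1 hq).2, if_neg hC]
  rw [Finset.sum_congr rfl h1, Finset.sum_comm]
  apply Finset.sum_congr rfl
  intro b _
  by_cases hC : C a b
  · simp only [if_pos hC]
    rw [← Finset.sum_mul]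
    push_cast
    rfl
  · simp only [if_neg hC, Finset.sum_const_zero]

end layer

section words
variable {β : Type}

theorem low_mono {lev : β → Option ℕ} {l' l : ℕ} (h : l' ≤ l) {b : β} (hb : low lev l' b = true) :
    low lev l b = true := by
  unfold low at *
  cases hk : lev b with
  | none => rw [hk] at hb; exact absurd hb (by simp)
  | some k =>
    rw [hk] at hb
    simp only [decide_eq_true_eq] at hb ⊢
    omega

theorem mark_not_low {lev : β → Option ℕ} {l' l : ℕ} (h : l' ≤ l) {z : β} (hz : mark lev l z) :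
    ¬ low lev l' z = true := by
  obtain ⟨k, hk, hl⟩ := hz
  unfold low
  rw [hk]
  simp only [decide_eq_true_eq]
  omega

theorem takeWhile_stop (P : β → Bool) (a : List β) {z : β} (b : List β) (hz : ¬ P z = true) :
    (a ++ z :: b).takeWhile P = a.takeWhile P := by
  induction a with
  | nil => simp [hz]
  | cons c a ih =>
    by_cases hc : P c = true
    · simp [hc, ih]
    · simp [hc]

theorem rtakeWhile_stop (P : β → Bool) (p₀ : List β) {z : β} (u : List β) (hz : ¬ P z = true) :
    (p₀ ++ z :: u).rtakeWhile P = u.rtakeWhile P := by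
  unfold List.rtakeWhile
  rw [List.reverse_append, List.reverse_cons, List.append_assoc, List.singleton_append,
    takeWhile_stop P _ _ hz]

theorem takeWhile_takeWhile_of_imp (P Q : β → Bool) (h : ∀ b, P b = true → Q b = true)
    (a : List β) : (a.takeWhile Q).takeWhile P = a.takeWhile P := by
  induction a with
  | nil => rfl
  | cons c a ih =>
    by_cases hq : Q c = true
    · simp only [List.takeWhile_cons, hq, if_true]
      by_cases hp : P c = true
      · simp [hp, ih]
      · simp [hp]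
    · have hp : ¬ P c = true := fun h' => hq (h c h')
      simp [hq, hp]

theorem lh_suffix (lev : β → Option ℕ) (l : ℕ) (u : List β) : lh lev l u <:+ u :=
  List.rtakeWhile_suffix _ _

variable {lev : β → Option ℕ} {col : β → ℕ → ℕ} {χ : ℕ → List β → ℕ} {Kb : ℕ}

theorem okc_iff {l' l : ℕ} (h : l' ≤ l) {p₀ u : List β} {z : β}
    (hz : mark lev l z) (q : List β) :
    okc lev col χ Kb l' (p₀ ++ z :: u) q ↔ okc lev col χ Kb l' (z :: u) (rh lev l q) := by
  have hnz := mark_not_low h hz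
  have e1 : lh lev l' (p₀ ++ z :: u) = lh lev l' u := rtakeWhile_stop _ _ _ hnz
  have e2 : lh lev l' (z :: u) = lh lev l' u := rtakeWhile_stop (low lev l') [] u hnz
  have e3 : rh lev l' (rh lev l q) = rh lev l' q :=
    takeWhile_takeWhile_of_imp _ _ (fun b hb => low_mono h hb) q
  unfold okc
  rw [e1, e2, e3]
  refine and_congr ?_ Iff.rfl
  constructor
  · rintro ⟨p₁, z', h1, h2, h3⟩
    have hs1 : z' :: lh lev l' u <:+ p₀ ++ z :: u := ⟨p₁, h1.symm⟩
    have hs2 : z :: u <:+ p₀ ++ z :: u := ⟨p₀, rfl⟩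
    have hlen : (z' :: lh lev l' u).length ≤ (z :: u).length := by
      have := (lh_suffix lev l' u).length_le
      simp only [List.length_cons]
      omega
    obtain ⟨p₂, hp₂⟩ := List.suffix_of_suffix_length_le hs1 hs2 hlen
    exact ⟨p₂, z', hp₂.symm, h2, h3⟩
  · rintro ⟨p₂, z', h1, h2, h3⟩
    exact ⟨p₀ ++ p₂, z', by rw [h1, List.append_assoc], h2, h3⟩

/-- `p` has a short half block of level `l` with a marker -/
def Mk (lev : β → Option ℕ) (Kb l : ℕ) (p : List β) : Prop :=
  (∃ p₀ z, p = p₀ ++ z :: lh lev l p ∧ mark lev l z) ∧ (lh lev l p).length ≤ Kb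

/-- the half block with its marker -/
def xf (lev : β → Option ℕ) (l : ℕ) (p : List β) : List β :=
  p.drop (p.length - ((lh lev l p).length + 1))

theorem xf_eq {l : ℕ} {p p₀ : List β} {z : β} (h : p = p₀ ++ z :: lh lev l p) :
    xf lev l p = z :: lh lev l p := by
  have hl : p.length - ((lh lev l p).length + 1) = p₀.length := by
    have := congrArg List.length h
    simp only [List.length_append, List.length_cons] at this
    omega
  unfold xf
  rw [hl]
  conv_lhs => rw [h]
  rw [List.drop_left]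

theorem Mk.xf {l : ℕ} {p : List β} (h : Mk lev Kb l p) :
    ∃ p₀ z, p = p₀ ++ z :: lh lev l p ∧ mark lev l z ∧ xf lev l p = z :: lh lev l p := by
  obtain ⟨⟨p₀, z, h1, h2⟩, _⟩ := h
  exact ⟨p₀, z, h1, h2, xf_eq h1⟩

theorem okc_xf {l' l : ℕ} (h : l' ≤ l) {p : List β} (hp : Mk lev Kb l p) (q : List β) :
    okc lev col χ Kb l' p q ↔ okc lev col χ Kb l' (xf lev l p) (rh lev l q) := by
  obtain ⟨p₀, z, h1, h2, h3⟩ := hp.xf
  rw [h3]
  conv_lhs => rw [h1]
  exact okc_iff h h2 q

theorem step (lev : β → Option ℕ) (col : β → ℕ → ℕ) (χ : ℕ → List β → ℕ) (Kb D Λ l j₀ : ℕ)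
    (hjl : j₀ < l) (hCP : CP lev col χ Kb D Λ l j₀) (U V : Finset (List β))
    (f g : List β → ℕ) (F G : ℕ)
    (hF : ∀ u, ∑ p ∈ U.filter (fun p => lh lev (j₀ + 1) p = u), f p ≤ F)
    (hG : ∀ v, ∑ q ∈ V.filter (fun q => rh lev (j₀ + 1) q = v), g q ≤ G) :
    (∑ p ∈ U, ∑ q ∈ V, if (∀ l', j₀ < l' → l' ≤ l → okc lev col χ Kb l' p q)
        then ((f p : ℝ) * (g q : ℝ)) else 0)
      ≤ 2 / (D : ℝ) * (∑ p ∈ U, ∑ q ∈ V,
          if (∀ l', j₀ < l' → l' < l → okc lev col χ Kb l' p q)
            then ((f p : ℝ) * (g q : ℝ)) else 0)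
        + Λ * ((∑ p ∈ U, (f p : ℝ)) * G + (∑ q ∈ V, (g q : ℝ)) * F) := by
  set U' := U.filter (fun p => Mk lev Kb l p) with hU'
  set V' := V.filter (fun q => (rh lev l q).length ≤ Kb) with hV'
  let C : List β → List β → Prop := fun a b => ∀ l', j₀ < l' → l' ≤ l → okc lev col χ Kb l' a b
  let C' : List β → List β → Prop := fun a b => ∀ l', j₀ < l' → l' < l → okc lev col χ Kb l' a b
  let x := xf lev l
  let y := rh lev l
  have hCx : ∀ p ∈ U', ∀ q, C p q ↔ C (x p) (y q) := by
    intro p hp q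
    exact forall_congr' fun l' => forall_congr' fun _ => forall_congr' fun h =>
      okc_xf h (Finset.mem_filter.1 hp).2 q
  have hCx' : ∀ p ∈ U', ∀ q, C' p q ↔ C' (x p) (y q) := by
    intro p hp q
    exact forall_congr' fun l' => forall_congr' fun _ => forall_congr' fun h =>
      okc_xf h.le (Finset.mem_filter.1 hp).2 q
  -- left side
  have e1 : (∑ p ∈ U, ∑ q ∈ V, if C p q then ((f p : ℝ) * (g q : ℝ)) else 0)
      = ∑ p ∈ U', ∑ q ∈ V', if C (x p) (y q) then ((f p : ℝ) * (g q : ℝ)) else 0 := by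
    rw [hU', Finset.sum_filter]
    apply Finset.sum_congr rfl
    intro p hp
    by_cases hM : Mk lev Kb l p
    · rw [if_pos hM, hV', Finset.sum_filter]
      apply Finset.sum_congr rfl
      intro q _
      have hpU' : p ∈ U' := Finset.mem_filter.2 ⟨hp, hM⟩
      by_cases hq : (rh lev l q).length ≤ Kb
      · rw [if_pos hq]
        exact if_congr (hCx p hpU' q) rfl rfl
      · rw [if_neg hq, if_neg]
        intro hC
        exact hq (hC l hjl le_rfl).2.2
    · rw [if_neg hM]
      apply Finset.sum_eq_zero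
      intro q _
      rw [if_neg]
      intro hC
      obtain ⟨⟨p₀, z, h1, h2, _⟩, h3, _⟩ := hC l hjl le_rfl
      exact hM ⟨⟨p₀, z, h1, h2⟩, h3⟩
  have e2 : (∑ p ∈ U', ∑ q ∈ V', if C' (x p) (y q) then ((f p : ℝ) * (g q : ℝ)) else 0)
      ≤ ∑ p ∈ U, ∑ q ∈ V, if C' p q then ((f p : ℝ) * (g q : ℝ)) else 0 := by
    have e3 : (∑ p ∈ U', ∑ q ∈ V', if C' (x p) (y q) then ((f p : ℝ) * (g q : ℝ)) else 0)
        = ∑ p ∈ U', ∑ q ∈ V', if C' p q then ((f p : ℝ) * (g q : ℝ)) else 0 := by
      apply Finset.sum_congr rfl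
      intro p hp
      apply Finset.sum_congr rfl
      intro q _
      exact if_congr (hCx' p hp q).symm rfl rfl
    rw [e3]
    refine (Finset.sum_le_sum fun p _ => Finset.sum_le_sum_of_subset_of_nonneg
      (Finset.filter_subset _ _) fun q _ _ => ?_).trans
      (Finset.sum_le_sum_of_subset_of_nonneg (Finset.filter_subset _ _) fun p _ _ => ?_)
    · split_ifs <;> positivity
    · apply Finset.sum_nonneg
      intro q _
      split_ifs <;> positivity
  have key := weighted (U'.image x) (V'.image y)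
    (fun a => ∑ p ∈ U'.filter (fun p => x p = a), f p)
    (fun b => ∑ q ∈ V'.filter (fun q => y q = b), g q) F G ?_ ?_ C C' (2 / (D : ℝ)) Λ ?_
  · rw [← pushforward U' V' x y f g C, ← pushforward U' V' x y f g C'] at key
    have s1 : ∑ a ∈ U'.image x, ((∑ p ∈ U'.filter (fun p => x p = a), f p : ℕ) : ℝ)
        ≤ ∑ p ∈ U, (f p : ℝ) := by
      have : ∑ a ∈ U'.image x, (∑ p ∈ U'.filter (fun p => x p = a), f p) = ∑ p ∈ U', f p :=
        Finset.sum_fiberwise_of_maps_to (fun p hp => Finset.mem_image_of_mem _ hp) _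
      rw [← Nat.cast_sum, this]
      push_cast
      exact Finset.sum_le_sum_of_subset_of_nonneg (Finset.filter_subset _ _)
        fun _ _ _ => by positivity
    have s2 : ∑ b ∈ V'.image y, ((∑ q ∈ V'.filter (fun q => y q = b), g q : ℕ) : ℝ)
        ≤ ∑ q ∈ V, (g q : ℝ) := by
      have : ∑ b ∈ V'.image y, (∑ q ∈ V'.filter (fun q => y q = b), g q) = ∑ q ∈ V', g q :=
        Finset.sum_fiberwise_of_maps_to (fun p hp => Finset.mem_image_of_mem _ hp) _
      rw [← Nat.cast_sum, this]
      push_cast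
      exact Finset.sum_le_sum_of_subset_of_nonneg (Finset.filter_subset _ _)
        fun _ _ _ => by positivity
    have hθ : (0 : ℝ) ≤ 2 / (D : ℝ) := by positivity
    calc _ = ∑ p ∈ U', ∑ q ∈ V', if C (x p) (y q) then ((f p : ℝ) * (g q : ℝ)) else 0 := e1
      _ ≤ _ := key
      _ ≤ _ := by
        apply add_le_add
        · exact mul_le_mul_of_nonneg_left e2 hθ
        · apply mul_le_mul_of_nonneg_left _ (Nat.cast_nonneg _)
          rw [mul_comm _ (G : ℝ), mul_comm _ (F : ℝ)]
          exact add_le_add (mul_le_mul_of_nonneg_left s1 (Nat.cast_nonneg _))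
            (mul_le_mul_of_nonneg_left s2 (Nat.cast_nonneg _))
  · -- fibres of x
    intro a _
    refine le_trans ?_ (hF (lh lev (j₀ + 1) a))
    apply Finset.sum_le_sum_of_subset
    intro p hp
    rw [Finset.mem_filter] at hp ⊢
    refine ⟨(Finset.mem_filter.1 hp.1).1, ?_⟩
    obtain ⟨p₀, z, h1, h2, h3⟩ := (Finset.mem_filter.1 hp.1).2.xf
    have hnz := mark_not_low (show j₀ + 1 ≤ l by omega) h2
    rw [← hp.2]
    show lh lev (j₀ + 1) p = lh lev (j₀ + 1) (xf lev l p)
    rw [h3]
    conv_lhs => rw [h1]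
    have e1 : lh lev (j₀ + 1) (p₀ ++ z :: lh lev l p) = lh lev (j₀ + 1) (lh lev l p) :=
      rtakeWhile_stop _ _ _ hnz
    have e2 : lh lev (j₀ + 1) (z :: lh lev l p) = lh lev (j₀ + 1) (lh lev l p) :=
      rtakeWhile_stop (low lev (j₀ + 1)) [] _ hnz
    rw [e1, e2]
  · intro b _
    refine le_trans ?_ (hG (rh lev (j₀ + 1) b))
    apply Finset.sum_le_sum_of_subset
    intro q hq
    rw [Finset.mem_filter] at hq ⊢
    refine ⟨(Finset.mem_filter.1 hq.1).1, ?_⟩
    rw [← hq.2]
    exact (takeWhile_takeWhile_of_imp _ _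
      (fun b hb => low_mono (show j₀ + 1 ≤ l by omega) hb) q).symm
  · intro A hA B hB
    apply hCP A B
    · intro a ha
      obtain ⟨p, hp, rfl⟩ := Finset.mem_image.1 (hA ha)
      obtain ⟨p₀, z, h1, h2, h3⟩ := (Finset.mem_filter.1 hp).2.xf
      refine ⟨z, lh lev l p, h3, h2, ?_, (Finset.mem_filter.1 hp).2.2⟩
      intro b hb
      exact List.mem_rtakeWhile_imp hb
    · intro b hb
      obtain ⟨q, hq, rfl⟩ := Finset.mem_image.1 (hB hb)
      refine ⟨?_, (Finset.mem_filter.1 hq).2⟩
      intro b hb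
      exact List.mem_takeWhile_imp hb

theorem PR_of_CP (lev : β → Option ℕ) (col : β → ℕ → ℕ) (χ : ℕ → List β → ℕ) (H D Kb Λ : ℕ)
    (hD : 2 ≤ D) (hCP : ∀ l j₀, j₀ < l → l < H → CP lev col χ Kb D Λ l j₀) :
    ∀ j₀ j₁ : ℕ, j₀ < j₁ → j₁ < H → ∀ (U V : Finset (List β)) (f g : List β → ℕ) (F G : ℕ),
      (∀ u, ∑ p ∈ U.filter (fun p => lh lev (j₀ + 1) p = u), f p ≤ F) →
      (∀ v, ∑ q ∈ V.filter (fun q => rh lev (j₀ + 1) q = v), g q ≤ G) →
      (∑ p ∈ U, ∑ q ∈ V,
          if (∀ l, j₀ < l → l ≤ j₁ → okc lev col χ Kb l p q)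
            then ((f p : ℝ) * (g q : ℝ)) else 0)
        ≤ (2 / (D : ℝ)) ^ (j₁ - j₀) * (∑ p ∈ U, (f p : ℝ)) * (∑ q ∈ V, (g q : ℝ))
          + H * Λ * ((∑ p ∈ U, (f p : ℝ)) * G + (∑ q ∈ V, (g q : ℝ)) * F) := by
  intro j₀ j₁ h01 h1H U V f g F G hF hG
  set P := ∑ p ∈ U, (f p : ℝ) with hP
  set Q := ∑ q ∈ V, (g q : ℝ) with hQ
  set R := P * G + Q * F with hR
  have hP0 : 0 ≤ P := Finset.sum_nonneg fun _ _ => Nat.cast_nonneg _
  have hQ0 : 0 ≤ Q := Finset.sum_nonneg fun _ _ => Nat.cast_nonneg _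
  have hR0 : 0 ≤ R := by positivity
  have hD' : (2 : ℝ) ≤ D := by exact_mod_cast hD
  have hθ0 : (0 : ℝ) ≤ 2 / (D : ℝ) := by positivity
  have hθ1 : 2 / (D : ℝ) ≤ 1 := by rw [div_le_one (by linarith)]; exact hD'
  have main : ∀ d, j₀ + d < H → (∑ p ∈ U, ∑ q ∈ V,
      if (∀ l, j₀ < l → l ≤ j₀ + d → okc lev col χ Kb l p q)
        then ((f p : ℝ) * (g q : ℝ)) else 0) ≤ (2 / (D : ℝ)) ^ d * P * Q + d * Λ * R := by
    intro d
    induction d with
    | zero =>
      intro _
      have : (∑ p ∈ U, ∑ q ∈ V,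
          if (∀ l, j₀ < l → l ≤ j₀ + 0 → okc lev col χ Kb l p q)
            then ((f p : ℝ) * (g q : ℝ)) else 0) = P * Q := by
        rw [hP, hQ, Finset.sum_mul_sum]
        apply Finset.sum_congr rfl
        intro p _
        apply Finset.sum_congr rfl
        intro q _
        rw [if_pos]
        intro l h1 h2
        omega
      rw [this]
      simp
    | succ d ih =>
      intro hd
      have h1 := step lev col χ Kb D Λ (j₀ + (d + 1)) j₀ (by omega)
        (hCP _ _ (by omega) hd) U V f g F G hF hG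
      have h2 := ih (by omega)
      have h3 : (∑ p ∈ U, ∑ q ∈ V,
          if (∀ l', j₀ < l' → l' < j₀ + (d + 1) → okc lev col χ Kb l' p q)
            then ((f p : ℝ) * (g q : ℝ)) else 0)
          = ∑ p ∈ U, ∑ q ∈ V,
          if (∀ l', j₀ < l' → l' ≤ j₀ + d → okc lev col χ Kb l' p q)
            then ((f p : ℝ) * (g q : ℝ)) else 0 := by
        apply Finset.sum_congr rfl
        intro p _
        apply Finset.sum_congr rfl
        intro q _
        refine if_congr ?_ rfl rfl
        constructor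
        · intro h l' a b
          exact h l' a (by omega)
        · intro h l' a b
          exact h l' a (by omega)
      rw [h3] at h1
      refine h1.trans ?_
      have h4 : 2 / (D : ℝ) * (∑ p ∈ U, ∑ q ∈ V,
          if (∀ l', j₀ < l' → l' ≤ j₀ + d → okc lev col χ Kb l' p q)
            then ((f p : ℝ) * (g q : ℝ)) else 0)
          ≤ 2 / (D : ℝ) * ((2 / (D : ℝ)) ^ d * P * Q + d * Λ * R) :=
        mul_le_mul_of_nonneg_left h2 hθ0
      have h5 : 2 / (D : ℝ) * (d * Λ * R) ≤ 1 * (d * Λ * R) :=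
        mul_le_mul_of_nonneg_right hθ1 (by positivity)
      calc _ ≤ 2 / (D : ℝ) * ((2 / (D : ℝ)) ^ d * P * Q + d * Λ * R) + Λ * R :=
            add_le_add h4 le_rfl
        _ = (2 / (D : ℝ)) ^ (d + 1) * P * Q + 2 / (D : ℝ) * (d * Λ * R) + Λ * R := by
            rw [pow_succ]; ring
        _ ≤ (2 / (D : ℝ)) ^ (d + 1) * P * Q + 1 * (d * Λ * R) + Λ * R := by gcongr
        _ = _ := by push_cast; ring
  have hm := main (j₁ - j₀) (by omega)
  rw [show j₀ + (j₁ - j₀) = j₁ by omega] at hm
  refine hm.trans ?_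
  gcongr
  exact_mod_cast (show j₁ - j₀ ≤ H by omega)

end words

end RDCE
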