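import Pool.Agent.H23.CE.HashA
import Pool.Agent.H23.CE.HashB

open Finset Classical

namespace RDCE

variable {β : Type}

/-- Existence of the hash functions `χ` with the iterated mixing property.

Proof.  Words involved at level `l` are over the finite alphabet `A` (a `low` or `mark` letter is in
`A`).  Choose `χ 1, χ 2, …, χ (H-1)` successively (`χ 0` and `χ l`, `l ≥ H`, arbitrary, say `0`; put
`χ l w = 0` also for words `w` that are not over `A` or longer than `2 Kb`).  `okc l` depends only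
on `χ l`, and for `l' < l` and `p = p₀ ++ z :: u`, `u = lh lev l p`, `z` a marker of level `≥ l`,
`v = rh lev l q`, we have `okc l' p q ↔ okc l' (z :: u) v`.
Single-level property (CP_l): given `χ l'`, `l' < l`, for a suitable `χ l`: for all `j₀ < l` and all
finite sets `U` of words `z :: u` (`z` marker of level `≥ l`, `u` word of `low l` letters,
`|u| ≤ Kb`) and `V` of words of `low l` letters, `|v| ≤ Kb`:
`#{(x,v) ∈ U × V : okc l' x v for j₀ < l' ≤ l} ≤ (2/D) #{(x,v) ∈ U × V : okc l' x v for j₀ < l' < l}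
   + Λ (|U| + |V|)`.
By counting: choose `χ l` uniformly in the finite set of functions {words over `A` of length
`≤ 2 Kb`} → `Fin D`.  For fixed `j₀, U, V` the left count is `X = ∑_w X_w`, where `X_w` (number of
`(z :: u, v)`, `u ++ v = w`, `col z l = χ l w`) depends only on `χ l w` and
`0 ≤ X_w ≤ T := (2 Kb + 1) |A|`.  `E[2^(X_w/T)] ≤ 1 + E[X_w]/T ≤ exp(E[X_w]/T)` (convexity), so
`E[2^(X/T)] ≤ exp(P/(D T))`, `P` the right count, and Markov's inequality gives
`Pr[X > (2/D) P + Λ (|U|+|V|)] ≤ 2^(-(Λ/T) (|U|+|V|))`  (`exp x ≤ 2^(2x)`).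
With `x = 2^(-Λ/T)`, sum over all nonempty `U, V`: `≤ (1+x)^(number of words) - 1`-like, times the
number `≤ H` of the `j₀`; `(number of words) * x * H` is small by the hypothesis on `Λ`.
Then (PR) by induction on `j₁`: push `f, g` forward to `f̂(z :: u)`, `ĝ(v)` at level `j₁`, apply
CP_{j₁} to the level sets of `f̂, ĝ` (layer cake; `f, g` are `ℕ`-valued); `f̂ ≤ F`, `ĝ ≤ G`
pointwise because the level-`(j₀+1)` half blocks are determined by the level-`j₁` half blocks. -/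
theorem exists_hash (A : Finset β) (lev : β → Option ℕ) (col : β → ℕ → ℕ) (H D Kb Λ : ℕ)
    (hlev : ∀ b k, lev b = some k → b ∈ A) (hD : 2 ≤ D)
    (hΛ : (2 * Kb + 1) * (A.card + 1) * ((Kb + 2) * (Nat.log 2 (A.card + 1) + 1)
      + Nat.log 2 H + 10) ≤ Λ) :
    ∃ χ : ℕ → List β → ℕ, (∀ l w, χ l w < D) ∧
      ∀ j₀ j₁ : ℕ, j₀ < j₁ → j₁ < H → ∀ (U V : Finset (List β)) (f g : List β → ℕ) (F G : ℕ),
        (∀ u, ∑ p ∈ U.filter (fun p => lh lev (j₀ + 1) p = u), f p ≤ F) →
        (∀ v, ∑ q ∈ V.filter (fun q => rh lev (j₀ + 1) q = v), g q ≤ G) →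
        (∑ p ∈ U, ∑ q ∈ V,
            if (∀ l, j₀ < l → l ≤ j₁ → okc lev col χ Kb l p q)
              then ((f p : ℝ) * (g q : ℝ)) else 0)
          ≤ (2 / (D : ℝ)) ^ (j₁ - j₀) * (∑ p ∈ U, (f p : ℝ)) * (∑ q ∈ V, (g q : ℝ))
            + H * Λ * ((∑ p ∈ U, (f p : ℝ)) * G + (∑ q ∈ V, (g q : ℝ)) * F) := by
  obtain ⟨χ, hχ, hCP⟩ := exists_hash_CP A lev col H D Kb Λ hlev hD hΛ
  exact ⟨χ, hχ, PR_of_CP lev col χ H D Kb Λ hD hCP⟩

end RDCE
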