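import Pool.Agent.H23.CE.HashDefs

open Finset Classical

namespace RDCE

variable {β : Type}

/-! ### analytic lemmas -/

theorem rpow_conv (T y : ℝ) (hT : 0 < T) (h0 : 0 ≤ y) (h1 : y ≤ T) :
    (2 : ℝ) ^ (y / T) ≤ 1 + y / T := by
  have h := rpow_one_add_le_one_add_mul_self (s := (1:ℝ)) (by norm_num) (p := y / T)
    (by positivity) (by rw [div_le_one hT]; exact h1)
  norm_num at h
  linarith

theorem one_add_le_two_rpow (y : ℝ) (hy : 0 ≤ y) : 1 + y ≤ (2 : ℝ) ^ (2 * y) := by
  have h1 : (2 : ℝ) ^ (2 * y) = Real.exp (Real.log 2 * (2 * y)) := by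
    rw [Real.rpow_def_of_pos (by norm_num)]
  rw [h1]
  have h2 : y ≤ Real.log 2 * (2 * y) := by
    have := Real.log_two_gt_d9
    nlinarith
  calc 1 + y ≤ Real.exp y := by linarith [Real.add_one_le_exp y]
    _ ≤ _ := Real.exp_le_exp.mpr h2

/-- averaging bound -/
theorem key_count {ι : Type} [Fintype ι] [DecidableEq ι] (D : ℕ) (hD : 1 ≤ D) (T : ℝ) (hT : 0 < T)
    (X : ι → Fin D → ℝ) (P : ι → ℝ) (hX0 : ∀ w c, 0 ≤ X w c) (hXT : ∀ w c, X w c ≤ T)
    (hXP : ∀ w, ∑ c, X w c ≤ P w) :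
    ∑ χ : ι → Fin D, (2 : ℝ) ^ ((∑ w, X w (χ w)) / T) ≤
      (D : ℝ) ^ (Fintype.card ι) * (2 : ℝ) ^ (2 / (D : ℝ) * (∑ w, P w) / T) := by
  have hDr : (0 : ℝ) < D := by exact_mod_cast hD
  have e1 : ∀ χ : ι → Fin D, (2 : ℝ) ^ ((∑ w, X w (χ w)) / T) =
      ∏ w, (2 : ℝ) ^ (X w (χ w) / T) := by
    intro χ
    rw [Finset.sum_div, Real.rpow_sum_of_pos (by norm_num)]
  simp_rw [e1]
  have e2 : ∑ χ : ι → Fin D, ∏ w, (2 : ℝ) ^ (X w (χ w) / T) =
      ∏ w, ∑ c, (2 : ℝ) ^ (X w c / T) := by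
    rw [Finset.prod_univ_sum]
    rfl
  rw [e2]
  have e3 : ∀ w, ∑ c, (2 : ℝ) ^ (X w c / T) ≤ D * (2 : ℝ) ^ (2 / (D : ℝ) * P w / T) := by
    intro w
    have hP0 : 0 ≤ P w := le_trans (Finset.sum_nonneg fun c _ => hX0 w c) (hXP w)
    calc ∑ c, (2 : ℝ) ^ (X w c / T) ≤ ∑ c : Fin D, (1 + X w c / T) :=
          Finset.sum_le_sum fun c _ => rpow_conv T _ hT (hX0 w c) (hXT w c)
      _ = D + (∑ c, X w c) / T := by
          rw [Finset.sum_add_distrib, Finset.sum_div]; simp
      _ ≤ D + P w / T := by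
          have := hXP w
          gcongr
      _ = D * (1 + P w / (D * T)) := by field_simp
      _ ≤ D * (2 : ℝ) ^ (2 * (P w / (D * T))) := by
          gcongr
          exact one_add_le_two_rpow _ (by positivity)
      _ = D * (2 : ℝ) ^ (2 / (D : ℝ) * P w / T) := by
          congr 2; field_simp
  calc ∏ w, ∑ c, (2 : ℝ) ^ (X w c / T)
      ≤ ∏ w, (D * (2 : ℝ) ^ (2 / (D : ℝ) * P w / T)) := by
        apply Finset.prod_le_prod
        · intro w _; positivity
        · intro w _; exact e3 w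
    _ = (D : ℝ) ^ (Fintype.card ι) * (2 : ℝ) ^ (2 / (D : ℝ) * (∑ w, P w) / T) := by
        rw [Finset.prod_mul_distrib, Finset.prod_const, Finset.card_univ,
          ← Real.rpow_sum_of_pos (by norm_num)]
        congr 2
        rw [Finset.mul_sum, Finset.sum_div]

/-! ### words -/

/-- words over `A` of length `≤ L` -/
noncomputable def wds (A : Finset β) : ℕ → Finset (List β)
  | 0 => {[]}
  | L + 1 => {[]} ∪ (A ×ˢ wds A L).image (fun t => t.1 :: t.2)

theorem wds_succ (A : Finset β) (L : ℕ) :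
    wds A (L + 1) = {[]} ∪ (A ×ˢ wds A L).image (fun t => t.1 :: t.2) := rfl

theorem mem_wds (A : Finset β) (L : ℕ) (w : List β) :
    w ∈ wds A L ↔ w.length ≤ L ∧ ∀ b ∈ w, b ∈ A := by
  induction L generalizing w with
  | zero => simp [wds]; rintro rfl; simp
  | succ L ih =>
    simp only [wds, mem_union, mem_singleton, mem_image, mem_product, Prod.exists]
    constructor
    · rintro (rfl | ⟨a, u, ⟨ha, hu⟩, rfl⟩)
      · simp
      · rw [ih] at hu
        simp only [List.length_cons, List.mem_cons, forall_eq_or_imp]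
        exact ⟨by omega, ha, hu.2⟩
    · rintro ⟨h1, h2⟩
      cases w with
      | nil => left; rfl
      | cons a u =>
        right
        simp only [List.length_cons, List.mem_cons, forall_eq_or_imp] at h1 h2
        exact ⟨a, u, ⟨h2.1, (ih u).2 ⟨by omega, h2.2⟩⟩, rfl⟩

theorem card_wds (A : Finset β) (L : ℕ) : (wds A L).card ≤ (A.card + 1) ^ L := by
  induction L with
  | zero => simp [wds]
  | succ L ih =>
    calc (wds A (L + 1)).card ≤ 1 + (A ×ˢ wds A L).card := by
          rw [wds_succ]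
          refine (Finset.card_union_le ({[]} : Finset (List β)) _).trans ?_
          have h := Finset.card_image_le (s := A ×ˢ wds A L) (f := fun t : β × List β => t.1 :: t.2)
          rw [Finset.card_singleton]
          exact Nat.add_le_add_left h _
      _ = 1 + A.card * (wds A L).card := by rw [card_product]
      _ ≤ (A.card + 1) ^ L + A.card * (A.card + 1) ^ L := by
          have : 1 ≤ (A.card + 1) ^ L := Nat.one_le_pow _ _ (by omega)
          gcongr
      _ = (A.card + 1) ^ (L + 1) := by ring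

/-! ### the crossing condition for normal words -/

theorem low_not_mark {lev : β → Option ℕ} {l : ℕ} {z : β} (h : mark lev l z) :
    low lev l z = false := by
  obtain ⟨k, hk, hl⟩ := h
  simp only [low, hk]
  simp; omega

theorem lh_normal {lev : β → Option ℕ} {l : ℕ} {z : β} {u : List β} (h : mark lev l z)
    (hu : ∀ b ∈ u, low lev l b = true) : lh lev l (z :: u) = u := by
  have e : (z :: u) = [z] ++ u := rfl
  unfold lh
  rw [List.rtakeWhile, List.reverse_cons, List.takeWhile_append]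
  rw [if_pos]
  · simp [low_not_mark h]
  · rw [List.takeWhile_eq_self_iff.2]
    intro x hx
    exact hu x (List.mem_reverse.1 hx)

theorem rh_normal {lev : β → Option ℕ} {l : ℕ} {v : List β}
    (hv : ∀ b ∈ v, low lev l b = true) : rh lev l v = v :=
  List.takeWhile_eq_self_iff.2 hv

theorem okc_normal {lev : β → Option ℕ} {col : β → ℕ → ℕ} {χ : ℕ → List β → ℕ} {Kb l : ℕ}
    {z : β} {u v : List β} (h : mark lev l z) (hu : ∀ b ∈ u, low lev l b = true)
    (hul : u.length ≤ Kb) (hv : ∀ b ∈ v, low lev l b = true) (hvl : v.length ≤ Kb) :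
    okc lev col χ Kb l (z :: u) v ↔ χ l (u ++ v) = col z l := by
  unfold okc
  rw [lh_normal h hu, rh_normal hv]
  constructor
  · rintro ⟨⟨p₀, z', hp, _, hc⟩, _, _⟩
    have : p₀ = [] ∧ z = z' := by
      cases p₀ with
      | nil => simpa using hp
      | cons a t =>
        exfalso
        have := congrArg List.length hp
        simp at this
        omega
    rw [this.2]; exact hc
  · intro hc
    exact ⟨⟨[], z, rfl, h, hc⟩, hul, hvl⟩

/-! ### the single level choice -/

/-- colour of the marker of a left word -/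
def colx (col : β → ℕ → ℕ) (l : ℕ) : List β → ℕ
  | [] => 0
  | z :: _ => col z l

section level

variable (A : Finset β) (lev : β → Option ℕ) (col : β → ℕ → ℕ) (χ : ℕ → List β → ℕ) (Kb l : ℕ)

/-- crossing conditions at the levels strictly between `j₀` and `l` -/
def RR (j₀ : ℕ) (t : List β × List β) : Prop :=
  ∀ l', j₀ < l' → l' < l → okc lev col χ Kb l' t.1 t.2

/-- the count of pairs with given product word and given colour -/
noncomputable def cntH (j₀ : ℕ) (U V : Finset (List β)) (w : List β) (c : ℕ) : ℕ :=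
  ((U ×ˢ V).filter (fun t => RR lev col χ Kb l j₀ t ∧ t.1.tail ++ t.2 = w ∧
    colx col l t.1 = c)).card

noncomputable def cntP (j₀ : ℕ) (U V : Finset (List β)) (w : List β) : ℕ :=
  ((U ×ˢ V).filter (fun t => RR lev col χ Kb l j₀ t ∧ t.1.tail ++ t.2 = w)).card

theorem cnt_le (hlev : ∀ b k, lev b = some k → b ∈ A) (j₀ : ℕ) (U V : Finset (List β))
    (hU : ∀ x ∈ U, XW lev Kb l x) (w : List β) (c : ℕ) :
    cntH lev col χ Kb l j₀ U V w c ≤ (2 * Kb + 1) * (A.card + 1) := by
  have hsub : ((U ×ˢ V).filter (fun t => RR lev col χ Kb l j₀ t ∧ t.1.tail ++ t.2 = w ∧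
      colx col l t.1 = c)) ⊆ (A ×ˢ Finset.range (Kb + 1)).image
        (fun s => (s.1 :: w.take s.2, w.drop s.2)) := by
    rintro ⟨x, v⟩ hx
    simp only [Finset.mem_filter, Finset.mem_product] at hx
    obtain ⟨⟨hxU, hvV⟩, _, hw, _⟩ := hx
    obtain ⟨z, u, rfl, ⟨k, hk, _⟩, _, hul⟩ := hU x hxU
    simp only [List.tail_cons] at hw
    rw [Finset.mem_image]
    refine ⟨(z, u.length), ?_, ?_⟩
    · simp only [Finset.mem_product, Finset.mem_range]
      exact ⟨hlev z k hk, by omega⟩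
    · simp only [← hw, List.take_left', List.drop_left']
  have h1 := (Finset.card_le_card hsub).trans Finset.card_image_le
  rw [Finset.card_product, Finset.card_range] at h1
  unfold cntH
  calc _ ≤ A.card * (Kb + 1) := h1
    _ ≤ (A.card + 1) * (2 * Kb + 1) := by gcongr <;> omega
    _ = _ := by ring

theorem sum_cnt_le (D : ℕ) (j₀ : ℕ) (U V : Finset (List β)) (w : List β) :
    ∑ c : Fin D, cntH lev col χ Kb l j₀ U V w c ≤ cntP lev col χ Kb l j₀ U V w := by
  unfold cntH cntP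
  have hdisj : ∀ c ∈ (Finset.univ : Finset (Fin D)), ∀ c' ∈ (Finset.univ : Finset (Fin D)),
      c ≠ c' → Disjoint
        ((U ×ˢ V).filter (fun t => RR lev col χ Kb l j₀ t ∧ t.1.tail ++ t.2 = w ∧
          colx col l t.1 = c))
        ((U ×ˢ V).filter (fun t => RR lev col χ Kb l j₀ t ∧ t.1.tail ++ t.2 = w ∧
          colx col l t.1 = c')) := by
    intro c _ c' _ hcc
    rw [Finset.disjoint_left]
    intro t ht ht'
    simp only [Finset.mem_filter] at ht ht'
    exact hcc (Fin.ext (ht.2.2.2.symm.trans ht'.2.2.2))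
  rw [← Finset.card_biUnion hdisj]
  apply Finset.card_le_card
  intro t ht
  simp only [Finset.mem_biUnion, Finset.mem_filter] at ht ⊢
  obtain ⟨c, _, h1, h2, h3, _⟩ := ht
  exact ⟨h1, h2, h3⟩

theorem sum_cntP (W : Finset (List β)) (j₀ : ℕ) (U V : Finset (List β))
    (hW : ∀ x ∈ U, ∀ v ∈ V, x.tail ++ v ∈ W) :
    ∑ w : W, cntP lev col χ Kb l j₀ U V w =
      ((U ×ˢ V).filter (fun t => RR lev col χ Kb l j₀ t)).card := by
  rw [Finset.sum_coe_sort W (fun w => cntP lev col χ Kb l j₀ U V w)]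
  rw [Finset.card_eq_sum_card_fiberwise (f := fun t : List β × List β => t.1.tail ++ t.2) (t := W)]
  · refine Finset.sum_congr rfl fun w _ => ?_
    unfold cntP
    congr 1
    ext t
    simp only [Finset.mem_filter]
    tauto
  · intro t ht
    simp only [Finset.coe_filter, Set.mem_ofPred_eq, Finset.mem_product] at ht
    exact hW _ ht.1.1 _ ht.1.2

theorem sum_cnt_choice (D : ℕ) (W : Finset (List β)) (j₀ : ℕ) (U V : Finset (List β))
    (hW : ∀ x ∈ U, ∀ v ∈ V, x.tail ++ v ∈ W) (c : W → Fin D) (c' : List β → ℕ)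
    (hc : ∀ w : W, c' w = c w) :
    ∑ w : W, cntH lev col χ Kb l j₀ U V w (c w) =
      ((U ×ˢ V).filter (fun t => RR lev col χ Kb l j₀ t ∧
        c' (t.1.tail ++ t.2) = colx col l t.1)).card := by
  have h0 : ∀ w : W, cntH lev col χ Kb l j₀ U V w (c w) = cntH lev col χ Kb l j₀ U V w (c' w) := by
    intro w; rw [hc]
  rw [Finset.sum_congr rfl fun w _ => h0 w]
  rw [Finset.sum_coe_sort W (fun w => cntH lev col χ Kb l j₀ U V w (c' w))]
  rw [Finset.card_eq_sum_card_fiberwise (f := fun t : List β × List β => t.1.tail ++ t.2) (t := W)]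
  · refine Finset.sum_congr rfl fun w _ => ?_
    unfold cntH
    congr 1
    ext t
    simp only [Finset.mem_filter]
    constructor
    · rintro ⟨h1, h2, h3, h4⟩
      exact ⟨⟨h1, h2, by rw [h3, h4]⟩, h3⟩
    · rintro ⟨⟨h1, h2, h4⟩, h3⟩
      exact ⟨h1, h2, h3, by rw [← h4, h3]⟩
  · intro t ht
    simp only [Finset.coe_filter, Set.mem_ofPred_eq, Finset.mem_product] at ht
    exact hW _ ht.1.1 _ ht.1.2

end level

/-! ### numerical estimates -/

theorem one_add_pow_sub_one_le (y : ℝ) (n : ℕ) (hy : 0 ≤ y) (hn : (n : ℝ) * y ≤ 1 / 2) :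
    (1 + y) ^ n - 1 ≤ 2 * (n * y) := by
  have h1 : (1 + y) ^ n ≤ Real.exp (n * y) := by
    rw [Real.exp_nat_mul]
    gcongr
    linarith [Real.add_one_le_exp y]
  have h2 : 1 - (n * y) ≤ Real.exp (-(n * y)) := by
    have := Real.add_one_le_exp (-(n * y))
    linarith
  have h3 : Real.exp (n * y) * Real.exp (-(n * y)) = 1 := by
    rw [← Real.exp_add]; simp
  have h4 : 0 ≤ (n : ℝ) * y := by positivity
  have h5 : 0 < Real.exp (n * y) := Real.exp_pos _
  have h6 : Real.exp (n * y) ≤ 1 + 2 * (n * y) := by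
    nlinarith
  linarith

theorem y_bound (Acard Kb H Λ : ℕ) (hH : 1 ≤ H)
    (hΛ : (2 * Kb + 1) * (Acard + 1) * ((Kb + 2) * (Nat.log 2 (Acard + 1) + 1)
      + Nat.log 2 H + 10) ≤ Λ) :
    (2 : ℝ) ^ (-((Λ : ℝ) / (((2 * Kb + 1) * (Acard + 1) : ℕ) : ℝ))) * (512 * H * (Acard + 1) ^ (Kb + 2)) ≤ 1 := by
  set E := (Kb + 2) * (Nat.log 2 (Acard + 1) + 1) + Nat.log 2 H + 10 with hE
  set T := (2 * Kb + 1) * (Acard + 1) with hT
  have hTpos : 0 < T := by positivity
  have hTr : (0 : ℝ) < (T : ℝ) := by exact_mod_cast hTpos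
  have h1 : (E : ℝ) ≤ (Λ : ℝ) / (T : ℝ) := by
    rw [le_div_iff₀ hTr]
    have : (T * E : ℕ) ≤ Λ := hΛ
    have : ((T * E : ℕ) : ℝ) ≤ (Λ : ℝ) := by exact_mod_cast this
    push_cast at this
    linarith
  have h2 : (2 : ℝ) ^ (-((Λ : ℝ) / (T : ℝ))) ≤ (2 : ℝ) ^ (-(E : ℝ)) :=
    Real.rpow_le_rpow_of_exponent_le (by norm_num) (by linarith)
  have h3 : 512 * H * (Acard + 1) ^ (Kb + 2) ≤ 2 ^ E := by
    have eE : 2 ^ E = (2 ^ (Nat.log 2 (Acard + 1) + 1)) ^ (Kb + 2) * 2 ^ Nat.log 2 H * 2 ^ 10 := by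
      rw [← pow_mul, ← pow_add, ← pow_add, hE]
      congr 1
      ring
    rw [eE]
    have a1 : (Acard + 1) ≤ 2 ^ (Nat.log 2 (Acard + 1) + 1) :=
      (Nat.lt_pow_succ_log_self (by norm_num) _).le
    have a2 : H ≤ 2 ^ (Nat.log 2 H + 1) := (Nat.lt_pow_succ_log_self (by norm_num) _).le
    have a1' : (Acard + 1) ^ (Kb + 2) ≤ (2 ^ (Nat.log 2 (Acard + 1) + 1)) ^ (Kb + 2) :=
      Nat.pow_le_pow_left a1 _
    calc 512 * H * (Acard + 1) ^ (Kb + 2)
        ≤ 512 * (2 ^ (Nat.log 2 H + 1)) * (2 ^ (Nat.log 2 (Acard + 1) + 1)) ^ (Kb + 2) := by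
          gcongr
      _ = _ := by ring
  have h4 : ((512 * H * (Acard + 1) ^ (Kb + 2) : ℕ) : ℝ) ≤ ((2 ^ E : ℕ) : ℝ) := by
    exact_mod_cast h3
  push_cast at h4
  have h5 : (2 : ℝ) ^ (-(E : ℝ)) * (2 : ℝ) ^ E = 1 := by
    rw [Real.rpow_neg (by norm_num), Real.rpow_natCast]
    field_simp
  calc _ ≤ (2 : ℝ) ^ (-(E : ℝ)) * (2 : ℝ) ^ E := by
        gcongr
    _ = 1 := h5

theorem wds_mono_card (A : Finset β) (Kb : ℕ) (XX YY : Finset (List β))
    (hX : XX ⊆ wds A (Kb + 1)) (hY : YY ⊆ wds A Kb) :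
    XX.card + YY.card ≤ 2 * (A.card + 1) ^ (Kb + 2) := by
  have h1 := (Finset.card_le_card hX).trans (card_wds A _)
  have h2 := (Finset.card_le_card hY).trans (card_wds A _)
  have h3 : (A.card + 1) ^ (Kb + 1) ≤ (A.card + 1) ^ (Kb + 2) :=
    Nat.pow_le_pow_right (by omega) (by omega)
  have h4 : (A.card + 1) ^ Kb ≤ (A.card + 1) ^ (Kb + 2) :=
    Nat.pow_le_pow_right (by omega) (by omega)
  omega

/-- existence of a good colouring of one level -/
theorem exists_level (A : Finset β) (lev : β → Option ℕ) (col : β → ℕ → ℕ)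
    (χ : ℕ → List β → ℕ) (H D Kb Λ l : ℕ)
    (hlev : ∀ b k, lev b = some k → b ∈ A) (hD : 2 ≤ D) (hl : l < H)
    (hΛ : (2 * Kb + 1) * (A.card + 1) * ((Kb + 2) * (Nat.log 2 (A.card + 1) + 1)
      + Nat.log 2 H + 10) ≤ Λ) :
    ∃ c : List β → ℕ, (∀ w, c w < D) ∧ ∀ j₀ < l, ∀ U V : Finset (List β),
      (∀ x ∈ U, XW lev Kb l x) → (∀ v ∈ V, YW lev Kb l v) →
      (((U ×ˢ V).filter (fun t => RR lev col χ Kb l j₀ t ∧
        c (t.1.tail ++ t.2) = colx col l t.1)).card : ℝ) ≤
        2 / (D : ℝ) * (((U ×ˢ V).filter (fun t => RR lev col χ Kb l j₀ t)).card : ℝ)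
          + Λ * ((U.card : ℝ) + V.card) := by
  set W := wds A (2 * Kb) with hWdef
  set XX := (wds A (Kb + 1)).filter (XW lev Kb l) with hXX
  set YY := (wds A Kb).filter (YW lev Kb l) with hYY
  set T : ℕ := (2 * Kb + 1) * (A.card + 1) with hT
  have hTpos : 0 < T := by positivity
  have hTr : (0 : ℝ) < (T : ℝ) := by exact_mod_cast hTpos
  have hlowA : ∀ b, low lev l b = true → b ∈ A := by
    intro b hb
    unfold low at hb
    cases h : lev b with
    | none => rw [h] at hb; simp at hb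
    | some k => exact hlev b k h
  have hXXmem : ∀ x, XW lev Kb l x → x ∈ XX := by
    intro x hx
    rw [hXX, Finset.mem_filter]
    refine ⟨?_, hx⟩
    obtain ⟨z, u, rfl, ⟨k, hk, _⟩, hu, hul⟩ := hx
    rw [mem_wds]
    refine ⟨by simp; omega, ?_⟩
    simp only [List.mem_cons, forall_eq_or_imp]
    exact ⟨hlev z k hk, fun b hb => hlowA b (hu b hb)⟩
  have hYYmem : ∀ v, YW lev Kb l v → v ∈ YY := by
    intro v hv
    rw [hYY, Finset.mem_filter]
    refine ⟨?_, hv⟩
    rw [mem_wds]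
    exact ⟨hv.2, fun b hb => hlowA b (hv.1 b hb)⟩
  have hWmem : ∀ x, XW lev Kb l x → ∀ v, YW lev Kb l v → x.tail ++ v ∈ W := by
    intro x hx v hv
    obtain ⟨z, u, rfl, _, hu, hul⟩ := hx
    rw [hWdef, mem_wds]
    simp only [List.tail_cons, List.length_append, List.mem_append]
    refine ⟨by have := hv.2; omega, ?_⟩
    rintro b (hb | hb)
    · exact hlowA b (hu b hb)
    · exact hlowA b (hv.1 b hb)
  -- the index set of bad events
  set I := (Finset.range l ×ˢ (XX.powerset ×ˢ YY.powerset)) with hI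
  set I' := I.filter (fun i => i.2 ≠ (∅, ∅)) with hI'
  -- weights
  set y : ℝ := (2 : ℝ) ^ (-((Λ : ℝ) / (T : ℝ))) with hy
  have hy0 : 0 < y := by positivity
  set Pf : (ℕ × (Finset (List β) × Finset (List β))) → ℕ := fun i =>
    ((i.2.1 ×ˢ i.2.2).filter (fun t => RR lev col χ Kb l i.1 t)).card with hPf
  set Xf : (W → Fin D) → (ℕ × (Finset (List β) × Finset (List β))) → ℝ := fun c i =>
    ∑ w : W, (cntH lev col χ Kb l i.1 i.2.1 i.2.2 w (c w) : ℝ) with hXf
  set wt : (W → Fin D) → (ℕ × (Finset (List β) × Finset (List β))) → ℝ := fun c i =>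
    (2 : ℝ) ^ ((Xf c i - 2 / (D : ℝ) * Pf i - Λ * ((i.2.1.card : ℝ) + i.2.2.card)) / T) with hwt
  have hDr : (0 : ℝ) < D := by
    have : 0 < D := by omega
    exact_mod_cast this
  have hmemI : ∀ i ∈ I, (∀ x ∈ i.2.1, XW lev Kb l x) ∧ (∀ v ∈ i.2.2, YW lev Kb l v) ∧ i.1 < l := by
    intro i hi
    simp only [hI, Finset.mem_product, Finset.mem_range, Finset.mem_powerset] at hi
    refine ⟨fun x hx => (Finset.mem_filter.1 (hi.2.1 hx)).2, fun v hv =>
      (Finset.mem_filter.1 (hi.2.2 hv)).2, hi.1⟩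
  have step1 : ∀ i ∈ I, ∑ c : W → Fin D, wt c i ≤
      (D : ℝ) ^ (Fintype.card W) * y ^ (i.2.1.card + i.2.2.card) := by
    intro i hi
    obtain ⟨hU, hV, _⟩ := hmemI i hi
    have hsP : ∑ w : W, (cntP lev col χ Kb l i.1 i.2.1 i.2.2 w : ℝ) = Pf i := by
      have := sum_cntP lev col χ Kb l W i.1 i.2.1 i.2.2
        (fun x hx v hv => hWmem x (hU x hx) v (hV v hv))
      exact_mod_cast this
    have hk := key_count (ι := W) D (by omega) T hTr
      (fun w c => (cntH lev col χ Kb l i.1 i.2.1 i.2.2 w c : ℝ))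
      (fun w => (cntP lev col χ Kb l i.1 i.2.1 i.2.2 w : ℝ))
      (fun w c => by positivity)
      (fun w c => by
        have := cnt_le A lev col χ Kb l hlev i.1 i.2.1 i.2.2 hU w c
        exact_mod_cast this)
      (fun w => by
        have := sum_cnt_le lev col χ Kb l D i.1 i.2.1 i.2.2 (w : List β)
        exact_mod_cast this)
    rw [hsP] at hk
    have e1 : ∀ c : W → Fin D, wt c i = (2 : ℝ) ^ (Xf c i / T) *
        ((2 : ℝ) ^ (-(2 / (D : ℝ) * Pf i / T)) * y ^ (i.2.1.card + i.2.2.card)) := by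
      intro c
      have : y ^ (i.2.1.card + i.2.2.card) =
          (2 : ℝ) ^ (-((Λ : ℝ) / (T : ℝ)) * ((i.2.1.card : ℝ) + i.2.2.card)) := by
        rw [hy, ← Real.rpow_natCast, ← Real.rpow_mul (by norm_num)]
        push_cast
        rfl
      rw [this, ← Real.rpow_add (by norm_num), ← Real.rpow_add (by norm_num)]
      simp only [hwt]
      congr 1
      ring
    rw [Finset.sum_congr rfl fun c _ => e1 c, ← Finset.sum_mul]
    have hpos : 0 ≤ (2 : ℝ) ^ (-(2 / (D : ℝ) * Pf i / T)) * y ^ (i.2.1.card + i.2.2.card) := by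
      positivity
    calc (∑ c : W → Fin D, (2 : ℝ) ^ (Xf c i / T)) *
          ((2 : ℝ) ^ (-(2 / (D : ℝ) * Pf i / T)) * y ^ (i.2.1.card + i.2.2.card))
        ≤ ((D : ℝ) ^ (Fintype.card W) * (2 : ℝ) ^ (2 / (D : ℝ) * Pf i / T)) *
          ((2 : ℝ) ^ (-(2 / (D : ℝ) * Pf i / T)) * y ^ (i.2.1.card + i.2.2.card)) :=
          mul_le_mul_of_nonneg_right hk hpos
      _ = _ := by
          have : (2 : ℝ) ^ (2 / (D : ℝ) * Pf i / T) * (2 : ℝ) ^ (-(2 / (D : ℝ) * Pf i / T)) = 1 := by
            rw [← Real.rpow_add (by norm_num)]; simp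
          calc _ = (D : ℝ) ^ (Fintype.card W) * ((2 : ℝ) ^ (2 / (D : ℝ) * Pf i / T) *
                (2 : ℝ) ^ (-(2 / (D : ℝ) * Pf i / T))) * y ^ (i.2.1.card + i.2.2.card) := by ring
            _ = _ := by rw [this, mul_one]
  -- the sum over all nonempty indices
  have step2 : ∑ i ∈ I', y ^ (i.2.1.card + i.2.2.card) =
      l * ((1 + y) ^ (XX.card + YY.card) - 1) := by
    have hall : ∑ i ∈ I, y ^ (i.2.1.card + i.2.2.card) = l * (1 + y) ^ (XX.card + YY.card) := by
      rw [hI, Finset.sum_product]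
      simp only [Finset.sum_const, Finset.card_range, nsmul_eq_mul]
      congr 1
      rw [Finset.sum_product]
      simp only [pow_add, ← Finset.mul_sum, ← Finset.sum_mul]
      have h1 := Finset.sum_pow_mul_eq_add_pow y 1 XX
      have h2 := Finset.sum_pow_mul_eq_add_pow y 1 YY
      simp only [one_pow, mul_one] at h1 h2
      rw [h1, h2, add_comm y 1]
    have hemp : ∑ i ∈ I.filter (fun i => ¬ i.2 ≠ (∅, ∅)), y ^ (i.2.1.card + i.2.2.card) = l := by
      have : I.filter (fun i => ¬ i.2 ≠ (∅, ∅)) = (Finset.range l).image (fun j => (j, (∅, ∅))) := by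
        ext ⟨j, U, V⟩
        simp only [hI, Finset.mem_filter, Finset.mem_product, Finset.mem_range,
          Finset.mem_powerset, Finset.mem_image, not_not, Prod.mk.injEq]
        constructor
        · rintro ⟨⟨h1, _⟩, rfl, rfl⟩
          exact ⟨j, h1, rfl, rfl, rfl⟩
        · rintro ⟨a, ha, rfl, rfl, rfl⟩
          exact ⟨⟨ha, by simp, by simp⟩, rfl, rfl⟩
      rw [this, Finset.sum_image]
      · simp
      · intro a _ b _ hab
        exact (Prod.mk.injEq _ _ _ _ ▸ hab).1
    have hsplit := Finset.sum_filter_add_sum_filter_not I (fun i => i.2 ≠ (∅, ∅))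
      (fun i => y ^ (i.2.1.card + i.2.2.card))
    rw [hall, hemp] at hsplit
    rw [hI']
    linarith
  have hH1 : 1 ≤ H := by omega
  have hyb := y_bound A.card Kb H Λ hH1 hΛ
  have hn : XX.card + YY.card ≤ 2 * (A.card + 1) ^ (Kb + 2) :=
    wds_mono_card A Kb XX YY (Finset.filter_subset _ _) (Finset.filter_subset _ _)
  have hn' : ((XX.card + YY.card : ℕ) : ℝ) ≤ 2 * ((A.card : ℝ) + 1) ^ (Kb + 2) := by
    exact_mod_cast hn
  have hHr : (1 : ℝ) ≤ H := by exact_mod_cast hH1
  have hny : ((XX.card + YY.card : ℕ) : ℝ) * y ≤ 1 / (256 * H) := by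
    rw [le_div_iff₀ (by positivity)]
    calc ((XX.card + YY.card : ℕ) : ℝ) * y * (256 * H)
        ≤ (2 * ((A.card : ℝ) + 1) ^ (Kb + 2)) * y * (256 * H) := by gcongr
      _ = y * (512 * H * ((A.card : ℝ) + 1) ^ (Kb + 2)) := by ring
      _ ≤ 1 := hyb
  have hny2 : ((XX.card + YY.card : ℕ) : ℝ) * y ≤ 1 / 2 := by
    refine hny.trans ?_
    rw [div_le_div_iff₀ (by positivity) (by norm_num)]
    nlinarith
  have step3 : ∑ i ∈ I', y ^ (i.2.1.card + i.2.2.card) < 1 := by
    rw [step2]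
    have h1 := one_add_pow_sub_one_le y (XX.card + YY.card) hy0.le hny2
    have hlH : (l : ℝ) ≤ H := by exact_mod_cast hl.le
    have h0 : 0 ≤ (1 + y) ^ (XX.card + YY.card) - 1 := by
      have : (1 : ℝ) ≤ (1 + y) ^ (XX.card + YY.card) := one_le_pow₀ (by linarith)
      linarith
    calc (l : ℝ) * ((1 + y) ^ (XX.card + YY.card) - 1)
        ≤ H * (2 * (((XX.card + YY.card : ℕ) : ℝ) * y)) := by gcongr
      _ ≤ H * (2 * (1 / (256 * H))) := by gcongr
      _ = 1 / 128 := by field_simp; norm_num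
      _ < 1 := by norm_num
  -- averaging
  have hcardpos : (0 : ℝ) < (D : ℝ) ^ (Fintype.card W) := by positivity
  have havg : ∑ c : W → Fin D, ∑ i ∈ I', wt c i < ∑ _c : W → Fin D, (1 : ℝ) := by
    rw [Finset.sum_comm]
    calc ∑ i ∈ I', ∑ c : W → Fin D, wt c i
        ≤ ∑ i ∈ I', (D : ℝ) ^ (Fintype.card W) * y ^ (i.2.1.card + i.2.2.card) :=
          Finset.sum_le_sum fun i hi => step1 i (Finset.mem_filter.1 hi).1
      _ = (D : ℝ) ^ (Fintype.card W) * ∑ i ∈ I', y ^ (i.2.1.card + i.2.2.card) := by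
          rw [Finset.mul_sum]
      _ < (D : ℝ) ^ (Fintype.card W) * 1 := by gcongr
      _ = ∑ _c : W → Fin D, (1 : ℝ) := by
          simp [Finset.card_univ, Fintype.card_coe]
  obtain ⟨c, _, hc⟩ := Finset.exists_lt_of_sum_lt havg
  have hwt0 : ∀ i, 0 ≤ wt c i := fun i => by simp only [hwt]; positivity
  have hci : ∀ i ∈ I', wt c i < 1 := fun i hi =>
    (Finset.single_le_sum (fun i _ => hwt0 i) hi).trans_lt hc
  refine ⟨fun w => if h : w ∈ W then (c ⟨w, h⟩ : ℕ) else 0, ?_, ?_⟩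
  · intro w
    by_cases h : w ∈ W
    · simp only [h, dif_pos]; exact (c ⟨w, h⟩).2
    · simp only [h, dif_neg, not_false_iff]; omega
  · intro j₀ hj₀ U V hU hV
    by_cases hne : (U, V) = (∅, ∅)
    · rw [Prod.mk.injEq] at hne
      rw [hne.1, hne.2]
      simp
    have hmem : (j₀, (U, V)) ∈ I' := by
      simp only [hI', hI, Finset.mem_filter, Finset.mem_product, Finset.mem_range,
        Finset.mem_powerset]
      exact ⟨⟨hj₀, fun x hx => hXXmem x (hU x hx), fun v hv => hYYmem v (hV v hv)⟩, hne⟩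
    have h1 := hci _ hmem
    have hX : Xf c (j₀, (U, V)) = (((U ×ˢ V).filter (fun t => RR lev col χ Kb l j₀ t ∧
        (fun w => if h : w ∈ W then (c ⟨w, h⟩ : ℕ) else 0) (t.1.tail ++ t.2) =
          colx col l t.1)).card : ℝ) := by
      have := sum_cnt_choice lev col χ Kb l D W j₀ U V
        (fun x hx v hv => hWmem x (hU x hx) v (hV v hv)) c
        (fun w => if h : w ∈ W then (c ⟨w, h⟩ : ℕ) else 0) (fun w => by simp)
      simp only [hXf]
      exact_mod_cast this
    by_contra hcon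
    push Not at hcon
    have h2 : 0 ≤ (Xf c (j₀, (U, V)) - 2 / (D : ℝ) * Pf (j₀, (U, V)) -
        Λ * ((U.card : ℝ) + V.card)) / T := by
      apply div_nonneg _ hTr.le
      rw [hX]
      simp only [hPf]
      linarith
    have h3 : (1 : ℝ) ≤ wt c (j₀, (U, V)) := by
      simp only [hwt]
      exact Real.one_le_rpow (by norm_num) h2
    linarith

theorem okc_congr {lev : β → Option ℕ} {col : β → ℕ → ℕ} {χ χ' : ℕ → List β → ℕ} {Kb l : ℕ}
    (h : χ l = χ' l) (p q : List β) : okc lev col χ Kb l p q ↔ okc lev col χ' Kb l p q := by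
  unfold okc
  rw [h]

theorem CP_congr {lev : β → Option ℕ} {col : β → ℕ → ℕ} {χ χ' : ℕ → List β → ℕ}
    {Kb D Λ l j₀ : ℕ} (h : ∀ l' ≤ l, χ l' = χ' l') (hCP : CP lev col χ Kb D Λ l j₀) :
    CP lev col χ' Kb D Λ l j₀ := by
  intro U V hU hV
  have h0 := hCP U V hU hV
  have e1 : (U ×ˢ V).filter (fun t => ∀ l', j₀ < l' → l' ≤ l → okc lev col χ' Kb l' t.1 t.2) =
      (U ×ˢ V).filter (fun t => ∀ l', j₀ < l' → l' ≤ l → okc lev col χ Kb l' t.1 t.2) := by
    apply Finset.filter_congr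
    intro t _
    constructor
    · intro H l' h1 h2
      exact (okc_congr (h l' h2) _ _).2 (H l' h1 h2)
    · intro H l' h1 h2
      exact (okc_congr (h l' h2) _ _).1 (H l' h1 h2)
  have e2 : (U ×ˢ V).filter (fun t => ∀ l', j₀ < l' → l' < l → okc lev col χ' Kb l' t.1 t.2) =
      (U ×ˢ V).filter (fun t => ∀ l', j₀ < l' → l' < l → okc lev col χ Kb l' t.1 t.2) := by
    apply Finset.filter_congr
    intro t _
    constructor
    · intro H l' h1 h2
      exact (okc_congr (h l' h2.le) _ _).2 (H l' h1 h2)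
    · intro H l' h1 h2
      exact (okc_congr (h l' h2.le) _ _).1 (H l' h1 h2)
  rw [e1, e2]
  exact h0

theorem exists_hash_CP (A : Finset β) (lev : β → Option ℕ) (col : β → ℕ → ℕ) (H D Kb Λ : ℕ)
    (hlev : ∀ b k, lev b = some k → b ∈ A) (hD : 2 ≤ D)
    (hΛ : (2 * Kb + 1) * (A.card + 1) * ((Kb + 2) * (Nat.log 2 (A.card + 1) + 1)
      + Nat.log 2 H + 10) ≤ Λ) :
    ∃ χ : ℕ → List β → ℕ, (∀ l w, χ l w < D) ∧
      ∀ l j₀, j₀ < l → l < H → CP lev col χ Kb D Λ l j₀ := by
  have key : ∀ L ≤ H, ∃ χ : ℕ → List β → ℕ, (∀ l w, χ l w < D) ∧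
      ∀ l j₀, j₀ < l → l < L → CP lev col χ Kb D Λ l j₀ := by
    intro L
    induction L with
    | zero => exact fun _ => ⟨fun _ _ => 0, fun _ _ => by show 0 < D; omega, fun l j₀ _ h => by omega⟩
    | succ L ih =>
      intro hL
      obtain ⟨χ, hχ, hCP⟩ := ih (by omega)
      obtain ⟨c, hc, hcl⟩ := exists_level A lev col χ H D Kb Λ L hlev hD (by omega) hΛ
      refine ⟨Function.update χ L c, ?_, ?_⟩
      · intro l w
        by_cases h : l = L
        · subst h; rw [Function.update_self]; exact hc w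
        · rw [Function.update_of_ne h]; exact hχ l w
      · intro l j₀ hj hl
        rcases Nat.lt_succ_iff_lt_or_eq.1 hl with hlt | heq
        · refine CP_congr (χ := χ) ?_ (hCP l j₀ hj hlt)
          intro l' hl'
          rw [Function.update_of_ne (by omega)]
        · subst heq
          intro U V hU hV
          have h0 := hcl j₀ hj U V hU hV
          have e2 : (U ×ˢ V).filter (fun t => ∀ l', j₀ < l' → l' < l →
                okc lev col (Function.update χ l c) Kb l' t.1 t.2) =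
              (U ×ˢ V).filter (fun t => RR lev col χ Kb l j₀ t) := by
            apply Finset.filter_congr
            intro t _
            constructor
            · intro H l' h1 h2
              exact (okc_congr (by rw [Function.update_of_ne (by omega)]) _ _).1 (H l' h1 h2)
            · intro H l' h1 h2
              exact (okc_congr (by rw [Function.update_of_ne (by omega)]) _ _).1 (H l' h1 h2)
          have e1 : (U ×ˢ V).filter (fun t => ∀ l', j₀ < l' → l' ≤ l →
                okc lev col (Function.update χ l c) Kb l' t.1 t.2) =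
              (U ×ˢ V).filter (fun t => RR lev col χ Kb l j₀ t ∧
                c (t.1.tail ++ t.2) = colx col l t.1) := by
            apply Finset.filter_congr
            rintro ⟨x, v⟩ ht
            rw [Finset.mem_product] at ht
            obtain ⟨z, u, rfl, hz, hu, hul⟩ := hU x ht.1
            obtain ⟨hv, hvl⟩ := hV v ht.2
            have hok := okc_normal (col := col) (χ := Function.update χ l c) hz hu hul hv hvl
            rw [Function.update_self] at hok
            constructor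
            · intro H
              refine ⟨?_, ?_⟩
              · intro l' h1 h2
                exact (okc_congr (by rw [Function.update_of_ne (by omega)]) _ _).1 (H l' h1 h2.le)
              · exact hok.1 (H l hj le_rfl)
            · rintro ⟨H1, H2⟩ l' h1 h2
              rcases h2.lt_or_eq with h2 | h2
              · exact (okc_congr (by rw [Function.update_of_ne (by omega)]) _ _).1 (H1 l' h1 h2)
              · subst h2
                exact hok.2 H2
          rw [e1, e2]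
          exact h0
  exact key H le_rfl

end RDCE
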