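import Pool.Agent.H23.CE.TDefs

open Finset Classical

namespace RDCE

variable {β : Type}

/-- left words at level `l`: a marker followed by low letters -/
def XW (lev : β → Option ℕ) (Kb l : ℕ) (x : List β) : Prop :=
  ∃ z u, x = z :: u ∧ mark lev l z ∧ (∀ b ∈ u, low lev l b = true) ∧ u.length ≤ Kb

/-- right words at level `l` -/
def YW (lev : β → Option ℕ) (Kb l : ℕ) (v : List β) : Prop :=
  (∀ b ∈ v, low lev l b = true) ∧ v.length ≤ Kb

/-- single level crossing property -/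
def CP (lev : β → Option ℕ) (col : β → ℕ → ℕ) (χ : ℕ → List β → ℕ) (Kb D Λ l j₀ : ℕ) : Prop :=
  ∀ U V : Finset (List β), (∀ x ∈ U, XW lev Kb l x) → (∀ v ∈ V, YW lev Kb l v) →
    (((U ×ˢ V).filter (fun t => ∀ l', j₀ < l' → l' ≤ l → okc lev col χ Kb l' t.1 t.2)).card : ℝ)
      ≤ 2 / (D : ℝ) *
          (((U ×ˢ V).filter (fun t => ∀ l', j₀ < l' → l' < l →
            okc lev col χ Kb l' t.1 t.2)).card : ℝ)
        + Λ * ((U.card : ℝ) + V.card)

end RDCE
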