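import Pool.Agent.H23.CE.FamC

/-! # The indicator condition -/

open Finset Classical

namespace RDCE

lemma card_AB_le (h : ℕ) : (AB h).card ≤ (h + 1) * (pn h * pD h ^ (h + 1)) := by
  unfold AB
  refine Finset.card_image_le.trans ?_
  rw [Finset.card_univ]
  simp only [Letter, Fintype.card_prod, Fintype.card_fin, Fintype.card_pi, Finset.prod_const,
    Finset.card_univ]
  exact le_refl _

lemma card_AB_succ_le {h J : ℕ} (hJ : h + 1 ≤ J) : (AB h).card + 1 ≤ 2 ^ (10 * J ^ 2) := by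
  have h1 := card_AB_le h
  set H := h + 1 with hH
  have e1 : pn h = 2 ^ (4 * H ^ 2 + 2) := by
    unfold pn pB
    rw [← hH]
    rw [show (4 : ℕ) = 2 ^ 2 by norm_num, ← pow_mul, ← pow_mul, ← pow_add]
    congr 1; ring
  have e2 : pD h ^ H = 2 ^ ((H + 1) * H) := by
    unfold pD
    rw [← pow_mul]
  have e3 : H ≤ 2 ^ H := Nat.lt_two_pow_self.le
  have h2 : (AB h).card ≤ 2 ^ H * (2 ^ (4 * H ^ 2 + 2) * 2 ^ ((H + 1) * H)) := by
    refine h1.trans ?_
    rw [e1, e2]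
    exact Nat.mul_le_mul_right _ e3
  rw [← pow_add, ← pow_add] at h2
  have h3 : H + (4 * H ^ 2 + 2 + (H + 1) * H) + 1 ≤ 10 * J ^ 2 := by
    have h4 : H * H ≤ J * J := Nat.mul_le_mul hJ hJ
    have h5 : H ≤ H * H := Nat.le_mul_of_pos_left _ (by omega)
    have h6 : 1 ≤ H * H := Nat.mul_pos (by omega) (by omega)
    have e4 : (H + 1) * H = H * H + H := by ring
    rw [sq, sq, e4]
    omega
  calc (AB h).card + 1 ≤ 2 ^ (H + (4 * H ^ 2 + 2 + (H + 1) * H)) + 1 := by omega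
    _ ≤ 2 ^ (H + (4 * H ^ 2 + 2 + (H + 1) * H)) + 2 ^ (H + (4 * H ^ 2 + 2 + (H + 1) * H)) := by
        have : 1 ≤ 2 ^ (H + (4 * H ^ 2 + 2 + (H + 1) * H)) := Nat.one_le_two_pow
        omega
    _ = 2 ^ (H + (4 * H ^ 2 + 2 + (H + 1) * H) + 1) := by rw [pow_succ]; ring
    _ ≤ _ := Nat.pow_le_pow_right (by norm_num) h3

lemma pK_le {h J : ℕ} (hJ : h + 1 ≤ J) : pK h ≤ 4 ^ (J ^ 2) := by
  unfold pK pB
  rw [← pow_mul]
  apply Nat.pow_le_pow_right (by norm_num)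
  rw [sq]
  exact Nat.mul_le_mul hJ hJ

lemma pL_le {h J : ℕ} (hJ : h + 1 ≤ J) : pL h ≤ 2 ^ (40 * J ^ 2) := by
  have h1 := card_AB_succ_le hJ
  have h2 := pK_le hJ
  have hJ1 : 1 ≤ J ^ 2 := Nat.one_le_pow _ _ (by omega)
  set a := (AB h).card + 1 with ha
  have h3 : Nat.log 2 a ≤ a := Nat.log_le_self 2 a
  have h4 : Nat.log 2 (h + 1) ≤ h + 1 := Nat.log_le_self 2 _
  have hpow : ∀ x : ℕ, x ≤ 2 ^ x := fun x => Nat.lt_two_pow_self.le
  have h5 : J ≤ 2 ^ (J ^ 2) := (hpow J).trans (Nat.pow_le_pow_right (by norm_num) (by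
    rw [sq]; exact Nat.le_mul_of_pos_left _ (by omega)))
  have hX1 : 2 ≤ 2 ^ (J ^ 2) := by
    calc 2 = 2 ^ 1 := by norm_num
      _ ≤ _ := Nat.pow_le_pow_right (by norm_num) hJ1
  set X := 2 ^ (J ^ 2) with hX
  have e1 : 4 ^ (J ^ 2) = X ^ 2 := by
    rw [hX, ← pow_mul, show (4 : ℕ) = 2 ^ 2 by norm_num, ← pow_mul]
    congr 1; ring
  have e2 : 2 ^ (10 * J ^ 2) = X ^ 10 := by
    rw [hX, ← pow_mul]; congr 1; ring
  have e3 : 2 ^ (40 * J ^ 2) = X ^ 40 := by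
    rw [hX, ← pow_mul]; congr 1; ring
  rw [e1] at h2
  rw [e2] at h1
  rw [e3]
  unfold pL
  rw [← ha]
  -- crude bounds in terms of `X ≥ 2`
  have hXp : ∀ i j : ℕ, i ≤ j → X ^ i ≤ X ^ j := fun i j hij => Nat.pow_le_pow_right (by omega) hij
  have b1 : 2 * pK h + 1 ≤ X ^ 4 := by
    have : X ^ 2 * 4 ≤ X ^ 2 * X ^ 2 := Nat.mul_le_mul_left _ (by
      calc 4 = 2 ^ 2 := by norm_num
        _ ≤ X ^ 2 := Nat.pow_le_pow_left hX1 2)
    have h' : 1 ≤ X ^ 2 := Nat.one_le_pow _ _ (by omega)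
    calc 2 * pK h + 1 ≤ X ^ 2 * 4 := by omega
      _ ≤ X ^ 2 * X ^ 2 := this
      _ = X ^ 4 := by ring
  have b2 : pK h + 2 ≤ X ^ 4 := by
    have : X ^ 2 * 4 ≤ X ^ 2 * X ^ 2 := Nat.mul_le_mul_left _ (by
      calc 4 = 2 ^ 2 := by norm_num
        _ ≤ X ^ 2 := Nat.pow_le_pow_left hX1 2)
    have h' : 1 ≤ X ^ 2 := Nat.one_le_pow _ _ (by omega)
    calc pK h + 2 ≤ X ^ 2 * 4 := by omega
      _ ≤ X ^ 2 * X ^ 2 := this
      _ = X ^ 4 := by ring
  have b3 : Nat.log 2 a + 1 ≤ X ^ 11 := by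
    have : X ^ 10 * 2 ≤ X ^ 10 * X := Nat.mul_le_mul_left _ hX1
    have h' : 1 ≤ X ^ 10 := Nat.one_le_pow _ _ (by omega)
    calc Nat.log 2 a + 1 ≤ X ^ 10 * 2 := by omega
      _ ≤ X ^ 10 * X := this
      _ = X ^ 11 := by ring
  have b4 : Nat.log 2 (h + 1) + 10 ≤ X ^ 15 := by
    have h6 : h + 1 ≤ X := hJ.trans h5
    have h7 : X ^ 1 ≤ X ^ 14 := hXp 1 14 (by norm_num)
    have h8 : 2 ^ 14 ≤ X ^ 14 := Nat.pow_le_pow_left hX1 14
    have h9 : X ^ 14 * 2 ≤ X ^ 14 * X := Nat.mul_le_mul_left _ hX1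
    rw [pow_one] at h7
    calc Nat.log 2 (h + 1) + 10 ≤ X ^ 14 * 2 := by omega
      _ ≤ X ^ 14 * X := h9
      _ = X ^ 15 := by ring
  have b5 : (pK h + 2) * (Nat.log 2 a + 1) + Nat.log 2 (h + 1) + 10 ≤ X ^ 16 := by
    have h6 : (pK h + 2) * (Nat.log 2 a + 1) ≤ X ^ 4 * X ^ 11 := Nat.mul_le_mul b2 b3
    have h7 : X ^ 15 * 2 ≤ X ^ 15 * X := Nat.mul_le_mul_left _ hX1
    have h8 : X ^ 4 * X ^ 11 = X ^ 15 := by ring
    calc (pK h + 2) * (Nat.log 2 a + 1) + Nat.log 2 (h + 1) + 10 ≤ X ^ 15 * 2 := by omega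
      _ ≤ X ^ 15 * X := h7
      _ = X ^ 16 := by ring
  calc (2 * pK h + 1) * a * ((pK h + 2) * (Nat.log 2 a + 1) + Nat.log 2 (h + 1) + 10)
      ≤ X ^ 4 * X ^ 10 * X ^ 16 := Nat.mul_le_mul (Nat.mul_le_mul b1 h1) b5
    _ = X ^ 30 := by ring
    _ ≤ X ^ 40 := hXp 30 40 (by norm_num)

/-- reduced word (with the classical `DecidableEq` instance) -/
noncomputable abbrev tw (g : FreeGroup Al) : List Be :=
  @FreeGroup.toWord Al (fun a b => Classical.propDecidable (a = b)) g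

/-- The length function. -/
noncomputable def Lfun : FreeGroup Al → ℝ := LF FB wB

theorem Lfun_isLengthFunction : RD.IsLengthFunction Lfun :=
  LF_isLengthFunction FB rfl wB FB_inv_closed

theorem Lfun_indicator : RD.IndicatorCondition Lfun := by
  refine ⟨Polynomial.C (144 * 20000000 * 40 ^ 14) * (Polynomial.X + 1) ^ 32 *
    (Polynomial.X + 4) + 1, ?_⟩
  intro r hr S X hS
  set ρ : ℕ := ⌊r⌋₊ with hρ
  have hρr : (ρ : ℝ) ≤ r := Nat.floor_le hr.le
  set J : ℕ := max (Nat.log 4 ρ) 1 with hJ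
  have hJ1 : 1 ≤ J := le_max_right _ _
  have hJsq : 1 ≤ J ^ 2 := Nat.one_le_pow _ _ (by omega)
  have hlogle : Nat.log 4 ρ ≤ J := le_max_left _ _
  set L0 : ℕ := 40 * J ^ 2 with hL0
  set κ : ℕ := 4 ^ (J ^ 2) with hκ
  set R : ℕ := 4 ^ J with hR
  have hc : Cst L0 κ := by
    refine ⟨by omega, Nat.one_le_pow _ _ (by norm_num), ?_⟩
    rw [hκ, show (4 : ℕ) = 2 ^ 2 by norm_num, ← pow_mul]
    calc 2 * 2 ^ (2 * J ^ 2) = 2 ^ (2 * J ^ 2 + 1) := by rw [pow_succ]; ring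
      _ ≤ _ := Nat.pow_le_pow_right (by norm_num) (by omega)
  have hgood : ∀ c : ℕ × Bool, c.1 + 1 ≤ J → Good FB L0 κ R c := by
    intro c hcJ
    apply FB_good c _ (pL_le hcJ) _ (pK_le hcJ)
    · have : J ≤ J ^ 2 := by rw [sq]; exact Nat.le_mul_of_pos_left _ (by omega)
      omega
    · unfold pB
      exact Nat.pow_le_pow_right (by norm_num) hcJ
  have hcost : ∀ s ∈ S, cost FB wB (tw s) ≤ ρ := by
    intro s hs
    have h1 : (cost FB wB (tw s) : ℝ) ≤ r := hS hs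
    exact Nat.le_floor h1
  have hb := ball_bound (m := ρ) FB hc (0, true) (hgood (0, true) hJ1)
    (S := S.image tw) (Y := X.image (fun x => tw x⁻¹))
    (by
      intro s hs
      obtain ⟨g, -, rfl⟩ := Finset.mem_image.1 hs
      exact red_toWord g)
    (by
      intro s hs
      obtain ⟨g, -, rfl⟩ := Finset.mem_image.1 hs
      exact red_toWord g⁻¹)
    (by
      intro s hs b hb
      obtain ⟨g, hg, rfl⟩ := Finset.mem_image.1 hs
      have h1 := (dec_of_cost_le FB wB wB_pos (hcost g hg)).2 b hb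
      apply hgood
      have h2 : (FB.cls b).1 + 1 ≤ Nat.log 4 ρ :=
        Nat.le_log_of_pow_le (by norm_num) h1
      exact h2.trans hlogle)
    (by
      intro s hs
      obtain ⟨g, hg, rfl⟩ := Finset.mem_image.1 hs
      exact (dec_of_cost_le FB wB wB_pos (hcost g hg)).1)
  have h1 : RD.normSq (RD.conv ((S : Set (FreeGroup Al)).indicator 1)
      ((X : Set (FreeGroup Al)).indicator 1)) ≤ 144 * ((ρ : ℝ) + 1) ^ 4 * leafC L0 R *
        (((S.image tw).card : ℝ) * ((X.image (fun x => tw x⁻¹)).card : ℝ))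
          + (S.card : ℝ) * (X.card : ℝ) := by
    apply normSq_conv_le
    refine Eq.mp (congrArg₂ (fun a b => Bd finv (Tr a b) (144 * ((ρ : ℝ) + 1) ^ 4 * leafC L0 R *
        (((S.image tw).card : ℝ) * ((X.image (fun x => tw x⁻¹)).card : ℝ)))) ?_ ?_) hb
    · ext x
      simp only [Finset.mem_image]
    · ext x
      simp only [Finset.mem_image]
  refine h1.trans ?_
  have hcS : (((S.image tw).card : ℕ) : ℝ) ≤ S.card := by
    exact_mod_cast Finset.card_image_le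
  have hcX : (((X.image (fun x => tw x⁻¹)).card : ℕ) : ℝ) ≤ X.card := by
    exact_mod_cast Finset.card_image_le
  have hJr : (J : ℝ) ≤ r + 1 := by
    have h2 : J ≤ ρ + 1 := by
      rw [hJ]
      apply max_le
      · exact (Nat.log_le_self 4 ρ).trans (by omega)
      · omega
    have h3 : (J : ℝ) ≤ (ρ : ℝ) + 1 := by exact_mod_cast h2
    linarith
  have hRr : (R : ℝ) ≤ r + 4 := by
    have h2 : R ≤ ρ + 4 := by
      rw [hR, hJ]
      rcases le_total (Nat.log 4 ρ) 1 with h | h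
      · rw [max_eq_right h]; omega
      · rw [max_eq_left h]
        have hρ0 : ρ ≠ 0 := by
          rintro h0
          rw [h0] at h; simp at h
        have := Nat.pow_log_le_self 4 hρ0
        omega
    have h3 : (R : ℝ) ≤ (ρ : ℝ) + 4 := by exact_mod_cast h2
    linarith
  have hL0r : (L0 : ℝ) ≤ 40 * (r + 1) ^ 2 := by
    rw [hL0]; push_cast
    have : (J : ℝ) ^ 2 ≤ (r + 1) ^ 2 := pow_le_pow_left₀ (Nat.cast_nonneg _) hJr 2
    linarith
  have hA : 144 * ((ρ : ℝ) + 1) ^ 4 * leafC L0 R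
      ≤ 144 * (r + 1) ^ 4 * (20000000 * (40 * (r + 1) ^ 2) ^ 14 * (r + 4)) := by
    unfold leafC
    apply mul_le_mul
    · apply mul_le_mul_of_nonneg_left _ (by norm_num)
      apply pow_le_pow_left₀ (by positivity)
      linarith
    · apply mul_le_mul
      · apply mul_le_mul_of_nonneg_left _ (by norm_num)
        exact pow_le_pow_left₀ (Nat.cast_nonneg _) hL0r 14
      · exact hRr
      · exact Nat.cast_nonneg _
      · positivity
    · positivity
    · positivity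
  have hA0 : 0 ≤ 144 * ((ρ : ℝ) + 1) ^ 4 * leafC L0 R := by
    have := leafC_nonneg L0 (M := (R : ℝ)) (Nat.cast_nonneg _)
    positivity
  have heval : (Polynomial.C (144 * 20000000 * 40 ^ 14) * (Polynomial.X + 1) ^ 32 *
    (Polynomial.X + 4) + 1 : Polynomial ℝ).eval r
      = 144 * (r + 1) ^ 4 * (20000000 * (40 * (r + 1) ^ 2) ^ 14 * (r + 4)) + 1 := by
    simp only [Polynomial.eval_mul, Polynomial.eval_C, Polynomial.eval_pow, Polynomial.eval_add,
      Polynomial.eval_X, Polynomial.eval_one, Polynomial.eval_ofNat]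
    ring
  rw [heval]
  calc 144 * ((ρ : ℝ) + 1) ^ 4 * leafC L0 R *
        (((S.image tw).card : ℝ) * ((X.image (fun x => tw x⁻¹)).card : ℝ))
          + (S.card : ℝ) * (X.card : ℝ)
      ≤ (144 * (r + 1) ^ 4 * (20000000 * (40 * (r + 1) ^ 2) ^ 14 * (r + 4))) *
        ((S.card : ℝ) * X.card) + (S.card : ℝ) * (X.card : ℝ) := by
        apply add_le_add_left
        apply mul_le_mul hA _ (by positivity) (by positivity)
        exact mul_le_mul hcS hcX (by positivity) (by positivity)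
    _ = _ := by ring

end RDCE
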