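import Pool.Agent.H23.CE.RectQC

/-!
# Far pairs, splitting into kinds
-/

open Finset Classical

namespace RDCE

variable {β : Type} (𝔖 : Sys β) (S : Finset (List β)) (ν K : ℕ)

theorem cn_comm (Q : Finset (List β)) (X : Finset (List β × List β)) (p p' : List β) :
    cn Q X p p' = cn Q X p' p := by
  unfold cn
  congr 1
  ext q
  simp only [mem_filter]
  tauto

theorem cn_le (p p' : List β) : cn (QQ 𝔖 S) (Ed 𝔖 S ν) p p' ≤ sz S p := by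
  unfold cn sz
  refine Finset.card_le_card_of_injOn (fun q => p ++ q) ?_ ?_
  · intro q hq
    have h1 := (mem_filter.1 (Finset.mem_coe.1 hq)).2.1
    have h2 := (mem_Ed 𝔖 S ν).1 h1
    exact Finset.mem_coe.2 (mem_filter.2 ⟨h2.1, List.prefix_append _ _⟩)
  · intro q _ q' _ h
    exact List.append_cancel_left h

theorem far_aux {a b w n : ℕ} (hn : n ≤ a) (hm : n ≤ b) (hf : Nat.log 2 a + w < Nat.log 2 b) :
    2 ^ w * n ^ 2 ≤ a * b := by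
  rcases Nat.eq_zero_or_pos n with rfl | hpos
  · simp
  · have hb : b ≠ 0 := by omega
    have h1 := Nat.lt_pow_succ_log_self (b := 2) (by norm_num) a
    have h2 := Nat.pow_log_le_self 2 hb
    have h3 : 2 ^ w * 2 ^ (Nat.log 2 a + 1) ≤ 2 ^ Nat.log 2 b := by
      rw [← pow_add]
      exact Nat.pow_le_pow_right (by norm_num) (by omega)
    have h4 : 2 ^ w * n ≤ b := by
      calc 2 ^ w * n ≤ 2 ^ w * 2 ^ (Nat.log 2 a + 1) :=
            Nat.mul_le_mul_left _ (hn.trans h1.le)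
        _ ≤ 2 ^ Nat.log 2 b := h3
        _ ≤ b := h2
    calc 2 ^ w * n ^ 2 = (2 ^ w * n) * n := by ring
      _ ≤ b * a := Nat.mul_le_mul h4 hn
      _ = a * b := mul_comm _ _

theorem far_pair (w : ℕ) (p p' : List β)
    (hf : ¬ (dc S p ≤ dc S p' + w ∧ dc S p' ≤ dc S p + w)) :
    2 ^ w * cn (QQ 𝔖 S) (Ed 𝔖 S ν) p p' ^ 2 ≤ sz S p * sz S p' := by
  have h1 := cn_le 𝔖 S ν p p'
  have h2 := cn_le 𝔖 S ν p' p
  rw [cn_comm] at h2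
  by_cases h : dc S p ≤ dc S p' + w
  · have h3 : Nat.log 2 (sz S p) + w < Nat.log 2 (sz S p') := by
      by_contra h4
      exact hf ⟨h, by push Not at h4; exact h4⟩
    exact far_aux h1 h2 h3
  · have h3 : Nat.log 2 (sz S p') + w < Nat.log 2 (sz S p) := by
      push Not at h; exact h
    rw [mul_comm (sz S p)]
    exact far_aux h2 h1 h3

/-- common neighbours on the left -/
noncomputable def AA (q q' : List β) : Finset (List β) :=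
  (PP S ν).filter (fun p => (p, q) ∈ Ed 𝔖 S ν ∧ (p, q') ∈ Ed 𝔖 S ν)

theorem far_le (κ w : ℕ) (hs : ∀ s ∈ S, s.length < ν + κ) (hw : κ ^ 2 ≤ 2 ^ w) :
    ∑ q ∈ QQ 𝔖 S, ∑ q' ∈ QQ 𝔖 S, ((AA 𝔖 S ν q q' ×ˢ AA 𝔖 S ν q q').filter
      (fun x => ¬ (dc S x.1 ≤ dc S x.2 + w ∧ dc S x.2 ≤ dc S x.1 + w))).card ≤ S.card ^ 2 := by
  let F : List β → List β → List β → List β → ℕ := fun p p' q q' =>
    if (¬ (dc S p ≤ dc S p' + w ∧ dc S p' ≤ dc S p + w) ∧ (p, q) ∈ Ed 𝔖 S ν ∧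
      (p, q') ∈ Ed 𝔖 S ν ∧ (p', q) ∈ Ed 𝔖 S ν ∧ (p', q') ∈ Ed 𝔖 S ν) then 1 else 0
  have h1 : ∀ q q', ((AA 𝔖 S ν q q' ×ˢ AA 𝔖 S ν q q').filter
      (fun x => ¬ (dc S x.1 ≤ dc S x.2 + w ∧ dc S x.2 ≤ dc S x.1 + w))).card =
      ∑ p ∈ PP S ν, ∑ p' ∈ PP S ν, F p p' q q' := by
    intro q q'
    have h2 : (AA 𝔖 S ν q q' ×ˢ AA 𝔖 S ν q q').filter
      (fun x => ¬ (dc S x.1 ≤ dc S x.2 + w ∧ dc S x.2 ≤ dc S x.1 + w)) =
      (PP S ν ×ˢ PP S ν).filter (fun x =>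
        (¬ (dc S x.1 ≤ dc S x.2 + w ∧ dc S x.2 ≤ dc S x.1 + w) ∧ (x.1, q) ∈ Ed 𝔖 S ν ∧
        (x.1, q') ∈ Ed 𝔖 S ν ∧ (x.2, q) ∈ Ed 𝔖 S ν ∧ (x.2, q') ∈ Ed 𝔖 S ν)) := by
      ext ⟨a, b⟩
      simp only [AA, mem_filter, mem_product]
      constructor
      · rintro ⟨⟨⟨h1, h2, h3⟩, h4, h5, h6⟩, h7⟩
        exact ⟨⟨h1, h4⟩, h7, h2, h3, h5, h6⟩
      · rintro ⟨⟨h1, h4⟩, h7, h2, h3, h5, h6⟩
        exact ⟨⟨⟨h1, h2, h3⟩, h4, h5, h6⟩, h7⟩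
    rw [h2, Finset.card_filter, Finset.sum_product]
  have h3 : ∑ q ∈ QQ 𝔖 S, ∑ q' ∈ QQ 𝔖 S, ((AA 𝔖 S ν q q' ×ˢ AA 𝔖 S ν q q').filter
      (fun x => ¬ (dc S x.1 ≤ dc S x.2 + w ∧ dc S x.2 ≤ dc S x.1 + w))).card =
      ∑ p ∈ PP S ν, ∑ p' ∈ PP S ν, ∑ q ∈ QQ 𝔖 S, ∑ q' ∈ QQ 𝔖 S, F p p' q q' := by
    rw [← sum4_comm]
    exact Finset.sum_congr rfl fun q _ => Finset.sum_congr rfl fun q' _ => h1 q q'
  have h4 : ∀ p p', 2 ^ w * ∑ q ∈ QQ 𝔖 S, ∑ q' ∈ QQ 𝔖 S, F p p' q q' ≤ sz S p * sz S p' := by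
    intro p p'
    by_cases hn : (dc S p ≤ dc S p' + w ∧ dc S p' ≤ dc S p + w)
    · have : ∑ q ∈ QQ 𝔖 S, ∑ q' ∈ QQ 𝔖 S, F p p' q q' = 0 := by
        refine Finset.sum_eq_zero fun q _ => Finset.sum_eq_zero fun q' _ => ?_
        simp only [F]
        rw [if_neg]
        exact fun h => h.1 hn
      rw [this]; simp
    · have h5 : ∑ q ∈ QQ 𝔖 S, ∑ q' ∈ QQ 𝔖 S, F p p' q q' =
          cn (QQ 𝔖 S) (Ed 𝔖 S ν) p p' ^ 2 := by
        unfold cn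
        rw [sq, card_filter, Finset.sum_mul_sum]
        refine Finset.sum_congr rfl fun q _ => Finset.sum_congr rfl fun q' _ => ?_
        simp only [F]
        by_cases h1 : (p, q) ∈ Ed 𝔖 S ν <;> by_cases h2 : (p, q') ∈ Ed 𝔖 S ν <;>
          by_cases h3 : (p', q) ∈ Ed 𝔖 S ν <;>
          by_cases h4 : (p', q') ∈ Ed 𝔖 S ν <;>
          simp only [h1, h2, h3, h4, hn, and_true, and_false, not_false_eq_true, if_true,
            if_false, mul_one, mul_zero]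
      rw [h5]
      exact far_pair 𝔖 S ν w p p' hn
  rw [h3]
  have hP : ∀ p ∈ PP S ν, ν ≤ p.length := fun p hp => (mem_filter.1 hp).2
  have h6 := sum_sz S ν κ hs (PP S ν) hP
  have h7 : 2 ^ w * ∑ p ∈ PP S ν, ∑ p' ∈ PP S ν, ∑ q ∈ QQ 𝔖 S, ∑ q' ∈ QQ 𝔖 S, F p p' q q' ≤
      2 ^ w * S.card ^ 2 := by
    rw [Finset.mul_sum]
    simp only [Finset.mul_sum (s := PP S ν)]
    calc ∑ p ∈ PP S ν, ∑ p' ∈ PP S ν, 2 ^ w * ∑ q ∈ QQ 𝔖 S, ∑ q' ∈ QQ 𝔖 S, F p p' q q'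
        ≤ ∑ p ∈ PP S ν, ∑ p' ∈ PP S ν, sz S p * sz S p' :=
          Finset.sum_le_sum fun p _ => Finset.sum_le_sum fun p' _ => h4 p p'
      _ = (∑ p ∈ PP S ν, sz S p) * ∑ p ∈ PP S ν, sz S p := by rw [Finset.sum_mul_sum]
      _ ≤ (κ * S.card) * (κ * S.card) := Nat.mul_le_mul h6 h6
      _ = κ ^ 2 * S.card ^ 2 := by ring
      _ ≤ 2 ^ w * S.card ^ 2 := Nat.mul_le_mul_right _ hw
  exact Nat.le_of_mul_le_mul_left h7 (by positivity)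

/-- admissible pairs of kinds -/
noncomputable def KK : Finset ((Bool × ℕ × ℕ) × (Bool × ℕ × ℕ)) :=
  (KN 𝔖 ×ˢ KN 𝔖).filter (fun z => ¬ (z.1.1 = true ∧ z.2.1 = true))

theorem card_KK : (KK 𝔖).card ≤ (2 * 𝔖.H ^ 2) ^ 2 := by
  unfold KK
  refine (Finset.card_filter_le _ _).trans ?_
  rw [Finset.card_product, card_KN]
  exact le_of_eq (sq _).symm

theorem class_sq (q q' : List β) (hne : q.head? ≠ q'.head?) (c : ℕ) :
    ((AA 𝔖 S ν q q').filter (fun p => dc S p = c)).card ^ 2 ≤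
      (KK 𝔖).card * ∑ z ∈ KK 𝔖, ((PP S ν).filter
        (fun p => (p, q) ∈ GG 𝔖 S ν K c z.1 ∧ (p, q') ∈ GG 𝔖 S ν K c z.2)).card ^ 2 := by
  have h1 : ((AA 𝔖 S ν q q').filter (fun p => dc S p = c)).card =
      ∑ z ∈ KK 𝔖, ((PP S ν).filter
        (fun p => (p, q) ∈ GG 𝔖 S ν K c z.1 ∧ (p, q') ∈ GG 𝔖 S ν K c z.2)).card := by
    rw [Finset.card_eq_sum_card_fiberwise
      (f := fun p => (kd 𝔖 S ν K (p, q), kd 𝔖 S ν K (p, q'))) (t := KK 𝔖)]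
    · refine Finset.sum_congr rfl fun z _ => ?_
      congr 1
      ext p
      obtain ⟨z1, z2⟩ := z
      simp only [AA, GG, mem_filter, Prod.mk.injEq]
      tauto
    · intro p hp
      have hp' := mem_filter.1 (Finset.mem_coe.1 hp)
      refine Finset.mem_coe.2 (mem_filter.2 ⟨mem_product.2
        ⟨kd_mem 𝔖 S ν K _, kd_mem 𝔖 S ν K _⟩, ?_⟩)
      rintro ⟨h2, h3⟩
      have h2' : decide (HvE S (p, q)) = true := h2
      have h3' : decide (HvE S (p, q')) = true := h3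
      obtain ⟨z, q₁, h4, h5⟩ := of_decide_eq_true h2'
      obtain ⟨z', q₁', h4', h5'⟩ := of_decide_eq_true h3'
      simp only at h4 h4' h5 h5'
      have h6 := HvQ.unique S h5 h5'
      exact hne (by rw [h4, h4', h6]; rfl)
  rw [h1]
  exact sq_sum_le_card_mul_sum_sq

end RDCE
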