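import Pool.Agent.H23.CE.Defs

open Finset Classical

namespace RDCE

variable {β : Type}

/-- the factor of `s` between two positions -/
def wseg (s : List β) (i j : ℕ) : List β := (s.drop i).take (j - i)

lemma take_eq_wseg (s : List β) {i j : ℕ} (h : i ≤ j) : s.take j = s.take i ++ wseg s i j := by
  unfold wseg
  rw [← List.take_add]
  congr 1
  omega

lemma drop_eq_wseg (s : List β) {i j : ℕ} (h : i ≤ j) : s.drop i = wseg s i j ++ s.drop j := by
  unfold wseg
  conv_lhs => rw [← List.take_append_drop (j - i) (s.drop i)]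
  rw [List.drop_drop]
  congr 2
  omega

lemma wseg_append (s : List β) {i j k : ℕ} (h : i ≤ j) (h' : j ≤ k) :
    wseg s i k = wseg s i j ++ wseg s j k := by
  unfold wseg
  have : k - i = (j - i) + (k - j) := by omega
  rw [this, List.take_add, List.drop_drop]
  congr 3
  omega

lemma ld_append_low (lev : β → Option ℕ) (l : ℕ) (w x : List β)
    (hx : ∀ b ∈ x, low lev l b = true) : ld lev l (w ++ x) = ld lev l w := by
  unfold ld List.rdropWhile
  rw [List.reverse_append, List.dropWhile_append_of_pos]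
  intro a ha
  exact hx a (List.mem_reverse.1 ha)

lemma rh_append_low (lev : β → Option ℕ) (l : ℕ) (x w : List β)
    (hx : ∀ b ∈ x, low lev l b = true) : rh lev l (x ++ w) = x ++ rh lev l w :=
  List.takeWhile_append_of_pos hx

/-- left end of the level `l` block of the cut `i` -/
def La (lev : β → Option ℕ) (s : List β) (l i : ℕ) : ℕ := (ld lev l (s.take i)).length

lemma ld_lh (lev : β → Option ℕ) (l : ℕ) (p : List β) : ld lev l p ++ lh lev l p = p := by
  unfold ld lh List.rdropWhile List.rtakeWhile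
  rw [← List.reverse_append, List.takeWhile_append_dropWhile, List.reverse_reverse]

lemma La_le (lev : β → Option ℕ) (s : List β) (l i : ℕ) : La lev s l i ≤ i := by
  unfold La
  have h := congrArg List.length (ld_lh lev l (s.take i))
  simp only [List.length_append, List.length_take] at h
  omega

lemma ld_eq_take (lev : β → Option ℕ) (s : List β) (l i : ℕ) :
    ld lev l (s.take i) = s.take (La lev s l i) := by
  have h1 : ld lev l (s.take i) <+: s :=
    List.IsPrefix.trans ⟨_, ld_lh lev l (s.take i)⟩ (List.take_prefix i s)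
  exact List.prefix_iff_eq_take.1 h1

lemma lh_eq_wseg (lev : β → Option ℕ) (s : List β) (l i : ℕ) :
    lh lev l (s.take i) = wseg s (La lev s l i) i := by
  have h1 := ld_lh lev l (s.take i)
  rw [ld_eq_take, take_eq_wseg s (La_le lev s l i)] at h1
  rw [← take_eq_wseg s (La_le lev s l i)] at h1
  exact List.append_cancel_left (h1.trans (take_eq_wseg s (La_le lev s l i)))

lemma lh_low (lev : β → Option ℕ) (l : ℕ) (p : List β) : ∀ b ∈ lh lev l p, low lev l b = true :=
  fun _ hb => List.mem_rtakeWhile_imp hb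

lemma rh_low (lev : β → Option ℕ) (l : ℕ) (q : List β) : ∀ b ∈ rh lev l q, low lev l b = true :=
  fun _ hb => List.mem_takeWhile_imp hb

lemma wseg_La_low (lev : β → Option ℕ) (s : List β) (l i : ℕ) :
    ∀ b ∈ wseg s (La lev s l i) i, low lev l b = true := by
  rw [← lh_eq_wseg]
  exact lh_low lev l _

lemma La_eq_of_low (lev : β → Option ℕ) (s : List β) (l : ℕ) {i j : ℕ} (h : i ≤ j)
    (hl : ∀ b ∈ wseg s i j, low lev l b = true) : La lev s l j = La lev s l i := by
  unfold La
  rw [take_eq_wseg s h, ld_append_low lev l _ _ hl]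

lemma low_of_La_le (lev : β → Option ℕ) (s : List β) (l : ℕ) {i j : ℕ} (hij : i ≤ j)
    (h : La lev s l j ≤ i) : ∀ b ∈ wseg s i j, low lev l b = true := by
  intro b hb
  apply wseg_La_low lev s l j b
  rw [wseg_append s h hij]
  exact List.mem_append_right _ hb

/-- the general counting lemma for images -/
lemma card_image_le_of_factor {ι : Type} (T : Finset ι) (f : ι → ℕ) (g : ι → ℕ)
    (h : ∀ x ∈ T, ∀ y ∈ T, g x = g y → f x = f y) : (T.image f).card ≤ (T.image g).card := by
  have hex : ∀ a : ℕ, ∃ y : ℕ, a ∈ T.image f → ∃ x ∈ T, f x = a ∧ g x = y := fun a => by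
    by_cases ha : a ∈ T.image f
    · obtain ⟨x, hx, hxa⟩ := Finset.mem_image.1 ha
      exact ⟨g x, fun _ => ⟨x, hx, hxa, rfl⟩⟩
    · exact ⟨0, fun h => absurd h ha⟩
  choose c hc using hex
  refine Finset.card_le_card_of_injOn c ?_ ?_
  · intro a ha
    obtain ⟨x, hx, _, hx2⟩ := hc a ha
    rw [← hx2]
    exact Finset.mem_coe.2 (Finset.mem_image_of_mem g hx)
  · intro a ha b hb hab
    obtain ⟨x, hx, hx1, hx2⟩ := hc a ha
    obtain ⟨y, hy, hy1, hy2⟩ := hc b hb
    have := h x hx y hy (by rw [hx2, hy2, hab])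
    rw [← hx1, ← hy1, this]

lemma card_image_le_mul' {ι : Type} (T : Finset ι) (f : ι → ℕ) (g : ι → ℕ) (n : ℕ)
    (h : ∀ a ∈ T.image g, ((T.filter (fun x => g x = a)).image f).card ≤ n) :
    (T.image f).card ≤ (T.image g).card * n := by
  have hsub : T.image f ⊆ (T.image g).biUnion (fun a => (T.filter (fun x => g x = a)).image f) := by
    intro y hy
    obtain ⟨x, hx, rfl⟩ := Finset.mem_image.1 hy
    refine Finset.mem_biUnion.2 ⟨g x, Finset.mem_image_of_mem g hx, ?_⟩
    exact Finset.mem_image_of_mem f (Finset.mem_filter.2 ⟨hx, rfl⟩)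
  exact (Finset.card_le_card hsub).trans (Finset.card_biUnion_le_card_mul _ _ _ h)

/-- few values of the lower level in one block -/
lemma card_La_le (lev : β → Option ℕ) (s : List β) (j M a : ℕ) (T : Finset ℕ)
    (h1 : ∀ i ∈ T, a ≤ i) (h2 : ∀ i ∈ T, ∀ b ∈ wseg s a i, low lev (j + 1) b = true)
    (h3 : ∀ i ∈ T, (wseg s a i).countP (fun b => decide (lev b = some j)) ≤ M) :
    (T.image (La lev s j)).card ≤ M + 1 := by
  have key : ∀ x ∈ T, ∀ y ∈ T, x ≤ y →
      (wseg s a x).countP (fun b => decide (lev b = some j)) =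
      (wseg s a y).countP (fun b => decide (lev b = some j)) → La lev s j y = La lev s j x := by
    intro x hx y hy hxy hc
    rw [wseg_append s (h1 x hx) hxy, List.countP_append] at hc
    have h0 : (wseg s x y).countP (fun b => decide (lev b = some j)) = 0 := by omega
    rw [List.countP_eq_zero] at h0
    apply La_eq_of_low lev s j hxy
    intro b hb
    have hb1 := h0 b hb
    have hb2 := h2 y hy b (by
      rw [wseg_append s (h1 x hx) hxy]
      exact List.mem_append_right _ hb)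
    unfold low at hb2 ⊢
    rcases hk : lev b with _ | k
    · rw [hk] at hb2
      simp at hb2
    · rw [hk] at hb2 hb1
      simp only [decide_eq_true_eq] at hb2
      simp only [Option.some.injEq, decide_eq_true_eq] at hb1
      simp only [decide_eq_true_eq]
      omega
  have hfac : (T.image (La lev s j)).card ≤
      (T.image (fun i => (wseg s a i).countP (fun b => decide (lev b = some j)))).card := by
    apply card_image_le_of_factor
    intro x hx y hy hxy
    rcases le_total x y with h | h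
    · exact (key x hx y hy h hxy).symm
    · exact key y hy x hx h hxy.symm
  refine hfac.trans ?_
  have hsub : T.image (fun i => (wseg s a i).countP (fun b => decide (lev b = some j))) ⊆
      Finset.range (M + 1) := by
    intro c hc
    obtain ⟨i, hi, rfl⟩ := Finset.mem_image.1 hc
    exact Finset.mem_range.2 (Nat.lt_succ_of_le (h3 i hi))
  exact (Finset.card_le_card hsub).trans (by simp)

lemma lev_of_low (lev : β → Option ℕ) {j : ℕ} {b : β} (h : low lev (j + 1) b = true) :
    ∃ k, k ≤ j ∧ lev b = some k := by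
  unfold low at h
  rcases hk : lev b with _ | k
  · rw [hk] at h
    simp at h
  · rw [hk] at h
    simp only [decide_eq_true_eq] at h
    exact ⟨k, by omega, rfl⟩

lemma mark_of_not_low (lev : β → Option ℕ) {l : ℕ} {b : β} (h : ¬ low lev l b = true)
    (hb : ∃ k, lev b = some k) : mark lev l b := by
  obtain ⟨k, hk⟩ := hb
  refine ⟨k, hk, ?_⟩
  unfold low at h
  rw [hk] at h
  simp only [decide_eq_true_eq] at h
  omega

lemma card_group_le (𝔖 : Sys β) (s : List β) (j : ℕ) (T : Finset ℕ)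
    (hm : ∀ i ∈ T, 𝔖.mem (s.drop i))
    (h : ∀ i₁ ∈ T, ∀ i₂ ∈ T, i₁ ≤ i₂ → ∀ b ∈ wseg s i₁ i₂, low 𝔖.lev (j + 1) b = true) :
    (T.image (La 𝔖.lev s j)).card ≤ 𝔖.M + 1 := by
  rcases T.eq_empty_or_nonempty with rfl | hne
  · simp
  · have hmin := T.min'_mem hne
    refine card_La_le 𝔖.lev s j 𝔖.M (T.min' hne) T (fun i hi => T.min'_le i hi)
      (fun i hi => h _ hmin _ hi (T.min'_le i hi)) ?_
    intro i hi
    have hmem : 𝔖.mem (wseg s (T.min' hne) i) := by
      have h1 := hm _ hmin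
      rw [drop_eq_wseg s (T.min'_le i hi)] at h1
      exact 𝔖.mem_prefix h1
    apply 𝔖.mem_count hmem
    intro b hb
    exact lev_of_low 𝔖.lev (h _ hmin _ hi (T.min'_le i hi) b hb)

lemma not_low_before_La (lev : β → Option ℕ) (s : List β) (l i : ℕ) {p₀ : List β} {z : β}
    (h : ld lev l (s.take i) = p₀ ++ [z]) : ¬ low lev l z = true := by
  have hne : (s.take i).rdropWhile (low lev l) ≠ [] := by
    intro h0
    change ld lev l (s.take i) = [] at h0
    rw [h0] at h
    simp at h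
  have h1 := List.rdropWhile_last_not (low lev l) (s.take i) hne
  have h2 : ((s.take i).rdropWhile (low lev l)).getLast hne = z := by
    have h3 : (s.take i).rdropWhile (low lev l) = p₀ ++ [z] := h
    simp [h3]
  rwa [h2] at h1

/-- if the block of level `l` at `i₂` starts after `i₁`, the letter before it is a marker in
`s.drop i₁` -/
lemma exists_marker (𝔖 : Sys β) (s : List β) (l : ℕ) {i₁ i₂ : ℕ} (hi : i₁ ≤ i₂)
    (hm : 𝔖.mem (s.drop i₁)) (hn : ¬ ∀ b ∈ wseg s i₁ i₂, low 𝔖.lev l b = true) :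
    i₁ < La 𝔖.lev s l i₂ ∧ ∃ z, ld 𝔖.lev l (s.take i₂) = s.take (La 𝔖.lev s l i₂ - 1) ++ [z] ∧
      mark 𝔖.lev l z ∧ wseg s (La 𝔖.lev s l i₂ - 1) (La 𝔖.lev s l i₂) = [z] := by
  have hlt : i₁ < La 𝔖.lev s l i₂ := by
    by_contra hc
    exact hn (low_of_La_le 𝔖.lev s l hi (not_lt.1 hc))
  refine ⟨hlt, ?_⟩
  set a := La 𝔖.lev s l i₂ with ha
  have hla : (s.take a).length = a := by
    rw [ha, ← ld_eq_take 𝔖.lev s l i₂]
    rfl
  have hle : a ≤ s.length := by
    rw [List.length_take] at hla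
    omega
  have h1 : s.take a = s.take (a - 1) ++ wseg s (a - 1) a := take_eq_wseg s (by omega)
  have h2 : (wseg s (a - 1) a).length = 1 := by
    have := congrArg List.length h1
    rw [List.length_append, List.length_take, List.length_take] at this
    omega
  obtain ⟨z, hz⟩ := List.length_eq_one_iff.1 h2
  refine ⟨z, ?_, ?_, hz⟩
  · rw [ld_eq_take, ← ha, h1, hz]
  · apply mark_of_not_low
    · apply not_low_before_La 𝔖.lev s l i₂ (p₀ := s.take (a - 1))
      rw [ld_eq_take, ← ha, h1, hz]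
    · have hzm : z ∈ s.drop i₁ := by
        rw [drop_eq_wseg s (show i₁ ≤ a by omega), wseg_append s (show i₁ ≤ a - 1 by omega)
          (show a - 1 ≤ a by omega), hz]
        simp
      obtain ⟨k, _, hk⟩ := 𝔖.mem_lev hm z hzm
      exact ⟨k, hk⟩

/-- group (i): nothing to the right -/
lemma group_one (𝔖 : Sys β) (s : List β) (j₁ : ℕ) (T : Finset ℕ)
    (hm : ∀ i ∈ T, 𝔖.mem (s.drop i))
    (h : ∀ i ∈ T, ¬ (j₁ + 1 < 𝔖.H) ∨ ¬ rightdef 𝔖 (j₁ + 1) (s.drop i)) :
    (T.image (La 𝔖.lev s j₁)).card ≤ 𝔖.M + 1 := by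
  apply card_group_le 𝔖 s j₁ T hm
  intro i₁ h₁ i₂ h₂ hi b hb
  have hbm : b ∈ s.drop i₁ := by
    rw [drop_eq_wseg s hi]
    exact List.mem_append_left _ hb
  obtain ⟨k, hk, hkb⟩ := 𝔖.mem_lev (hm i₁ h₁) b hbm
  rcases h i₁ h₁ with hH | hr
  · unfold low
    rw [hkb]
    simp only [decide_eq_true_eq]
    omega
  · by_contra hb'
    apply hr
    have hne : (s.drop i₁).dropWhile (low 𝔖.lev (j₁ + 1)) ≠ [] := by
      intro h0
      rw [List.dropWhile_eq_nil_iff] at h0
      exact hb' (h0 b hbm)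
    obtain ⟨z, q₀, hzq⟩ := List.exists_cons_of_ne_nil hne
    refine ⟨z, q₀, hzq, ?_⟩
    apply mark_of_not_low
    · have h1 := List.head_dropWhile_not (low 𝔖.lev (j₁ + 1)) hne
      have h2 : ((s.drop i₁).dropWhile (low 𝔖.lev (j₁ + 1))).head hne = z := by
        simp [hzq]
      rw [h2] at h1
      simp [h1]
    · have hzm : z ∈ s.drop i₁ := by
        rw [← List.takeWhile_append_dropWhile (p := low 𝔖.lev (j₁ + 1)) (l := s.drop i₁), hzq]
        simp
      obtain ⟨k, _, hk⟩ := 𝔖.mem_lev (hm i₁ h₁) z hzm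
      exact ⟨k, hk⟩

/-- group (ii): no marker on the left -/
lemma group_two (𝔖 : Sys β) (s : List β) (ν j₁ : ℕ) (T : Finset ℕ)
    (hν : ∀ i ∈ T, ν ≤ i)
    (hm : ∀ i ∈ T, 𝔖.mem (s.drop i))
    (h : ∀ i ∈ T, ¬ leftdef 𝔖 ν (j₁ + 1) (s.take i)) :
    (T.image (La 𝔖.lev s j₁)).card ≤ 𝔖.M + 1 := by
  apply card_group_le 𝔖 s j₁ T hm
  intro i₁ h₁ i₂ h₂ hi
  by_contra hn
  obtain ⟨hlt, z, hz1, hz2, _⟩ := exists_marker 𝔖 s (j₁ + 1) hi (hm i₁ h₁) hn
  apply h i₂ h₂
  refine ⟨?_, _, z, hz1, hz2⟩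
  change ν ≤ La 𝔖.lev s (j₁ + 1) i₂
  have := hν i₁ h₁
  omega

/-- group (iii): complete but not valid -/
lemma group_three (𝔖 : Sys β) (s : List β) (ν j₁ : ℕ) (T : Finset ℕ)
    (hH : j₁ + 1 < 𝔖.H)
    (hm : ∀ i ∈ T, 𝔖.mem (s.drop i))
    (hl : ∀ i ∈ T, leftdef 𝔖 ν (j₁ + 1) (s.take i))
    (hr : ∀ i ∈ T, rightdef 𝔖 (j₁ + 1) (s.drop i))
    (h : ∀ i ∈ T, ¬ valid 𝔖 ν (j₁ + 1) (s.take i) (s.drop i)) :
    (T.image (La 𝔖.lev s j₁)).card ≤ 𝔖.M + 1 := by
  apply card_group_le 𝔖 s j₁ T hm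
  intro i₁ h₁ i₂ h₂ hi
  by_contra hn
  obtain ⟨hlt, z, hz1, hz2, hz3⟩ := exists_marker 𝔖 s (j₁ + 1) hi (hm i₁ h₁) hn
  apply h i₂ h₂
  set a := La 𝔖.lev s (j₁ + 1) i₂ with ha
  obtain ⟨z', q₀, hq, hz'⟩ := hr i₂ h₂
  have hai : a ≤ i₂ := La_le 𝔖.lev s (j₁ + 1) i₂
  -- decomposition of the two sides
  have hp : s.take i₂ = s.take (a - 1) ++ z :: lh 𝔖.lev (j₁ + 1) (s.take i₂) := by
    conv_lhs => rw [← ld_lh 𝔖.lev (j₁ + 1) (s.take i₂), hz1]
    simp
  have hq' : s.drop i₂ = rh 𝔖.lev (j₁ + 1) (s.drop i₂) ++ z' :: q₀ := by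
    conv_lhs => rw [← List.takeWhile_append_dropWhile (p := low 𝔖.lev (j₁ + 1)) (l := s.drop i₂), hq]
  have hall : ∀ b ∈ lh 𝔖.lev (j₁ + 1) (s.take i₂) ++ rh 𝔖.lev (j₁ + 1) (s.drop i₂),
      low 𝔖.lev (j₁ + 1) b = true := by
    intro b hb
    rcases List.mem_append.1 hb with hb | hb
    · exact lh_low 𝔖.lev _ _ b hb
    · exact rh_low 𝔖.lev _ _ b hb
  -- the factor with both markers is in the language
  have hfac : 𝔖.mem (z :: (lh 𝔖.lev (j₁ + 1) (s.take i₂) ++ rh 𝔖.lev (j₁ + 1) (s.drop i₂) ++ [z'])) := by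
    have h1 : s.drop i₁ = wseg s i₁ (a - 1) ++ (wseg s (a - 1) a ++ (wseg s a i₂ ++ s.drop i₂)) := by
      rw [drop_eq_wseg s (show i₁ ≤ i₂ from hi), wseg_append s (show i₁ ≤ a - 1 by omega)
        (show a - 1 ≤ i₂ by omega), wseg_append s (show a - 1 ≤ a by omega) hai]
      simp
    have h2 := hm i₁ h₁
    rw [h1] at h2
    have h3 := 𝔖.mem_suffix h2
    rw [hz3, ← lh_eq_wseg, hq'] at h3
    have h4 : [z] ++ (lh 𝔖.lev (j₁ + 1) (s.take i₂) ++
        (rh 𝔖.lev (j₁ + 1) (s.drop i₂) ++ z' :: q₀)) =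
        (z :: (lh 𝔖.lev (j₁ + 1) (s.take i₂) ++ rh 𝔖.lev (j₁ + 1) (s.drop i₂) ++ [z'])) ++ q₀ := by
      simp
    rw [h4] at h3
    exact 𝔖.mem_prefix h3
  refine ⟨hl i₂ h₂, hr i₂ h₂, ?_, ?_⟩
  · have h5 : 𝔖.mem (lh 𝔖.lev (j₁ + 1) (s.take i₂) ++ rh 𝔖.lev (j₁ + 1) (s.drop i₂)) := by
      have h6 : z :: (lh 𝔖.lev (j₁ + 1) (s.take i₂) ++ rh 𝔖.lev (j₁ + 1) (s.drop i₂) ++ [z'])
          = [z] ++ ((lh 𝔖.lev (j₁ + 1) (s.take i₂) ++ rh 𝔖.lev (j₁ + 1) (s.drop i₂)) ++ [z']) := by
        simp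
      rw [h6] at hfac
      exact 𝔖.mem_prefix (𝔖.mem_suffix hfac)
    have h7 := 𝔖.mem_count h5 j₁ (fun b hb => lev_of_low 𝔖.lev (hall b hb))
    simpa using h7
  · rw [hp]
    conv => arg 4; rw [hq']
    apply 𝔖.mem_ok (j₁ + 1) (by omega) hH _ z _ _ z' q₀ hfac hall hz2 hz'

lemma sz_antitone (S : Finset (List β)) {p p' : List β} (h : p <+: p') : sz S p' ≤ sz S p := by
  unfold sz
  apply Finset.card_le_card
  intro s hs
  rw [Finset.mem_filter] at hs ⊢
  exact ⟨hs.1, h.trans hs.2⟩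

lemma log_range_card {ι : Type} (T : Finset ι) (f : ι → ℕ) (K A D : ℕ) (hK : 1 ≤ K) (hA : 1 ≤ A)
    (h : ∀ i ∈ T, (A ≤ f i ∧ f i ≤ K * A) ∨ (f i ≤ D ∧ D ≤ K * f i ∧ 1 ≤ f i)) :
    (T.image (fun i => Nat.log 2 (f i))).card ≤ 2 * Nat.log 2 K + 4 := by
  have hlogmul : ∀ x y : ℕ, 1 ≤ x → 1 ≤ y → Nat.log 2 (x * y) ≤ Nat.log 2 x + Nat.log 2 y + 1 := by
    intro x y hx hy
    have h1 : x < 2 ^ (Nat.log 2 x + 1) := Nat.lt_pow_succ_log_self (by norm_num) x
    have h2 : y < 2 ^ (Nat.log 2 y + 1) := Nat.lt_pow_succ_log_self (by norm_num) y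
    have h3 : x * y < 2 ^ (Nat.log 2 x + Nat.log 2 y + 1 + 1) := by
      calc x * y < 2 ^ (Nat.log 2 x + 1) * 2 ^ (Nat.log 2 y + 1) := by
            exact Nat.mul_lt_mul'' h1 h2
        _ = 2 ^ (Nat.log 2 x + Nat.log 2 y + 1 + 1) := by rw [← pow_add]; congr 1; ring
    have h4 := Nat.log_lt_of_lt_pow (by positivity) h3
    omega
  have hsub : T.image (fun i => Nat.log 2 (f i)) ⊆
      Finset.Icc (Nat.log 2 A) (Nat.log 2 A + (Nat.log 2 K + 1)) ∪
      Finset.Icc (Nat.log 2 D - (Nat.log 2 K + 1)) (Nat.log 2 D) := by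
    intro x hx
    obtain ⟨i, hi, rfl⟩ := Finset.mem_image.1 hx
    rw [Finset.mem_union, Finset.mem_Icc, Finset.mem_Icc]
    rcases h i hi with ⟨h1, h2⟩ | ⟨h1, h2, h3⟩
    · left
      refine ⟨Nat.log_mono_right h1, ?_⟩
      have := (Nat.log_mono_right (b := 2) h2).trans (hlogmul K A hK hA)
      omega
    · right
      refine ⟨?_, Nat.log_mono_right h1⟩
      have := (Nat.log_mono_right (b := 2) h2).trans (hlogmul K (f i) hK h3)
      omega
  refine (Finset.card_le_card hsub).trans ((Finset.card_union_le _ _).trans ?_)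
  rw [Nat.card_Icc, Nat.card_Icc]
  omega

lemma rh_end_eq (lev : β → Option ℕ) (s : List β) (l : ℕ) {i j : ℕ} (hij : i ≤ j)
    (h : La lev s l i = La lev s l j) :
    s.take i ++ rh lev l (s.drop i) = s.take j ++ rh lev l (s.drop j) := by
  have hlow : ∀ b ∈ wseg s i j, low lev l b = true := by
    apply low_of_La_le lev s l hij
    rw [← h]
    exact La_le lev s l i
  rw [drop_eq_wseg s hij, rh_append_low lev l _ _ hlow, take_eq_wseg s hij, List.append_assoc]

/-- Along a word `s` the cuts of type `(j₀,j₁)` (with `q` in the language and `|p| ≥ ν`) meet few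
dyadic classes of `sz S p`.

Proof. Write `i = |p|` for a cut (`p = s.take i`, `q = s.drop i`).  The cuts with `q` in the
language form an up-set of positions.
Split the cuts of type `(·, j₁)` into 3 groups according to why level `j₁+1` is not valid:
(i) `rightdef (j₁+1)` fails, or `j₁+1 = H`: every letter of `q` has level `≤ j₁`, so by `mem_count`
    for the longest such `q` there are `≤ M` letters of level `j₁` in `q`, hence `≤ M+1` values of
    `(ld lev j₁ p).length` in this group.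
(ii) `leftdef (j₁+1)` fails.  Let `i₁` be the smallest and `i₂` any other cut of the group.  All
    letters of `s` between `i₁` and `i₂` are `low (j₁+1)`: otherwise the letter in front of the
    level-`(j₁+1)` block of `i₂` has index `≥ i₁ ≥ ν`, is an own letter (it lies in `s.drop i₁`,
    which is in the language) and is a marker, so `leftdef (j₁+1)` holds.  Again `mem_count` gives
    `≤ M+1` values of `ld lev j₁ p`.
(iii) both defined, but the count or `ok` fails.  Same argument: if the level-`(j₁+1)` block of `i₂`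
    does not contain `i₁`, then the block with its two markers is a factor of `s.drop i₁`, which is
    in the language, so by `mem_count`/`mem_ok` it would be valid.
Then every valid level `l` block (`1 ≤ l ≤ j₁`) has `≤ M` letters of level `l-1`, so contains `≤ M+1`
different values of `ld lev (l-1) p`.  So there are `≤ 3 (M+1)^(j₁-j₀+1)` values of `ld lev j₀ p`.
If `j₀ = 0`, `ld lev 0 p = p`.  If `j₀ > 0`, the cut is poor at level `j₀`, and for a given value
`d = ld lev j₀ p` the end `p ++ rh lev j₀ q` of the block is also fixed, so `Nat.log 2 (sz S p)` is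
within `Nat.log 2 K + 1` of `Nat.log 2 (sz S (p ++ rh ..))` or of `Nat.log 2 (sz S d)`
(`sz` is antitone along `s`). -/
theorem windows (𝔖 : Sys β) (S : Finset (List β)) (ν K j₀ j₁ : ℕ) (hK : 1 ≤ K)
    (s : List β) (hs : s ∈ S) :
    (((Finset.range (s.length + 1)).filter (fun i => ν ≤ i ∧ 𝔖.mem (s.drop i) ∧
        IsType 𝔖 S ν K j₀ j₁ (s.take i) (s.drop i))).image
          (fun i => Nat.log 2 (sz S (s.take i)))).card
      ≤ 3 * (𝔖.M + 1) ^ (j₁ - j₀ + 1) * (2 * Nat.log 2 K + 4) := by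
  set T := (Finset.range (s.length + 1)).filter (fun i => ν ≤ i ∧ 𝔖.mem (s.drop i) ∧
        IsType 𝔖 S ν K j₀ j₁ (s.take i) (s.drop i)) with hT
  have hTs : ∀ i ∈ T, i ≤ s.length ∧ ν ≤ i ∧ 𝔖.mem (s.drop i) ∧
      IsType 𝔖 S ν K j₀ j₁ (s.take i) (s.drop i) := by
    intro i hi
    rw [hT, Finset.mem_filter, Finset.mem_range] at hi
    exact ⟨by omega, hi.2⟩
  -- top level
  have htop : (T.image (La 𝔖.lev s j₁)).card ≤ 3 * (𝔖.M + 1) := by
    set T1 := T.filter (fun i => ¬ (j₁ + 1 < 𝔖.H) ∨ ¬ rightdef 𝔖 (j₁ + 1) (s.drop i)) with hT1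
    set T2 := T.filter (fun i => ¬ leftdef 𝔖 ν (j₁ + 1) (s.take i)) with hT2
    set T3 := T.filter (fun i => (j₁ + 1 < 𝔖.H) ∧ rightdef 𝔖 (j₁ + 1) (s.drop i) ∧
      leftdef 𝔖 ν (j₁ + 1) (s.take i)) with hT3
    have hcov : T.image (La 𝔖.lev s j₁) ⊆ T1.image (La 𝔖.lev s j₁) ∪
        (T2.image (La 𝔖.lev s j₁) ∪ T3.image (La 𝔖.lev s j₁)) := by
      rw [← Finset.image_union, ← Finset.image_union]
      apply Finset.image_subset_image
      intro i hi
      rw [Finset.mem_union, Finset.mem_union]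
      have e1 : i ∈ T1 ↔ _ := Finset.mem_filter
      have e2 : i ∈ T2 ↔ _ := Finset.mem_filter
      have e3 : i ∈ T3 ↔ _ := Finset.mem_filter
      rw [e1, e2, e3]
      by_cases hc1 : ¬ (j₁ + 1 < 𝔖.H) ∨ ¬ rightdef 𝔖 (j₁ + 1) (s.drop i)
      · exact Or.inl ⟨hi, hc1⟩
      · right
        push Not at hc1
        by_cases hc2 : leftdef 𝔖 ν (j₁ + 1) (s.take i)
        · exact Or.inr ⟨hi, hc1.1, hc1.2, hc2⟩
        · exact Or.inl ⟨hi, hc2⟩
    have hc1 : (T1.image (La 𝔖.lev s j₁)).card ≤ 𝔖.M + 1 := by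
      apply group_one 𝔖 s j₁ T1
      · intro i hi
        exact (hTs i (Finset.mem_filter.1 hi).1).2.2.1
      · intro i hi
        exact (Finset.mem_filter.1 hi).2
    have hc2 : (T2.image (La 𝔖.lev s j₁)).card ≤ 𝔖.M + 1 := by
      apply group_two 𝔖 s ν j₁ T2
      · intro i hi
        exact (hTs i (Finset.mem_filter.1 hi).1).2.1
      · intro i hi
        exact (hTs i (Finset.mem_filter.1 hi).1).2.2.1
      · intro i hi
        exact (Finset.mem_filter.1 hi).2
    have hc3 : (T3.image (La 𝔖.lev s j₁)).card ≤ 𝔖.M + 1 := by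
      by_cases hH : j₁ + 1 < 𝔖.H
      · apply group_three 𝔖 s ν j₁ T3 hH
        · intro i hi
          exact (hTs i (Finset.mem_filter.1 hi).1).2.2.1
        · intro i hi
          exact (Finset.mem_filter.1 hi).2.2.2
        · intro i hi
          exact (Finset.mem_filter.1 hi).2.2.1
        · intro i hi
          exact (hTs i (Finset.mem_filter.1 hi).1).2.2.2.2.2.2.1 hH
      · have : T3 = ∅ := by
          rw [hT3, Finset.filter_eq_empty_iff]
          intro i _ hc
          exact hH hc.1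
        rw [this]
        simp
    have hu := (Finset.card_le_card hcov).trans (Finset.card_union_le _ _)
    have hu2 := Finset.card_union_le (T2.image (La 𝔖.lev s j₁)) (T3.image (La 𝔖.lev s j₁))
    omega
  -- going down
  have hdown : ∀ m, m ≤ j₁ - j₀ → (T.image (La 𝔖.lev s (j₁ - m))).card ≤
      3 * (𝔖.M + 1) ^ (m + 1) := by
    intro m
    induction m with
    | zero =>
      intro _
      simpa using htop
    | succ m ih =>
      intro hm
      have ih' := ih (by omega)
      have hstep : (T.image (La 𝔖.lev s (j₁ - (m + 1)))).card ≤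
          (T.image (La 𝔖.lev s (j₁ - m))).card * (𝔖.M + 1) := by
        apply card_image_le_mul'
        intro a ha
        have hlev : j₁ - m = (j₁ - (m + 1)) + 1 := by omega
        apply card_La_le 𝔖.lev s (j₁ - (m + 1)) 𝔖.M a
        · intro i hi
          rw [Finset.mem_filter] at hi
          rw [← hi.2]
          exact La_le _ _ _ _
        · intro i hi
          rw [Finset.mem_filter] at hi
          rw [← hi.2, ← hlev]
          exact wseg_La_low 𝔖.lev s (j₁ - m) i
        · intro i hi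
          rw [Finset.mem_filter] at hi
          have hv := (hTs i hi.1).2.2.2.2.2.1 (j₁ - m) (by omega) (by omega)
          have hcount := hv.2.2.1
          rw [List.countP_append, lh_eq_wseg, hi.2] at hcount
          have e1 : j₁ - m - 1 = j₁ - (m + 1) := by omega
          rw [e1] at hcount
          exact le_trans (Nat.le_add_right _ _) hcount
      calc (T.image (La 𝔖.lev s (j₁ - (m + 1)))).card
          ≤ (T.image (La 𝔖.lev s (j₁ - m))).card * (𝔖.M + 1) := hstep
        _ ≤ 3 * (𝔖.M + 1) ^ (m + 1) * (𝔖.M + 1) := Nat.mul_le_mul_right _ ih'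
        _ = 3 * (𝔖.M + 1) ^ (m + 1 + 1) := by ring
  -- final step
  rcases T.eq_empty_or_nonempty with hemp | ⟨i₀, hi₀⟩
  · rw [hemp]
    simp
  have hj : j₀ ≤ j₁ := (hTs i₀ hi₀).2.2.2.1
  have hbase : (T.image (La 𝔖.lev s j₀)).card ≤ 3 * (𝔖.M + 1) ^ (j₁ - j₀ + 1) := by
    have := hdown (j₁ - j₀) le_rfl
    rwa [show j₁ - (j₁ - j₀) = j₀ by omega] at this
  have hfin : (T.image (fun i => Nat.log 2 (sz S (s.take i)))).card ≤
      (T.image (La 𝔖.lev s j₀)).card * (2 * Nat.log 2 K + 4) := by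
    apply card_image_le_mul'
    intro a ha
    obtain ⟨i₁, hi₁, hi₁a⟩ := Finset.mem_image.1 ha
    have hA : 1 ≤ sz S (s.take i₁ ++ rh 𝔖.lev j₀ (s.drop i₁)) := by
      unfold sz
      apply Finset.card_pos.2
      refine ⟨s, Finset.mem_filter.2 ⟨hs, ?_⟩⟩
      have : s.take i₁ ++ s.drop i₁ = s := List.take_append_drop _ _
      conv_rhs => rw [← this]
      exact (List.prefix_append_right_inj _).2 (List.takeWhile_prefix _)
    apply log_range_card _ (fun i => sz S (s.take i)) K
      (sz S (s.take i₁ ++ rh 𝔖.lev j₀ (s.drop i₁))) (sz S (s.take a)) hK hA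
    intro i hi
    rw [Finset.mem_filter] at hi
    obtain ⟨hiT, hia⟩ := hi
    have hend : s.take i ++ rh 𝔖.lev j₀ (s.drop i) = s.take i₁ ++ rh 𝔖.lev j₀ (s.drop i₁) := by
      have e : La 𝔖.lev s j₀ i = La 𝔖.lev s j₀ i₁ := by rw [hia, hi₁a]
      rcases le_total i i₁ with h | h
      · exact rh_end_eq 𝔖.lev s j₀ h e
      · exact (rh_end_eq 𝔖.lev s j₀ h e.symm).symm
    have hpos : 1 ≤ sz S (s.take i) := by
      unfold sz
      exact Finset.card_pos.2 ⟨s, Finset.mem_filter.2 ⟨hs, List.take_prefix _ _⟩⟩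
    rcases (hTs i hiT).2.2.2.2.2.2.2.1 with h0 | hpoor
    · -- `j₀ = 0`
      subst h0
      have hd0 : La 𝔖.lev s 0 i = i := by
        unfold La ld
        have : (s.take i).rdropWhile (low 𝔖.lev 0) = s.take i := by
          rw [List.rdropWhile_eq_self_iff]
          intro h
          unfold low
          split <;> simp
        rw [this, List.length_take]
        have := (hTs i hiT).1
        omega
      rw [hd0] at hia
      subst hia
      right
      refine ⟨le_rfl, ?_, hpos⟩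
      exact Nat.le_mul_of_pos_left _ hK
    · rcases hpoor with h1 | h1
      · left
        rw [hend] at h1
        refine ⟨?_, h1⟩
        rw [← hend]
        exact sz_antitone S ⟨_, rfl⟩
      · right
        rw [ld_eq_take, hia] at h1
        refine ⟨?_, h1, hpos⟩
        apply sz_antitone S
        rw [← hia]
        apply List.take_prefix_take_left
        exact La_le _ _ _ _
  exact hfin.trans (Nat.mul_le_mul_right _ hbase)

end RDCE
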