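import Pool.Agent.H23.CE.RectR
import Pool.Agent.H23.CE.Windows
import Pool.Agent.H23.CE.RectQD

open Finset Classical

namespace RDCE

variable {β : Type}

theorem rect_split (𝔖 : Sys β) (S : Finset (List β)) (ν κ w K : ℕ)
    (hs : ∀ s ∈ S, s.length < ν + κ) (hw : κ ^ 2 ≤ 2 ^ w) :
    (rect 𝔖.mem S ν) ≤ S.card ^ 2 + (2 * w + 1) * ((KK 𝔖).card * ∑ z ∈ KK 𝔖,
      ∑ c ∈ range (Nat.log 2 S.card + 1),
        mix (PP S ν) (QQ 𝔖 S) (GG 𝔖 S ν K c z.1) (GG 𝔖 S ν K c z.2)) := by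
  have h1 : rect 𝔖.mem S ν = ∑ q ∈ QQ 𝔖 S, ∑ q' ∈ QQ 𝔖 S,
      if q.head? ≠ q'.head? then (AA 𝔖 S ν q q').card ^ 2 else 0 := by
    unfold rect QQ
    refine Finset.sum_congr rfl fun q hq => Finset.sum_congr rfl fun q' hq' => ?_
    have hq2 := (mem_filter.1 hq).2
    have hq2' := (mem_filter.1 hq').2
    have h2 : (prefs S).filter (fun p => ν ≤ p.length ∧ p ++ q ∈ S ∧ p ++ q' ∈ S) =
        AA 𝔖 S ν q q' := by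
      ext p
      simp only [AA, PP, mem_filter, mem_Ed]
      tauto
    rw [h2]
  have h3 : ∀ q q' : List β, (if q.head? ≠ q'.head? then (AA 𝔖 S ν q q').card ^ 2 else 0) ≤
      ((AA 𝔖 S ν q q' ×ˢ AA 𝔖 S ν q q').filter
        (fun x => ¬ (dc S x.1 ≤ dc S x.2 + w ∧ dc S x.2 ≤ dc S x.1 + w))).card +
      (2 * w + 1) * ∑ c ∈ range (Nat.log 2 S.card + 1), (KK 𝔖).card * ∑ z ∈ KK 𝔖,
        ((PP S ν).filter
        (fun p => (p, q) ∈ GG 𝔖 S ν K c z.1 ∧ (p, q') ∈ GG 𝔖 S ν K c z.2)).card ^ 2 := by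
    intro q q'
    by_cases hne : q.head? ≠ q'.head?
    · rw [if_pos hne, sq, ← Finset.card_product,
        ← Finset.card_filter_add_card_filter_not (s := AA 𝔖 S ν q q' ×ˢ AA 𝔖 S ν q q')
        (fun x => (dc S x.1 ≤ dc S x.2 + w ∧ dc S x.2 ≤ dc S x.1 + w)), add_comm]
      refine Nat.add_le_add_left ?_ _
      refine (near_sq (AA 𝔖 S ν q q') (dc S) (Nat.log 2 S.card + 1) w
        (fun p _ => dc_lt S p)).trans ?_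
      exact Nat.mul_le_mul_left _ (Finset.sum_le_sum fun c _ => class_sq 𝔖 S ν K q q' hne c)
    · rw [if_neg hne]
      exact Nat.zero_le _
  rw [h1]
  refine (Finset.sum_le_sum fun q _ => Finset.sum_le_sum fun q' _ => h3 q q').trans ?_
  simp only [Finset.sum_add_distrib, ← Finset.mul_sum]
  refine Nat.add_le_add (far_le 𝔖 S ν κ w hs hw) (le_of_eq ?_)
  congr 2
  unfold mix
  have h4 : ∀ (F : List β → List β → ℕ → (Bool × ℕ × ℕ) × (Bool × ℕ × ℕ) → ℕ) (C : ℕ),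
      ∑ q ∈ QQ 𝔖 S, ∑ q' ∈ QQ 𝔖 S, ∑ c ∈ range C, ∑ z ∈ KK 𝔖, F q q' c z =
      ∑ z ∈ KK 𝔖, ∑ c ∈ range C, ∑ q ∈ QQ 𝔖 S, ∑ q' ∈ QQ 𝔖 S, F q q' c z := by
    intro F C
    calc ∑ q ∈ QQ 𝔖 S, ∑ q' ∈ QQ 𝔖 S, ∑ c ∈ range C, ∑ z ∈ KK 𝔖, F q q' c z
        = ∑ x ∈ QQ 𝔖 S ×ˢ QQ 𝔖 S, ∑ y ∈ KK 𝔖 ×ˢ range C, F x.1 x.2 y.2 y.1 := by
          rw [Finset.sum_product]
          refine Finset.sum_congr rfl fun q _ => Finset.sum_congr rfl fun q' _ => ?_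
          rw [Finset.sum_product_right]
      _ = ∑ y ∈ KK 𝔖 ×ˢ range C, ∑ x ∈ QQ 𝔖 S ×ˢ QQ 𝔖 S, F x.1 x.2 y.2 y.1 := Finset.sum_comm
      _ = _ := by
          rw [Finset.sum_product]
          refine Finset.sum_congr rfl fun z _ => Finset.sum_congr rfl fun c _ => ?_
          rw [Finset.sum_product]
  exact h4 _ _

/-- Bound for the number of rectangles.

Proof.  `N = S.card`, `K := 8 H Λ κ² + 1`-like, `w := 2 L0`.  `∑_{|p| ≥ ν} sz S p ≤ κ N`.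
`rect = ∑_{q,q'} a(q,q')²`, `a(q,q') = #{p}`.
(1) pairs `(p,p')` with `|Nat.log 2 (sz p) - Nat.log 2 (sz p')| > w`: `≤ ∑ min(sz p, sz p')² ≤ 2^(-w) κ² N² ≤ N²`.
(2) the others: `≤ (2w+1) ∑_b ∑_{q,q'} a_b(q,q')²`, `a_b` = number of common `p` in class `b`
    (`Nat.log 2 (sz S p) = b`).
(3) for `p` in class `b` call an edge `(p,q)` heavy if `sz S (p ++ [q.head])` is in class `b`
    too (`q ≠ []`), else exit. The heavy letter `h(p)` is unique, so for `q.head? ≠ q'.head?` not both `(p,q)`, `(p,q')`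
    are heavy.  Every edge has a unique type `(j₀,j₁)` (`IsType`), `≤ H²` types; so `m = 2H²` kinds
    and `a_b² ≤ m² ∑_{kinds x,y} (a_b^{x,y})²`.
(4) `Mix_b(x,y) = ∑_{q,q'} (a_b^{x,y})² = ∑_{p,p'} c_x(p,p') c_y(p,p') ≤ √(rectN G_x) √(rectN G_y)` for
    exit/exit; for heavy/exit first split according to the letter `z = h(p) = q.head`
    (`G_x^z, G_y^z` = edges with `h(p) = z`).  By `rectR` (`κ₀ = κ`, `ζ = 8 H Λ κ / K`),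
    `rectN G ≤ δ^(2k) e² + ζ e N`, and
    `√(A B) ≤ δ^(2 min(k,k')) e e' + ζ N (e + e')/2`.
(5) every `s ∈ S` has at most one exit in class `b`, and at most one heavy cut with given letter
    `z` in class `b` (words of the language have no repeated letters: `q` starts with `z`), so
    `∑_z e_z e'_z ≤ E_b E'_b ≤ N min(E_b, E'_b)`, `E_b` = number of `s ∈ S` with a cut of the type in class `b`; by `windows`
    `∑_b E_b ≤ N · 3 (M+1)^(k+1) (2 log K + 4)`.  And `∑_b ∑_z (e_z + e'_z) ≤ 2 κ N`.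
(6) `δ^(2k) (M+1)^(k+1) ≤ M+1` (`δ_sq`). Total
    `rect ≤ N² + (4 L0+1) (2 H²)^4 N² ((M+1) · 3 (2 log K+4) + 1)`. -/
theorem rect_le (𝔖 : Sys β) (S : Finset (List β)) (ν κ L0 : ℕ) (hL0 : 1 ≤ L0)
    (hs : ∀ s ∈ S, s.length < ν + κ) (hH : 𝔖.H ≤ L0) (hκ : κ ≤ 2 ^ L0) (hΛ : 𝔖.Λ ≤ 2 ^ L0) :
    (rect 𝔖.mem S ν : ℝ) ≤ 10000 * (L0 : ℝ) ^ 12 * (𝔖.M + 1) * (S.card : ℝ) ^ 2 := by
  set K : ℕ := 8 * 𝔖.H * 𝔖.Λ * κ ^ 2 + 1 with hKdef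
  have hK : 0 < K := Nat.succ_pos _
  have hw : κ ^ 2 ≤ 2 ^ (2 * L0) := by
    calc κ ^ 2 ≤ (2 ^ L0) ^ 2 := Nat.pow_le_pow_left hκ 2
      _ = 2 ^ (2 * L0) := by rw [← pow_mul, mul_comm]
  have h1 := rect_split 𝔖 S ν κ (2 * L0) K hs hw
  have h2 : ∀ z ∈ KK 𝔖, (∑ c ∈ range (Nat.log 2 S.card + 1),
        (mix (PP S ν) (QQ 𝔖 S) (GG 𝔖 S ν K c z.1) (GG 𝔖 S ν K c z.2) : ℝ)) ≤
      (S.card : ℝ) ^ 2 * (3 * (𝔖.M + 1) * (2 * Nat.log 2 K + 4) + 1) := by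
    intro z hz
    exact pair_le 𝔖 S ν K κ hs hK (Nat.le_succ _) _ z.1 z.2 (mem_filter.1 hz).2
  have h3 : (rect 𝔖.mem S ν : ℝ) ≤ (S.card : ℝ) ^ 2 + (2 * (2 * L0 : ℕ) + 1) *
      ((KK 𝔖).card * ∑ z ∈ KK 𝔖, ∑ c ∈ range (Nat.log 2 S.card + 1),
        (mix (PP S ν) (QQ 𝔖 S) (GG 𝔖 S ν K c z.1) (GG 𝔖 S ν K c z.2) : ℝ)) := by
    exact_mod_cast h1
  have hlog : Nat.log 2 K ≤ 4 * L0 + 3 := by
    have h4 : K < 2 ^ (4 * L0 + 4) := by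
      have h5 : 8 * 𝔖.H * 𝔖.Λ * κ ^ 2 ≤ 8 * 2 ^ L0 * 2 ^ L0 * 2 ^ (2 * L0) := by
        have h6 : 𝔖.H ≤ 2 ^ L0 := hH.trans Nat.lt_two_pow_self.le
        gcongr
      have h7 : 8 * 2 ^ L0 * 2 ^ L0 * 2 ^ (2 * L0) = 8 * 2 ^ (4 * L0) := by
        rw [show 4 * L0 = L0 + L0 + 2 * L0 by ring, pow_add, pow_add]; ring
      have h8 : 2 ^ (4 * L0 + 4) = 16 * 2 ^ (4 * L0) := by rw [pow_add]; ring
      have h9 : 1 ≤ 2 ^ (4 * L0) := Nat.one_le_two_pow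
      omega
    have := Nat.log_lt_of_lt_pow hK.ne' h4
    omega
  have hL : (1 : ℝ) ≤ L0 := by exact_mod_cast hL0
  have hlogr : (Nat.log 2 K : ℝ) ≤ 4 * L0 + 3 := by exact_mod_cast hlog
  have hHr : (𝔖.H : ℝ) ≤ L0 := by exact_mod_cast hH
  have hM : (1 : ℝ) ≤ 𝔖.M + 1 := by
    have : (0 : ℝ) ≤ 𝔖.M := Nat.cast_nonneg _
    linarith
  have hKK : ((KK 𝔖).card : ℝ) ≤ 4 * L0 ^ 4 := by
    have h4 : ((KK 𝔖).card : ℝ) ≤ (2 * 𝔖.H ^ 2) ^ 2 := by exact_mod_cast card_KK 𝔖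
    refine h4.trans ?_
    have h5 : (𝔖.H : ℝ) ^ 4 ≤ L0 ^ 4 := pow_le_pow_left₀ (Nat.cast_nonneg _) hHr 4
    nlinarith
  have hB : (3 * (𝔖.M + 1) * (2 * Nat.log 2 K + 4) + 1 : ℝ) ≤ 61 * (𝔖.M + 1) * L0 := by
    have h4 : (2 * Nat.log 2 K + 4 : ℝ) ≤ 18 * L0 := by linarith
    have h5 : (3 * (𝔖.M + 1) * (2 * Nat.log 2 K + 4) : ℝ) ≤ 3 * (𝔖.M + 1) * (18 * L0) :=
      mul_le_mul_of_nonneg_left h4 (by positivity)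
    nlinarith [mul_le_mul hM hL (by norm_num) (by linarith)]
  have h5 : (∑ z ∈ KK 𝔖, ∑ c ∈ range (Nat.log 2 S.card + 1),
        (mix (PP S ν) (QQ 𝔖 S) (GG 𝔖 S ν K c z.1) (GG 𝔖 S ν K c z.2) : ℝ)) ≤
      (KK 𝔖).card * ((S.card : ℝ) ^ 2 * (61 * (𝔖.M + 1) * L0)) := by
    refine (Finset.sum_le_sum h2).trans ?_
    rw [Finset.sum_const, nsmul_eq_mul]
    exact mul_le_mul_of_nonneg_left (mul_le_mul_of_nonneg_left hB (by positivity))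
      (Nat.cast_nonneg _)
  have hKK0 : (0 : ℝ) ≤ (KK 𝔖).card := Nat.cast_nonneg _
  have h6 : ((KK 𝔖).card : ℝ) * ∑ z ∈ KK 𝔖, ∑ c ∈ range (Nat.log 2 S.card + 1),
        (mix (PP S ν) (QQ 𝔖 S) (GG 𝔖 S ν K c z.1) (GG 𝔖 S ν K c z.2) : ℝ) ≤
      (4 * L0 ^ 4) * ((4 * L0 ^ 4) * ((S.card : ℝ) ^ 2 * (61 * (𝔖.M + 1) * L0))) := by
    have h7 : ((KK 𝔖).card : ℝ) * ((S.card : ℝ) ^ 2 * (61 * (𝔖.M + 1) * L0)) ≤
        (4 * L0 ^ 4) * ((S.card : ℝ) ^ 2 * (61 * (𝔖.M + 1) * L0)) :=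
      mul_le_mul_of_nonneg_right hKK (by positivity)
    exact mul_le_mul hKK (h5.trans h7) (by positivity) (by positivity)
  have h8 : (2 * (2 * L0 : ℕ) + 1 : ℝ) ≤ 5 * L0 := by
    push_cast; linarith
  have h9 : (2 * (2 * L0 : ℕ) + 1 : ℝ) *
      (((KK 𝔖).card : ℝ) * ∑ z ∈ KK 𝔖, ∑ c ∈ range (Nat.log 2 S.card + 1),
        (mix (PP S ν) (QQ 𝔖 S) (GG 𝔖 S ν K c z.1) (GG 𝔖 S ν K c z.2) : ℝ)) ≤
      (5 * L0) * ((4 * L0 ^ 4) * ((4 * L0 ^ 4) * ((S.card : ℝ) ^ 2 * (61 * (𝔖.M + 1) * L0)))) :=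
    mul_le_mul h8 h6 (by positivity) (by positivity)
  refine h3.trans ((add_le_add_right h9 _).trans ?_)
  have h10 : (5 * (L0 : ℝ)) * ((4 * L0 ^ 4) * ((4 * L0 ^ 4) * ((S.card : ℝ) ^ 2 *
      (61 * (𝔖.M + 1) * L0)))) = 4880 * (L0 : ℝ) ^ 10 * (𝔖.M + 1) * (S.card : ℝ) ^ 2 := by ring
  rw [h10]
  have h11 : (L0 : ℝ) ^ 10 ≤ L0 ^ 12 := pow_le_pow_right₀ hL (by norm_num)
  have h12 : (1 : ℝ) ≤ L0 ^ 12 := one_le_pow₀ hL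
  have h13 : (S.card : ℝ) ^ 2 ≤ (L0 : ℝ) ^ 12 * (𝔖.M + 1) * (S.card : ℝ) ^ 2 := by
    have h14 : (1 : ℝ) ≤ (L0 : ℝ) ^ 12 * (𝔖.M + 1) := one_le_mul_of_one_le_of_one_le h12 hM
    have h15 : (0 : ℝ) ≤ (S.card : ℝ) ^ 2 := by positivity
    nlinarith
  have h16 : 4880 * (L0 : ℝ) ^ 10 * (𝔖.M + 1) * (S.card : ℝ) ^ 2 ≤
      4880 * (L0 : ℝ) ^ 12 * (𝔖.M + 1) * (S.card : ℝ) ^ 2 := by gcongr
  have h17 : (0 : ℝ) ≤ (L0 : ℝ) ^ 12 * (𝔖.M + 1) * (S.card : ℝ) ^ 2 := by positivity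
  linarith

end RDCE
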