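import Pool.Agent.H23.CE.TDefs

open Finset Classical

namespace RDCE

variable {β : Type}

/-- If each word `g` has only one cut, the energy is `EA`. -/
theorem tG (inv : β → β) (hinv : ∀ b, inv (inv b) = b) 
    (T : Finset (List β × List β × List β))
    (huniq : ∀ t ∈ T, ∀ t' ∈ T, gw inv t = gw inv t' → t.1.length = t'.1.length)
    (Γ : Finset (List β)) (hΓ : ∀ t ∈ T, gw inv t ∈ Γ) (h : List β → ℝ) (hh : ∀ w, 0 ≤ h w) :
    (∑ t ∈ T, h (gw inv t)) ^ 2 ≤ (EA T : ℝ) * ∑ w ∈ Γ, h w ^ 2 := by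
  have _ := hh
  have hinj : Function.Injective inv := fun a b hab => by rw [← hinv a, hab, hinv b]
  -- equality of words forces equality of `p` and `r`
  have hkey : ∀ t ∈ T, ∀ t' ∈ T, gw inv t = gw inv t' → t.1 = t'.1 ∧ t.2.2 = t'.2.2 := by
    intro t ht t' ht' hg
    have hl := huniq t ht t' ht' hg
    unfold gw at hg
    obtain ⟨h1, h2⟩ := List.append_inj hg hl
    refine ⟨h1, ?_⟩
    have h3 := List.reverse_injective h2
    exact (List.map_injective_iff.2 hinj) h3
  -- fibre counts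
  have h1 : ∑ t ∈ T, h (gw inv t) = ∑ w ∈ Γ, ((T.filter (fun t => gw inv t = w)).card : ℝ) * h w := by
    rw [← Finset.sum_fiberwise_of_maps_to (g := gw inv) hΓ]
    apply Finset.sum_congr rfl
    intro w _
    rw [Finset.sum_congr rfl (g := fun _ => h w)]
    · rw [Finset.sum_const, nsmul_eq_mul]
    · intro t ht
      rw [(Finset.mem_filter.1 ht).2]
  have h2 : ∑ w ∈ Γ, ((T.filter (fun t => gw inv t = w)).card : ℝ) ^ 2 ≤ (EA T : ℝ) := by
    have h3 : ∑ w ∈ Γ, (T.filter (fun t => gw inv t = w)).card ^ 2 ≤ EA T := by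
      have h4 : ∀ w ∈ Γ, (T.filter (fun t => gw inv t = w)).card ^ 2 =
          ((T.filter (fun t => gw inv t = w)) ×ˢ (T.filter (fun t => gw inv t = w))).card := by
        intro w _
        rw [Finset.card_product, sq]
      rw [Finset.sum_congr rfl h4]
      rw [← Finset.card_biUnion]
      · unfold EA
        apply Finset.card_le_card
        intro x hx
        rw [Finset.mem_biUnion] at hx
        obtain ⟨w, _, hx⟩ := hx
        rw [Finset.mem_product, Finset.mem_filter, Finset.mem_filter] at hx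
        rw [Finset.mem_filter, Finset.mem_product]
        refine ⟨⟨hx.1.1, hx.2.1⟩, ?_⟩
        exact hkey _ hx.1.1 _ hx.2.1 (hx.1.2.trans hx.2.2.symm)
      · intro w _ w' _ hww
        rw [Function.onFun, Finset.disjoint_left]
        intro x hx hx'
        rw [Finset.mem_product, Finset.mem_filter, Finset.mem_filter] at hx hx'
        exact hww (hx.1.2.symm.trans hx'.1.2)
    exact_mod_cast h3
  rw [h1]
  calc (∑ w ∈ Γ, ((T.filter (fun t => gw inv t = w)).card : ℝ) * h w) ^ 2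
      ≤ (∑ w ∈ Γ, ((T.filter (fun t => gw inv t = w)).card : ℝ) ^ 2) * ∑ w ∈ Γ, h w ^ 2 :=
        Finset.sum_mul_sq_le_sq_mul_sq _ _ _
    _ ≤ (EA T : ℝ) * ∑ w ∈ Γ, h w ^ 2 :=
        mul_le_mul_of_nonneg_right h2 (Finset.sum_nonneg fun _ _ => sq_nonneg _)

lemma suffix_unique {p m p' m' r r' : List β} (h1 : p ++ m = p' ++ m') (h2 : r ++ m = r' ++ m')
    (hl : p.getLast? ≠ r.getLast?) (hl' : p'.getLast? ≠ r'.getLast?) :
    p = p' ∧ m = m' ∧ r = r' := by
  rw [List.append_eq_append_iff] at h1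
  rcases h1 with ⟨a, ha, hm⟩ | ⟨a, ha, hm⟩
  · rw [hm, ← List.append_assoc] at h2
    have h3 := List.append_cancel_right h2
    by_cases hane : a = []
    · subst hane
      simp at ha hm h3
      exact ⟨ha.symm, hm, h3⟩
    · exfalso
      apply hl'
      rw [ha, ← h3, List.getLast?_append_of_ne_nil _ hane, List.getLast?_append_of_ne_nil _ hane]
  · rw [hm, ← List.append_assoc] at h2
    have h3 := List.append_cancel_right h2
    by_cases hane : a = []
    · subst hane
      simp at ha hm h3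
      exact ⟨ha, hm.symm, h3⟩
    · exfalso
      apply hl
      rw [ha, h3, List.getLast?_append_of_ne_nil _ hane, List.getLast?_append_of_ne_nil _ hane]

lemma exists_lcp : ∀ q q' : List β, q ≠ q' →
    ∃ m q₀ q₀', q = m ++ q₀ ∧ q' = m ++ q₀' ∧ q₀.head? ≠ q₀'.head?
  | [], [], h => absurd rfl h
  | [], b :: q', _ => ⟨[], [], b :: q', rfl, rfl, by simp⟩
  | a :: q, [], _ => ⟨[], a :: q, [], rfl, rfl, by simp⟩
  | a :: q, b :: q', h => by
    by_cases hab : a = b
    · subst hab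
      have hq : q ≠ q' := fun h' => h (by rw [h'])
      obtain ⟨m, q₀, q₀', h1, h2, h3⟩ := exists_lcp q q' hq
      exact ⟨a :: m, q₀, q₀', by rw [h1]; rfl, by rw [h2]; rfl, h3⟩
    · exact ⟨[], a :: q, b :: q', rfl, rfl, by simpa using hab⟩

/-- `EA` in terms of rectangles.  For a pair of triples `(p,q,r), (p,q',r)` with `q ≠ q'` take the
longest common prefix `m` of `q, q'`, `q = m ++ q₀`, `q' = m ++ q₀'`, and map to
`(p ++ m, r ++ m, q₀, q₀')` (injective, since `m` is the longest common suffix of `p ++ m` and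
`r ++ m` as the last letters of `p`, `r` differ), then Cauchy-Schwarz.  The pairs with `q = q'`
are at most `|S| |Y|` (`q` is the longest common suffix of `p ++ q` and `r ++ q`). -/
theorem EA_le (mem : List β → Prop) (hmem : ∀ a b, mem (a ++ b) → mem b)
    (S Y : Finset (List β)) (T : Finset (List β × List β × List β)) (ν₁ ν₂ : ℕ)
    (hTS : ∀ t ∈ T, t.1 ++ t.2.1 ∈ S) (hTY : ∀ t ∈ T, t.2.2 ++ t.2.1 ∈ Y)
    (hq : ∀ t ∈ T, mem t.2.1) (hν₁ : ∀ t ∈ T, ν₁ ≤ t.1.length) (hν₂ : ∀ t ∈ T, ν₂ ≤ t.2.2.length)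
    (hlast : ∀ t ∈ T, t.1.getLast? ≠ t.2.2.getLast?) :
    (EA T : ℝ) ≤ S.card * Y.card + Real.sqrt (rect mem S ν₁) * Real.sqrt (rect mem Y ν₂) := by
  -- the sets of pairs
  set D := ((T ×ˢ T).filter (fun x => x.1.1 = x.2.1 ∧ x.1.2.2 = x.2.2.2)) with hD
  set D₁ := D.filter (fun x => x.1.2.1 = x.2.2.1) with hD₁
  set D₂ := D.filter (fun x => ¬ x.1.2.1 = x.2.2.1) with hD₂
  have hsplit : EA T = D₁.card + D₂.card := by
    rw [hD₁, hD₂, Finset.card_filter_add_card_filter_not]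
    rfl
  -- diagonal part
  have hdiag : D₁.card ≤ S.card * Y.card := by
    rw [← Finset.card_product]
    apply Finset.card_le_card_of_injOn (fun x => (x.1.1 ++ x.1.2.1, x.1.2.2 ++ x.1.2.1))
    · intro x hx
      rw [Finset.mem_coe, hD₁, Finset.mem_filter, hD, Finset.mem_filter, Finset.mem_product] at hx
      rw [Finset.mem_coe, Finset.mem_product]
      exact ⟨hTS _ hx.1.1.1, hTY _ hx.1.1.1⟩
    · intro x hx y hy hxy
      rw [Finset.mem_coe, hD₁, Finset.mem_filter, hD, Finset.mem_filter, Finset.mem_product] at hx hy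
      simp only [Prod.mk.injEq] at hxy
      obtain ⟨e1, e2, e3⟩ := suffix_unique hxy.1 hxy.2 (hlast _ hx.1.1.1) (hlast _ hy.1.1.1)
      obtain ⟨⟨_, hx1, hx2⟩, hx3⟩ := hx
      obtain ⟨⟨_, hy1, hy2⟩, hy3⟩ := hy
      apply Prod.ext
      · exact Prod.ext e1 (Prod.ext e2 e3)
      · refine Prod.ext ?_ (Prod.ext ?_ ?_)
        · rw [← hx1, ← hy1, e1]
        · rw [← hx3, ← hy3, e2]
        · rw [← hx2, ← hy2, e3]
  -- off-diagonal part
  have hlcp : ∀ q q' : List β, ∃ m q₀ q₀' : List β, q ≠ q' →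
      q = m ++ q₀ ∧ q' = m ++ q₀' ∧ q₀.head? ≠ q₀'.head? := by
    intro q q'
    by_cases h : q = q'
    · exact ⟨[], [], [], fun h' => absurd h h'⟩
    · obtain ⟨m, q₀, q₀', h1⟩ := exists_lcp q q' h
      exact ⟨m, q₀, q₀', fun _ => h1⟩
  choose M A B hMAB using hlcp
  set J : Finset (List β) := (sufs S ∩ sufs Y).filter mem with hJ
  set I : Finset (List β × List β) := (J ×ˢ J).filter (fun x => x.1.head? ≠ x.2.head?) with hI
  set NS : List β × List β → Finset (List β) := fun x =>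
    (prefs S).filter (fun p => ν₁ ≤ p.length ∧ p ++ x.1 ∈ S ∧ p ++ x.2 ∈ S) with hNS
  set NY : List β × List β → Finset (List β) := fun x =>
    (prefs Y).filter (fun p => ν₂ ≤ p.length ∧ p ++ x.1 ∈ Y ∧ p ++ x.2 ∈ Y) with hNY
  have hprefs : ∀ (S : Finset (List β)) (a b : List β), a ++ b ∈ S → a ∈ prefs S := by
    intro S a b hab
    unfold prefs
    rw [Finset.mem_biUnion]
    refine ⟨_, hab, ?_⟩
    rw [List.mem_toFinset, List.mem_inits]
    exact List.prefix_append a b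
  have hsufs : ∀ (S : Finset (List β)) (a b : List β), a ++ b ∈ S → b ∈ sufs S := by
    intro S a b hab
    unfold sufs
    rw [Finset.mem_biUnion]
    refine ⟨_, hab, ?_⟩
    rw [List.mem_toFinset, List.mem_tails]
    exact List.suffix_append a b
  have hoff : D₂.card ≤ ∑ x ∈ I, (NS x).card * (NY x).card := by
    have hcard : (I.sigma (fun x => NS x ×ˢ NY x)).card = ∑ x ∈ I, (NS x).card * (NY x).card := by
      rw [Finset.card_sigma]
      exact Finset.sum_congr rfl fun x _ => Finset.card_product _ _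
    rw [← hcard]
    apply Finset.card_le_card_of_injOn (fun x =>
      (⟨(A x.1.2.1 x.2.2.1, B x.1.2.1 x.2.2.1),
        (x.1.1 ++ M x.1.2.1 x.2.2.1, x.1.2.2 ++ M x.1.2.1 x.2.2.1)⟩ :
        (Σ _ : List β × List β, List β × List β)))
    · intro x hx
      rw [Finset.mem_coe, hD₂, Finset.mem_filter, hD, Finset.mem_filter, Finset.mem_product] at hx
      obtain ⟨⟨⟨hx1, hx2⟩, hp, hr⟩, hne⟩ := hx
      obtain ⟨e1, e2, e3⟩ := hMAB x.1.2.1 x.2.2.1 hne
      have hS1 : (x.1.1 ++ M x.1.2.1 x.2.2.1) ++ A x.1.2.1 x.2.2.1 ∈ S := by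
        rw [List.append_assoc, ← e1]; exact hTS _ hx1
      have hS2 : (x.1.1 ++ M x.1.2.1 x.2.2.1) ++ B x.1.2.1 x.2.2.1 ∈ S := by
        rw [List.append_assoc, ← e2, hp]; exact hTS _ hx2
      have hY1 : (x.1.2.2 ++ M x.1.2.1 x.2.2.1) ++ A x.1.2.1 x.2.2.1 ∈ Y := by
        rw [List.append_assoc, ← e1]; exact hTY _ hx1
      have hY2 : (x.1.2.2 ++ M x.1.2.1 x.2.2.1) ++ B x.1.2.1 x.2.2.1 ∈ Y := by
        rw [List.append_assoc, ← e2, hr]; exact hTY _ hx2
      have hmA : mem (A x.1.2.1 x.2.2.1) := by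
        apply hmem (M x.1.2.1 x.2.2.1)
        rw [← e1]; exact hq _ hx1
      have hmB : mem (B x.1.2.1 x.2.2.1) := by
        apply hmem (M x.1.2.1 x.2.2.1)
        rw [← e2]; exact hq _ hx2
      rw [Finset.mem_coe, Finset.mem_sigma]
      constructor
      · rw [hI, Finset.mem_filter, Finset.mem_product, hJ, Finset.mem_filter, Finset.mem_filter,
          Finset.mem_inter, Finset.mem_inter]
        exact ⟨⟨⟨⟨hsufs _ _ _ hS1, hsufs _ _ _ hY1⟩, hmA⟩,
          ⟨⟨hsufs _ _ _ hS2, hsufs _ _ _ hY2⟩, hmB⟩⟩, e3⟩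
      · rw [Finset.mem_product]
        constructor
        · rw [hNS]
          simp only [Finset.mem_filter]
          refine ⟨hprefs _ _ _ hS1, ?_, hS1, hS2⟩
          have := hν₁ _ hx1
          rw [List.length_append]; omega
        · rw [hNY]
          simp only [Finset.mem_filter]
          refine ⟨hprefs _ _ _ hY1, ?_, hY1, hY2⟩
          have := hν₂ _ hx1
          rw [List.length_append]; omega
    · intro x hx y hy hxy
      rw [Finset.mem_coe, hD₂, Finset.mem_filter, hD, Finset.mem_filter, Finset.mem_product] at hx hy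
      obtain ⟨⟨⟨hx1, hx2⟩, hpx, hrx⟩, hnex⟩ := hx
      obtain ⟨⟨⟨hy1, hy2⟩, hpy, hry⟩, hney⟩ := hy
      obtain ⟨e1, e2, _⟩ := hMAB x.1.2.1 x.2.2.1 hnex
      obtain ⟨f1, f2, _⟩ := hMAB y.1.2.1 y.2.2.1 hney
      have gA : A x.1.2.1 x.2.2.1 = A y.1.2.1 y.2.2.1 :=
        congrArg (fun s : (Σ _ : List β × List β, List β × List β) => s.1.1) hxy
      have gP : x.1.1 ++ M x.1.2.1 x.2.2.1 = y.1.1 ++ M y.1.2.1 y.2.2.1 :=
        congrArg (fun s : (Σ _ : List β × List β, List β × List β) => s.2.1) hxy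
      have gB : B x.1.2.1 x.2.2.1 = B y.1.2.1 y.2.2.1 :=
        congrArg (fun s : (Σ _ : List β × List β, List β × List β) => s.1.2) hxy
      have gR : x.1.2.2 ++ M x.1.2.1 x.2.2.1 = y.1.2.2 ++ M y.1.2.1 y.2.2.1 :=
        congrArg (fun s : (Σ _ : List β × List β, List β × List β) => s.2.2) hxy
      obtain ⟨k1, k2, k3⟩ := suffix_unique gP gR (hlast _ hx1) (hlast _ hy1)
      have q1 : x.1.2.1 = y.1.2.1 := by rw [e1, f1, k2, gA]
      have q2 : x.2.2.1 = y.2.2.1 := by rw [e2, f2, k2, gB]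
      apply Prod.ext
      · exact Prod.ext k1 (Prod.ext q1 k3)
      · refine Prod.ext ?_ (Prod.ext q2 ?_)
        · rw [← hpx, ← hpy, k1]
        · rw [← hrx, ← hry, k3]
  -- Cauchy-Schwarz
  have hCS : (∑ x ∈ I, ((NS x).card : ℝ) * (NY x).card) ≤
      Real.sqrt (∑ x ∈ I, ((NS x).card : ℝ) ^ 2) * Real.sqrt (∑ x ∈ I, ((NY x).card : ℝ) ^ 2) :=
    Real.sum_mul_le_sqrt_mul_sqrt _ _ _
  -- comparison with `rect`
  have hrect : ∀ (S' : Finset (List β)) (ν : ℕ), J ⊆ (sufs S').filter mem →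
      (∑ x ∈ I, (((prefs S').filter (fun p => ν ≤ p.length ∧ p ++ x.1 ∈ S' ∧ p ++ x.2 ∈ S')).card : ℝ) ^ 2)
        ≤ (rect mem S' ν : ℝ) := by
    intro S' ν hJ'
    have : (∑ x ∈ I, ((prefs S').filter (fun p => ν ≤ p.length ∧ p ++ x.1 ∈ S' ∧ p ++ x.2 ∈ S')).card ^ 2)
        ≤ rect mem S' ν := by
      unfold rect
      rw [← Finset.sum_product', hI, Finset.sum_filter]
      apply Finset.sum_le_sum_of_subset
      exact Finset.product_subset_product hJ' hJ'
    exact_mod_cast this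
  have hJS : J ⊆ (sufs S).filter mem := by
    rw [hJ]
    exact Finset.filter_subset_filter _ Finset.inter_subset_left
  have hJY : J ⊆ (sufs Y).filter mem := by
    rw [hJ]
    exact Finset.filter_subset_filter _ Finset.inter_subset_right
  have h1 := hrect S ν₁ hJS
  have h2 := hrect Y ν₂ hJY
  calc (EA T : ℝ) = (D₁.card : ℝ) + D₂.card := by rw [hsplit]; push_cast; ring
    _ ≤ (S.card : ℝ) * Y.card + ∑ x ∈ I, ((NS x).card : ℝ) * (NY x).card := by
        apply add_le_add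
        · exact_mod_cast hdiag
        · exact_mod_cast hoff
    _ ≤ (S.card : ℝ) * Y.card + Real.sqrt (rect mem S ν₁) * Real.sqrt (rect mem Y ν₂) := by
        exact add_le_add le_rfl (hCS.trans (mul_le_mul (Real.sqrt_le_sqrt h1)
          (Real.sqrt_le_sqrt h2) (Real.sqrt_nonneg _) (Real.sqrt_nonneg _)))

end RDCE
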