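import Pool.Agent.H23.CE.TXC

open Finset Classical

namespace RDCE

variable {β : Type}

/-- The crossing lemma.  A triple `t = (p,q,r)` stands for `s = p ++ q ∈ S`, `y = r ++ q ∈ Y`, and
for the word `g = gw inv t = p ++ r⁻¹`.

Proof.  `n(p,r)` = number of `q` with `(p,q,r) ∈ T`; `n(p,r) ≤ min (sz S p) (sz Y r)`.  For a given
word `g` the cuts `(p,r)` of `g` (`g = p ++ r⁻¹`) are indexed by `|p|`, so there are `≤ κ` of them.
1. Unbalanced cuts (`sz S p > κ³ sz Y r` or conversely):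
   `∑_g (∑_{cuts} n)² ≤ ∑_g κ ∑_{cuts} n² ≤ κ ∑_{(p,r)} sz S p * sz Y r / κ³ ≤ |S| |Y|`
   since `∑_{p : |p| ∈ I₁} sz S p ≤ κ |S|`.
2. Balanced cuts: along the balanced cuts of one `g` (`p` increasing) `sz S p` decreases, `sz Y r`
   increases, so `sz S p` varies by a factor `≤ κ⁶`; so each `g` meets `≤ 6 log κ + 2` dyadic
   classes `b = Nat.log 2 (sz S p)`; also for each fixed `r` only `≤ 6 log κ + 2` classes `b`
   are balanced.  Let `y` be the first letter of `r⁻¹` (`r ≠ []`).  A node `p` of class `b` has at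
   most one child `p ++ [a]` of the same class, `a =: h(p)` (heavy letter).
   (α) `p ++ [y]` not of class `b`: one cut per `g` and class, so
       `∑_g ∑_b (n_{g,b})² ≤ EA T`.
   (β) `y = h(p)`: by `hred` `q` does not start with `y`, so `n(p,r) ≤ e(p) := sz S p -
       sz S (p ++ [h(p)])` = number of words of `S` leaving class `b` right after `p` (or ending);
       `∑_{p in class b} e(p) ≤ |S|`.  Put `W(p) = ∑ e(p')` over all nodes `p'` of class `b`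
       comparable with `p` with a heavy child and such that the letters of the heavy path between
       `p` and `p'`, including the heavy letter after the lower one, are pairwise distinct.
       Then for each `g` and `b`: `∑_{β-cuts of g in class b} n ≤ W(p)` for each such cut `p`
       (by `hnodup`), and for each letter `a`: `∑_{p in class b, h(p) = a} W(p) ≤ 2 |S|`
       (each `p'` is counted for at most two `p`, one above and one below).
       Cauchy-Schwarz: `(∑_{β,b triples} h)² ≤ (∑_{triples} W(p)) (∑_{triples} h² / W(p))`, the second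
       factor is `≤ ∑_g h(g)²`, and, by `huniq` (`(q,r)` is determined by `y = r ++ q ∈ Y`),
       `∑_b ∑_{triples} W(p) ≤ ∑_{y ∈ Y} ∑_{b balanced for r} ∑_{p class b, h(p) = inv (last r)} W(p)
        ≤ |Y| (6 log κ + 2) 2 |S|`.
   Finally Cauchy-Schwarz over the `≤ 6 log κ + 2` classes of each `g`. -/
theorem tX (inv : β → β) (hinv : ∀ b, inv (inv b) = b) (S Y : Finset (List β))
    (T : Finset (List β × List β × List β)) (L0 κ a₁ a₂ : ℕ) (hL0 : 1 ≤ L0) (hκ : κ ≤ 2 ^ L0)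
    (hTS : ∀ t ∈ T, t.1 ++ t.2.1 ∈ S) (hTY : ∀ t ∈ T, t.2.2 ++ t.2.1 ∈ Y)
    (hT1 : ∀ t ∈ T, a₁ ≤ t.1.length ∧ t.1.length < a₁ + κ)
    (hT2 : ∀ t ∈ T, a₂ ≤ t.2.2.length ∧ t.2.2.length < a₂ + κ)
    (hr : ∀ t ∈ T, t.2.2 ≠ [])
    (hred : ∀ t ∈ T, ∀ (r₀ : List β) (b : β), t.2.2 = r₀ ++ [b] → t.2.1.head? ≠ some (inv b))
    (huniq : ∀ t ∈ T, ∀ t' ∈ T, t.2.2 ++ t.2.1 = t'.2.2 ++ t'.2.1 →
      t.2.2.length = t'.2.2.length)
    (hnodup : ∀ t ∈ T, ∀ t' ∈ T, gw inv t = gw inv t' → t.1.length < t'.1.length →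
      (((gw inv t).drop t.1.length).take (t'.1.length + 1 - t.1.length)).Nodup)
    (Γ : Finset (List β)) (hΓ : ∀ t ∈ T, gw inv t ∈ Γ) (h : List β → ℝ) (hh : ∀ w, 0 ≤ h w) :
    (∑ t ∈ T, h (gw inv t)) ^ 2
      ≤ 1000 * (L0 : ℝ) ^ 2 * ((EA T : ℝ) + S.card * Y.card) * ∑ w ∈ Γ, h w ^ 2 := by
  have H : TXH inv S Y T L0 κ a₁ a₂ :=
    ⟨hinv, hκ, hTS, hTY, hT1, hT2, hr, hred, huniq, hnodup⟩
  set U := T.filter (fun t => ¬ bal S Y κ t) with hU
  set B := T.filter (fun t => bal S Y κ t) with hB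
  set A := B.filter (fun t => ¬ isB inv S t) with hA
  set C := B.filter (fun t => isB inv S t) with hC
  have pU := H.partU
  have pA := H.partA
  have pB := H.partB
  rw [← hU] at pU
  rw [← hB, ← hA] at pA
  rw [← hB, ← hC] at pB
  set G : ℝ := ∑ w ∈ Γ, h w ^ 2 with hG
  have hG0 : 0 ≤ G := Finset.sum_nonneg (fun w _ => sq_nonneg _)
  have hBT : ∀ t ∈ B, t ∈ T := fun t ht => (Finset.mem_filter.1 ht).1
  have hUΓ : ∀ t ∈ U, gw inv t ∈ Γ := fun t ht => hΓ t (Finset.mem_filter.1 ht).1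
  have hAΓ : ∀ t ∈ A, gw inv t ∈ Γ := fun t ht => hΓ t (hBT t (Finset.mem_filter.1 ht).1)
  have hCΓ : ∀ t ∈ C, gw inv t ∈ Γ := fun t ht => hΓ t (hBT t (Finset.mem_filter.1 ht).1)
  have cU := cs_basic U (gw inv) Γ hUΓ h
  have cA := cs_basic A (gw inv) Γ hAΓ h
  have cC := cs_basic C (gw inv) Γ hCΓ h
  rw [← hG] at cU cA cC
  have split : ∑ t ∈ T, h (gw inv t)
      = ∑ t ∈ U, h (gw inv t) + ∑ t ∈ A, h (gw inv t) + ∑ t ∈ C, h (gw inv t) := by
    rw [← Finset.sum_filter_add_sum_filter_not T (fun t => bal S Y κ t), ← hB, ← hU,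
      ← Finset.sum_filter_add_sum_filter_not B (fun t => isB inv S t), ← hA, ← hC]
    ring
  rw [split]
  set x := ∑ t ∈ U, h (gw inv t)
  set y := ∑ t ∈ A, h (gw inv t)
  set z := ∑ t ∈ C, h (gw inv t)
  have h3 : (x + y + z) ^ 2 ≤ 3 * (x ^ 2 + y ^ 2 + z ^ 2) := by
    nlinarith [sq_nonneg (x - y), sq_nonneg (y - z), sq_nonneg (x - z)]
  have hl : (1 : ℝ) ≤ L0 := by exact_mod_cast hL0
  have pU' : (PC U (gw inv) : ℝ) ≤ S.card * Y.card := by exact_mod_cast pU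
  have pA' : (PC A (gw inv) : ℝ) ≤ (6 * L0 + 1) * EA T := by exact_mod_cast pA
  have pB' : (PC C (gw inv) : ℝ) ≤ (6 * L0 + 1) * (Y.card * ((6 * L0 + 1) * (S.card * 2))) := by
    exact_mod_cast pB
  set E : ℝ := (EA T : ℝ) with hE
  set N : ℝ := (S.card : ℝ) * Y.card with hN
  have hE0 : 0 ≤ E := Nat.cast_nonneg _
  have hN0 : 0 ≤ N := by positivity
  have q1 : x ^ 2 ≤ N * G := cU.trans (mul_le_mul_of_nonneg_right pU' hG0)
  have q2 : y ^ 2 ≤ (7 * L0 ^ 2 * E) * G := by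
    refine cA.trans (mul_le_mul_of_nonneg_right (pA'.trans ?_) hG0)
    apply mul_le_mul_of_nonneg_right _ hE0
    nlinarith
  have q3 : z ^ 2 ≤ (98 * L0 ^ 2 * N) * G := by
    refine cC.trans (mul_le_mul_of_nonneg_right (pB'.trans ?_) hG0)
    have h1 : (6 * (L0 : ℝ) + 1) * (Y.card * ((6 * L0 + 1) * (S.card * 2)))
        = (2 * (6 * L0 + 1) ^ 2) * N := by rw [hN]; ring
    rw [h1]
    apply mul_le_mul_of_nonneg_right _ hN0
    nlinarith
  have q4 : N * G ≤ (L0 : ℝ) ^ 2 * (N * G) := by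
    have : (1 : ℝ) ≤ (L0 : ℝ) ^ 2 := by nlinarith
    nlinarith [mul_nonneg hN0 hG0]
  have q5 : 0 ≤ (L0 : ℝ) ^ 2 * (E * G) := by positivity
  have q6 : 0 ≤ (L0 : ℝ) ^ 2 * (N * G) := by positivity
  calc (x + y + z) ^ 2 ≤ 3 * (x ^ 2 + y ^ 2 + z ^ 2) := h3
    _ ≤ 3 * ((L0 : ℝ) ^ 2 * (N * G) + (7 * L0 ^ 2 * E) * G + (98 * L0 ^ 2 * N) * G) := by
      linarith
    _ = 297 * ((L0 : ℝ) ^ 2 * (N * G)) + 21 * ((L0 : ℝ) ^ 2 * (E * G)) := by ring
    _ ≤ 1000 * ((L0 : ℝ) ^ 2 * (N * G)) + 1000 * ((L0 : ℝ) ^ 2 * (E * G)) := by linarith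
    _ = 1000 * (L0 : ℝ) ^ 2 * (E + N) * G := by ring

end RDCE
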