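import Pool.Agent.H23.CE.Bd
import Pool.Agent.H23.CE.TX
import Pool.Agent.H23.CE.TG
import Pool.Agent.H23.CE.RectQ

/-! # The bound for one window -/

open Finset Classical

namespace RDCE

variable {β : Type}

/-- unique cut for each `g` -/
def GC (inv : β → β) (T : Finset (Tri β)) : Prop :=
  ∀ t ∈ T, ∀ t' ∈ T, gw inv t = gw inv t' → t.1.length = t'.1.length

/-- conditions of the crossing lemma -/
def XC (inv : β → β) (T : Finset (Tri β)) : Prop :=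
  (∀ t ∈ T, t.2.2 ≠ []) ∧
  (∀ t ∈ T, ∀ (r₀ : List β) (b : β), t.2.2 = r₀ ++ [b] → t.2.1.head? ≠ some (inv b)) ∧
  (∀ t ∈ T, ∀ t' ∈ T, t.2.2 ++ t.2.1 = t'.2.2 ++ t'.2.1 → t.2.2.length = t'.2.2.length) ∧
  (∀ t ∈ T, ∀ t' ∈ T, gw inv t = gw inv t' → t.1.length < t'.1.length →
      (((gw inv t).drop t.1.length).take (t'.1.length + 1 - t.1.length)).Nodup)

lemma GC_subset {inv : β → β} {T T' : Finset (Tri β)} (h : T ⊆ T') (hc : GC inv T') :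
    GC inv T := fun t ht t' ht' => hc t (h ht) t' (h ht')

lemma XC_subset {inv : β → β} {T T' : Finset (Tri β)} (h : T ⊆ T') (hc : XC inv T') :
    XC inv T :=
  ⟨fun t ht => hc.1 t (h ht), fun t ht => hc.2.1 t (h ht),
    fun t ht t' ht' => hc.2.2.1 t (h ht) t' (h ht'),
    fun t ht t' ht' => hc.2.2.2 t (h ht) t' (h ht')⟩

/-- data common to all the leaf bounds -/
structure LeafData (𝔖 : Sys β) (S Y : Finset (List β)) (T : Finset (Tri β))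
    (L0 κ a₁ a₂ : ℕ) : Prop where
  hL0 : 1 ≤ L0
  hκ : 2 * κ ≤ 2 ^ L0
  hH : 𝔖.H ≤ L0
  hΛ : 𝔖.Λ ≤ 2 ^ L0
  hTS : ∀ t ∈ T, t.1 ++ t.2.1 ∈ S
  hTY : ∀ t ∈ T, t.2.2 ++ t.2.1 ∈ Y
  hS : ∀ s ∈ S, s.length < a₁ + 2 * κ
  hY : ∀ y ∈ Y, y.length < a₂ + 2 * κ
  hT1 : ∀ t ∈ T, a₁ ≤ t.1.length ∧ t.1.length < a₁ + κ
  hT2 : ∀ t ∈ T, a₂ ≤ t.2.2.length ∧ t.2.2.length < a₂ + κ
  hq : ∀ t ∈ T, 𝔖.mem t.2.1
  hlast : ∀ t ∈ T, t.1.getLast? ≠ t.2.2.getLast?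

lemma LeafData.swap {𝔖 : Sys β} {S Y : Finset (List β)} {T : Finset (Tri β)}
    {L0 κ a₁ a₂ : ℕ} (h : LeafData 𝔖 S Y T L0 κ a₁ a₂) :
    LeafData 𝔖 Y S (T.image swap3) L0 κ a₂ a₁ where
  hL0 := h.hL0
  hκ := h.hκ
  hH := h.hH
  hΛ := h.hΛ
  hTS := by
    intro t ht; obtain ⟨t', ht', rfl⟩ := Finset.mem_image.1 ht; exact h.hTY t' ht'
  hTY := by
    intro t ht; obtain ⟨t', ht', rfl⟩ := Finset.mem_image.1 ht; exact h.hTS t' ht'
  hS := h.hY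
  hY := h.hS
  hT1 := by
    intro t ht; obtain ⟨t', ht', rfl⟩ := Finset.mem_image.1 ht; exact h.hT2 t' ht'
  hT2 := by
    intro t ht; obtain ⟨t', ht', rfl⟩ := Finset.mem_image.1 ht; exact h.hT1 t' ht'
  hq := by
    intro t ht; obtain ⟨t', ht', rfl⟩ := Finset.mem_image.1 ht; exact h.hq t' ht'
  hlast := by
    intro t ht; obtain ⟨t', ht', rfl⟩ := Finset.mem_image.1 ht; exact (h.hlast t' ht').symm

lemma LeafData.EAle {𝔖 : Sys β} {S Y : Finset (List β)} {T : Finset (Tri β)}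
    {L0 κ a₁ a₂ : ℕ} (h : LeafData 𝔖 S Y T L0 κ a₁ a₂) :
    (EA T : ℝ) ≤ 10001 * (L0 : ℝ) ^ 12 * (𝔖.M + 1) * (S.card * Y.card) := by
  have h1 := EA_le 𝔖.mem (fun a b => 𝔖.mem_suffix) S Y T a₁ a₂ h.hTS h.hTY h.hq
    (fun t ht => (h.hT1 t ht).1) (fun t ht => (h.hT2 t ht).1) h.hlast
  have h2 := rect_le 𝔖 S a₁ (2 * κ) L0 h.hL0 h.hS h.hH h.hκ h.hΛ
  have h3 := rect_le 𝔖 Y a₂ (2 * κ) L0 h.hL0 h.hY h.hH h.hκ h.hΛ
  set c : ℝ := 10000 * (L0 : ℝ) ^ 12 * (𝔖.M + 1) with hc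
  have hc0 : 0 ≤ c := by positivity
  have h4 : √(rect 𝔖.mem S a₁ : ℝ) ≤ √c * S.card := by
    rw [← Real.sqrt_sq (Nat.cast_nonneg S.card), ← Real.sqrt_mul hc0]
    exact Real.sqrt_le_sqrt h2
  have h5 : √(rect 𝔖.mem Y a₂ : ℝ) ≤ √c * Y.card := by
    rw [← Real.sqrt_sq (Nat.cast_nonneg Y.card), ← Real.sqrt_mul hc0]
    exact Real.sqrt_le_sqrt h3
  have h6 : √(rect 𝔖.mem S a₁ : ℝ) * √(rect 𝔖.mem Y a₂ : ℝ) ≤ c * (S.card * Y.card) := by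
    calc _ ≤ (√c * S.card) * (√c * Y.card) := by
            apply mul_le_mul h4 h5 (Real.sqrt_nonneg _); positivity
      _ = (√c * √c) * (S.card * Y.card) := by ring
      _ = _ := by rw [Real.mul_self_sqrt hc0]
  have hL : (1 : ℝ) ≤ L0 := by exact_mod_cast h.hL0
  have h7 : (1 : ℝ) ≤ (L0 : ℝ) ^ 12 * (𝔖.M + 1) := by
    have : (1 : ℝ) ≤ (L0 : ℝ) ^ 12 := one_le_pow₀ hL
    have h' : (1 : ℝ) ≤ (𝔖.M : ℝ) + 1 := by
      have : (0 : ℝ) ≤ 𝔖.M := Nat.cast_nonneg _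
      linarith
    calc (1 : ℝ) = 1 * 1 := by ring
      _ ≤ _ := mul_le_mul this h' (by norm_num) (by positivity)
  have h8 : (S.card : ℝ) * Y.card ≤ ((L0 : ℝ) ^ 12 * (𝔖.M + 1)) * (S.card * Y.card) :=
    le_mul_of_one_le_left (by positivity) h7
  calc (EA T : ℝ) ≤ S.card * Y.card + c * (S.card * Y.card) := h1.trans (by linarith)
    _ ≤ ((L0 : ℝ) ^ 12 * (𝔖.M + 1)) * (S.card * Y.card) + c * (S.card * Y.card) := by linarith
    _ = _ := by rw [hc]; ring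

lemma leaf_bound_aux {L M s : ℝ} (hL : 1 ≤ L) (hM : 1 ≤ M) (hs : 0 ≤ s) :
    1000 * L ^ 2 * (10001 * L ^ 12 * M * s + s) ≤ 20000000 * L ^ 14 * M * s := by
  have h1 : 1 ≤ L ^ 12 * M := by
    calc (1 : ℝ) = 1 * 1 := by ring
      _ ≤ _ := mul_le_mul (one_le_pow₀ hL) hM (by norm_num) (by positivity)
  have h2 : s ≤ L ^ 12 * M * s := le_mul_of_one_le_left hs h1
  have h3 : 0 ≤ L ^ 12 * M * s := by positivity
  calc 1000 * L ^ 2 * (10001 * L ^ 12 * M * s + s)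
      ≤ 1000 * L ^ 2 * (10001 * L ^ 12 * M * s + L ^ 12 * M * s) := by
        apply mul_le_mul_of_nonneg_left _ (by positivity); linarith
    _ = 10002000 * (L ^ 2 * (L ^ 12 * M * s)) := by ring
    _ ≤ 20000000 * (L ^ 2 * (L ^ 12 * M * s)) := by
        apply mul_le_mul_of_nonneg_right (by norm_num); positivity
    _ = _ := by ring

/-- the leaf constant -/
noncomputable def leafC (L0 : ℕ) (M : ℝ) : ℝ := 20000000 * (L0 : ℝ) ^ 14 * M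

lemma leafC_nonneg (L0 : ℕ) {M : ℝ} (hM : 0 ≤ M) : 0 ≤ leafC L0 M := by
  unfold leafC; positivity

lemma leaf_X {𝔖 : Sys β} {S Y : Finset (List β)} {T : Finset (Tri β)}
    {L0 κ a₁ a₂ : ℕ} {inv : β → β} (hinv : ∀ b, inv (inv b) = b)
    (h : LeafData 𝔖 S Y T L0 κ a₁ a₂) (hX : XC inv T) :
    Bd inv T (leafC L0 (𝔖.M + 1) * (S.card * Y.card)) := by
  intro Γ g hg hΓ
  have h1 := tX inv hinv S Y T L0 κ a₁ a₂ h.hL0 (by have := h.hκ; omega) h.hTS h.hTY h.hT1 h.hT2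
    hX.1 hX.2.1 hX.2.2.1 hX.2.2.2 Γ hΓ g hg
  refine h1.trans (mul_le_mul_of_nonneg_right ?_ (Finset.sum_nonneg (fun _ _ => sq_nonneg _)))
  have hL : (1 : ℝ) ≤ L0 := by exact_mod_cast h.hL0
  have h2 : (EA T : ℝ) + S.card * Y.card
      ≤ 10001 * (L0 : ℝ) ^ 12 * (𝔖.M + 1) * (S.card * Y.card) + S.card * Y.card := by
    have := h.EAle; linarith
  have h3 := leaf_bound_aux (L := L0) (M := 𝔖.M + 1) (s := S.card * Y.card) hL
    (by have : (0 : ℝ) ≤ 𝔖.M := Nat.cast_nonneg _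
        linarith) (by positivity)
  calc 1000 * (L0 : ℝ) ^ 2 * ((EA T : ℝ) + S.card * Y.card) ≤ _ :=
        mul_le_mul_of_nonneg_left h2 (by positivity)
    _ ≤ _ := h3
    _ = _ := by unfold leafC; ring

lemma leaf_G {𝔖 : Sys β} {S Y : Finset (List β)} {T : Finset (Tri β)}
    {L0 κ a₁ a₂ : ℕ} {inv : β → β} (hinv : ∀ b, inv (inv b) = b)
    (h : LeafData 𝔖 S Y T L0 κ a₁ a₂) (hG : GC inv T) :
    Bd inv T (leafC L0 (𝔖.M + 1) * (S.card * Y.card)) := by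
  intro Γ g hg hΓ
  have h1 := tG inv hinv T hG Γ hΓ g hg
  refine h1.trans (mul_le_mul_of_nonneg_right ?_ (Finset.sum_nonneg (fun _ _ => sq_nonneg _)))
  have hL : (1 : ℝ) ≤ L0 := by exact_mod_cast h.hL0
  have h2 : (EA T : ℝ) ≤ 10001 * (L0 : ℝ) ^ 12 * (𝔖.M + 1) * (S.card * Y.card) := h.EAle
  have h3 := leaf_bound_aux (L := L0) (M := 𝔖.M + 1) (s := S.card * Y.card) hL
    (by have : (0 : ℝ) ≤ 𝔖.M := Nat.cast_nonneg _
        linarith) (by positivity)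
  have h4 : (1 : ℝ) ≤ 1000 * (L0 : ℝ) ^ 2 := by
    have : (1 : ℝ) ≤ (L0 : ℝ) ^ 2 := one_le_pow₀ hL
    linarith
  have h0 : (0 : ℝ) ≤ 10001 * (L0 : ℝ) ^ 12 * (𝔖.M + 1) * (S.card * Y.card) := by positivity
  calc (EA T : ℝ) ≤ _ := h2
    _ ≤ 1000 * (L0 : ℝ) ^ 2 * (10001 * (L0 : ℝ) ^ 12 * (𝔖.M + 1) * (S.card * Y.card)) :=
        le_mul_of_one_le_left h0 h4
    _ ≤ 1000 * (L0 : ℝ) ^ 2 * (10001 * (L0 : ℝ) ^ 12 * (𝔖.M + 1) * (S.card * Y.card)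
          + S.card * Y.card) := by
        apply mul_le_mul_of_nonneg_left _ (by positivity)
        have : (0 : ℝ) ≤ S.card * Y.card := by positivity
        linarith
    _ ≤ _ := h3
    _ = _ := by unfold leafC; ring

/-- the three admissible situations -/
def LC (inv : β → β) (T : Finset (Tri β)) : Prop :=
  GC inv T ∨ XC inv T ∨ XC inv (T.image swap3)

lemma LC_subset {inv : β → β} {T T' : Finset (Tri β)} (h : T ⊆ T') (hc : LC inv T') :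
    LC inv T := by
  rcases hc with hc | hc | hc
  · exact Or.inl (GC_subset h hc)
  · exact Or.inr (Or.inl (XC_subset h hc))
  · exact Or.inr (Or.inr (XC_subset (Finset.image_subset_image h) hc))

theorem leaf {𝔖 : Sys β} {S Y : Finset (List β)} {T : Finset (Tri β)}
    {L0 κ a₁ a₂ : ℕ} {inv : β → β} (hinv : ∀ b, inv (inv b) = b)
    (h : LeafData 𝔖 S Y T L0 κ a₁ a₂) (hL : LC inv T) :
    Bd inv T (leafC L0 (𝔖.M + 1) * (S.card * Y.card)) := by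
  rcases hL with hL | hL | hL
  · exact leaf_G hinv h hL
  · exact leaf_X hinv h hL
  · have := leaf_X hinv h.swap hL
    apply Bd_swap hinv
    rwa [mul_comm (Y.card : ℝ)] at this

end RDCE
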