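import Mathlib

open Finset

namespace RDCE

/-! ### digits and the potential -/

/-- partial potential -/
def Ph (B H l v : ℕ) : ℕ := ∏ i ∈ Finset.Ico l H, (B - v / B ^ i % B)

/-- one step of the odometer at level `l` -/
def stp (B l v : ℕ) : ℕ := (v / B ^ l + 1) * B ^ l

theorem Ph_top (B H v : ℕ) : Ph B H H v = 1 := by simp [Ph]

theorem Ph_succ {B H l v : ℕ} (hl : l < H) :
    Ph B H l v = (B - v / B ^ l % B) * Ph B H (l + 1) v := by
  unfold Ph
  rw [Finset.prod_eq_prod_Ico_succ_bot hl]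

/-- digits of a step, below `l` -/
theorem stp_low {B l v i : ℕ} (hB : 2 ≤ B) (hi : i < l) : stp B l v / B ^ i % B = 0 := by
  unfold stp
  obtain ⟨k, rfl⟩ : ∃ k, l = i + 1 + k := ⟨l - (i + 1), by omega⟩
  have h : (v / B ^ (i + 1 + k) + 1) * B ^ (i + 1 + k) =
      ((v / B ^ (i + 1 + k) + 1) * B ^ k * B) * B ^ i := by
    rw [pow_add, pow_succ]; ring
  rw [h, Nat.mul_div_cancel _ (by positivity), Nat.mul_mod_left]

theorem stp_at {B l v : ℕ} (hB : 2 ≤ B) (hd : v / B ^ l % B ≠ B - 1) :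
    stp B l v / B ^ l % B = v / B ^ l % B + 1 := by
  unfold stp
  rw [Nat.mul_div_cancel _ (by positivity)]
  have h1 : v / B ^ l % B < B := Nat.mod_lt _ (by omega)
  rw [Nat.add_mod, Nat.mod_eq_of_lt (show 1 < B by omega)]
  exact Nat.mod_eq_of_lt (by omega)

theorem succ_div_of_mod_ne {B u : ℕ} (hB : 2 ≤ B) (hd : u % B ≠ B - 1) :
    (u + 1) / B = u / B := by
  have h1 : u % B < B := Nat.mod_lt _ (by omega)
  rw [Nat.succ_div, if_neg, add_zero]
  intro h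
  have h2 : (u + 1) % B = 0 := Nat.mod_eq_zero_of_dvd h
  rw [Nat.add_mod, Nat.mod_eq_of_lt (show 1 < B by omega), Nat.mod_eq_of_lt (by omega)] at h2
  omega

theorem stp_high {B l v i : ℕ} (hB : 2 ≤ B) (hi : l < i) (hd : v / B ^ l % B ≠ B - 1) :
    stp B l v / B ^ i = v / B ^ i := by
  unfold stp
  obtain ⟨k, rfl⟩ : ∃ k, i = l + (1 + k) := ⟨i - (l + 1), by omega⟩
  rw [pow_add B l, ← Nat.div_div_eq_div_mul, ← Nat.div_div_eq_div_mul,
    Nat.mul_div_cancel _ (by positivity), pow_add B 1, pow_one, ← Nat.div_div_eq_div_mul,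
    ← Nat.div_div_eq_div_mul, succ_div_of_mod_ne hB hd]

/-- potential after a step -/
theorem Ph_stp {B H l v : ℕ} (hB : 2 ≤ B) (hl : l < H) (hd : v / B ^ l % B ≠ B - 1) :
    Ph B H 0 (stp B l v) = B ^ l * ((B - v / B ^ l % B - 1) * Ph B H (l + 1) v) := by
  unfold Ph
  rw [← Finset.prod_Ico_consecutive _ (Nat.zero_le l) hl.le,
    Finset.prod_eq_prod_Ico_succ_bot hl]
  have h1 : ∏ i ∈ Finset.Ico 0 l, (B - stp B l v / B ^ i % B) = B ^ l := by
    rw [Finset.prod_congr rfl (g := fun _ => B)]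
    · simp
    · intro i hi
      rw [stp_low hB (Finset.mem_Ico.1 hi).2]
      simp
  have h2 : ∏ i ∈ Finset.Ico (l + 1) H, (B - stp B l v / B ^ i % B) =
      ∏ i ∈ Finset.Ico (l + 1) H, (B - v / B ^ i % B) := by
    apply Finset.prod_congr rfl
    intro i hi
    rw [stp_high hB (by have := (Finset.mem_Ico.1 hi).1; omega) hd]
  rw [h1, h2, stp_at hB hd]
  congr 2

theorem Ph_pos {B H l v : ℕ} (hB : 2 ≤ B) : 0 < Ph B H l v := by
  unfold Ph
  apply Finset.prod_pos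
  intro i _
  have : v / B ^ i % B < B := Nat.mod_lt _ (by omega)
  omega

/-- telescoping -/
theorem Ph_telescope {B H v : ℕ} (hB : 2 ≤ B) :
    (Ph B H 0 v : ℝ) = 1 + ∑ l ∈ Finset.range H,
      ((B - v / B ^ l % B - 1 : ℕ) : ℝ) * (Ph B H (l + 1) v : ℝ) := by
  have key : ∀ k ≤ H, (Ph B H 0 v : ℝ) = Ph B H k v + ∑ l ∈ Finset.range k,
      ((B - v / B ^ l % B - 1 : ℕ) : ℝ) * (Ph B H (l + 1) v : ℝ) := by
    intro k
    induction k with
    | zero => intro _; simp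
    | succ k ih =>
      intro hk
      rw [Finset.sum_range_succ, ih (by omega), Ph_succ (show k < H by omega)]
      have : v / B ^ k % B < B := Nat.mod_lt _ (by omega)
      push_cast [Nat.cast_sub (show 1 ≤ B - v / B ^ k % B by omega)]
      ring
  rw [key H le_rfl, Ph_top]
  norm_num

theorem Ph_le {B H l v : ℕ} : Ph B H l v ≤ B ^ (H - l) := by
  unfold Ph
  calc _ ≤ ∏ i ∈ Finset.Ico l H, B := Finset.prod_le_prod' (fun i _ => Nat.sub_le _ _)
    _ = B ^ (H - l) := by simp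

theorem Ph_stp_le {B H l v : ℕ} (hB : 2 ≤ B) (hl : l < H) (hd : v / B ^ l % B ≠ B - 1) :
    Ph B H 0 (stp B l v) ≤ B ^ l * Ph B H 0 v := by
  rw [Ph_stp hB hl hd]
  apply Nat.mul_le_mul_left
  have h1 : Ph B H 0 v = (∏ i ∈ Finset.Ico 0 l, (B - v / B ^ i % B)) * Ph B H l v := by
    unfold Ph
    rw [Finset.prod_Ico_consecutive _ (Nat.zero_le l) hl.le]
  rw [h1, Ph_succ hl]
  have h2 : 1 ≤ ∏ i ∈ Finset.Ico 0 l, (B - v / B ^ i % B) := by
    apply Nat.one_le_iff_ne_zero.2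
    apply Finset.prod_ne_zero_iff.2
    intro i _
    have : v / B ^ i % B < B := Nat.mod_lt _ (by omega)
    omega
  calc _ ≤ (B - v / B ^ l % B) * Ph B H (l + 1) v := Nat.mul_le_mul_right _ (Nat.sub_le _ _)
    _ ≤ _ := Nat.le_mul_of_pos_left _ h2

theorem lt_stp {B l v : ℕ} (hB : 2 ≤ B) : v < stp B l v := by
  unfold stp
  have := Nat.lt_div_mul_add (a := v) (b := B ^ l) (by positivity)
  rw [Nat.add_mul, one_mul]
  exact this

theorem stp_lt {B H l v : ℕ} (hB : 2 ≤ B) (hl : l < H) (hv : v < B ^ H) 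
    (hd : v / B ^ l % B ≠ B - 1) : stp B l v < B ^ H := by
  have h1 : stp B l v / B ^ H = v / B ^ H := stp_high hB hl hd
  rw [Nat.div_eq_of_lt hv] at h1
  rcases Nat.div_eq_zero_iff.1 h1 with h | h
  · exfalso; have : 0 < B ^ H := by positivity
    omega
  · exact h

/-! ### sum of the squares of the potential -/

theorem sum_range_mul_blocks (f : ℕ → ℝ) (B k : ℕ) :
    ∑ v ∈ Finset.range (k * B), f v = ∑ u ∈ Finset.range k, ∑ a ∈ Finset.range B, f (u * B + a) := by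
  induction k with
  | zero => simp
  | succ k ih =>
    rw [Nat.succ_mul, Finset.sum_range_add, ih, Finset.sum_range_succ]

theorem sum_Ico_mul_blocks (f : ℕ → ℝ) (B m k : ℕ) (h : m ≤ k) :
    ∑ v ∈ Finset.Ico (m * B) (k * B), f v =
      ∑ u ∈ Finset.Ico m k, ∑ a ∈ Finset.range B, f (u * B + a) := by
  rw [Finset.sum_Ico_eq_sub _ (Nat.mul_le_mul_right B h), Finset.sum_Ico_eq_sub _ h,
    sum_range_mul_blocks, sum_range_mul_blocks]

theorem Ph_block {B H u a : ℕ} (ha : a < B) :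
    Ph B (H + 1) 0 (u * B + a) = (B - a) * Ph B H 0 u := by
  have hB : 0 < B := by omega
  rw [Ph_succ (Nat.succ_pos H)]
  congr 1
  · rw [pow_zero, Nat.div_one, Nat.mul_comm, Nat.mul_add_mod, Nat.mod_eq_of_lt ha]
  · unfold Ph
    have h := Finset.prod_Ico_add' (fun i => B - (u * B + a) / B ^ i % B) 0 H 1
    rw [← h]
    apply Finset.prod_congr rfl
    intro i _
    have : (u * B + a) / B ^ (i + 1) = u / B ^ i := by
      rw [pow_succ', ← Nat.div_div_eq_div_mul, Nat.mul_comm u B, Nat.mul_add_div hB,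
        Nat.div_eq_of_lt ha]
      simp
    simp only [this]

theorem sum_sq_range (B : ℕ) : ∑ a ∈ Finset.range B, (((B - a : ℕ) : ℝ)) ^ 2 =
    B * (B + 1) * (2 * B + 1) / 6 := by
  have : ∑ a ∈ Finset.range B, (((B - a : ℕ) : ℝ)) ^ 2 = ∑ a ∈ Finset.range B, ((a : ℝ) + 1) ^ 2 := by
    rw [← Finset.sum_range_reflect]
    apply Finset.sum_congr rfl
    intro a ha
    have := Finset.mem_range.1 ha
    congr 1
    rw [show B - (B - 1 - a) = a + 1 by omega]
    push_cast; ring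
  rw [this]
  clear this
  induction B with
  | zero => simp
  | succ k ih => rw [Finset.sum_range_succ, ih]; push_cast; ring

theorem sum_Ph_sq (B : ℕ) (hB : 4 ≤ B) (H : ℕ) :
    ((B : ℝ) / 2) ^ (3 * (H + 1)) / 4 + 5 / 2 * (B : ℝ) ^ (H + 1) ≤
      ∑ v ∈ Finset.Ico (B ^ H) (B ^ (H + 1)), (Ph B (H + 1) 0 v : ℝ) ^ 2 := by
  have hB' : (4 : ℝ) ≤ B := by exact_mod_cast hB
  induction H with
  | zero =>
    have h1 : ∀ v ∈ Finset.Ico (B ^ 0) (B ^ (0 + 1)), (Ph B (0 + 1) 0 v : ℝ) ^ 2 =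
        ((B - v : ℕ) : ℝ) ^ 2 := by
      intro v hv
      have hv' := Finset.mem_Ico.1 hv
      rw [zero_add, pow_one] at hv'
      have := Ph_block (H := 0) (u := 0) (a := v) (B := B) hv'.2
      rw [zero_mul, zero_add v] at this
      rw [this]
      simp [Ph]
    rw [Finset.sum_congr rfl h1]
    have h2 : ∑ v ∈ Finset.Ico (B ^ 0) (B ^ (0 + 1)), (((B - v : ℕ) : ℝ)) ^ 2 =
        B * (B + 1) * (2 * B + 1) / 6 - B ^ 2 := by
      rw [pow_zero, zero_add, pow_one, Finset.sum_Ico_eq_sub _ (by omega : 1 ≤ B), sum_sq_range]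
      simp
    rw [h2]
    have h3 : ((B : ℝ) / 2) ^ (3 * (0 + 1)) = (B : ℝ) ^ 3 / 8 := by ring
    rw [h3, zero_add, pow_one]
    nlinarith [mul_nonneg (sub_nonneg.2 hB') (sub_nonneg.2 hB'),
      mul_nonneg (mul_nonneg (sub_nonneg.2 hB') (sub_nonneg.2 hB')) (sub_nonneg.2 hB'),
      mul_nonneg (mul_nonneg (sub_nonneg.2 hB') (by linarith : (0:ℝ) ≤ B)) (by linarith : (0:ℝ) ≤ B)]
  | succ H ih =>
    have h1 : ∑ v ∈ Finset.Ico (B ^ (H + 1)) (B ^ (H + 1 + 1)), (Ph B (H + 1 + 1) 0 v : ℝ) ^ 2 =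
        (∑ a ∈ Finset.range B, (((B - a : ℕ) : ℝ)) ^ 2) *
        ∑ v ∈ Finset.Ico (B ^ H) (B ^ (H + 1)), (Ph B (H + 1) 0 v : ℝ) ^ 2 := by
      rw [pow_succ B H, pow_succ B (H + 1),
        sum_Ico_mul_blocks _ B _ _ (Nat.pow_le_pow_right (by omega) (Nat.le_succ H)), Finset.mul_sum,
        ← pow_succ B H]
      apply Finset.sum_congr rfl
      intro u _
      rw [Finset.sum_mul]
      apply Finset.sum_congr rfl
      intro a ha
      rw [Ph_block (Finset.mem_range.1 ha)]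
      push_cast; ring
    rw [h1, sum_sq_range]
    have h2 : ((B : ℝ) / 2) ^ 3 ≤ B * (B + 1) * (2 * B + 1) / 6 := by
      nlinarith [mul_nonneg (sub_nonneg.2 hB') (sub_nonneg.2 hB'),
        mul_nonneg (mul_nonneg (sub_nonneg.2 hB') (sub_nonneg.2 hB')) (sub_nonneg.2 hB'),
        mul_nonneg (mul_nonneg (sub_nonneg.2 hB') (by linarith : (0:ℝ) ≤ B)) (by linarith : (0:ℝ) ≤ B)]
    have h5 : (B : ℝ) ≤ B * (B + 1) * (2 * B + 1) / 6 := by nlinarith
    have h3 : (0 : ℝ) ≤ ((B : ℝ) / 2) ^ (3 * (H + 1)) / 4 := by positivity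
    have h6 : (0 : ℝ) ≤ 5 / 2 * (B : ℝ) ^ (H + 1) := by positivity
    calc ((B : ℝ) / 2) ^ (3 * (H + 1 + 1)) / 4 + 5 / 2 * (B : ℝ) ^ (H + 1 + 1)
        = ((B : ℝ) / 2) ^ 3 * (((B : ℝ) / 2) ^ (3 * (H + 1)) / 4) +
          B * (5 / 2 * (B : ℝ) ^ (H + 1)) := by ring
      _ ≤ B * (B + 1) * (2 * B + 1) / 6 * (((B : ℝ) / 2) ^ (3 * (H + 1)) / 4) +
          B * (B + 1) * (2 * B + 1) / 6 * (5 / 2 * (B : ℝ) ^ (H + 1)) :=
        add_le_add (mul_le_mul_of_nonneg_right h2 h3) (mul_le_mul_of_nonneg_right h5 h6)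
      _ = B * (B + 1) * (2 * B + 1) / 6 * (((B : ℝ) / 2) ^ (3 * (H + 1)) / 4 +
          5 / 2 * (B : ℝ) ^ (H + 1)) := by ring
      _ ≤ _ := by
        apply mul_le_mul_of_nonneg_left ih (by positivity)

end RDCE
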