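import Pool.Agent.H23.CE.Lang
import Pool.Agent.H23.CE.LowerA

open Finset Classical

namespace RDCE

/-- letters of the family with parameters `H, n, D`: level, identifier, colours -/
abbrev Letter (H n D : ℕ) : Type := Fin H × Fin n × (Fin H → Fin D)

/-- the language parameters on `Letter H n D` -/
def letterLP (H n D B : ℕ) (χ : ℕ → List (Letter H n D) → ℕ) : LP (Letter H n D) where
  lev := fun z => some (z.1 : ℕ)
  col := fun z i => if h : i < H then (z.2.2 ⟨i, h⟩ : ℕ) else 0
  idn := fun z => z.2.1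
  χ := χ
  B := B
  H := H

/-- weight of a word -/
noncomputable def wt (H n D B : ℕ) (w : List (Letter H n D)) : ℝ :=
  (w.map (fun z => 1 / ((n : ℝ) * (B : ℝ) ^ (z.1 : ℕ)))).prod

variable {H n D B : ℕ} {χ : ℕ → List (Letter H n D) → ℕ}

/-- the language -/
abbrev Lg (B : ℕ) (χ : ℕ → List (Letter H n D) → ℕ) (w : List (Letter H n D)) : Prop :=
  LangP (letterLP H n D B χ) w

/-- odometer value -/
def sv (B : ℕ) (w : List (Letter H n D)) : ℕ :=
  stv (fun z : Letter H n D => some (z.1 : ℕ)) B w

/-- the level function -/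
abbrev lv (H n D : ℕ) : Letter H n D → Option ℕ := fun z => some (z.1 : ℕ)

theorem sv_nil : sv B ([] : List (Letter H n D)) = 0 := rfl

theorem sv_cons (z : Letter H n D) (w : List (Letter H n D)) :
    sv B (z :: w) = stp B z.1 (sv B w) := rfl

theorem mark_lv {i : ℕ} {b : Letter H n D} : mark (lv H n D) i b ↔ i ≤ (b.1 : ℕ) := by
  unfold mark
  constructor
  · rintro ⟨k, hk, h⟩
    have : (b.1 : ℕ) = k := Option.some_injective _ hk
    omega
  · intro h
    exact ⟨_, rfl, h⟩

theorem Lg_nil : Lg B χ ([] : List (Letter H n D)) := trivial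

theorem Lg_cons {z : Letter H n D} {w : List (Letter H n D)} :
    Lg B χ (z :: w) ↔ Lg B χ w ∧ (z.2.1 : ℕ) ∉ w.map (fun y => (y.2.1 : ℕ)) ∧
      (sv B w / B ^ (z.1 : ℕ)) % B ≠ B - 1 ∧
      (∀ i : Fin H, 1 ≤ (i : ℕ) → (i : ℕ) ≤ z.1 → (∃ b ∈ w, (i : ℕ) ≤ (b.1 : ℕ)) →
        χ i (rh (lv H n D) i w) = z.2.2 i) ∧
      (∀ i : Fin H, ((i : ℕ) = 0 ∨ (z.1 : ℕ) < i) → (z.2.2 i : ℕ) = 0) := by
  constructor
  · rintro ⟨h1, h2, l, hl, hzl, h3, h4, h5⟩
    have hl' : (z.1 : ℕ) = l := Option.some_injective _ hzl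
    subst hl'
    refine ⟨h1, h2, h3, ?_, ?_⟩
    · intro i hi1 hi2 hb
      have := h4 i hi1 hi2 (by
        obtain ⟨b, hb, hb'⟩ := hb
        exact ⟨b, hb, mark_lv.2 hb'⟩)
      rw [show (letterLP H n D B χ).col z i = (z.2.2 i : ℕ) by
        simp [letterLP]] at this
      exact this
    · intro i hi
      have := h5 i hi
      rw [show (letterLP H n D B χ).col z i = (z.2.2 i : ℕ) by
        simp [letterLP]] at this
      exact this
  · rintro ⟨h1, h2, h3, h4, h5⟩
    refine ⟨h1, h2, z.1, z.1.2, rfl, h3, ?_, ?_⟩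
    · intro i hi1 hi2 hb
      have hiH : i < H := lt_of_le_of_lt hi2 z.1.2
      have := h4 ⟨i, hiH⟩ hi1 hi2 (by
        obtain ⟨b, hb, hb'⟩ := hb
        exact ⟨b, hb, mark_lv.1 hb'⟩)
      rw [show (letterLP H n D B χ).col z i = (z.2.2 ⟨i, hiH⟩ : ℕ) by
        simp [letterLP, hiH]]
      exact this
    · intro i hi
      by_cases hiH : i < H
      · rw [show (letterLP H n D B χ).col z i = (z.2.2 ⟨i, hiH⟩ : ℕ) by
          simp [letterLP, hiH]]
        exact h5 ⟨i, hiH⟩ hi
      · simp [letterLP, hiH]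

theorem Lg_suffix {a b : List (Letter H n D)} (h : Lg B χ (a ++ b)) : Lg B χ b := by
  induction a with
  | nil => exact h
  | cons z a ih => exact ih (Lg_cons.1 h).1

theorem Lg_idn {w : List (Letter H n D)} (h : Lg B χ w) :
    (w.map (fun y => (y.2.1 : Fin n))).Nodup := by
  induction w with
  | nil => simp
  | cons z w ih =>
    rw [Lg_cons] at h
    rw [List.map_cons, List.nodup_cons]
    refine ⟨?_, ih h.1⟩
    intro hmem
    apply h.2.1
    obtain ⟨y, hy, hyz⟩ := List.mem_map.1 hmem
    exact List.mem_map.2 ⟨y, hy, by simp [hyz]⟩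

theorem Lg_length {w : List (Letter H n D)} (h : Lg B χ w) : w.length ≤ n := by
  have h1 := (Lg_idn h).length_le_card
  simpa using h1

/-- the language is finite (its words have no repeated letters) -/
theorem langP_finite : {w : List (Letter H n D) | LangP (letterLP H n D B χ) w}.Finite := by
  apply (List.finite_length_le (Letter H n D) n).subset
  intro w hw
  exact Lg_length (B := B) (χ := χ) hw

theorem ext_finite (B : ℕ) (χ : ℕ → List (Letter H n D) → ℕ) (w : List (Letter H n D)) :
    {s : List (Letter H n D) | Lg B χ (s ++ w)}.Finite := by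
  apply (langP_finite (B := B) (χ := χ)).preimage (f := fun s => s ++ w)
  intro a _ b _ hab
  exact List.append_cancel_right hab

/-- extensions of `w` -/
noncomputable def ext (B : ℕ) (χ : ℕ → List (Letter H n D) → ℕ) (w : List (Letter H n D)) :
    Finset (List (Letter H n D)) := (ext_finite B χ w).toFinset

theorem mem_ext {s w : List (Letter H n D)} : s ∈ ext B χ w ↔ Lg B χ (s ++ w) := by
  unfold ext
  rw [Set.Finite.mem_toFinset]
  rfl

/-- weight of a letter -/
noncomputable def wt1 (B : ℕ) (z : Letter H n D) : ℝ := 1 / ((n : ℝ) * (B : ℝ) ^ (z.1 : ℕ))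

theorem wt1_nonneg (z : Letter H n D) : 0 ≤ wt1 B z := by unfold wt1; positivity

theorem wt_nil : wt H n D B [] = 1 := by simp [wt]

theorem wt_cons (z : Letter H n D) (w : List (Letter H n D)) :
    wt H n D B (z :: w) = wt1 B z * wt H n D B w := by simp [wt, wt1]

theorem wt_append (a b : List (Letter H n D)) :
    wt H n D B (a ++ b) = wt H n D B a * wt H n D B b := by simp [wt]

theorem wt_nonneg (w : List (Letter H n D)) : 0 ≤ wt H n D B w := by
  induction w with
  | nil => rw [wt_nil]; norm_num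
  | cons z w ih => rw [wt_cons]; exact mul_nonneg (wt1_nonneg z) ih

/-- total weight of the extensions -/
noncomputable def Gw (B : ℕ) (χ : ℕ → List (Letter H n D) → ℕ) (w : List (Letter H n D)) : ℝ :=
  ∑ s ∈ ext B χ w, wt H n D B s

theorem Gw_nonneg (w : List (Letter H n D)) : 0 ≤ Gw B χ w :=
  Finset.sum_nonneg (fun s _ => wt_nonneg s)

theorem Gw_eq_zero {w : List (Letter H n D)} (h : ¬ Lg B χ w) : Gw B χ w = 0 := by
  unfold Gw
  rw [show ext B χ w = ∅ from ?_]
  · simp
  · ext s
    simp only [mem_ext, Finset.notMem_empty, iff_false]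
    intro h'
    exact h (Lg_suffix h')

theorem ext_none {w : List (Letter H n D)} (h : Lg B χ w) :
    (ext B χ w).filter (fun p => p.getLast? = none) = {[]} := by
  ext s
  simp only [Finset.mem_filter, mem_ext, List.getLast?_eq_none_iff, Finset.mem_singleton]
  constructor
  · exact fun h => h.2
  · rintro rfl
    exact ⟨by simpa using h, rfl⟩

theorem ext_some (w : List (Letter H n D)) (z : Letter H n D) :
    (ext B χ w).filter (fun p => p.getLast? = some z) =
      (ext B χ (z :: w)).image (fun s => s ++ [z]) := by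
  ext p
  simp only [Finset.mem_filter, mem_ext, Finset.mem_image, List.getLast?_eq_some_iff]
  constructor
  · rintro ⟨h, s, rfl⟩
    refine ⟨s, ?_, rfl⟩
    simpa using h
  · rintro ⟨s, h, rfl⟩
    exact ⟨by simpa using h, s, rfl⟩

theorem sum_some (w : List (Letter H n D)) (z : Letter H n D) :
    ∑ p ∈ (ext B χ w).filter (fun p => p.getLast? = some z), wt H n D B p =
      wt1 B z * Gw B χ (z :: w) := by
  rw [ext_some, Finset.sum_image, Gw, Finset.mul_sum]
  · apply Finset.sum_congr rfl
    intro s _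
    rw [wt_append, wt_cons, wt_nil]
    ring
  · intro a _ b _ hab
    exact List.append_cancel_right hab

theorem Gw_rec {w : List (Letter H n D)} (h : Lg B χ w) :
    Gw B χ w = 1 + ∑ z, wt1 B z * Gw B χ (z :: w) := by
  conv_lhs => rw [Gw, ← Finset.sum_fiberwise _ (fun p : List (Letter H n D) => p.getLast?)]
  rw [Fintype.sum_option, ext_none h, Finset.sum_singleton, wt_nil]
  congr 1
  exact Finset.sum_congr rfl (fun z _ => sum_some w z)

/-- group the letters by level -/
theorem sum_level (f : Letter H n D → ℝ) :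
    ∑ z, f z = ∑ l ∈ Finset.range H, ∑ z ∈ Finset.univ.filter (fun z : Letter H n D => (z.1 : ℕ) = l),
      f z := by
  rw [← Finset.sum_fiberwise_of_maps_to (s := Finset.univ) (t := Finset.range H)
    (g := fun z : Letter H n D => (z.1 : ℕ)) (fun z _ => Finset.mem_range.2 z.1.2)]

/-- letters of level `l` which can be prepended to `w` -/
noncomputable def Zl (B : ℕ) (χ : ℕ → List (Letter H n D) → ℕ) (w : List (Letter H n D)) (l : ℕ) :
    Finset (Letter H n D) :=
  Finset.univ.filter (fun z => (z.1 : ℕ) = l ∧ Lg B χ (z :: w))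

theorem mem_Zl {w : List (Letter H n D)} {l : ℕ} {z : Letter H n D} :
    z ∈ Zl B χ w l ↔ (z.1 : ℕ) = l ∧ Lg B χ (z :: w) := by simp [Zl]

theorem Gw_rec' {w : List (Letter H n D)} (h : Lg B χ w) :
    Gw B χ w = 1 + ∑ l ∈ Finset.range H,
      1 / ((n : ℝ) * (B : ℝ) ^ l) * ∑ z ∈ Zl B χ w l, Gw B χ (z :: w) := by
  rw [Gw_rec h, sum_level]
  congr 1
  apply Finset.sum_congr rfl
  intro l _
  rw [Finset.mul_sum]
  symm
  have hsub : Zl B χ w l ⊆ Finset.univ.filter (fun z : Letter H n D => (z.1 : ℕ) = l) := by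
    intro z hz
    rw [mem_Zl] at hz
    simp [hz.1]
  rw [Finset.sum_subset hsub]
  · apply Finset.sum_congr rfl
    intro z hz
    rw [wt1, (Finset.mem_filter.1 hz).2]
  · intro z hz hz'
    have h1 := (Finset.mem_filter.1 hz).2
    rw [mem_Zl] at hz'
    rw [Gw_eq_zero (fun h2 => hz' ⟨h1, h2⟩), mul_zero]

/-- maximal level of a letter of `w` (`0` for the empty word) -/
def mx (w : List (Letter H n D)) : ℕ := (w.map (fun z => (z.1 : ℕ))).foldr max 0

theorem mx_cons (z : Letter H n D) (w : List (Letter H n D)) :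
    mx (z :: w) = max (z.1 : ℕ) (mx w) := rfl

theorem mx_le (w : List (Letter H n D)) : mx w ≤ H - 1 := by
  induction w with
  | nil => simp [mx]
  | cons z w ih => rw [mx_cons]; have := z.1.2; omega

theorem exists_of_le_mx {w : List (Letter H n D)} {i : ℕ} (h1 : 1 ≤ i) (h2 : i ≤ mx w) :
    ∃ b ∈ w, i ≤ (b.1 : ℕ) := by
  induction w with
  | nil => simp [mx] at h2; omega
  | cons z w ih =>
    rw [mx_cons] at h2
    rcases le_max_iff.1 h2 with h | h
    · exact ⟨z, List.mem_cons_self, h⟩
    · obtain ⟨b, hb, hb'⟩ := ih h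
      exact ⟨b, List.mem_cons_of_mem _ hb, hb'⟩

theorem card_Zl_le (w : List (Letter H n D)) (l : ℕ) :
    (Zl B χ w l).card ≤ n * D ^ (l - mx w) := by
  by_cases hlH : l < H
  swap
  · rw [show Zl B χ w l = ∅ from ?_]
    · simp
    · ext z
      simp only [mem_Zl, Finset.notMem_empty, iff_false]
      rintro ⟨h, _⟩
      have := z.1.2
      omega
  have hinj : Set.InjOn (fun z : Letter H n D =>
      (z.2.1, fun i : Fin (l - mx w) => z.2.2 ⟨mx w + 1 + i, by have := i.2; omega⟩))
      (Zl B χ w l : Set (Letter H n D)) := by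
    intro z hz z' hz' heq
    rw [Finset.mem_coe, mem_Zl, Lg_cons] at hz hz'
    simp only [Prod.mk.injEq] at heq
    obtain ⟨h1, h2⟩ := heq
    refine Prod.ext (Fin.ext (by rw [hz.1, hz'.1])) (Prod.ext h1 ?_)
    funext i
    apply Fin.ext
    by_cases hi : (i : ℕ) = 0 ∨ l < i
    · rw [hz.2.2.2.2.2 i (by rw [hz.1]; exact hi), hz'.2.2.2.2.2 i (by rw [hz'.1]; exact hi)]
    · push Not at hi
      by_cases him : (i : ℕ) ≤ mx w
      · have hb := exists_of_le_mx (by omega : 1 ≤ (i : ℕ)) him
        rw [← hz.2.2.2.2.1 i (by omega) (by omega) hb, ← hz'.2.2.2.2.1 i (by omega) (by omega) hb]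
      · have := congrFun h2 ⟨i - (mx w + 1), by omega⟩
        have hii : (⟨mx w + 1 + ((i : ℕ) - (mx w + 1)), by omega⟩ : Fin H) = i := by
          apply Fin.ext
          simp only
          omega
        simp only at this
        rw [hii] at this
        rw [this]
  have := Finset.card_le_card_of_injOn (t := Finset.univ) _ (fun z _ => Finset.mem_univ _) hinj
  simpa using this

/-- forced colour vector -/
theorem le_card_Zl (hχ : ∀ i w, χ i w < D) {w : List (Letter H n D)} (hw : Lg B χ w)
    {l : ℕ} (hl : l < H) (hd : sv B w / B ^ l % B ≠ B - 1) :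
    n - w.length ≤ (Zl B χ w l).card := by
  have hD : 0 < D := lt_of_le_of_lt (Nat.zero_le _) (hχ 0 [])
  let cv : Fin H → Fin D := fun i =>
    if 1 ≤ (i : ℕ) ∧ (i : ℕ) ≤ l then ⟨χ i (rh (lv H n D) i w), hχ _ _⟩ else ⟨0, hD⟩
  let ids : Finset (Fin n) := (w.map (fun y => (y.2.1 : Fin n))).toFinset
  have h1 : n - w.length ≤ (Finset.univ \ ids).card := by
    have h2 := Finset.le_card_sdiff ids (Finset.univ : Finset (Fin n))
    have h3 : ids.card ≤ w.length := by
      have := (w.map (fun y => (y.2.1 : Fin n))).toFinset_card_le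
      simpa using this
    simp only [Finset.card_univ, Fintype.card_fin] at h2
    omega
  refine h1.trans ?_
  apply Finset.card_le_card_of_injOn (fun id : Fin n => ((⟨l, hl⟩, id, cv) : Letter H n D))
  · intro id hid
    have hid' : id ∉ ids := (Finset.mem_sdiff.1 hid).2
    rw [Finset.mem_coe, mem_Zl, Lg_cons]
    refine ⟨rfl, hw, ?_, hd, ?_, ?_⟩
    · intro hmem
      apply hid'
      obtain ⟨y, hy, hyz⟩ := List.mem_map.1 hmem
      rw [List.mem_toFinset]
      exact List.mem_map.2 ⟨y, hy, Fin.ext hyz⟩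
    · intro i hi1 hi2 _
      show _ = ((cv i : Fin D) : ℕ)
      have : cv i = ⟨χ i (rh (lv H n D) i w), hχ _ _⟩ := if_pos ⟨hi1, hi2⟩
      rw [this]
    · intro i hi
      show ((cv i : Fin D) : ℕ) = 0
      have : cv i = ⟨0, hD⟩ := if_neg (by
        rintro ⟨h1, h2⟩
        rcases hi with h | h
        · omega
        · have h' : l < (i : ℕ) := h
          omega)
      rw [this]
  · intro a _ b _ hab
    exact (Prod.ext_iff.1 (Prod.ext_iff.1 hab).2).1

theorem Zl_empty {w : List (Letter H n D)} {l : ℕ} (hd : sv B w / B ^ l % B = B - 1) :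
    Zl B χ w l = ∅ := by
  ext z
  simp only [mem_Zl, Finset.notMem_empty, iff_false]
  rintro ⟨h, h'⟩
  rw [Lg_cons] at h'
  apply h'.2.2.1
  rw [h]
  exact hd

/-- upper bound for `G` -/
theorem Gw_le (hB : 2 ≤ B) (hD : 1 ≤ D) : ∀ (k : ℕ) (w : List (Letter H n D)),
    n + 1 ≤ w.length + k → Gw B χ w ≤ (D : ℝ) ^ (H - 1 - mx w) * (Ph B H 0 (sv B w) : ℝ) := by
  intro k
  induction k with
  | zero =>
    intro w hk
    rw [Gw_eq_zero (fun h => by have := Lg_length h; omega)]
    positivity
  | succ k ih =>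
    intro w hk
    by_cases hw : Lg B χ w
    swap
    · rw [Gw_eq_zero hw]; positivity
    rw [Gw_rec' hw, Ph_telescope hB, mul_add, mul_one]
    have hD1 : (1 : ℝ) ≤ (D : ℝ) := by exact_mod_cast hD
    apply add_le_add
    · exact one_le_pow₀ hD1
    · rw [Finset.mul_sum]
      apply Finset.sum_le_sum
      intro l hl
      have hlH := Finset.mem_range.1 hl
      by_cases hd : sv B w / B ^ l % B = B - 1
      · rw [Zl_empty hd]
        simp only [Finset.sum_empty, mul_zero]
        positivity
      · have h1 : ∑ z ∈ Zl B χ w l, Gw B χ (z :: w) ≤ ((Zl B χ w l).card : ℝ) *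
            ((D : ℝ) ^ (H - 1 - max l (mx w)) * (Ph B H 0 (stp B l (sv B w)) : ℝ)) := by
          rw [← nsmul_eq_mul]
          apply Finset.sum_le_card_nsmul
          intro z hz
          rw [mem_Zl] at hz
          have h2 := ih (z :: w) (by rw [List.length_cons]; omega)
          rw [mx_cons, sv_cons, hz.1] at h2
          exact h2
        have h3 : ((Zl B χ w l).card : ℝ) ≤ (n : ℝ) * (D : ℝ) ^ (l - mx w) := by
          exact_mod_cast card_Zl_le w l
        have h4 : 0 ≤ 1 / ((n : ℝ) * (B : ℝ) ^ l) := by positivity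
        have hmx := mx_le w
        calc 1 / ((n : ℝ) * (B : ℝ) ^ l) * ∑ z ∈ Zl B χ w l, Gw B χ (z :: w)
            ≤ 1 / ((n : ℝ) * (B : ℝ) ^ l) * (((n : ℝ) * (D : ℝ) ^ (l - mx w)) *
            ((D : ℝ) ^ (H - 1 - max l (mx w)) * (Ph B H 0 (stp B l (sv B w)) : ℝ))) := by
              apply mul_le_mul_of_nonneg_left _ h4
              exact h1.trans (mul_le_mul_of_nonneg_right h3 (by positivity))
          _ = ((n : ℝ) / n) * ((D : ℝ) ^ (H - 1 - mx w) *
                ((Ph B H 0 (stp B l (sv B w)) : ℝ) / (B : ℝ) ^ l)) := by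
              have : (D : ℝ) ^ (H - 1 - mx w) =
                  (D : ℝ) ^ (l - mx w) * (D : ℝ) ^ (H - 1 - max l (mx w)) := by
                rw [← pow_add]
                congr 1
                rcases le_total l (mx w) with h | h
                · rw [max_eq_right h]; omega
                · rw [max_eq_left h]; omega
              rw [this]
              rw [one_div, mul_inv, div_eq_mul_inv, div_eq_mul_inv]
              ring
          _ ≤ 1 * ((D : ℝ) ^ (H - 1 - mx w) *
                ((Ph B H 0 (stp B l (sv B w)) : ℝ) / (B : ℝ) ^ l)) := by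
              apply mul_le_mul_of_nonneg_right _ (by positivity)
              exact div_self_le_one _
          _ = _ := by
              rw [Ph_stp hB hlH hd]
              have hB0 : ((B : ℝ) ^ l) ≠ 0 := by
                have : (0 : ℝ) < B := by exact_mod_cast (by omega : 0 < B)
                positivity
              push_cast
              rw [mul_div_cancel_left₀ _ hB0, one_mul]

end RDCE
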