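import Pool.Agent.H23.CE.TDefs

/-! # Decompositions of words into pieces -/

open Finset Classical

namespace RDCE

variable {β : Type}

/-- closure properties of the set of pieces -/
structure PieOK (pie : List β → Prop) : Prop where
  nil : pie []
  sing : ∀ b, pie [b]
  pre : ∀ {a b : List β}, pie (a ++ b) → pie a
  suf : ∀ {a b : List β}, pie (a ++ b) → pie b

/-- `w` is a concatenation of `k` (possibly empty) pieces -/
def Dec (pie : List β → Prop) : ℕ → List β → Prop
  | 0, w => w = []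
  | k + 1, w => ∃ a b, w = a ++ b ∧ pie a ∧ Dec pie k b

variable {pie : List β → Prop}

lemma dec_nil (hp : PieOK pie) : ∀ k, Dec pie k []
  | 0 => rfl
  | k + 1 => ⟨[], [], rfl, hp.nil, dec_nil hp k⟩

lemma dec_succ (hp : PieOK pie) {k : ℕ} {w : List β} (h : Dec pie k w) : Dec pie (k + 1) w :=
  ⟨[], w, rfl, hp.nil, h⟩

lemma dec_mono (hp : PieOK pie) {k k' : ℕ} (hk : k ≤ k') {w : List β} (h : Dec pie k w) :
    Dec pie k' w := by
  induction hk with
  | refl => exact h
  | step _ ih => exact dec_succ hp ih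

lemma dec_append (hp : PieOK pie) {k l : ℕ} {a b : List β} (ha : Dec pie k a)
    (hb : Dec pie l b) : Dec pie (k + l) (a ++ b) := by
  induction k generalizing a with
  | zero =>
    have : a = [] := ha
    subst this
    simpa using hb
  | succ k ih =>
    obtain ⟨a₁, a₂, rfl, h1, h2⟩ := ha
    have := ih h2
    rw [show k + 1 + l = (k + l) + 1 by ring]
    exact ⟨a₁, a₂ ++ b, by simp, h1, this⟩

lemma dec_one (hp : PieOK pie) {a : List β} (h : pie a) : Dec pie 1 a :=
  ⟨a, [], by simp, h, rfl⟩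

lemma dec_length (hp : PieOK pie) (w : List β) : Dec pie w.length w := by
  induction w with
  | nil => exact rfl
  | cons z w ih => exact ⟨[z], w, rfl, hp.sing z, ih⟩

/-- last piece -/
lemma dec_snoc (hp : PieOK pie) {k : ℕ} {w : List β} (h : Dec pie (k + 1) w) :
    ∃ a b, w = a ++ b ∧ Dec pie k a ∧ pie b := by
  induction k generalizing w with
  | zero =>
    obtain ⟨a, b, rfl, h1, h2⟩ := h
    have : b = [] := h2
    subst this
    exact ⟨[], a, by simp, rfl, h1⟩
  | succ k ih =>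
    obtain ⟨a, b, rfl, h1, h2⟩ := h
    obtain ⟨c, d, rfl, h3, h4⟩ := ih h2
    exact ⟨a ++ c, d, by simp, ⟨a, c, rfl, h1, h3⟩, h4⟩

lemma dec_prefix (hp : PieOK pie) {k : ℕ} {a b : List β} (h : Dec pie k (a ++ b)) :
    Dec pie k a := by
  induction k generalizing a with
  | zero =>
    have : a ++ b = [] := h
    exact (List.append_eq_nil_iff.1 this).1
  | succ k ih =>
    obtain ⟨c, d, he, h1, h2⟩ := h
    rcases List.append_eq_append_iff.1 he with ⟨e, rfl, rfl⟩ | ⟨e, rfl, rfl⟩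
    · -- c = a ++ e
      exact dec_mono hp (by omega) (dec_one hp (hp.pre h1))
    · exact ⟨c, e, rfl, h1, ih h2⟩

lemma dec_suffix (hp : PieOK pie) {k : ℕ} {a b : List β} (h : Dec pie k (a ++ b)) :
    Dec pie k b := by
  induction k generalizing a with
  | zero =>
    have : a ++ b = [] := h
    exact (List.append_eq_nil_iff.1 this).2
  | succ k ih =>
    obtain ⟨c, d, he, h1, h2⟩ := h
    rcases List.append_eq_append_iff.1 he with ⟨e, rfl, rfl⟩ | ⟨e, rfl, rfl⟩
    · exact ⟨e, d, rfl, hp.suf h1, h2⟩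
    · exact dec_succ hp (ih h2)

/-- If `p ++ m` has `i+1` pieces and `p` does not have `i` pieces then the last piece contains
the last letter of `p` and `m`. -/
lemma dec_last_piece (hp : PieOK pie) {i : ℕ} {p m : List β} (h : Dec pie (i + 1) (p ++ m))
    (hn : ¬ Dec pie i p) : ∃ p₁ p₂, p = p₁ ++ p₂ ∧ p₂ ≠ [] ∧ pie (p₂ ++ m) := by
  obtain ⟨a, b, he, h1, h2⟩ := dec_snoc hp h
  rcases List.append_eq_append_iff.1 he with ⟨e, rfl, rfl⟩ | ⟨e, rfl, rfl⟩
  · exact absurd (dec_prefix hp h1) hn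
  · refine ⟨a, e, rfl, ?_, h2⟩
    rintro rfl
    exact hn (by simpa using h1)

lemma dec_first_piece (hp : PieOK pie) {j : ℕ} {m q : List β} (h : Dec pie (j + 1) (m ++ q))
    (hn : ¬ Dec pie j q) : ∃ q₁ q₂, q = q₁ ++ q₂ ∧ q₁ ≠ [] ∧ pie (m ++ q₁) := by
  obtain ⟨a, b, he, h1, h2⟩ := h
  rcases List.append_eq_append_iff.1 he with ⟨e, rfl, rfl⟩ | ⟨e, rfl, rfl⟩
  · refine ⟨e, b, rfl, ?_, h1⟩
    rintro rfl
    exact hn (by simpa using h2)
  · exact absurd (dec_suffix hp h2) hn

/-- The decomposition `q = q₀ ++ [b] ++ ω`, `ω` the longest suffix with `≤ k` pieces. -/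
lemma exists_omega (hp : PieOK pie) {k : ℕ} {q : List β} (hn : ¬ Dec pie k q) :
    ∃ q₀ b ω, q = q₀ ++ [b] ++ ω ∧ Dec pie k ω ∧ ¬ Dec pie k (b :: ω) := by
  induction q with
  | nil => exact absurd (dec_nil hp k) hn
  | cons z q ih =>
    by_cases h : Dec pie k q
    · exact ⟨[], z, q, by simp, h, hn⟩
    · obtain ⟨q₀, b, ω, rfl, h1, h2⟩ := ih h
      exact ⟨z :: q₀, b, ω, by simp, h1, h2⟩

lemma pie_of_omega (hp : PieOK pie) {k : ℕ} {q₀ ω : List β} {b : β}
    (h : Dec pie (k + 1) (q₀ ++ [b] ++ ω)) (hn : ¬ Dec pie k (b :: ω)) : pie (q₀ ++ [b]) := by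
  obtain ⟨a, c, he, h1, h2⟩ := h
  rcases List.append_eq_append_iff.1 he with ⟨e, rfl, rfl⟩ | ⟨e, he1, rfl⟩
  · exact hp.pre h1
  · -- `q₀ ++ [b] = a ++ e`
    rcases List.eq_nil_or_concat e with rfl | ⟨e', b', rfl⟩
    · rw [List.append_nil] at he1
      rw [he1]; exact h1
    · exfalso
      apply hn
      have : b' = b := by
        have := congrArg List.getLast? he1
        simp at this
        exact this.symm
      subst this
      have h3 : Dec pie k (e' ++ (b' :: ω)) := by simpa using h2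
      exact dec_suffix hp h3

/-- `ω` is unique -/
lemma omega_unique (hp : PieOK pie) {k : ℕ} {s s' ω ω' : List β} {b b' : β}
    (he : s ++ [b] ++ ω = s' ++ [b'] ++ ω') (h1 : Dec pie k ω) (h2 : ¬ Dec pie k (b :: ω))
    (h1' : Dec pie k ω') (h2' : ¬ Dec pie k (b' :: ω')) : ω = ω' := by
  have key : ∀ {s s' ω ω' : List β} {b b' : β}, s ++ [b] ++ ω = s' ++ [b'] ++ ω' →
      ω.length < ω'.length → Dec pie k ω' → ¬ Dec pie k (b :: ω) → False := by
    intro s s' ω ω' b b' he hl h3 h4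
    have he' : s ++ (b :: ω) = (s' ++ [b']) ++ ω' := by simpa using he
    have hsuf1 : (b :: ω) <:+ ((s' ++ [b']) ++ ω') := ⟨s, he'⟩
    have hsuf2 : ω' <:+ ((s' ++ [b']) ++ ω') := ⟨_, rfl⟩
    have : (b :: ω) <:+ ω' := List.suffix_of_suffix_length_le hsuf1 hsuf2 (by simpa using hl)
    obtain ⟨x, rfl⟩ := this
    exact h4 (dec_suffix hp h3)
  rcases lt_trichotomy ω.length ω'.length with hl | hl | hl
  · exact (key he hl h1' h2).elim
  · have he' : (s ++ [b]) ++ ω = (s' ++ [b']) ++ ω' := he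
    exact (List.append_inj' he' hl).2
  · exact (key he.symm hl h1 h2').elim

end RDCE
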