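import Pool.Agent.H23.CE.Indic

/-! # Failure of property RD -/

open Finset Classical

namespace RDCE

lemma toWord_mk_red {α : Type} [DecidableEq α] {L : List (α × Bool)}
    (hL : FreeGroup.IsReduced L) : (FreeGroup.mk L).toWord = L := by
  rw [FreeGroup.toWord_mk]; exact hL.reduce_eq

lemma tw_mk_red {L : List Be} (hL : FreeGroup.IsReduced L) : tw (FreeGroup.mk L) = L :=
  @toWord_mk_red Al (fun a b => Classical.propDecidable (a = b)) L hL

abbrev Lt (h : ℕ) : Type := Letter (h + 1) (pn h) (pD h)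

noncomputable def χL (h : ℕ) (i : ℕ) (w : List (Lt h)) : ℕ := χB h i (w.map (embB h))

noncomputable abbrev QL (h : ℕ) : LP (Lt h) :=
  letterLP (h + 1) (pn h) (pD h) (pB h) (χL h)

lemma LangQ_iff (h : ℕ) (w : List (Lt h)) :
    LangP (QL h) w ↔ LangP (PB h) (w.map (embB h)) := by
  apply LangP_map (PB h) (QL h) (embB h)
  · intro z
    show levB h (embB h z) = some (z.1 : ℕ)
    unfold levB embB
    rw [if_pos ⟨rfl, rfl⟩]
  · intro z; rfl
  · intro z; rfl
  · rfl
  · rfl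
  · intro i w; rfl

lemma embB_inj (h : ℕ) : Function.Injective (embB h) := by
  intro z z' he
  unfold embB at he
  simp only [Prod.mk.injEq, Sigma.mk.injEq, heq_eq_eq, true_and, and_true] at he
  exact he

/-- the group element of a positive word -/
def toG {h : ℕ} (w : List (Lt h)) : FreeGroup Al := FreeGroup.mk (w.map (embB h))

lemma isReduced_pos {h : ℕ} (w : List (Lt h)) : FreeGroup.IsReduced (w.map (embB h)) := by
  unfold FreeGroup.IsReduced
  rw [List.isChain_map]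
  apply List.Pairwise.isChain
  apply List.pairwise_of_forall
  intro a b _
  rfl

lemma isReduced_neg {h : ℕ} (w : List (Lt h)) :
    FreeGroup.IsReduced (invL finv (w.map (embB h))) := by
  unfold FreeGroup.IsReduced invL
  rw [List.isChain_reverse, List.map_map, List.isChain_map]
  apply List.Pairwise.isChain
  apply List.pairwise_of_forall
  intro a b _
  rfl

lemma toG_mul_inv {h : ℕ} (p r : List (Lt h)) :
    toG p * (toG r)⁻¹ = FreeGroup.mk (p.map (embB h) ++ invL finv (r.map (embB h))) := by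
  unfold toG
  rw [FreeGroup.inv_mk, FreeGroup.mul_mk]
  rfl

lemma tw_toG_mul_inv {h : ℕ} (p r : List (Lt h)) (hpr : p.getLast? ≠ r.getLast?) :
    tw (toG p * (toG r)⁻¹) = p.map (embB h) ++ invL finv (r.map (embB h)) := by
  rw [toG_mul_inv]
  apply tw_mk_red
  unfold FreeGroup.IsReduced
  rw [List.isChain_append]
  refine ⟨isReduced_pos p, isReduced_neg r, ?_⟩
  intro x hx y hy hxy
  exfalso
  rw [invL, List.head?_reverse, List.map_map, List.getLast?_map] at hy
  rw [List.getLast?_map] at hx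
  rw [Option.mem_def, Option.map_eq_some_iff] at hx hy
  obtain ⟨z, hz, rfl⟩ := hx
  obtain ⟨z', hz', rfl⟩ := hy
  have : z = z' := by
    have h1 : (embB h z).1 = (embB h z').1 := hxy
    apply embB_inj h
    exact Prod.ext h1 rfl
  apply hpr
  rw [hz, hz', this]

lemma tw_toG {h : ℕ} (p : List (Lt h)) : tw (toG p) = p.map (embB h) := by
  rw [toG]
  exact tw_mk_red (isReduced_pos p)

lemma toG_inj {h : ℕ} : Function.Injective (toG (h := h)) := by
  intro p p' he
  have := congrArg tw he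
  rw [tw_toG, tw_toG] at this
  exact (List.map_injective_iff.2 (embB_inj h)) this

lemma toG_mul_inv_inj {h : ℕ} {p r p' r' : List (Lt h)} (h1 : p.getLast? ≠ r.getLast?)
    (h2 : p'.getLast? ≠ r'.getLast?) (he : toG p * (toG r)⁻¹ = toG p' * (toG r')⁻¹) :
    p = p' ∧ r = r' := by
  have := congrArg tw he
  rw [tw_toG_mul_inv _ _ h1, tw_toG_mul_inv _ _ h2] at this
  have key : ∀ (p r : List (Lt h)), (p.map (embB h) ++ invL finv (r.map (embB h))).takeWhile
      (fun b => b.2) = p.map (embB h) := by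
    intro p r
    rw [List.takeWhile_append_of_pos]
    · rcases hr : invL finv (r.map (embB h)) with _ | ⟨b, l⟩
      · simp
      · have : b ∈ invL finv (r.map (embB h)) := by rw [hr]; simp
        have hb : b.2 = false := by
          unfold invL at this
          rw [List.mem_reverse, List.map_map, List.mem_map] at this
          obtain ⟨z, -, rfl⟩ := this
          rfl
        rw [List.takeWhile_cons, hb]
        simp
    · intro b hb
      rw [List.mem_map] at hb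
      obtain ⟨z, -, rfl⟩ := hb
      rfl
  have e1 : p.map (embB h) = p'.map (embB h) := by rw [← key p r, this, key]
  rw [e1] at this
  have e2 := List.append_cancel_left this
  have e3 := congrArg (invL finv) e2
  rw [invL_invL finv_finv, invL_invL finv_finv] at e3
  exact ⟨(List.map_injective_iff.2 (embB_inj h)) e1, (List.map_injective_iff.2 (embB_inj h)) e3⟩

lemma sq_sum_single {ι : Type*} (U : Finset ι) (c : ι → Prop) [DecidablePred c] (a : ι → ℝ)
    (hc : ∀ u ∈ U, ∀ u' ∈ U, c u → c u' → u = u') :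
    (∑ u ∈ U, if c u then a u else 0) ^ 2 = ∑ u ∈ U, if c u then a u ^ 2 else 0 := by
  by_cases hex : ∃ u ∈ U, c u
  · obtain ⟨u, hu, hcu⟩ := hex
    have h1 : ∀ (b : ι → ℝ), (∑ v ∈ U, if c v then b v else 0) = b u := by
      intro b
      rw [Finset.sum_eq_single u]
      · rw [if_pos hcu]
      · intro v hv hvu
        rw [if_neg]
        intro hcv
        exact hvu (hc v hv u hu hcv hcu)
      · intro h; exact absurd hu h
    rw [h1 a, h1 (fun v => a v ^ 2)]
  · push Not at hex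
    rw [Finset.sum_eq_zero (fun u hu => if_neg (hex u hu)),
      Finset.sum_eq_zero (fun u hu => if_neg (hex u hu))]
    norm_num

lemma suffix_unique3 {γ : Type} {p q r p' q' r' : List γ} (h1 : p.getLast? ≠ r.getLast?)
    (h2 : p'.getLast? ≠ r'.getLast?) (e1 : p ++ q = p' ++ q') (e2 : r ++ q = r' ++ q') :
    p = p' ∧ q = q' ∧ r = r' := by
  have key : ∀ {p q r p' q' r' : List γ}, p.getLast? ≠ r.getLast? →
      p ++ q = p' ++ q' → r ++ q = r' ++ q' → ¬ q.length < q'.length := by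
    intro p q r p' q' r' h1 e1 e2 hlt
    have hs : q <:+ q' := List.suffix_of_suffix_length_le (l₃ := p' ++ q') ⟨p, e1⟩ ⟨p', rfl⟩ hlt.le
    obtain ⟨x, rfl⟩ := hs
    rw [← List.append_assoc] at e1 e2
    have e1' := List.append_cancel_right e1
    have e2' := List.append_cancel_right e2
    rcases List.eq_nil_or_concat x with rfl | ⟨x, z, rfl⟩
    · simp at hlt
    · apply h1
      rw [e1', e2']
      simp
  have k1 := key h1 e1 e2
  have k2 := key h2 e1.symm e2.symm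
  have hl : q.length = q'.length := by omega
  have hq := (List.append_inj' e1 hl)
  have hq2 := (List.append_inj' e2 hl)
  exact ⟨hq.1, hq.2, hq2.1⟩

lemma wt_nonneg23 (H n D B : ℕ) (w : List (Letter H n D)) : 0 ≤ wt H n D B w := by
  unfold wt
  apply List.prod_nonneg
  intro x hx
  rw [List.mem_map] at hx
  obtain ⟨z, -, rfl⟩ := hx
  positivity

lemma wt_append23 (H n D B : ℕ) (a b : List (Letter H n D)) :
    wt H n D B (a ++ b) = wt H n D B a * wt H n D B b := by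
  unfold wt
  rw [List.map_append, List.prod_append]

theorem key_ineq (h : ℕ) {P : Polynomial ℝ}
    (hP : ∀ r : ℝ, 0 < r → ∀ (A B C : Finset (FreeGroup Al)) (f g k : FreeGroup Al → ℝ),
      (∀ x ∈ A, Lfun x ≤ r) → (∀ x ∈ A, ∀ y ∈ B, x * y ∈ C) →
      (∀ x, 0 ≤ f x) → (∀ x, 0 ≤ g x) → (∀ x, 0 ≤ k x) →
      (∑ x ∈ A, ∑ y ∈ B, f x * g y * k (x * y)) ^ 2
        ≤ P.eval r * (∑ x ∈ A, f x ^ 2) * (∑ y ∈ B, g y ^ 2) * ∑ z ∈ C, k z ^ 2) :
    (((pB h : ℝ) / 2) ^ (3 * (h + 1)) / 16) ^ 2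
      ≤ P.eval ((4 : ℝ) ^ (h + 1)) * ((pB h : ℝ) ^ (h + 1)) ^ 2 *
        ((pD h : ℝ) ^ h * (pB h : ℝ) ^ (h + 1)) ^ 2 := by
  have hB4 : 4 ≤ pB h := by
    unfold pB
    have : 1 ≤ 4 ^ h := Nat.one_le_pow _ _ (by norm_num)
    rw [pow_succ]; omega
  have hD1 : 1 ≤ pD h := Nat.one_le_two_pow
  have hn1 : 0 < pn h := by
    unfold pn
    have : 0 < pB h ^ (2 * (h + 1)) := by positivity
    omega
  set PP : Finset (List (Lt h)) := (langP_finite (χ := χL h)).toFinset with hPP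
  have memPP : ∀ p, p ∈ PP ↔ LangP (QL h) p := by
    intro p; rw [hPP, Set.Finite.mem_toFinset]; rfl
  set zs : Lt h := (⟨h, Nat.lt_succ_self h⟩, ⟨0, hn1⟩, fun _ => ⟨0, hD1⟩) with hzs
  set SS : Finset (List (Lt h)) := PP.filter (fun s => LangP (QL h) (s ++ [zs])) with hSS
  have memSS : ∀ s, s ∈ SS ↔ LangP (QL h) (s ++ [zs]) := by
    intro s
    rw [hSS, Finset.mem_filter, memPP]
    refine ⟨fun h => h.2, fun hs => ⟨?_, hs⟩⟩
    exact LangP_prefix (QL h) (show 2 ≤ pB h by omega) hs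
  set W : List (Lt h) → ℝ := wt (h + 1) (pn h) (pD h) (pB h) with hW
  have hW0 : ∀ w, 0 ≤ W w := wt_nonneg23 _ _ _ _
  have hL1 : ∑ s ∈ SS, W s ≤ (pB h : ℝ) ^ (h + 1) :=
    lower_L1 (by omega) hB4 hD1 zs rfl SS memSS
  have hL2 : ∑ p ∈ PP, W p ≤ (pD h : ℝ) ^ h * (pB h : ℝ) ^ (h + 1) :=
    lower_L2 (by omega) hB4 hD1 PP memPP
  have hL3 : ((pB h : ℝ) / 2) ^ (3 * (h + 1)) / 16 ≤ ∑ p ∈ PP, ∑ q ∈ PP, ∑ r ∈ PP,
      if (p ++ q ∈ SS ∧ r ++ q ∈ SS ∧ p.getLast? ≠ r.getLast?)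
        then W p * W q * W r else 0 :=
    lower_L3 (by omega) hB4 hD1 (le_refl _) (fun i w => χB_lt h i _) zs rfl (fun _ => rfl) PP SS
      memPP memSS
  -- test functions
  set f : FreeGroup Al → ℝ := fun x => ∑ w ∈ SS, if toG w = x then √(W w) else 0 with hf
  set g : FreeGroup Al → ℝ := fun x => ∑ w ∈ SS, if (toG w)⁻¹ = x then √(W w) else 0 with hg
  set k : FreeGroup Al → ℝ := fun z => ∑ u ∈ PP ×ˢ PP,
    if (u.1.getLast? ≠ u.2.getLast? ∧ toG u.1 * (toG u.2)⁻¹ = z) then √(W u.1 * W u.2) else 0 with hk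
  have hf0 : ∀ x, 0 ≤ f x := fun x => Finset.sum_nonneg (fun w _ => by
    split_ifs; exacts [Real.sqrt_nonneg _, le_rfl])
  have hg0 : ∀ x, 0 ≤ g x := fun x => Finset.sum_nonneg (fun w _ => by
    split_ifs; exacts [Real.sqrt_nonneg _, le_rfl])
  have hk0 : ∀ x, 0 ≤ k x := fun x => Finset.sum_nonneg (fun w _ => by
    split_ifs; exacts [Real.sqrt_nonneg _, le_rfl])
  have hfs : ∀ s ∈ SS, f (toG s) = √(W s) := by
    intro s hs
    simp only [hf]
    rw [Finset.sum_eq_single s]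
    · rw [if_pos rfl]
    · intro w _ hw
      rw [if_neg]
      intro he; exact hw (toG_inj he)
    · intro h'; exact absurd hs h'
  have hgs : ∀ s ∈ SS, g (toG s)⁻¹ = √(W s) := by
    intro s hs
    simp only [hg]
    rw [Finset.sum_eq_single s]
    · rw [if_pos rfl]
    · intro w _ hw
      rw [if_neg]
      intro he; exact hw (toG_inj (inv_injective he))
    · intro h'; exact absurd hs h'
  set A : Finset (FreeGroup Al) := SS.image toG with hA
  set B : Finset (FreeGroup Al) := SS.image (fun t => (toG t)⁻¹) with hB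
  set C : Finset (FreeGroup Al) := (A ×ˢ B).image (fun u => u.1 * u.2) with hC
  have hAB : ∀ x ∈ A, ∀ y ∈ B, x * y ∈ C := by
    intro x hx y hy
    exact Finset.mem_image.2 ⟨(x, y), Finset.mem_product.2 ⟨hx, hy⟩, rfl⟩
  have hr0 : (0 : ℝ) < (4 : ℝ) ^ (h + 1) := by positivity
  have hAL : ∀ x ∈ A, Lfun x ≤ (4 : ℝ) ^ (h + 1) := by
    intro x hx
    obtain ⟨s, hs, rfl⟩ := Finset.mem_image.1 hx
    have h1 : (FB.sys (h, true)).mem (tw (toG s)) := by
      show (sys1 h).mem _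
      rw [(sys1_spec h).2.2.2.2, tw_toG]
      left
      rw [← LangQ_iff]
      exact (memPP s).1 (Finset.mem_filter.1 hs).1
    have h2 := cost_le_of_mem FB wB h1
    have h3 : ((cost FB wB (tw (toG s)) : ℕ) : ℝ) ≤ ((wB (h, true) : ℕ) : ℝ) := by
      exact_mod_cast h2
    have h4 : ((wB (h, true) : ℕ) : ℝ) = (4 : ℝ) ^ (h + 1) := by
      unfold wB; push_cast; rfl
    rw [h4] at h3
    exact h3
  have hmain := hP _ hr0 A B C f g k hAL hAB hf0 hg0 hk0
  have sA : ∑ x ∈ A, f x ^ 2 = ∑ s ∈ SS, W s := by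
    rw [hA, Finset.sum_image (fun s _ s' _ h => toG_inj h)]
    apply Finset.sum_congr rfl
    intro s hs
    rw [hfs s hs, Real.sq_sqrt (hW0 s)]
  have sB : ∑ x ∈ B, g x ^ 2 = ∑ s ∈ SS, W s := by
    rw [hB, Finset.sum_image (fun s _ s' _ h => toG_inj (inv_injective h))]
    apply Finset.sum_congr rfl
    intro s hs
    rw [hgs s hs, Real.sq_sqrt (hW0 s)]
  have sC : ∑ z ∈ C, k z ^ 2 ≤ (∑ p ∈ PP, W p) ^ 2 := by
    have h1 : ∀ z, k z ^ 2 = ∑ u ∈ PP ×ˢ PP,
        if (u.1.getLast? ≠ u.2.getLast? ∧ toG u.1 * (toG u.2)⁻¹ = z) then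
          (√(W u.1 * W u.2)) ^ 2 else 0 := by
      intro z
      convert sq_sum_single (PP ×ˢ PP) (fun u => (u.1.getLast? ≠ u.2.getLast? ∧
        toG u.1 * (toG u.2)⁻¹ = z)) (fun u => √(W u.1 * W u.2)) ?_
      rintro ⟨p, r⟩ - ⟨p', r'⟩ - ⟨h1, h2⟩ ⟨h1', h2'⟩
      obtain ⟨rfl, rfl⟩ := toG_mul_inv_inj h1 h1' (h2.trans h2'.symm)
      rfl
    rw [Finset.sum_congr rfl (fun z _ => h1 z), Finset.sum_comm]
    calc _ ≤ ∑ u ∈ PP ×ˢ PP, W u.1 * W u.2 := by
          apply Finset.sum_le_sum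
          intro u _
          have hu : 0 ≤ W u.1 * W u.2 := mul_nonneg (hW0 _) (hW0 _)
          rw [Real.sq_sqrt hu]
          by_cases hmem : u.1.getLast? ≠ u.2.getLast? ∧ toG u.1 * (toG u.2)⁻¹ ∈ C
          · rw [Finset.sum_eq_single (toG u.1 * (toG u.2)⁻¹)]
            · rw [if_pos ⟨hmem.1, rfl⟩]
            · intro z _ hz
              rw [if_neg]
              rintro ⟨-, h2⟩
              exact hz h2.symm
            · intro h'; exact absurd hmem.2 h'
          · rw [Finset.sum_eq_zero]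
            · exact hu
            · intro z hz
              rw [if_neg]
              rintro ⟨h1, rfl⟩
              exact hmem ⟨h1, hz⟩
      _ = _ := by
          rw [sq, Finset.sum_mul_sum, Finset.sum_product]
  -- the left-hand side
  set Φ : List (Lt h) × List (Lt h) → ℝ :=
    fun x => √(W x.1) * √(W x.2) * k (toG x.1 * (toG x.2)⁻¹) with hΦ
  have hΦ0 : ∀ x, 0 ≤ Φ x := fun x =>
    mul_nonneg (mul_nonneg (Real.sqrt_nonneg _) (Real.sqrt_nonneg _)) (hk0 _)
  have sL : ∑ x ∈ A, ∑ y ∈ B, f x * g y * k (x * y) = ∑ x ∈ SS ×ˢ SS, Φ x := by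
    rw [hA, hB, Finset.sum_image (fun s _ s' _ h => toG_inj h), Finset.sum_product]
    apply Finset.sum_congr rfl
    intro s hs
    rw [Finset.sum_image (fun s _ s' _ h => toG_inj (inv_injective h))]
    apply Finset.sum_congr rfl
    intro t ht
    rw [hfs s hs, hgs t ht]
  have hT : ∑ p ∈ PP, ∑ q ∈ PP, ∑ r ∈ PP,
      (if (p ++ q ∈ SS ∧ r ++ q ∈ SS ∧ p.getLast? ≠ r.getLast?)
        then W p * W q * W r else 0) ≤ ∑ x ∈ SS ×ˢ SS, Φ x := by
    set Tf : Finset (List (Lt h) × List (Lt h) × List (Lt h)) :=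
      (PP ×ˢ PP ×ˢ PP).filter (fun t => t.1 ++ t.2.1 ∈ SS ∧ t.2.2 ++ t.2.1 ∈ SS ∧
        t.1.getLast? ≠ t.2.2.getLast?) with hTf
    have e1 : ∑ p ∈ PP, ∑ q ∈ PP, ∑ r ∈ PP,
      (if (p ++ q ∈ SS ∧ r ++ q ∈ SS ∧ p.getLast? ≠ r.getLast?)
        then W p * W q * W r else 0) = ∑ t ∈ Tf, W t.1 * W t.2.1 * W t.2.2 := by
      rw [hTf, Finset.sum_filter, Finset.sum_product]
      apply Finset.sum_congr rfl
      intro p _
      rw [Finset.sum_product]
    rw [e1]
    set φ : List (Lt h) × List (Lt h) × List (Lt h) → List (Lt h) × List (Lt h) :=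
      fun t => (t.1 ++ t.2.1, t.2.2 ++ t.2.1) with hφ
    have hinj : ∀ t ∈ Tf, ∀ t' ∈ Tf, φ t = φ t' → t = t' := by
      rintro ⟨p, q, r⟩ ht ⟨p', q', r'⟩ ht' he
      have ht2 := (Finset.mem_filter.1 ht).2
      have ht2' := (Finset.mem_filter.1 ht').2
      simp only [hφ, Prod.mk.injEq] at he
      obtain ⟨rfl, rfl, rfl⟩ := suffix_unique3 ht2.2.2 ht2'.2.2 he.1 he.2
      rfl
    calc ∑ t ∈ Tf, W t.1 * W t.2.1 * W t.2.2 ≤ ∑ t ∈ Tf, Φ (φ t) := by
          apply Finset.sum_le_sum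
          rintro ⟨p, q, r⟩ ht
          obtain ⟨ht1, ht2, ht3, ht4⟩ := Finset.mem_filter.1 ht
          rw [Finset.mem_product, Finset.mem_product] at ht1
          simp only [hφ, hΦ]
          have ek : toG (p ++ q) * (toG (r ++ q))⁻¹ = toG p * (toG r)⁻¹ := by
            have : ∀ a b : List (Lt h), toG (a ++ b) = toG a * toG b := by
              intro a b
              unfold toG
              rw [FreeGroup.mul_mk, List.map_append]
            rw [this, this]; group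
          rw [ek]
          have hk1 : √(W p * W r) ≤ k (toG p * (toG r)⁻¹) := by
            simp only [hk]
            refine le_trans ?_ (Finset.single_le_sum (f := fun u : List (Lt h) × List (Lt h) =>
              if (u.1.getLast? ≠ u.2.getLast? ∧ toG u.1 * (toG u.2)⁻¹ = toG p * (toG r)⁻¹)
                then √(W u.1 * W u.2) else 0) (fun u _ => by
                  split_ifs; exacts [Real.sqrt_nonneg _, le_rfl])
              (Finset.mem_product.2 ⟨ht1.1, ht1.2.2⟩ : (p, r) ∈ PP ×ˢ PP))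
            dsimp only
            rw [if_pos ⟨ht4, rfl⟩]
          have e2 : W (p ++ q) = W p * W q := wt_append23 _ _ _ _ _ _
          have e3 : W (r ++ q) = W r * W q := wt_append23 _ _ _ _ _ _
          rw [e2, e3, Real.sqrt_mul (hW0 p), Real.sqrt_mul (hW0 r)]
          rw [Real.sqrt_mul (hW0 p)] at hk1
          calc W p * W q * W r
              = √(W p) * √(W q) * (√(W r) * √(W q)) * (√(W p) * √(W r)) := by
                have a1 := Real.mul_self_sqrt (hW0 p)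
                have a2 := Real.mul_self_sqrt (hW0 q)
                have a3 := Real.mul_self_sqrt (hW0 r)
                calc W p * W q * W r = (√(W p) * √(W p)) * (√(W q) * √(W q)) *
                      (√(W r) * √(W r)) := by rw [a1, a2, a3]
                  _ = _ := by ring
            _ ≤ _ := mul_le_mul_of_nonneg_left hk1 (by positivity)
      _ = ∑ x ∈ Tf.image φ, Φ x := by
          rw [Finset.sum_image (fun t ht t' ht' h => hinj t ht t' ht' h)]
      _ ≤ _ := by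
          apply Finset.sum_le_sum_of_subset_of_nonneg
          · intro x hx
            obtain ⟨t, ht, rfl⟩ := Finset.mem_image.1 hx
            have ht2 := (Finset.mem_filter.1 ht).2
            exact Finset.mem_product.2 ⟨ht2.1, ht2.2.1⟩
          · intro x _ _; exact hΦ0 x
  rw [sA, sB, sL] at hmain
  set Zs : ℝ := ∑ s ∈ SS, W s with hZs
  set Z : ℝ := ∑ p ∈ PP, W p with hZ
  have hZs0 : 0 ≤ Zs := Finset.sum_nonneg (fun _ _ => hW0 _)
  have hZ0 : 0 ≤ Z := Finset.sum_nonneg (fun _ _ => hW0 _)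
  have hT' := hL3.trans hT
  have hlow0 : (0 : ℝ) ≤ ((pB h : ℝ) / 2) ^ (3 * (h + 1)) / 16 := by positivity
  have h1 : (((pB h : ℝ) / 2) ^ (3 * (h + 1)) / 16) ^ 2
      ≤ P.eval ((4 : ℝ) ^ (h + 1)) * Zs * Zs * ∑ z ∈ C, k z ^ 2 :=
    (pow_le_pow_left₀ hlow0 hT' 2).trans hmain
  have hC0 : 0 ≤ ∑ z ∈ C, k z ^ 2 := Finset.sum_nonneg (fun _ _ => sq_nonneg _)
  have hlowpos : (0 : ℝ) < (((pB h : ℝ) / 2) ^ (3 * (h + 1)) / 16) ^ 2 := by
    have : (0 : ℝ) < (pB h : ℝ) := by
      have : 0 < pB h := by omega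
      exact_mod_cast this
    positivity
  have hPpos : 0 ≤ P.eval ((4 : ℝ) ^ (h + 1)) := by
    by_contra hneg
    push Not at hneg
    have : P.eval ((4 : ℝ) ^ (h + 1)) * Zs * Zs * ∑ z ∈ C, k z ^ 2 ≤ 0 := by
      have h2 : P.eval ((4 : ℝ) ^ (h + 1)) * (Zs * Zs * ∑ z ∈ C, k z ^ 2) ≤ 0 :=
        mul_nonpos_of_nonpos_of_nonneg hneg.le (by positivity)
      linarith [h2]
    linarith
  calc (((pB h : ℝ) / 2) ^ (3 * (h + 1)) / 16) ^ 2
      ≤ P.eval ((4 : ℝ) ^ (h + 1)) * Zs * Zs * ∑ z ∈ C, k z ^ 2 := h1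
    _ = P.eval ((4 : ℝ) ^ (h + 1)) * (Zs ^ 2) * ∑ z ∈ C, k z ^ 2 := by ring
    _ ≤ P.eval ((4 : ℝ) ^ (h + 1)) * (((pB h : ℝ) ^ (h + 1)) ^ 2) * Z ^ 2 := by
        apply mul_le_mul _ sC hC0 (by positivity)
        exact mul_le_mul_of_nonneg_left (pow_le_pow_left₀ hZs0 hL1 2) hPpos
    _ ≤ _ := by
        apply mul_le_mul_of_nonneg_left _ (by positivity)
        exact pow_le_pow_left₀ hZ0 hL2 2

lemma poly_bound (P : Polynomial ℝ) : ∃ (c d : ℕ), ∀ x : ℝ, 1 ≤ x → P.eval x ≤ (2 : ℝ) ^ c * x ^ d := by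
  obtain ⟨c, hc⟩ := pow_unbounded_of_one_lt (∑ i ∈ Finset.range (P.natDegree + 1), |P.coeff i|)
    (by norm_num : (1 : ℝ) < 2)
  refine ⟨c, P.natDegree, ?_⟩
  intro x hx
  rw [Polynomial.eval_eq_sum_range]
  calc ∑ i ∈ Finset.range (P.natDegree + 1), P.coeff i * x ^ i
      ≤ ∑ i ∈ Finset.range (P.natDegree + 1), |P.coeff i| * x ^ P.natDegree := by
        apply Finset.sum_le_sum
        intro i hi
        have hi' : i ≤ P.natDegree := by
          rw [Finset.mem_range] at hi; omega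
        calc P.coeff i * x ^ i ≤ |P.coeff i| * x ^ i :=
              mul_le_mul_of_nonneg_right (le_abs_self _) (by positivity)
          _ ≤ _ := mul_le_mul_of_nonneg_left (pow_le_pow_right₀ hx hi') (abs_nonneg _)
    _ = (∑ i ∈ Finset.range (P.natDegree + 1), |P.coeff i|) * x ^ P.natDegree := by
        rw [Finset.sum_mul]
    _ ≤ _ := mul_le_mul_of_nonneg_right hc.le (by positivity)

lemma final_arith (H h c d : ℕ) (hH : H = h + 1) (hh : h = 2 * d + c + 20) (p B D y : ℝ)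
    (hB : B = 2 ^ (2 * H)) (hD : D = 2 ^ (H + 1)) (hy : y = 2 ^ (2 * H))
    (h1 : ((B / 2) ^ (3 * H) / 16) ^ 2 ≤ p * (B ^ H) ^ 2 * (D ^ h * B ^ H) ^ 2)
    (h2 : p ≤ 2 ^ c * y ^ d) : False := by
  have hU : 0 ≤ (B ^ H) ^ 2 := sq_nonneg _
  have hV : 0 ≤ (D ^ h * B ^ H) ^ 2 := sq_nonneg _
  have h3 : ((B / 2) ^ (3 * H) / 16) ^ 2 ≤ (2 ^ c * y ^ d) * (B ^ H) ^ 2 * (D ^ h * B ^ H) ^ 2 :=
    h1.trans (mul_le_mul_of_nonneg_right (mul_le_mul_of_nonneg_right h2 hU) hV)
  have l1 : B / 2 = 2 ^ (2 * H - 1) := by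
    have : (2 : ℝ) ^ (2 * H) = 2 ^ (2 * H - 1) * 2 := by
      rw [← pow_succ]
      congr 1; omega
    rw [hB, this, mul_div_assoc, div_self (by norm_num), mul_one]
  have l2 : ((B / 2) ^ (3 * H) / 16) ^ 2 = 2 ^ ((2 * H - 1) * (6 * H)) / 2 ^ 8 := by
    rw [l1, ← pow_mul, div_pow, ← pow_mul]
    congr 1
    · congr 1; ring
    · norm_num
  have l3 : (2 ^ c * y ^ d) * (B ^ H) ^ 2 * (D ^ h * B ^ H) ^ 2
      = 2 ^ (c + 2 * H * d + 2 * H * H * 2 + ((H + 1) * h + 2 * H * H) * 2) := by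
    rw [hB, hD, hy]
    simp only [← pow_mul, ← pow_add]
  rw [l2, l3, div_le_iff₀ (by positivity), ← pow_add] at h3
  have h4 : (2 * H - 1) * (6 * H) ≤
      c + 2 * H * d + 2 * H * H * 2 + ((H + 1) * h + 2 * H * H) * 2 + 8 :=
    (pow_le_pow_iff_right₀ (by norm_num : (1 : ℝ) < 2)).1 h3
  -- contradiction
  have h5 : (2 * H - 1) * (6 * H) + 6 * H = 12 * (H * H) := by
    have : 2 * H - 1 + 1 = 2 * H := by omega
    calc (2 * H - 1) * (6 * H) + 6 * H = (2 * H - 1 + 1) * (6 * H) := by ring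
      _ = _ := by rw [this]; ring
  have h6 : (H + 1) * h + 1 = H * H := by
    rw [hH]; ring
  have h7 : 2 * H * H = 2 * (H * H) := by ring
  have h8 : 2 * H * d = 2 * (H * d) := by ring
  rw [h7, h8] at h4
  have h9 : 2 * (H * H) ≤ c + 2 * (H * d) + 6 * H + 6 := by omega
  have h10 : H = 2 * d + c + 21 := by omega
  have h12 : H * H = 2 * (H * d) + H * c + 21 * H := by
    calc H * H = H * (2 * d + c + 21) := by rw [← h10]
      _ = _ := by ring
  have h13 : c ≤ H * c := Nat.le_mul_of_pos_left _ (by omega)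
  have h14 : 0 ≤ H * d := Nat.zero_le _
  nlinarith [h9, h12, h13]

theorem Lfun_not_RD : ¬ RD.PropertyRDfin Lfun := by
  intro hRD
  obtain ⟨P, hP⟩ := rd_dual hRD
  obtain ⟨c, d, hcd⟩ := poly_bound P
  obtain ⟨h, hh⟩ : ∃ h : ℕ, h = 2 * d + c + 20 := ⟨_, rfl⟩
  have h1 := key_ineq h hP
  have h2 := hcd ((4 : ℝ) ^ (h + 1)) (one_le_pow₀ (by norm_num))
  have e4 : ∀ H : ℕ, (4 : ℝ) ^ H = 2 ^ (2 * H) := by
    intro H
    rw [show (4 : ℝ) = 2 ^ 2 by norm_num, ← pow_mul]
  have eB : (pB h : ℝ) = 2 ^ (2 * (h + 1)) := by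
    unfold pB; push_cast
    rw [e4]
  have eD : (pD h : ℝ) = 2 ^ (h + 1 + 1) := by
    unfold pD; push_cast; rfl
  exact final_arith (h + 1) h c d rfl hh _ _ _ _ eB eD (e4 _) h1 h2

end RDCE
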