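import Pool.Agent.H23.CE.RectR

/-!
# Abstract counting lemmas for the rectangle bound
-/

open Finset Classical

namespace RDCE

section abs
variable {α γ β : Type}

/-- number of common neighbours -/
noncomputable def cn (Q : Finset (List β)) (X : Finset (List β × List β)) (p p' : List β) : ℕ :=
  (Q.filter (fun q => (p, q) ∈ X ∧ (p', q) ∈ X)).card

noncomputable def mix (P : Finset (List β)) (Q : Finset (List β))
    (X Y : Finset (List β × List β)) : ℕ :=
  ∑ q ∈ Q, ∑ q' ∈ Q, (P.filter (fun p => (p, q) ∈ X ∧ (p, q') ∈ Y)).card ^ 2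

theorem sum4_comm (P : Finset α) (Q : Finset γ) (F : α → α → γ → γ → ℕ) :
    ∑ q ∈ Q, ∑ q' ∈ Q, ∑ p ∈ P, ∑ p' ∈ P, F p p' q q' =
    ∑ p ∈ P, ∑ p' ∈ P, ∑ q ∈ Q, ∑ q' ∈ Q, F p p' q q' := by
  calc ∑ q ∈ Q, ∑ q' ∈ Q, ∑ p ∈ P, ∑ p' ∈ P, F p p' q q'
      = ∑ x ∈ Q ×ˢ Q, ∑ y ∈ P ×ˢ P, F y.1 y.2 x.1 x.2 := by
        simp only [Finset.sum_product]
    _ = ∑ y ∈ P ×ˢ P, ∑ x ∈ Q ×ˢ Q, F y.1 y.2 x.1 x.2 := Finset.sum_comm
    _ = _ := by simp only [Finset.sum_product]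

theorem mix_eq (P : Finset (List β)) (Q : Finset (List β)) (X Y : Finset (List β × List β)) :
    mix P Q X Y = ∑ p ∈ P, ∑ p' ∈ P, cn Q X p p' * cn Q Y p p' := by
  unfold mix cn
  simp only [Finset.card_filter, sq, Finset.sum_mul_sum]
  rw [sum4_comm P Q (fun p p' q q' => (if (p, q) ∈ X ∧ (p, q') ∈ Y then 1 else 0) *
    (if (p', q) ∈ X ∧ (p', q') ∈ Y then 1 else 0))]
  refine Finset.sum_congr rfl fun p _ => Finset.sum_congr rfl fun p' _ =>
    Finset.sum_congr rfl fun q _ => Finset.sum_congr rfl fun q' _ => ?_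
  by_cases h1 : (p, q) ∈ X <;> by_cases h2 : (p, q') ∈ Y <;> by_cases h3 : (p', q) ∈ X <;>
    by_cases h4 : (p', q') ∈ Y <;> simp [h1, h2, h3, h4]

theorem mix_comm (P : Finset (List β)) (Q : Finset (List β)) (X Y : Finset (List β × List β)) :
    mix P Q X Y = mix P Q Y X := by
  rw [mix_eq, mix_eq]
  exact Finset.sum_congr rfl fun p _ => Finset.sum_congr rfl fun p' _ => mul_comm _ _

theorem near_sq (A : Finset α) (b : α → ℕ) (C w : ℕ) (hb : ∀ p ∈ A, b p < C) :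
    ((A ×ˢ A).filter (fun x => b x.1 ≤ b x.2 + w ∧ b x.2 ≤ b x.1 + w)).card ≤
      (2 * w + 1) * ∑ c ∈ range C, (A.filter (fun p => b p = c)).card ^ 2 := by
  set a : ℕ → ℕ := fun c => (A.filter (fun p => b p = c)).card with ha
  have h1 : ((A ×ˢ A).filter (fun x => b x.1 ≤ b x.2 + w ∧ b x.2 ≤ b x.1 + w)).card =
      ∑ y ∈ range C ×ˢ range C, if (y.1 ≤ y.2 + w ∧ y.2 ≤ y.1 + w) then a y.1 * a y.2 else 0 := by
    rw [Finset.card_eq_sum_card_fiberwise (f := fun x => (b x.1, b x.2))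
      (t := range C ×ˢ range C)]
    · refine Finset.sum_congr rfl fun y _ => ?_
      by_cases hy : (y.1 ≤ y.2 + w ∧ y.2 ≤ y.1 + w)
      · rw [if_pos hy, ha]
        simp only
        rw [← Finset.card_product]
        congr 1
        ext x
        obtain ⟨y1, y2⟩ := y
        simp only [mem_filter, mem_product, Prod.mk.injEq]
        constructor
        · rintro ⟨⟨⟨h1, h2⟩, -⟩, h3, h4⟩
          exact ⟨⟨h1, h3⟩, h2, h4⟩
        · rintro ⟨⟨h1, h3⟩, h2, h4⟩
          refine ⟨⟨⟨h1, h2⟩, ?_⟩, h3, h4⟩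
          rw [h3, h4]; exact hy
      · rw [if_neg hy, Finset.card_eq_zero]
        ext x
        obtain ⟨y1, y2⟩ := y
        simp only [mem_filter, mem_product, Prod.mk.injEq, notMem_empty, iff_false]
        rintro ⟨⟨-, h⟩, h3, h4⟩
        rw [h3, h4] at h
        exact hy h
    · intro x hx
      have hx' := mem_filter.1 hx
      have := mem_product.1 hx'.1
      simp only [coe_product, coe_range, Set.mem_prod, Set.mem_Iio]
      exact ⟨hb _ this.1, hb _ this.2⟩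
  have h2 : ∀ c : ℕ, ((range C).filter (fun c' => c ≤ c' + w ∧ c' ≤ c + w)).card ≤ 2 * w + 1 := by
    intro c
    have : (range C).filter (fun c' => c ≤ c' + w ∧ c' ≤ c + w) ⊆ Finset.Icc (c - w) (c + w) := by
      intro c' hc'
      have := (mem_filter.1 hc').2
      rw [Finset.mem_Icc]; omega
    refine (Finset.card_le_card this).trans ?_
    rw [Nat.card_Icc]; omega
  have h3 : ∑ y ∈ range C ×ˢ range C,
      (if (y.1 ≤ y.2 + w ∧ y.2 ≤ y.1 + w) then a y.1 ^ 2 else 0) ≤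
      (2 * w + 1) * ∑ c ∈ range C, a c ^ 2 := by
    rw [Finset.sum_product, Finset.mul_sum]
    refine Finset.sum_le_sum fun c _ => ?_
    simp only
    rw [← Finset.sum_filter, Finset.sum_const, smul_eq_mul]
    exact Nat.mul_le_mul_right _ (h2 c)
  have h4 : ∑ y ∈ range C ×ˢ range C,
      (if (y.1 ≤ y.2 + w ∧ y.2 ≤ y.1 + w) then a y.2 ^ 2 else 0) ≤
      (2 * w + 1) * ∑ c ∈ range C, a c ^ 2 := by
    rw [Finset.sum_product_right, Finset.mul_sum]
    refine Finset.sum_le_sum fun c _ => ?_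
    simp only
    rw [← Finset.sum_filter, Finset.sum_const, smul_eq_mul]
    refine Nat.mul_le_mul_right _ ((Finset.card_le_card ?_).trans (h2 c))
    intro c' hc'
    have := mem_filter.1 hc'
    exact mem_filter.2 ⟨this.1, this.2.2, this.2.1⟩
  have h5 : 2 * (∑ y ∈ range C ×ˢ range C,
      if (y.1 ≤ y.2 + w ∧ y.2 ≤ y.1 + w) then a y.1 * a y.2 else 0) ≤
      (∑ y ∈ range C ×ˢ range C, (if (y.1 ≤ y.2 + w ∧ y.2 ≤ y.1 + w) then a y.1 ^ 2 else 0)) +
      ∑ y ∈ range C ×ˢ range C, (if (y.1 ≤ y.2 + w ∧ y.2 ≤ y.1 + w) then a y.2 ^ 2 else 0) := by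
    rw [← Finset.sum_add_distrib, Finset.mul_sum]
    refine Finset.sum_le_sum fun y _ => ?_
    split_ifs
    · have := two_mul_le_add_sq (a y.1) (a y.2)
      linarith
    · simp
  rw [h1]
  change _ ≤ (2 * w + 1) * ∑ c ∈ range C, a c ^ 2
  omega

end abs

variable {β : Type}

theorem rectN_eq (P Q : Finset (List β)) (E : Finset (List β × List β)) (hE : E ⊆ P ×ˢ Q) :
    rectN E = ∑ p ∈ P, ∑ p' ∈ P, cn Q E p p' ^ 2 := by
  have h1 : (E ×ˢ E).filter (fun x => (x.1.1, x.2.2) ∈ E ∧ (x.2.1, x.1.2) ∈ E) =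
      ((P ×ˢ Q) ×ˢ (P ×ˢ Q)).filter (fun x => (x.1.1, x.1.2) ∈ E ∧ (x.2.1, x.2.2) ∈ E ∧
        (x.1.1, x.2.2) ∈ E ∧ (x.2.1, x.1.2) ∈ E) := by
    ext ⟨⟨a, b⟩, ⟨c, d⟩⟩
    simp only [mem_filter, mem_product]
    constructor
    · rintro ⟨⟨h1, h2⟩, h3, h4⟩
      have h5 := mem_product.1 (hE h1)
      have h6 := mem_product.1 (hE h2)
      exact ⟨⟨h5, h6⟩, h1, h2, h3, h4⟩
    · rintro ⟨-, h1, h2, h3, h4⟩
      exact ⟨⟨h1, h2⟩, h3, h4⟩
  unfold rectN
  rw [h1, card_filter]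
  simp only [Finset.sum_product]
  refine Finset.sum_congr rfl fun p _ => ?_
  rw [Finset.sum_comm]
  refine Finset.sum_congr rfl fun p' _ => ?_
  unfold cn
  rw [sq, card_filter, Finset.sum_mul_sum]
  refine Finset.sum_congr rfl fun q _ => Finset.sum_congr rfl fun q' _ => ?_
  by_cases h1 : (p, q) ∈ E <;> by_cases h2 : (p, q') ∈ E <;> by_cases h3 : (p', q) ∈ E <;>
    by_cases h4 : (p', q') ∈ E <;> simp [h1, h2, h3, h4]

theorem cs_step (P Q : Finset (List β)) (X Y : Finset (List β × List β)) (hX : X ⊆ P ×ˢ Q)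
    (hY : Y ⊆ P ×ˢ Q) (d ζ : ℝ) (hd : 0 ≤ d) (hζ : 0 ≤ ζ)
    (h1 : (rectN X : ℝ) ≤ d * (X.card : ℝ) ^ 2 + ζ * X.card)
    (h2 : (rectN Y : ℝ) ≤ d * (Y.card : ℝ) ^ 2 + ζ * Y.card) :
    (∑ p ∈ P, ∑ p' ∈ P, (cn Q X p p' : ℝ) * cn Q Y p p') ≤
      d * X.card * Y.card + ζ * (X.card + Y.card) / 2 := by
  have h3 : (∑ p ∈ P, ∑ p' ∈ P, (cn Q X p p' : ℝ) * cn Q Y p p') ^ 2 ≤
      (rectN X : ℝ) * rectN Y := by
    rw [rectN_eq P Q X hX, rectN_eq P Q Y hY]
    push_cast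
    rw [← Finset.sum_product', ← Finset.sum_product', ← Finset.sum_product']
    exact Finset.sum_mul_sq_le_sq_mul_sq _ _ _
  have hx : (0 : ℝ) ≤ X.card := Nat.cast_nonneg _
  have hy : (0 : ℝ) ≤ Y.card := Nat.cast_nonneg _
  have h4 : (rectN X : ℝ) * rectN Y ≤ (d * (X.card : ℝ) ^ 2 + ζ * X.card) *
      (d * (Y.card : ℝ) ^ 2 + ζ * Y.card) :=
    mul_le_mul h1 h2 (Nat.cast_nonneg _) ((Nat.cast_nonneg _).trans h1)
  have hT : (0 : ℝ) ≤ d * X.card * Y.card + ζ * (X.card + Y.card) / 2 := by positivity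
  refine abs_le_of_sq_le_sq' ?_ hT |>.2
  refine h3.trans (h4.trans ?_)
  have h5 : 0 ≤ ζ ^ 2 * ((X.card : ℝ) - Y.card) ^ 2 := by positivity
  nlinarith [h5]

theorem mix_label {ι : Type} (P Q : Finset (List β)) (X Y : Finset (List β × List β))
    (h : List β → ι) (Z : Finset ι) (hZ : ∀ p ∈ P, h p ∈ Z)
    (hX : ∀ p p' q, (p, q) ∈ X → (p', q) ∈ X → h p = h p') :
    (mix P Q X Y : ℝ) = ∑ z ∈ Z, ∑ p ∈ P, ∑ p' ∈ P,
      (cn Q (X.filter (fun e => h e.1 = z)) p p' : ℝ) *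
        cn Q (Y.filter (fun e => h e.1 = z)) p p' := by
  rw [mix_eq]
  push_cast
  symm
  rw [Finset.sum_comm]
  refine Finset.sum_congr rfl fun p hp => ?_
  rw [Finset.sum_comm]
  refine Finset.sum_congr rfl fun p' hp' => ?_
  by_cases hpp : h p = h p'
  · rw [Finset.sum_eq_single (h p)]
    · have e1 : ∀ W : Finset (List β × List β),
          cn Q (W.filter (fun e => h e.1 = h p)) p p' = cn Q W p p' := by
        intro W
        unfold cn
        congr 1
        ext q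
        simp [mem_filter, ← hpp]
      rw [e1, e1]
    · intro z _ hz
      have : cn Q (X.filter (fun e => h e.1 = z)) p p' = 0 := by
        unfold cn
        rw [Finset.card_eq_zero, Finset.filter_eq_empty_iff]
        rintro q _ ⟨h1, -⟩
        exact hz (mem_filter.1 h1).2.symm
      rw [this]; simp
    · intro hn
      exact absurd (hZ p hp) hn
  · have h0 : cn Q X p p' = 0 := by
      unfold cn
      rw [Finset.card_eq_zero, Finset.filter_eq_empty_iff]
      rintro q _ ⟨h1, h2⟩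
      exact hpp (hX _ _ _ h1 h2)
    rw [h0, Finset.sum_eq_zero (s := Z)]
    · simp
    · intro z _
      have : cn Q (X.filter (fun e => h e.1 = z)) p p' = 0 := by
        unfold cn
        rw [Finset.card_eq_zero, Finset.filter_eq_empty_iff]
        rintro q _ ⟨h1, h2⟩
        exact hpp ((mem_filter.1 h1).2.trans (mem_filter.1 h2).2.symm)
      rw [this]; simp

theorem mix_bound {ι : Type} (P Q : Finset (List β)) (X Y : Finset (List β × List β))
    (hXs : X ⊆ P ×ˢ Q) (hYs : Y ⊆ P ×ˢ Q) (h : List β → ι)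
    (hX : ∀ p p' q, (p, q) ∈ X → (p', q) ∈ X → h p = h p')
    (d ζ : ℝ) (hd : 0 ≤ d) (hζ : 0 ≤ ζ) (W W' : ℕ)
    (h1 : ∀ E ⊆ X, (rectN E : ℝ) ≤ d * (E.card : ℝ) ^ 2 + ζ * E.card)
    (h2 : ∀ E ⊆ Y, (rectN E : ℝ) ≤ d * (E.card : ℝ) ^ 2 + ζ * E.card)
    (hW : ∀ z, (X.filter (fun e => h e.1 = z)).card ≤ W) (hW' : Y.card ≤ W') :
    (mix P Q X Y : ℝ) ≤ d * (W * W') + ζ * (X.card + Y.card) / 2 := by
  rw [mix_label P Q X Y h (P.image h) (fun p hp => Finset.mem_image_of_mem _ hp) hX]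
  have h3 : ∀ z ∈ P.image h, (∑ p ∈ P, ∑ p' ∈ P,
      (cn Q (X.filter (fun e => h e.1 = z)) p p' : ℝ) *
        cn Q (Y.filter (fun e => h e.1 = z)) p p') ≤
      d * (W * (Y.filter (fun e => h e.1 = z)).card) +
      ζ * ((X.filter (fun e => h e.1 = z)).card + (Y.filter (fun e => h e.1 = z)).card) / 2 := by
    intro z _
    have hx1 : X.filter (fun e => h e.1 = z) ⊆ X := Finset.filter_subset _ _
    have hy1 : Y.filter (fun e => h e.1 = z) ⊆ Y := Finset.filter_subset _ _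
    refine (cs_step P Q _ _ (hx1.trans hXs) (hy1.trans hYs) d ζ hd hζ (h1 _ hx1)
      (h2 _ hy1)).trans ?_
    have h4 : ((X.filter (fun e => h e.1 = z)).card : ℝ) ≤ W := by exact_mod_cast hW z
    have h5 : (0 : ℝ) ≤ (Y.filter (fun e => h e.1 = z)).card := Nat.cast_nonneg _
    have h6 : d * ((X.filter (fun e => h e.1 = z)).card : ℝ) *
        (Y.filter (fun e => h e.1 = z)).card ≤ d * (W * (Y.filter (fun e => h e.1 = z)).card) := by
      rw [mul_assoc]
      exact mul_le_mul_of_nonneg_left (mul_le_mul_of_nonneg_right h4 h5) hd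
    linarith
  have hsX : ∑ z ∈ P.image h, ((X.filter (fun e => h e.1 = z)).card : ℝ) = X.card := by
    rw [← Nat.cast_sum, ← Finset.card_eq_sum_card_fiberwise
      (f := fun e : List β × List β => h e.1) (s := X) (t := P.image h)]
    intro e he
    exact Finset.mem_coe.2 (Finset.mem_image_of_mem _ (mem_product.1 (hXs he)).1)
  have hsY : ∑ z ∈ P.image h, ((Y.filter (fun e => h e.1 = z)).card : ℝ) = Y.card := by
    rw [← Nat.cast_sum, ← Finset.card_eq_sum_card_fiberwise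
      (f := fun e : List β × List β => h e.1) (s := Y) (t := P.image h)]
    intro e he
    exact Finset.mem_coe.2 (Finset.mem_image_of_mem _ (mem_product.1 (hYs he)).1)
  refine (Finset.sum_le_sum h3).trans ?_
  rw [Finset.sum_add_distrib, ← Finset.mul_sum, ← Finset.mul_sum, hsY, ← Finset.sum_div,
    ← Finset.mul_sum, Finset.sum_add_distrib, hsX, hsY]
  have h7 : (Y.card : ℝ) ≤ W' := by exact_mod_cast hW'
  have h8 : d * ((W : ℝ) * Y.card) ≤ d * (W * W') :=
    mul_le_mul_of_nonneg_left (mul_le_mul_of_nonneg_left h7 (Nat.cast_nonneg _)) hd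
  linarith

end RDCE
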