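import Pool.Agent.H23.CE.RectQA
import Pool.Agent.H23.CE.Windows

/-!
# Cuts, dyadic classes and kinds
-/

open Finset Classical

namespace RDCE

variable {β : Type}

section sizes
variable (S : Finset (List β))

theorem sz_pos {p q : List β} (h : p ++ q ∈ S) : 0 < sz S p := by
  unfold sz
  rw [Finset.card_pos]
  exact ⟨p ++ q, mem_filter.2 ⟨h, List.prefix_append _ _⟩⟩

theorem sz_antiQ (p r : List β) : sz S (p ++ r) ≤ sz S p := by
  unfold sz
  refine Finset.card_le_card fun s hs => ?_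
  have := mem_filter.1 hs
  exact mem_filter.2 ⟨this.1, (List.prefix_append _ _).trans this.2⟩

theorem sz_le_card (p : List β) : sz S p ≤ S.card := Finset.card_filter_le _ _

theorem sz_two (p : List β) {z z' : β} (h : z ≠ z') :
    sz S (p ++ [z]) + sz S (p ++ [z']) ≤ sz S p := by
  unfold sz
  rw [← Finset.card_union_of_disjoint]
  · refine Finset.card_le_card fun s hs => ?_
    rcases Finset.mem_union.1 hs with hs | hs
    · have := mem_filter.1 hs
      exact mem_filter.2 ⟨this.1, (List.prefix_append _ _).trans this.2⟩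
    · have := mem_filter.1 hs
      exact mem_filter.2 ⟨this.1, (List.prefix_append _ _).trans this.2⟩
  · rw [Finset.disjoint_left]
    intro s hs hs'
    have h1 := (mem_filter.1 hs).2
    have h2 := (mem_filter.1 hs').2
    have h3 := List.prefix_of_prefix_length_le h1 h2 (by simp)
    have h4 := h3.eq_of_length (by simp)
    rw [List.append_cancel_left_eq] at h4
    exact h (by simpa using h4)

theorem sum_sz (ν κ : ℕ) (hs : ∀ s ∈ S, s.length < ν + κ) (P : Finset (List β))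
    (hP : ∀ p ∈ P, ν ≤ p.length) : ∑ p ∈ P, sz S p ≤ κ * S.card := by
  have h1 : ∑ p ∈ P, sz S p = ∑ s ∈ S, (P.filter (fun p => p <+: s)).card := by
    unfold sz
    simp only [Finset.card_filter]
    rw [Finset.sum_comm]
  rw [h1]
  have h2 : ∀ s ∈ S, (P.filter (fun p => p <+: s)).card ≤ κ := by
    intro s hs'
    have h3 : (P.filter (fun p => p <+: s)).card ≤ (Finset.Ico ν (ν + κ)).card := by
      refine Finset.card_le_card_of_injOn List.length ?_ ?_
      · intro p hp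
        have hp' := mem_filter.1 (Finset.mem_coe.1 hp)
        have := hP p hp'.1
        have := hs s hs'
        have := hp'.2.length_le
        rw [Finset.coe_Ico, Set.mem_Ico]
        omega
      · intro p hp p' hp' hpp
        have h4 := (mem_filter.1 (Finset.mem_coe.1 hp)).2
        have h5 := (mem_filter.1 (Finset.mem_coe.1 hp')).2
        exact (List.prefix_of_prefix_length_le h4 h5 hpp.le).eq_of_length hpp
    rw [Nat.card_Ico] at h3
    omega
  calc ∑ s ∈ S, (P.filter (fun p => p <+: s)).card ≤ ∑ _s ∈ S, κ := Finset.sum_le_sum h2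
    _ = κ * S.card := by rw [Finset.sum_const, smul_eq_mul, mul_comm]

/-- dyadic class -/
noncomputable abbrev dc (p : List β) : ℕ := Nat.log 2 (sz S p)

theorem dc_lt (p : List β) : dc S p < Nat.log 2 S.card + 1 :=
  Nat.lt_succ_of_le (Nat.log_mono_right (sz_le_card S p))

/-- `z` is a heavy letter at `p` -/
def HvQ (p : List β) (z : β) : Prop := 0 < sz S (p ++ [z]) ∧ dc S (p ++ [z]) = dc S p

theorem HvQ.unique {p : List β} {z z' : β} (h : HvQ S p z) (h' : HvQ S p z') : z = z' := by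
  by_contra hne
  have h1 := sz_two S p hne
  have h2 := Nat.pow_log_le_self 2 h.1.ne'
  have h3 := Nat.pow_log_le_self 2 h'.1.ne'
  have h4 := Nat.lt_pow_succ_log_self (b := 2) (by norm_num) (sz S p)
  have h5 : Nat.log 2 (sz S (p ++ [z])) = Nat.log 2 (sz S p) := h.2
  have h6 : Nat.log 2 (sz S (p ++ [z'])) = Nat.log 2 (sz S p) := h'.2
  rw [h5] at h2
  rw [h6] at h3
  rw [pow_succ] at h4
  omega

/-- the heavy letter at `p` -/
noncomputable def hl (p : List β) : Option β :=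
  if h : ∃ z, HvQ S p z then some h.choose else none

theorem hl_eq {p : List β} {z : β} (h : HvQ S p z) : hl S p = some z := by
  unfold hl
  have h' : ∃ z, HvQ S p z := ⟨z, h⟩
  rw [dif_pos h']
  exact congrArg some (HvQ.unique S h'.choose_spec h)

/-- heavy edges -/
def HvE (e : List β × List β) : Prop := ∃ z q, e.2 = z :: q ∧ HvQ S e.1 z

/-- a suffix comparison -/
theorem split_cases {p q p' q' : List β} (h : p ++ q = p' ++ q') (hl : p.length ≤ p'.length) :
    ∃ r, p' = p ++ r ∧ q = r ++ q' := by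
  rcases List.append_eq_append_iff.1 h with ⟨r, h1, h2⟩ | ⟨r, h1, h2⟩
  · exact ⟨r, h1, h2⟩
  · have : r = [] := by
      have := congrArg List.length h1
      rw [List.length_append] at this
      exact List.length_eq_zero_iff.1 (by omega)
    subst this
    exact ⟨[], by simpa using h1.symm, by simpa using h2.symm⟩

end sizes

section kinds
variable (𝔖 : Sys β) (S : Finset (List β)) (ν K : ℕ)

noncomputable def PP : Finset (List β) := (prefs S).filter (fun p => ν ≤ p.length)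

noncomputable def QQ : Finset (List β) := (sufs S).filter 𝔖.mem

noncomputable def Ed : Finset (List β × List β) :=
  (PP S ν ×ˢ QQ 𝔖 S).filter (fun e => e.1 ++ e.2 ∈ S)

theorem Ed_subset : Ed 𝔖 S ν ⊆ PP S ν ×ˢ QQ 𝔖 S := Finset.filter_subset _ _

theorem mem_Ed {e : List β × List β} :
    e ∈ Ed 𝔖 S ν ↔ e.1 ++ e.2 ∈ S ∧ ν ≤ e.1.length ∧ 𝔖.mem e.2 := by
  unfold Ed PP QQ prefs sufs
  simp only [mem_filter, mem_product, Finset.mem_biUnion, List.mem_toFinset, List.mem_inits,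
    List.mem_tails]
  constructor
  · rintro ⟨⟨⟨-, h1⟩, -, h2⟩, h3⟩
    exact ⟨h3, h1, h2⟩
  · rintro ⟨h3, h1, h2⟩
    exact ⟨⟨⟨⟨_, h3, List.prefix_append _ _⟩, h1⟩, ⟨_, h3, List.suffix_append _ _⟩, h2⟩, h3⟩

theorem exists_type (p q : List β) :
    ∃ t : ℕ × ℕ, IsType 𝔖 S ν K t.1 t.2 p q ∧ t.1 < 𝔖.H ∧ t.2 < 𝔖.H := by
  have hH := 𝔖.H_pos
  let P1 : ℕ → Prop := fun j => ∀ l, 1 ≤ l → l ≤ j → valid 𝔖 ν l p q
  have h0 : P1 0 := by intro l h1 h2; omega
  set j₁ := Nat.findGreatest P1 (𝔖.H - 1) with hj1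
  have hs1 : P1 j₁ := Nat.findGreatest_spec (P := P1) (Nat.zero_le _) h0
  have hle1 : j₁ ≤ 𝔖.H - 1 := Nat.findGreatest_le _
  let P2 : ℕ → Prop := fun j => j = 0 ∨ poor 𝔖 S K j p q
  set j₀ := Nat.findGreatest P2 j₁ with hj0
  have hs0 : P2 j₀ := Nat.findGreatest_spec (P := P2) (Nat.zero_le _) (Or.inl rfl)
  have hle0 : j₀ ≤ j₁ := Nat.findGreatest_le _
  refine ⟨(j₀, j₁), ⟨hle0, by simp only; omega, hs1, ?_, hs0, ?_⟩, by simp only; omega, by
    simp only; omega⟩
  · intro h hv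
    simp only at h hv
    have : P1 (j₁ + 1) := by
      intro l h1 h2
      rcases Nat.lt_or_ge l (j₁ + 1) with h3 | h3
      · exact hs1 l h1 (by omega)
      · have : l = j₁ + 1 := by omega
        rw [this]; exact hv
    exact Nat.findGreatest_is_greatest (P := P1) (k := j₁ + 1) (n := 𝔖.H - 1) (by omega)
      (by omega) this
  · intro l h1 h2 hp
    simp only at h1 h2
    exact Nat.findGreatest_is_greatest (P := P2) (k := l) (n := j₁) (by omega) h2 (Or.inr hp)

noncomputable def ty (e : List β × List β) : ℕ × ℕ := (exists_type 𝔖 S ν K e.1 e.2).choose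

theorem ty_spec (e : List β × List β) : IsType 𝔖 S ν K (ty 𝔖 S ν K e).1 (ty 𝔖 S ν K e).2 e.1 e.2 :=
  (exists_type 𝔖 S ν K e.1 e.2).choose_spec.1

theorem ty_lt (e : List β × List β) : (ty 𝔖 S ν K e).1 < 𝔖.H ∧ (ty 𝔖 S ν K e).2 < 𝔖.H :=
  (exists_type 𝔖 S ν K e.1 e.2).choose_spec.2

noncomputable def kd (e : List β × List β) : Bool × ℕ × ℕ := (decide (HvE S e), ty 𝔖 S ν K e)

noncomputable def KN : Finset (Bool × ℕ × ℕ) :=
  Finset.univ ×ˢ (Finset.range 𝔖.H ×ˢ Finset.range 𝔖.H)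

theorem card_KN : (KN 𝔖).card = 2 * 𝔖.H ^ 2 := by
  unfold KN
  rw [Finset.card_product, Finset.card_product, Finset.card_range, Finset.card_univ,
    Fintype.card_bool, sq]

theorem kd_mem (e : List β × List β) : kd 𝔖 S ν K e ∈ KN 𝔖 := by
  unfold KN kd
  simp only [mem_product, Finset.mem_univ, Finset.mem_range, true_and]
  exact ty_lt 𝔖 S ν K e

/-- edges of kind `x` in the class `c` -/
noncomputable def GG (c : ℕ) (x : Bool × ℕ × ℕ) : Finset (List β × List β) :=
  (Ed 𝔖 S ν).filter (fun e => dc S e.1 = c ∧ kd 𝔖 S ν K e = x)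

theorem GG_subset (c : ℕ) (x : Bool × ℕ × ℕ) : GG 𝔖 S ν K c x ⊆ PP S ν ×ˢ QQ 𝔖 S :=
  (Finset.filter_subset _ _).trans (Ed_subset 𝔖 S ν)

/-- words having a cut of type `t` in the class `c` -/
noncomputable def Wn (c : ℕ) (t : ℕ × ℕ) : Finset (List β) :=
  S.filter (fun s => ∃ i, i ≤ s.length ∧ ν ≤ i ∧ 𝔖.mem (s.drop i) ∧
    IsType 𝔖 S ν K t.1 t.2 (s.take i) (s.drop i) ∧ dc S (s.take i) = c)

theorem mem_Wn_of {c : ℕ} {x : Bool × ℕ × ℕ} {e : List β × List β} (h : e ∈ GG 𝔖 S ν K c x) :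
    e.1 ++ e.2 ∈ Wn 𝔖 S ν K c x.2 := by
  obtain ⟨h1, h2, h3⟩ := mem_filter.1 h
  obtain ⟨h4, h5, h6⟩ := (mem_Ed 𝔖 S ν).1 h1
  refine mem_filter.2 ⟨h4, e.1.length, by simp, h5, ?_, ?_, ?_⟩
  · rw [List.drop_left]; exact h6
  · rw [List.drop_left, List.take_left, ← h3]
    exact ty_spec 𝔖 S ν K e
  · rw [List.take_left]; exact h2

/-- labels -/
noncomputable def lab (x : Bool × ℕ × ℕ) (p : List β) : Option β := if x.1 then hl S p else none

theorem HvE_of {c : ℕ} {x : Bool × ℕ × ℕ} {e : List β × List β} (h : e ∈ GG 𝔖 S ν K c x) :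
    x.1 = decide (HvE S e) := by
  rw [← (mem_filter.1 h).2.2]
  rfl

theorem lab_common {c : ℕ} {x : Bool × ℕ × ℕ} {p p' q : List β} (h : (p, q) ∈ GG 𝔖 S ν K c x)
    (h' : (p', q) ∈ GG 𝔖 S ν K c x) : lab S x p = lab S x p' := by
  unfold lab
  split_ifs with hx
  · have h1 := HvE_of 𝔖 S ν K h
    have h2 := HvE_of 𝔖 S ν K h'
    rw [hx] at h1 h2
    obtain ⟨z, q₁, h3, h4⟩ := of_decide_eq_true h1.symm
    obtain ⟨z', q₁', h3', h4'⟩ := of_decide_eq_true h2.symm
    simp only at h3 h3' h4 h4'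
    rw [h3] at h3'
    rw [hl_eq S h4, hl_eq S h4']
    exact congrArg some (List.cons.inj h3').1
  · rfl

theorem lab_inj_aux {c : ℕ} {x : Bool × ℕ × ℕ} {p q p' q' : List β}
    (h : (p, q) ∈ GG 𝔖 S ν K c x) (h' : (p', q') ∈ GG 𝔖 S ν K c x)
    (hl' : lab S x p = lab S x p') (he : p ++ q = p' ++ q') (hlen : p.length ≤ p'.length) :
    (p, q) = (p', q') := by
  obtain ⟨r, rfl, rfl⟩ := split_cases he hlen
  rcases r with _ | ⟨z, r⟩
  · simp
  · exfalso
    obtain ⟨h1, h2, -⟩ := mem_filter.1 h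
    obtain ⟨h1', h2', -⟩ := mem_filter.1 h'
    obtain ⟨h3, h4, h5⟩ := (mem_Ed 𝔖 S ν).1 h1
    simp only at h2 h2' h3 h4 h5
    have hHv : HvQ S p z := by
      have h6 : p ++ z :: r = (p ++ [z]) ++ r := by simp
      have h7 : 0 < sz S (p ++ [z]) := by
        refine sz_pos S (q := r ++ q') ?_
        simpa using h3
      refine ⟨h7, le_antisymm (Nat.log_mono_right (sz_antiQ S _ _)) ?_⟩
      have h8 : dc S (p ++ z :: r) ≤ dc S (p ++ [z]) := by
        rw [h6]; exact Nat.log_mono_right (sz_antiQ S _ _)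
      rw [h2'] at h8
      rw [h2]
      exact h8
    have hE : HvE S (p, z :: r ++ q') := ⟨z, r ++ q', by simp, hHv⟩
    have hx : x.1 = true := by
      rw [HvE_of 𝔖 S ν K h]; exact decide_eq_true hE
    have hE' := HvE_of 𝔖 S ν K h'
    rw [hx] at hE'
    obtain ⟨z', q₁, h9, h10⟩ := of_decide_eq_true hE'.symm
    simp only at h9 h10
    unfold lab at hl'
    rw [if_pos hx, if_pos hx, hl_eq S hHv, hl_eq S h10] at hl'
    have hzz : z = z' := Option.some.inj hl'
    subst hzz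
    have hnd := 𝔖.mem_nodup h5
    rw [h9] at hnd
    simp [List.nodup_cons] at hnd

theorem lab_inj {c : ℕ} {x : Bool × ℕ × ℕ} {e e' : List β × List β}
    (h : e ∈ GG 𝔖 S ν K c x) (h' : e' ∈ GG 𝔖 S ν K c x)
    (hl' : lab S x e.1 = lab S x e'.1) (he : e.1 ++ e.2 = e'.1 ++ e'.2) : e = e' := by
  rcases le_total e.1.length e'.1.length with hlen | hlen
  · exact lab_inj_aux 𝔖 S ν K h h' hl' he hlen
  · exact (lab_inj_aux 𝔖 S ν K h' h hl'.symm he.symm hlen).symm

theorem card_lab_le (c : ℕ) (x : Bool × ℕ × ℕ) (z : Option β) :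
    ((GG 𝔖 S ν K c x).filter (fun e => lab S x e.1 = z)).card ≤ (Wn 𝔖 S ν K c x.2).card := by
  refine Finset.card_le_card_of_injOn (fun e => e.1 ++ e.2) ?_ ?_
  · intro e he
    exact mem_Wn_of 𝔖 S ν K (mem_filter.1 (Finset.mem_coe.1 he)).1
  · intro e he e' he' hee
    have h1 := mem_filter.1 (Finset.mem_coe.1 he)
    have h2 := mem_filter.1 (Finset.mem_coe.1 he')
    exact lab_inj 𝔖 S ν K h1.1 h2.1 (h1.2.trans h2.2.symm) hee

theorem card_exit_le (c : ℕ) (x : Bool × ℕ × ℕ) (hx : x.1 = false) :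
    (GG 𝔖 S ν K c x).card ≤ (Wn 𝔖 S ν K c x.2).card := by
  have h1 := card_lab_le 𝔖 S ν K c x none
  rw [Finset.filter_true_of_mem] at h1
  · exact h1
  · intro e _
    unfold lab
    rw [hx]; rfl

/-- the rectangle bound for subsets of one kind and class -/
theorem rectN_GG (κ : ℕ) (hs : ∀ s ∈ S, s.length < ν + κ) (hK : 0 < K) (c : ℕ)
    (x : Bool × ℕ × ℕ) (E : Finset (List β × List β)) (hE : E ⊆ GG 𝔖 S ν K c x) :
    (rectN E : ℝ) ≤ 𝔖.δ ^ (2 * (x.2.2 - x.2.1)) * (E.card : ℝ) ^ 2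
      + (8 * 𝔖.H * 𝔖.Λ * κ * S.card / K) * E.card := by
  rcases E.eq_empty_or_nonempty with rfl | ⟨e0, he0⟩
  · simp [rectN]
  have hty : ∀ e ∈ E, IsType 𝔖 S ν K x.2.1 x.2.2 e.1 e.2 := by
    intro e he
    have h1 := (mem_filter.1 (hE he)).2.2
    rw [← h1]
    exact ty_spec 𝔖 S ν K e
  have h0 := hty e0 he0
  refine (rectR 𝔖 S ν c x.2.1 x.2.2 K κ hK h0.1 h0.2.1 E ?_ (sum_sz S ν κ hs)).trans ?_
  · intro e he
    obtain ⟨h1, h2, -⟩ := mem_filter.1 (hE he)
    obtain ⟨h3, h4, h5⟩ := (mem_Ed 𝔖 S ν).1 h1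
    have hpos : sz S e.1 ≠ 0 := (sz_pos S h3).ne'
    obtain ⟨t1, t2, t3, t4, t5, t6⟩ := hty e he
    have h2' : Nat.log 2 (sz S e.1) = c := h2
    refine ⟨h3, ?_, ?_, h4, ?_, ?_⟩
    · rw [← h2']; exact Nat.pow_log_le_self 2 hpos
    · rw [← h2']; exact Nat.lt_pow_succ_log_self (by norm_num) _
    · intro l hl1 hl2
      exact (t3 l (by omega) hl2).2.2.2
    · intro hlt
      have hv := t3 (x.2.1 + 1) (by omega) (by omega)
      have hp := t6 (x.2.1 + 1) (by omega) (by omega)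
      unfold poor at hp
      push Not at hp
      exact ⟨hv.1.1, hp.1, hp.2⟩
  · refine le_of_eq ?_
    ring

end kinds

end RDCE
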