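import Pool.Agent.H23.CE.RectQB

/-!
# The sum over the dyadic classes
-/

open Finset Classical

namespace RDCE

variable {β : Type} (𝔖 : Sys β) (S : Finset (List β)) (ν K : ℕ)

theorem mixc (κ : ℕ) (hs : ∀ s ∈ S, s.length < ν + κ) (hK : 0 < K) (c : ℕ)
    (x y : Bool × ℕ × ℕ) (hy : y.1 = false) (m : ℕ) (hm : m ≤ x.2.2 - x.2.1)
    (hm' : m ≤ y.2.2 - y.2.1) :
    (mix (PP S ν) (QQ 𝔖 S) (GG 𝔖 S ν K c x) (GG 𝔖 S ν K c y) : ℝ) ≤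
      𝔖.δ ^ (2 * m) * ((Wn 𝔖 S ν K c x.2).card * (Wn 𝔖 S ν K c y.2).card) +
      (8 * 𝔖.H * 𝔖.Λ * κ * S.card / K) *
        ((GG 𝔖 S ν K c x).card + (GG 𝔖 S ν K c y).card) / 2 := by
  have hd := 𝔖.δ_pos
  have key : ∀ (w : Bool × ℕ × ℕ), m ≤ w.2.2 - w.2.1 → ∀ E ⊆ GG 𝔖 S ν K c w,
      (rectN E : ℝ) ≤ 𝔖.δ ^ (2 * m) * (E.card : ℝ) ^ 2 +
        (8 * 𝔖.H * 𝔖.Λ * κ * S.card / K) * E.card := by
    intro w hw E hE
    refine (rectN_GG 𝔖 S ν K κ hs hK c w E hE).trans ?_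
    have h1 : 𝔖.δ ^ (2 * (w.2.2 - w.2.1)) ≤ 𝔖.δ ^ (2 * m) :=
      pow_le_pow_of_le_one hd.le 𝔖.δ_le (by omega)
    have h2 : (0 : ℝ) ≤ (E.card : ℝ) ^ 2 := by positivity
    have h3 := mul_le_mul_of_nonneg_right h1 h2
    linarith
  exact mix_bound (PP S ν) (QQ 𝔖 S) (GG 𝔖 S ν K c x) (GG 𝔖 S ν K c y)
    (GG_subset 𝔖 S ν K c x) (GG_subset 𝔖 S ν K c y) (lab S x)
    (fun p p' q h h' => lab_common 𝔖 S ν K h h') _ _ (by positivity) (by positivity) _ _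
    (key x hm) (key y hm') (fun z => by convert card_lab_le 𝔖 S ν K c x z)
    (card_exit_le 𝔖 S ν K c y hy)

theorem sum_Wn (hK : 1 ≤ K) (C : ℕ) (t : ℕ × ℕ) :
    ∑ c ∈ range C, (Wn 𝔖 S ν K c t).card ≤
      S.card * (3 * (𝔖.M + 1) ^ (t.2 - t.1 + 1) * (2 * Nat.log 2 K + 4)) := by
  unfold Wn
  simp only [Finset.card_filter]
  rw [Finset.sum_comm]
  simp only [← Finset.card_filter]
  rw [← smul_eq_mul, ← Finset.sum_const]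
  refine Finset.sum_le_sum fun s hs => ?_
  refine (Finset.card_le_card ?_).trans (windows 𝔖 S ν K t.1 t.2 hK s hs)
  intro c hc
  obtain ⟨-, i, h1, h2, h3, h4, h5⟩ := mem_filter.1 hc
  exact Finset.mem_image.2 ⟨i, mem_filter.2 ⟨Finset.mem_range.2 (by omega), h2, h3, h4⟩, h5⟩

theorem card_Ed_le (κ : ℕ) (hs : ∀ s ∈ S, s.length < ν + κ) :
    (Ed 𝔖 S ν).card ≤ κ * S.card := by
  have hP : ∀ p ∈ PP S ν, ν ≤ p.length := fun p hp => (mem_filter.1 hp).2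
  refine le_trans ?_ (sum_sz S ν κ hs (PP S ν) hP)
  rw [Finset.card_eq_sum_card_fiberwise (f := fun e : List β × List β => e.1) (t := PP S ν)]
  · refine Finset.sum_le_sum fun p _ => ?_
    unfold sz
    refine Finset.card_le_card_of_injOn (fun e => e.1 ++ e.2) ?_ ?_
    · intro e he
      have h1 := mem_filter.1 (Finset.mem_coe.1 he)
      have h2 := (mem_Ed 𝔖 S ν).1 h1.1
      refine Finset.mem_coe.2 (mem_filter.2 ⟨h2.1, ?_⟩)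
      rw [← h1.2]
      exact List.prefix_append _ _
    · intro e he e' he' hee
      have h1 := (mem_filter.1 (Finset.mem_coe.1 he)).2
      have h2 := (mem_filter.1 (Finset.mem_coe.1 he')).2
      obtain ⟨e1, e2⟩ := e
      obtain ⟨e1', e2'⟩ := e'
      simp only at h1 h2 hee
      subst h1
      subst h2
      rw [List.append_cancel_left_eq] at hee
      rw [hee]
  · intro e he
    exact Finset.mem_coe.2 (mem_product.1 (Ed_subset 𝔖 S ν he)).1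

theorem sum_GG (κ : ℕ) (hs : ∀ s ∈ S, s.length < ν + κ) (C : ℕ) (x : Bool × ℕ × ℕ) :
    ∑ c ∈ range C, (GG 𝔖 S ν K c x).card ≤ κ * S.card := by
  refine le_trans ?_ (card_Ed_le 𝔖 S ν κ hs)
  rw [← Finset.card_biUnion]
  · refine Finset.card_le_card fun e he => ?_
    obtain ⟨c, -, hc⟩ := Finset.mem_biUnion.1 he
    exact (mem_filter.1 hc).1
  · intro c _ c' _ hcc
    rw [Function.onFun, Finset.disjoint_left]
    intro e he he'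
    exact hcc ((mem_filter.1 he).2.1.symm.trans (mem_filter.1 he').2.1)

theorem pair_aux (κ : ℕ) (hs : ∀ s ∈ S, s.length < ν + κ) (hK : 0 < K)
    (hK' : 8 * 𝔖.H * 𝔖.Λ * κ ^ 2 ≤ K) (C : ℕ)
    (x y : Bool × ℕ × ℕ) (hy : y.1 = false) (t : ℕ × ℕ) (hm : t.2 - t.1 ≤ x.2.2 - x.2.1)
    (hm' : t.2 - t.1 ≤ y.2.2 - y.2.1)
    (ht : ∀ c, (Wn 𝔖 S ν K c x.2).card * (Wn 𝔖 S ν K c y.2).card ≤
      S.card * (Wn 𝔖 S ν K c t).card) :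
    ∑ c ∈ range C, (mix (PP S ν) (QQ 𝔖 S) (GG 𝔖 S ν K c x) (GG 𝔖 S ν K c y) : ℝ) ≤
      (S.card : ℝ) ^ 2 * (3 * (𝔖.M + 1) * (2 * Nat.log 2 K + 4) + 1) := by
  have hd := 𝔖.δ_pos
  set m := t.2 - t.1 with hmdef
  have h1 : ∀ c ∈ range C, (mix (PP S ν) (QQ 𝔖 S) (GG 𝔖 S ν K c x) (GG 𝔖 S ν K c y) : ℝ) ≤
      𝔖.δ ^ (2 * m) * S.card * (Wn 𝔖 S ν K c t).card +
      (8 * 𝔖.H * 𝔖.Λ * κ * S.card / K) / 2 *
        ((GG 𝔖 S ν K c x).card + (GG 𝔖 S ν K c y).card) := by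
    intro c _
    refine (mixc 𝔖 S ν K κ hs hK c x y hy m hm hm').trans ?_
    have h2 : ((Wn 𝔖 S ν K c x.2).card : ℝ) * (Wn 𝔖 S ν K c y.2).card ≤
        S.card * (Wn 𝔖 S ν K c t).card := by exact_mod_cast ht c
    have h3 : 𝔖.δ ^ (2 * m) * ((Wn 𝔖 S ν K c x.2).card * (Wn 𝔖 S ν K c y.2).card) ≤
        𝔖.δ ^ (2 * m) * (S.card * (Wn 𝔖 S ν K c t).card) :=
      mul_le_mul_of_nonneg_left h2 (by positivity)
    linarith
  refine (Finset.sum_le_sum h1).trans ?_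
  rw [Finset.sum_add_distrib, ← Finset.mul_sum, ← Finset.mul_sum, Finset.sum_add_distrib]
  have h4 : (∑ c ∈ range C, ((Wn 𝔖 S ν K c t).card : ℝ)) ≤
      S.card * (3 * (𝔖.M + 1) ^ (m + 1) * (2 * Nat.log 2 K + 4)) := by
    exact_mod_cast sum_Wn 𝔖 S ν K hK C t
  have h5 : (∑ c ∈ range C, ((GG 𝔖 S ν K c x).card : ℝ)) ≤ κ * S.card := by
    exact_mod_cast sum_GG 𝔖 S ν K κ hs C x
  have h6 : (∑ c ∈ range C, ((GG 𝔖 S ν K c y).card : ℝ)) ≤ κ * S.card := by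
    exact_mod_cast sum_GG 𝔖 S ν K κ hs C y
  have hKr : (0 : ℝ) < K := by exact_mod_cast hK
  have h7 : (8 * 𝔖.H * 𝔖.Λ * κ ^ 2 : ℝ) ≤ K := by exact_mod_cast hK'
  have h8 : (8 * 𝔖.H * 𝔖.Λ * κ * S.card / K : ℝ) / 2 *
      ((∑ c ∈ range C, ((GG 𝔖 S ν K c x).card : ℝ)) +
        ∑ c ∈ range C, ((GG 𝔖 S ν K c y).card : ℝ)) ≤ (S.card : ℝ) ^ 2 := by
    have h9 : (8 * 𝔖.H * 𝔖.Λ * κ * S.card / K : ℝ) / 2 *
      ((∑ c ∈ range C, ((GG 𝔖 S ν K c x).card : ℝ)) +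
        ∑ c ∈ range C, ((GG 𝔖 S ν K c y).card : ℝ)) ≤
        (8 * 𝔖.H * 𝔖.Λ * κ * S.card / K : ℝ) / 2 * (κ * S.card + κ * S.card) :=
      mul_le_mul_of_nonneg_left (add_le_add h5 h6) (by positivity)
    refine h9.trans ?_
    have h10 : (8 * 𝔖.H * 𝔖.Λ * κ * S.card / K : ℝ) / 2 * (κ * S.card + κ * S.card) =
        (8 * 𝔖.H * 𝔖.Λ * κ ^ 2) / K * (S.card : ℝ) ^ 2 := by
      ring
    rw [h10]
    have h11 : (8 * 𝔖.H * 𝔖.Λ * κ ^ 2 : ℝ) / K ≤ 1 := by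
      rw [div_le_one hKr]; exact h7
    have h12 : (0 : ℝ) ≤ (S.card : ℝ) ^ 2 := by positivity
    nlinarith
  have h13 : 𝔖.δ ^ (2 * m) * (𝔖.M + 1) ^ m ≤ 1 := by
    rw [pow_mul, ← mul_pow]
    exact pow_le_one₀ (by positivity) 𝔖.δ_sq
  have h14 : 𝔖.δ ^ (2 * m) * S.card * (∑ c ∈ range C, ((Wn 𝔖 S ν K c t).card : ℝ)) ≤
      (S.card : ℝ) ^ 2 * (3 * (𝔖.M + 1) * (2 * Nat.log 2 K + 4)) := by
    have h15 : 𝔖.δ ^ (2 * m) * S.card * (∑ c ∈ range C, ((Wn 𝔖 S ν K c t).card : ℝ)) ≤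
        𝔖.δ ^ (2 * m) * S.card *
          (S.card * (3 * (𝔖.M + 1) ^ (m + 1) * (2 * Nat.log 2 K + 4))) :=
      mul_le_mul_of_nonneg_left h4 (by positivity)
    refine h15.trans ?_
    have h16 : 𝔖.δ ^ (2 * m) * S.card *
          (S.card * (3 * (𝔖.M + 1 : ℝ) ^ (m + 1) * (2 * Nat.log 2 K + 4))) =
        (𝔖.δ ^ (2 * m) * (𝔖.M + 1) ^ m) *
          ((S.card : ℝ) ^ 2 * (3 * (𝔖.M + 1) * (2 * Nat.log 2 K + 4))) := by
      rw [pow_succ]; ring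
    rw [h16]
    have h17 : (0 : ℝ) ≤ (S.card : ℝ) ^ 2 * (3 * (𝔖.M + 1) * (2 * Nat.log 2 K + 4)) := by
      positivity
    calc _ ≤ 1 * ((S.card : ℝ) ^ 2 * (3 * (𝔖.M + 1) * (2 * Nat.log 2 K + 4))) :=
          mul_le_mul_of_nonneg_right h13 h17
      _ = _ := one_mul _
  have h18 : (S.card : ℝ) ^ 2 * (3 * (𝔖.M + 1) * (2 * Nat.log 2 K + 4) + 1) =
      (S.card : ℝ) ^ 2 * (3 * (𝔖.M + 1) * (2 * Nat.log 2 K + 4)) + (S.card : ℝ) ^ 2 := by ring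
  rw [h18]
  exact add_le_add h14 h8

theorem pair_exit (κ : ℕ) (hs : ∀ s ∈ S, s.length < ν + κ) (hK : 0 < K)
    (hK' : 8 * 𝔖.H * 𝔖.Λ * κ ^ 2 ≤ K) (C : ℕ)
    (x y : Bool × ℕ × ℕ) (hy : y.1 = false) :
    ∑ c ∈ range C, (mix (PP S ν) (QQ 𝔖 S) (GG 𝔖 S ν K c x) (GG 𝔖 S ν K c y) : ℝ) ≤
      (S.card : ℝ) ^ 2 * (3 * (𝔖.M + 1) * (2 * Nat.log 2 K + 4) + 1) := by
  have hW : ∀ c t, (Wn 𝔖 S ν K c t).card ≤ S.card := fun c t => Finset.card_filter_le _ _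
  rcases le_total (x.2.2 - x.2.1) (y.2.2 - y.2.1) with h | h
  · refine pair_aux 𝔖 S ν K κ hs hK hK' C x y hy x.2 le_rfl h fun c => ?_
    rw [mul_comm]
    exact Nat.mul_le_mul_right _ (hW c _)
  · refine pair_aux 𝔖 S ν K κ hs hK hK' C x y hy y.2 h le_rfl fun c => ?_
    exact Nat.mul_le_mul_right _ (hW c _)

theorem pair_le (κ : ℕ) (hs : ∀ s ∈ S, s.length < ν + κ) (hK : 0 < K)
    (hK' : 8 * 𝔖.H * 𝔖.Λ * κ ^ 2 ≤ K) (C : ℕ)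
    (x y : Bool × ℕ × ℕ) (hxy : ¬ (x.1 = true ∧ y.1 = true)) :
    ∑ c ∈ range C, (mix (PP S ν) (QQ 𝔖 S) (GG 𝔖 S ν K c x) (GG 𝔖 S ν K c y) : ℝ) ≤
      (S.card : ℝ) ^ 2 * (3 * (𝔖.M + 1) * (2 * Nat.log 2 K + 4) + 1) := by
  by_cases hy : y.1 = false
  · exact pair_exit 𝔖 S ν K κ hs hK hK' C x y hy
  · have hx : x.1 = false := by
      by_contra hx
      exact hxy ⟨by simpa using hx, by simpa using hy⟩
    have := pair_exit 𝔖 S ν K κ hs hK hK' C y x hx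
    refine le_of_eq_of_le (Finset.sum_congr rfl fun c _ => ?_) this
    rw [mix_comm]

end RDCE
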