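import Pool.Agent.H23.CE.Defs

open Finset Classical

namespace RDCE

variable {β : Type}

/-- number of rectangles `(p,p',q,q')` in the bipartite graph `E` -/
noncomputable def rectN (E : Finset (List β × List β)) : ℕ :=
  ((E ×ˢ E).filter (fun x => (x.1.1, x.2.2) ∈ E ∧ (x.2.1, x.1.2) ∈ E)).card

/-- left vertices -/
noncomputable def LV (E : Finset (List β × List β)) : Finset (List β) := E.image Prod.fst

/-- right vertices -/
noncomputable def RV (E : Finset (List β × List β)) : Finset (List β) := E.image Prod.snd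

/-- right neighbours of a left vertex -/
noncomputable def nR (E : Finset (List β × List β)) (p : List β) : Finset (List β) :=
  (RV E).filter (fun q => (p, q) ∈ E)

/-- left neighbours of a right vertex -/
noncomputable def nL (E : Finset (List β × List β)) (q : List β) : Finset (List β) :=
  (LV E).filter (fun p => (p, q) ∈ E)

theorem sum_edgesR (E : Finset (List β × List β)) (f : List β → List β → ℝ) :
    ∑ e ∈ E, f e.1 e.2 = ∑ p ∈ LV E, ∑ q ∈ RV E, if (p, q) ∈ E then f p q else 0 := by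
  have h1 : E = ((LV E) ×ˢ (RV E)).filter (fun x => (x.1, x.2) ∈ E) := by
    ext x
    simp only [Finset.mem_filter, Finset.mem_product, LV, RV, Finset.mem_image]
    constructor
    · intro h
      exact ⟨⟨⟨x, h, rfl⟩, ⟨x, h, rfl⟩⟩, h⟩
    · intro h
      exact h.2
  calc ∑ e ∈ E, f e.1 e.2
      = ∑ e ∈ ((LV E) ×ˢ (RV E)).filter (fun x => (x.1, x.2) ∈ E), f e.1 e.2 :=
        Finset.sum_congr h1 (fun _ _ => rfl)
    _ = ∑ e ∈ (LV E) ×ˢ (RV E), if (e.1, e.2) ∈ E then f e.1 e.2 else 0 := by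
        rw [Finset.sum_filter]
    _ = _ := by rw [Finset.sum_product]

theorem rectN_le_sum (E : Finset (List β × List β)) (P : List β → List β → Prop)
    (hP : ∀ e ∈ E, P e.1 e.2) :
    (rectN E : ℝ) ≤ ∑ e ∈ E, ∑ p ∈ nL E e.2, ∑ q ∈ nR E e.1, if P p q then (1 : ℝ) else 0 := by
  have h1 : (rectN E : ℝ) = ∑ e ∈ E, ∑ e' ∈ E,
      if ((e.1, e'.2) ∈ E ∧ (e'.1, e.2) ∈ E) then (1 : ℝ) else 0 := by
    unfold rectN
    rw [Finset.card_filter]
    push_cast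
    rw [Finset.sum_product]
  rw [h1]
  apply Finset.sum_le_sum
  intro e he
  rw [sum_edgesR E (fun p' q' => if ((e.1, q') ∈ E ∧ (p', e.2) ∈ E) then (1 : ℝ) else 0)]
  unfold nL nR
  rw [Finset.sum_filter]
  apply Finset.sum_le_sum
  intro p hp
  split_ifs with h2
  · rw [Finset.sum_filter]
    apply Finset.sum_le_sum
    intro q hq
    by_cases h3 : (p, q) ∈ E
    · have h4 : P p q := hP (p, q) h3
      simp only [h3, if_true, h4, h2, and_true]
      exact le_refl _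
    · simp only [h3, if_false]
      split_ifs <;> norm_num
  · apply le_of_eq
    apply Finset.sum_eq_zero
    intro q hq
    simp only [h2, and_false, if_false, ite_self]

theorem sum_nR (E : Finset (List β × List β)) :
    ∑ p ∈ LV E, ((nR E p).card : ℝ) = E.card := by
  have := sum_edgesR E (fun _ _ => 1)
  simp only [Finset.sum_const, nsmul_eq_mul, mul_one] at this
  rw [this]
  apply Finset.sum_congr rfl
  intro p _
  unfold nR
  rw [Finset.card_filter]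
  push_cast
  rfl

theorem sum_nL (E : Finset (List β × List β)) :
    ∑ q ∈ RV E, ((nL E q).card : ℝ) = E.card := by
  have := sum_edgesR E (fun _ _ => 1)
  simp only [Finset.sum_const, nsmul_eq_mul, mul_one] at this
  rw [this, Finset.sum_comm]
  apply Finset.sum_congr rfl
  intro p _
  unfold nL
  rw [Finset.card_filter]
  push_cast
  rfl

/-- words of `S` with prefix `p ++ v`, and remaining parts -/
theorem card_ext_le (S : Finset (List β)) (p v : List β) (Q : Finset (List β))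
    (hQ : ∀ q ∈ Q, p ++ q ∈ S ∧ v <+: q) : Q.card ≤ sz S (p ++ v) := by
  unfold sz
  apply Finset.card_le_card_of_injOn (fun q => p ++ q)
  · intro q hq
    have h := hQ q hq
    simp only [Finset.coe_filter, Set.mem_ofPred_eq]
    exact ⟨h.1, (List.prefix_append_right_inj p).mpr h.2⟩
  · intro a _ b _ hab
    exact List.append_cancel_left hab

/-- the hypothesis on the edges -/
def EdgeHyp (𝔖 : Sys β) (S : Finset (List β)) (ν b j₀ j₁ K : ℕ)
    (E : Finset (List β × List β)) : Prop :=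
  ∀ e ∈ E, e.1 ++ e.2 ∈ S ∧ 2 ^ b ≤ sz S e.1 ∧ sz S e.1 < 2 ^ (b + 1) ∧ ν ≤ e.1.length ∧
      (∀ l, j₀ < l → l ≤ j₁ → 𝔖.ok l e.1 e.2) ∧ ν ≤ (ld 𝔖.lev (j₀ + 1) e.1).length ∧
        K * sz S (e.1 ++ rh 𝔖.lev (j₀ + 1) e.2) < sz S e.1 ∧
        K * sz S e.1 < sz S (ld 𝔖.lev (j₀ + 1) e.1)

section main

variable {𝔖 : Sys β} {S : Finset (List β)} {ν b j₀ j₁ K κ₀ : ℕ} {E : Finset (List β × List β)}

theorem mem_LV {p : List β} : p ∈ LV E ↔ ∃ q, (p, q) ∈ E := by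
  simp [LV]

theorem mem_RV {q : List β} : q ∈ RV E ↔ ∃ p, (p, q) ∈ E := by
  simp [RV]

theorem nR_fib (hK : 0 < K) (hE : EdgeHyp 𝔖 S ν b j₀ j₁ K E) (p v : List β) :
    ((nR E p).filter (fun q => rh 𝔖.lev (j₀ + 1) q = v)).card ≤ 2 ^ (b + 1) / K := by
  rcases Finset.eq_empty_or_nonempty ((nR E p).filter (fun q => rh 𝔖.lev (j₀ + 1) q = v)) with
    h | h
  · rw [h]; simp
  · obtain ⟨q, hq⟩ := h
    simp only [Finset.mem_filter, nR] at hq
    obtain ⟨⟨_, hq1⟩, hq2⟩ := hq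
    have h1 := hE (p, q) hq1
    simp only at h1
    obtain ⟨_, _, h3, _, _, _, h5, _⟩ := h1
    rw [hq2] at h5
    have h6 : ((nR E p).filter (fun q => rh 𝔖.lev (j₀ + 1) q = v)).card ≤ sz S (p ++ v) := by
      apply card_ext_le
      intro q' hq'
      simp only [Finset.mem_filter, nR] at hq'
      obtain ⟨⟨_, hq'1⟩, hq'2⟩ := hq'
      refine ⟨(hE (p, q') hq'1).1, ?_⟩
      rw [← hq'2]
      exact List.takeWhile_prefix _
    rw [Nat.le_div_iff_mul_le hK]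
    calc _ ≤ sz S (p ++ v) * K := Nat.mul_le_mul_right _ h6
      _ ≤ 2 ^ (b + 1) := by nlinarith

theorem nR_card (hE : EdgeHyp 𝔖 S ν b j₀ j₁ K E) (p : List β) :
    (nR E p).card ≤ 2 ^ (b + 1) := by
  rcases Finset.eq_empty_or_nonempty (nR E p) with h | h
  · rw [h]; simp
  · obtain ⟨q, hq⟩ := h
    simp only [Finset.mem_filter, nR] at hq
    have h1 := hE (p, q) hq.2
    simp only at h1
    have h6 : (nR E p).card ≤ sz S (p ++ []) := by
      apply card_ext_le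
      intro q' hq'
      simp only [Finset.mem_filter, nR] at hq'
      exact ⟨(hE (p, q') hq'.2).1, List.nil_prefix⟩
    rw [List.append_nil] at h6
    exact le_trans h6 h1.2.2.1.le

theorem card_left (hE : EdgeHyp 𝔖 S ν b j₀ j₁ K E)
    (hκ : ∀ P : Finset (List β), (∀ p ∈ P, ν ≤ p.length) → ∑ p ∈ P, sz S p ≤ κ₀ * S.card)
    (P : Finset (List β)) (hP : P ⊆ LV E) : P.card * 2 ^ b ≤ κ₀ * S.card := by
  calc P.card * 2 ^ b = ∑ p ∈ P, 2 ^ b := by rw [Finset.sum_const, smul_eq_mul]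
    _ ≤ ∑ p ∈ P, sz S p := by
        apply Finset.sum_le_sum
        intro p hp
        obtain ⟨q, hq⟩ := mem_LV.mp (hP hp)
        exact (hE (p, q) hq).2.1
    _ ≤ κ₀ * S.card := by
        apply hκ
        intro p hp
        obtain ⟨q, hq⟩ := mem_LV.mp (hP hp)
        exact (hE (p, q) hq).2.2.2.1

theorem card_left_fib (hK : 0 < K) (hE : EdgeHyp 𝔖 S ν b j₀ j₁ K E)
    (hκ : ∀ P : Finset (List β), (∀ p ∈ P, ν ≤ p.length) → ∑ p ∈ P, sz S p ≤ κ₀ * S.card)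
    (P : Finset (List β)) (hP : P ⊆ LV E) (u : List β) :
    (P.filter (fun p => lh 𝔖.lev (j₀ + 1) p = u)).card ≤ κ₀ * S.card / (K * 2 ^ b) := by
  rw [Nat.le_div_iff_mul_le (by positivity)]
  set Q := P.filter (fun p => lh 𝔖.lev (j₀ + 1) p = u) with hQ
  have hQE : ∀ p ∈ Q, ∃ q, (p, q) ∈ E := by
    intro p hp
    exact mem_LV.mp (hP (Finset.mem_of_mem_filter p hp))
  have hinj : Set.InjOn (fun p => ld 𝔖.lev (j₀ + 1) p) (Q : Set (List β)) := by
    intro a ha c hc hac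
    have ha' : lh 𝔖.lev (j₀ + 1) a = u := by
      have := Finset.mem_coe.mp ha
      rw [hQ, Finset.mem_filter] at this
      exact this.2
    have hc' : lh 𝔖.lev (j₀ + 1) c = u := by
      have := Finset.mem_coe.mp hc
      rw [hQ, Finset.mem_filter] at this
      exact this.2
    have h1 : ld 𝔖.lev (j₀ + 1) a ++ lh 𝔖.lev (j₀ + 1) a = a :=
      List.rdropWhile_append_rtakeWhile
    have h2 : ld 𝔖.lev (j₀ + 1) c ++ lh 𝔖.lev (j₀ + 1) c = c :=
      List.rdropWhile_append_rtakeWhile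
    rw [← h1, ← h2, ha', hc']
    simp only at hac
    rw [hac]
  calc Q.card * (K * 2 ^ b) = ∑ p ∈ Q, K * 2 ^ b := by rw [Finset.sum_const, smul_eq_mul]
    _ ≤ ∑ p ∈ Q, sz S (ld 𝔖.lev (j₀ + 1) p) := by
        apply Finset.sum_le_sum
        intro p hp
        obtain ⟨q, hq⟩ := hQE p hp
        have h1 := hE (p, q) hq
        simp only at h1
        exact le_trans (Nat.mul_le_mul_left _ h1.2.1) h1.2.2.2.2.2.2.2.le
    _ = ∑ p ∈ Q.image (fun p => ld 𝔖.lev (j₀ + 1) p), sz S p := by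
        rw [Finset.sum_image hinj]
    _ ≤ κ₀ * S.card := by
        apply hκ
        intro p hp
        rw [Finset.mem_image] at hp
        obtain ⟨p', hp', rfl⟩ := hp
        obtain ⟨q, hq⟩ := hQE p' hp'
        exact (hE (p', q) hq).2.2.2.2.2.1

theorem ok_if (hE : EdgeHyp 𝔖 S ν b j₀ j₁ K E) (e : List β × List β) (he : e ∈ E) :
    ∀ l, j₀ < l → l ≤ j₁ → 𝔖.ok l e.1 e.2 := (hE e he).2.2.2.2.1

/-- first use of the mixing property -/
theorem first_use (hK : 0 < K) (hj : j₀ < j₁) (hj₁ : j₁ < 𝔖.H)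
    (hE : EdgeHyp 𝔖 S ν b j₀ j₁ K E)
    (hκ : ∀ P : Finset (List β), (∀ p ∈ P, ν ≤ p.length) → ∑ p ∈ P, sz S p ≤ κ₀ * S.card) :
    (rectN E : ℝ) ≤ 𝔖.δ ^ (j₁ - j₀) * (∑ e ∈ E, ((nR E e.1).card : ℝ) * ((nL E e.2).card : ℝ))
      + 4 * 𝔖.H * 𝔖.Λ * κ₀ * E.card * S.card / K := by
  have hK' : (0 : ℝ) < K := by exact_mod_cast hK
  have hb : (0 : ℝ) < 2 ^ b := by positivity
  refine le_trans (rectN_le_sum E (fun p q => ∀ l, j₀ < l → l ≤ j₁ → 𝔖.ok l p q) (ok_if hE)) ?_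
  have key : ∀ e ∈ E, (∑ p ∈ nL E e.2, ∑ q ∈ nR E e.1,
      if (∀ l, j₀ < l → l ≤ j₁ → 𝔖.ok l p q) then (1 : ℝ) else 0) ≤
      𝔖.δ ^ (j₁ - j₀) * (((nR E e.1).card : ℝ) * ((nL E e.2).card : ℝ))
      + 4 * 𝔖.H * 𝔖.Λ * κ₀ * S.card / K := by
    intro e he
    have h := 𝔖.pr j₀ j₁ hj hj₁ (nL E e.2) (nR E e.1) (fun _ => 1) (fun _ => 1)
      (κ₀ * S.card / (K * 2 ^ b)) (2 ^ (b + 1) / K)
      (fun u => by
        rw [Finset.sum_const, smul_eq_mul, mul_one]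
        exact card_left_fib hK hE hκ _ (Finset.filter_subset _ _) u)
      (fun v => by
        rw [Finset.sum_const, smul_eq_mul, mul_one]
        exact nR_fib hK hE e.1 v)
    simp only [Nat.cast_one, mul_one, Finset.sum_const, nsmul_eq_mul] at h
    have hG : (((2 ^ (b + 1) / K : ℕ)) : ℝ) ≤ 2 * 2 ^ b / K := by
      refine le_trans (Nat.cast_div_le) ?_
      push_cast
      rw [pow_succ, mul_comm]
    have hF : (((κ₀ * S.card / (K * 2 ^ b) : ℕ)) : ℝ) ≤ κ₀ * S.card / (K * 2 ^ b) := by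
      refine le_trans (Nat.cast_div_le) ?_
      push_cast
      exact le_refl _
    have hL : ((nL E e.2).card : ℝ) ≤ κ₀ * S.card / 2 ^ b := by
      rw [le_div_iff₀ hb]
      exact_mod_cast card_left hE hκ (nL E e.2) (Finset.filter_subset _ _)
    have hR : ((nR E e.1).card : ℝ) ≤ 2 * 2 ^ b := by
      have := nR_card hE e.1
      rw [pow_succ, mul_comm] at this
      exact_mod_cast this
    have h1 : ((nL E e.2).card : ℝ) * ((2 ^ (b + 1) / K : ℕ) : ℝ)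
        ≤ (κ₀ * S.card / 2 ^ b) * (2 * 2 ^ b / K) :=
      mul_le_mul hL hG (by positivity) (by positivity)
    have h2 : ((nR E e.1).card : ℝ) * ((κ₀ * S.card / (K * 2 ^ b) : ℕ) : ℝ)
        ≤ (2 * 2 ^ b) * (κ₀ * S.card / (K * 2 ^ b)) :=
      mul_le_mul hR hF (by positivity) (by positivity)
    have h3 : (κ₀ * S.card / 2 ^ b) * (2 * 2 ^ b / K) + (2 * 2 ^ b) * (κ₀ * S.card / (K * 2 ^ b))
        = (4 * κ₀ * S.card / K : ℝ) := by
      field_simp
      ring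
    have hHL : (0 : ℝ) ≤ 𝔖.H * 𝔖.Λ := by positivity
    calc _ ≤ _ := h
      _ ≤ 𝔖.δ ^ (j₁ - j₀) * ((nL E e.2).card : ℝ) * ((nR E e.1).card : ℝ)
          + 𝔖.H * 𝔖.Λ * ((κ₀ * S.card / 2 ^ b) * (2 * 2 ^ b / K)
            + (2 * 2 ^ b) * (κ₀ * S.card / (K * 2 ^ b))) := by
          gcongr
      _ = _ := by
          rw [h3]
          ring
  refine le_trans (Finset.sum_le_sum key) ?_
  rw [Finset.sum_add_distrib, ← Finset.mul_sum, Finset.sum_const, nsmul_eq_mul]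
  apply le_of_eq
  ring

/-- second use of the mixing property -/
theorem second_use (hK : 0 < K) (hj : j₀ < j₁) (hj₁ : j₁ < 𝔖.H)
    (hE : EdgeHyp 𝔖 S ν b j₀ j₁ K E)
    (hκ : ∀ P : Finset (List β), (∀ p ∈ P, ν ≤ p.length) → ∑ p ∈ P, sz S p ≤ κ₀ * S.card) :
    (∑ e ∈ E, ((nR E e.1).card : ℝ) * ((nL E e.2).card : ℝ)) ≤
      𝔖.δ ^ (j₁ - j₀) * (E.card : ℝ) ^ 2
      + 4 * 𝔖.H * 𝔖.Λ * κ₀ * E.card * S.card / K := by
  have hK' : (0 : ℝ) < K := by exact_mod_cast hK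
  have hb : (0 : ℝ) < 2 ^ b := by positivity
  have hF : ∀ u, ∑ p ∈ (LV E).filter (fun p => lh 𝔖.lev (j₀ + 1) p = u), (nR E p).card ≤
      2 ^ (b + 1) * (κ₀ * S.card / (K * 2 ^ b)) := by
    intro u
    calc _ ≤ ∑ p ∈ (LV E).filter (fun p => lh 𝔖.lev (j₀ + 1) p = u), 2 ^ (b + 1) :=
          Finset.sum_le_sum (fun p _ => nR_card hE p)
      _ = ((LV E).filter (fun p => lh 𝔖.lev (j₀ + 1) p = u)).card * 2 ^ (b + 1) := by
          rw [Finset.sum_const, smul_eq_mul]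
      _ ≤ (κ₀ * S.card / (K * 2 ^ b)) * 2 ^ (b + 1) :=
          Nat.mul_le_mul_right _ (card_left_fib hK hE hκ _ (Finset.Subset.refl _) u)
      _ = _ := mul_comm _ _
  have hG : ∀ v, ∑ q ∈ (RV E).filter (fun q => rh 𝔖.lev (j₀ + 1) q = v), (nL E q).card ≤
      (LV E).card * (2 ^ (b + 1) / K) := by
    intro v
    have h1 : ∀ q, (nL E q).card = ∑ p ∈ LV E, if (p, q) ∈ E then 1 else 0 := by
      intro q
      unfold nL
      rw [Finset.card_filter]
    simp_rw [h1]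
    rw [Finset.sum_comm]
    calc _ ≤ ∑ p ∈ LV E, (2 ^ (b + 1) / K) := by
          apply Finset.sum_le_sum
          intro p _
          refine le_trans (le_of_eq ?_) (nR_fib hK hE p v)
          rw [← Finset.card_filter]
          congr 1
          ext q
          simp only [Finset.mem_filter, nR]
          tauto
      _ = _ := by rw [Finset.sum_const, smul_eq_mul]
  have h := 𝔖.pr j₀ j₁ hj hj₁ (LV E) (RV E) (fun p => (nR E p).card) (fun q => (nL E q).card)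
    _ _ hF hG
  rw [sum_nR, sum_nL] at h
  have h0 : (∑ e ∈ E, ((nR E e.1).card : ℝ) * ((nL E e.2).card : ℝ)) ≤
      ∑ p ∈ LV E, ∑ q ∈ RV E,
        if (∀ l, j₀ < l → l ≤ j₁ → 𝔖.ok l p q) then
          (((nR E p).card : ℝ) * ((nL E q).card : ℝ)) else 0 := by
    rw [sum_edgesR E (fun p q => ((nR E p).card : ℝ) * ((nL E q).card : ℝ))]
    apply Finset.sum_le_sum
    intro p _
    apply Finset.sum_le_sum
    intro q _
    by_cases h1 : (p, q) ∈ E
    · have h2 := ok_if hE (p, q) h1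
      simp only at h2
      rw [if_pos h1, if_pos h2]
    · rw [if_neg h1]
      split_ifs <;> positivity
  refine le_trans h0 (le_trans h ?_)
  have hL : ((LV E).card : ℝ) ≤ κ₀ * S.card / 2 ^ b := by
    rw [le_div_iff₀ hb]
    exact_mod_cast card_left hE hκ (LV E) (Finset.Subset.refl _)
  have hG1 : (((2 ^ (b + 1) / K : ℕ)) : ℝ) ≤ 2 * 2 ^ b / K := by
    refine le_trans (Nat.cast_div_le) ?_
    push_cast
    rw [pow_succ, mul_comm]
  have hF1 : (((κ₀ * S.card / (K * 2 ^ b) : ℕ)) : ℝ) ≤ κ₀ * S.card / (K * 2 ^ b) := by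
    refine le_trans (Nat.cast_div_le) ?_
    push_cast
    exact le_refl _
  have hG2 : (((LV E).card * (2 ^ (b + 1) / K) : ℕ) : ℝ) ≤ 2 * κ₀ * S.card / K := by
    push_cast
    calc ((LV E).card : ℝ) * ((2 ^ (b + 1) / K : ℕ) : ℝ)
        ≤ (κ₀ * S.card / 2 ^ b) * (2 * 2 ^ b / K) :=
          mul_le_mul hL hG1 (by positivity) (by positivity)
      _ = _ := by field_simp
  have hF2 : ((2 ^ (b + 1) * (κ₀ * S.card / (K * 2 ^ b)) : ℕ) : ℝ) ≤ 2 * κ₀ * S.card / K := by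
    push_cast
    calc (2 : ℝ) ^ (b + 1) * ((κ₀ * S.card / (K * 2 ^ b) : ℕ) : ℝ)
        ≤ (2 * 2 ^ b) * (κ₀ * S.card / (K * 2 ^ b)) := by
          apply mul_le_mul _ hF1 (by positivity) (by positivity)
          rw [pow_succ, mul_comm]
      _ = _ := by field_simp
  have hHL : (0 : ℝ) ≤ 𝔖.H * 𝔖.Λ := by positivity
  have hE0 : (0 : ℝ) ≤ E.card := by positivity
  calc _ ≤ 𝔖.δ ^ (j₁ - j₀) * (E.card : ℝ) * (E.card : ℝ)
      + 𝔖.H * 𝔖.Λ * ((E.card : ℝ) * (2 * κ₀ * S.card / K) + (E.card : ℝ) * (2 * κ₀ * S.card / K)) := by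
        gcongr
    _ = _ := by ring

end main

/-- Rectangle bound in one dyadic class, by the iterated mixing property `pr`. -/
theorem rectR (𝔖 : Sys β) (S : Finset (List β)) (ν b j₀ j₁ K κ₀ : ℕ) (hK : 0 < K)
    (hj : j₀ ≤ j₁) (hj₁ : j₁ < 𝔖.H) (E : Finset (List β × List β))
    (hE : ∀ e ∈ E, e.1 ++ e.2 ∈ S ∧ 2 ^ b ≤ sz S e.1 ∧ sz S e.1 < 2 ^ (b + 1) ∧ ν ≤ e.1.length ∧
      (∀ l, j₀ < l → l ≤ j₁ → 𝔖.ok l e.1 e.2) ∧
      (j₀ < j₁ → ν ≤ (ld 𝔖.lev (j₀ + 1) e.1).length ∧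
        K * sz S (e.1 ++ rh 𝔖.lev (j₀ + 1) e.2) < sz S e.1 ∧
        K * sz S e.1 < sz S (ld 𝔖.lev (j₀ + 1) e.1)))
    (hκ : ∀ P : Finset (List β), (∀ p ∈ P, ν ≤ p.length) → ∑ p ∈ P, sz S p ≤ κ₀ * S.card) :
    (rectN E : ℝ) ≤ 𝔖.δ ^ (2 * (j₁ - j₀)) * (E.card : ℝ) ^ 2
      + 8 * 𝔖.H * 𝔖.Λ * κ₀ * E.card * S.card / K := by
  have hK' : (0 : ℝ) < K := by exact_mod_cast hK
  rcases Nat.eq_or_lt_of_le hj with hj' | hj'
  · have h1 : rectN E ≤ E.card ^ 2 := by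
      unfold rectN
      refine le_trans (Finset.card_filter_le _ _) ?_
      rw [Finset.card_product, sq]
    have h2 : (rectN E : ℝ) ≤ (E.card : ℝ) ^ 2 := by exact_mod_cast h1
    have h3 : (0 : ℝ) ≤ 8 * 𝔖.H * 𝔖.Λ * κ₀ * E.card * S.card / K := by positivity
    rw [hj', Nat.sub_self, Nat.mul_zero, pow_zero, one_mul]
    linarith
  · have hE' : EdgeHyp 𝔖 S ν b j₀ j₁ K E := by
      intro e he
      have h := hE e he
      have h' := h.2.2.2.2.2 hj'
      exact ⟨h.1, h.2.1, h.2.2.1, h.2.2.2.1, h.2.2.2.2.1, h'.1, h'.2.1, h'.2.2⟩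
    have h1 := first_use hK hj' hj₁ hE' hκ
    have h2 := second_use hK hj' hj₁ hE' hκ
    have hδ0 : 0 ≤ 𝔖.δ ^ (j₁ - j₀) := pow_nonneg 𝔖.δ_pos.le _
    have hδ1 : 𝔖.δ ^ (j₁ - j₀) ≤ 1 := pow_le_one₀ 𝔖.δ_pos.le 𝔖.δ_le
    have h3 := mul_le_mul_of_nonneg_left h2 hδ0
    have h4 : (0 : ℝ) ≤ 4 * 𝔖.H * 𝔖.Λ * κ₀ * E.card * S.card / K := by positivity
    have h5 := mul_le_mul_of_nonneg_right hδ1 h4
    have h6 : 𝔖.δ ^ (2 * (j₁ - j₀)) = 𝔖.δ ^ (j₁ - j₀) * 𝔖.δ ^ (j₁ - j₀) := by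
      rw [two_mul, pow_add]
    rw [h6]
    have h7 : 8 * 𝔖.H * 𝔖.Λ * κ₀ * E.card * S.card / K =
      2 * (4 * 𝔖.H * 𝔖.Λ * κ₀ * E.card * S.card / K : ℝ) := by ring
    rw [h7]
    nlinarith [h1, h3, h5]

end RDCE
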