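import Pool.Agent.H23.CE.Bd

/-! # Combination of windows -/

open Finset Classical

namespace RDCE

variable {β : Type}

/-- words of `S` possibly belonging to window `a` -/
noncomputable def Sw (S : Finset (List β)) (κ a : ℕ) : Finset (List β) :=
  S.filter (fun s => a * κ ≤ s.length ∧ s.length < (a + 2) * κ)

lemma sum_Sw_le (S : Finset (List β)) (κ N : ℕ) (hκ : 1 ≤ κ) :
    ∑ a ∈ Finset.range N, ((Sw S κ a).card : ℝ) ≤ 2 * S.card := by
  have h : ∑ a ∈ Finset.range N, (Sw S κ a).card ≤ 2 * S.card := by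
    simp only [Sw, Finset.card_filter]
    rw [Finset.sum_comm]
    have : ∀ s ∈ S, ∑ a ∈ Finset.range N,
        (if a * κ ≤ s.length ∧ s.length < (a + 2) * κ then 1 else 0) ≤ 2 := by
      intro s _
      rw [← Finset.card_filter]
      have hsub : (Finset.range N).filter (fun a => a * κ ≤ s.length ∧ s.length < (a + 2) * κ)
          ⊆ Finset.Icc (s.length / κ - 1) (s.length / κ) := by
        intro a ha
        have ha' := (Finset.mem_filter.1 ha).2
        rw [Finset.mem_Icc]
        constructor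
        · have : s.length / κ < a + 2 := (Nat.div_lt_iff_lt_mul hκ).2 ha'.2
          omega
        · exact (Nat.le_div_iff_mul_le hκ).2 ha'.1
      refine (Finset.card_le_card hsub).trans ?_
      rw [Nat.card_Icc]; omega
    refine (Finset.sum_le_sum this).trans ?_
    rw [Finset.sum_const, smul_eq_mul, mul_comm]
  exact_mod_cast h

theorem window_comb {inv : β → β} {S Y : Finset (List β)} {T : Finset (Tri β)} (κ : ℕ)
    (hκ : 1 ≤ κ) (A : ℝ) (hA : 0 ≤ A)
    (hTS : ∀ t ∈ T, t.1 ++ t.2.1 ∈ S) (hTY : ∀ t ∈ T, t.2.2 ++ t.2.1 ∈ Y)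
    (hq : ∀ t ∈ T, t.2.1.length ≤ κ)
    (hg : ∀ t ∈ T, ∀ t' ∈ T, gw inv t = gw inv t' → t.1.length ≤ t'.1.length + κ)
    (hleaf : ∀ (a₁ a₂ : ℕ) (S' Y' : Finset (List β)) (T' : Finset (Tri β)), S' ⊆ S → Y' ⊆ Y →
      T' ⊆ T → (∀ t ∈ T', t.1 ++ t.2.1 ∈ S') → (∀ t ∈ T', t.2.2 ++ t.2.1 ∈ Y') →
      (∀ s ∈ S', s.length < a₁ + 2 * κ) → (∀ y ∈ Y', y.length < a₂ + 2 * κ) →
      (∀ t ∈ T', a₁ ≤ t.1.length ∧ t.1.length < a₁ + κ) →
      (∀ t ∈ T', a₂ ≤ t.2.2.length ∧ t.2.2.length < a₂ + κ) →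
      Bd inv T' (A * (S'.card * Y'.card))) :
    Bd inv T (16 * A * (S.card * Y.card)) := by
  set N : ℕ := (T.sup (fun t => t.1.length + t.2.2.length)) + 1 with hN
  have hlt : ∀ t ∈ T, t.1.length / κ < N ∧ t.2.2.length / κ < N := by
    intro t ht
    have h1 : t.1.length + t.2.2.length ≤ T.sup (fun t => t.1.length + t.2.2.length) :=
      Finset.le_sup (f := fun t : Tri β => t.1.length + t.2.2.length) ht
    have h2 : t.1.length / κ ≤ t.1.length := Nat.div_le_self _ _
    have h3 : t.2.2.length / κ ≤ t.2.2.length := Nat.div_le_self _ _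
    omega
  set K : Finset (ℕ × ℕ) := Finset.range N ×ˢ Finset.range N with hK
  set Tk : ℕ × ℕ → Finset (Tri β) := fun k =>
    T.filter (fun t => t.1.length / κ = k.1 ∧ t.2.2.length / κ = k.2) with hTk
  have hcov : ∀ t ∈ T, ∃ k ∈ K, t ∈ Tk k := by
    intro t ht
    refine ⟨(t.1.length / κ, t.2.2.length / κ), ?_, ?_⟩
    · rw [hK, Finset.mem_product, Finset.mem_range, Finset.mem_range]
      exact hlt t ht
    · exact Finset.mem_filter.2 ⟨ht, rfl, rfl⟩
  have hdiv : ∀ {x a : ℕ}, x / κ = a → a * κ ≤ x ∧ x < a * κ + κ := by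
    intro x a h
    subst h
    constructor
    · exact Nat.div_mul_le_self x κ
    · have := Nat.lt_div_mul_add (a := x) (b := κ) (by omega)
      exact this
  have hb : ∀ k ∈ K, Bd inv (Tk k) (A * ((Sw S κ k.1).card * (Sw Y κ k.2).card)) := by
    intro k _
    apply hleaf (k.1 * κ) (k.2 * κ) _ _ _ (Finset.filter_subset _ _) (Finset.filter_subset _ _)
      (Finset.filter_subset _ _)
    · intro t ht
      obtain ⟨ht1, ht2, ht3⟩ := Finset.mem_filter.1 ht
      obtain ⟨h1, h2⟩ := hdiv ht2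
      have h3 := hq t ht1
      refine Finset.mem_filter.2 ⟨hTS t ht1, ?_, ?_⟩
      · rw [List.length_append]; omega
      · rw [List.length_append, add_mul]; omega
    · intro t ht
      obtain ⟨ht1, ht2, ht3⟩ := Finset.mem_filter.1 ht
      obtain ⟨h1, h2⟩ := hdiv ht3
      have h3 := hq t ht1
      refine Finset.mem_filter.2 ⟨hTY t ht1, ?_, ?_⟩
      · rw [List.length_append]; omega
      · rw [List.length_append, add_mul]; omega
    · intro s hs
      have := (Finset.mem_filter.1 hs).2.2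
      rwa [add_mul] at this
    · intro s hs
      have := (Finset.mem_filter.1 hs).2.2
      rwa [add_mul] at this
    · intro t ht
      exact hdiv (Finset.mem_filter.1 ht).2.1
    · intro t ht
      exact hdiv (Finset.mem_filter.1 ht).2.2
  have hm : ∀ w, (K.filter (fun k => ∃ t ∈ Tk k, gw inv t = w)).card ≤ 4 := by
    intro w
    by_cases hne : (T.filter (fun t => gw inv t = w)).Nonempty
    · obtain ⟨t₀, ht₀, hmin⟩ := Finset.exists_min_image _ (fun t : Tri β => t.1.length) hne
      obtain ⟨t₁, ht₁, hmax⟩ := Finset.exists_max_image _ (fun t : Tri β => t.1.length) hne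
      have hsub : K.filter (fun k => ∃ t ∈ Tk k, gw inv t = w)
          ⊆ Finset.Icc (t₀.1.length / κ) (t₀.1.length / κ + 1)
            ×ˢ Finset.Icc (t₁.2.2.length / κ) (t₁.2.2.length / κ + 1) := by
        intro k hk
        obtain ⟨_, t, ht, htw⟩ := Finset.mem_filter.1 hk
        obtain ⟨ht1, ht2, ht3⟩ := Finset.mem_filter.1 ht
        have htT : t ∈ T.filter (fun t => gw inv t = w) := Finset.mem_filter.2 ⟨ht1, htw⟩
        have h1 := hmin t htT
        have h2 := hmax t htT
        obtain ⟨ht₀T, ht₀w⟩ := Finset.mem_filter.1 ht₀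
        obtain ⟨ht₁T, ht₁w⟩ := Finset.mem_filter.1 ht₁
        have h3 := hg t ht1 t₀ ht₀T (htw.trans ht₀w.symm)
        have h4 := hg t₁ ht₁T t ht1 (ht₁w.trans htw.symm)
        have h5 : t.1.length + t.2.2.length = w.length := by
          rw [← htw, gw]; simp
        have h6 : t₁.1.length + t₁.2.2.length = w.length := by
          rw [← ht₁w, gw]; simp
        rw [Finset.mem_product, Finset.mem_Icc, Finset.mem_Icc, ← ht2, ← ht3]
        refine ⟨⟨Nat.div_le_div_right h1, ?_⟩, ⟨Nat.div_le_div_right (by omega), ?_⟩⟩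
        · calc t.1.length / κ ≤ (t₀.1.length + κ) / κ := Nat.div_le_div_right h3
            _ = _ := Nat.add_div_right _ (by omega)
        · calc t.2.2.length / κ ≤ (t₁.2.2.length + κ) / κ := Nat.div_le_div_right (by omega)
            _ = _ := Nat.add_div_right _ (by omega)
      refine (Finset.card_le_card hsub).trans ?_
      rw [Finset.card_product, Nat.card_Icc, Nat.card_Icc]
      have e1 : t₀.1.length / κ + 1 + 1 - t₀.1.length / κ = 2 := by omega
      have e2 : t₁.2.2.length / κ + 1 + 1 - t₁.2.2.length / κ = 2 := by omega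
      rw [e1, e2]
    · have : K.filter (fun k => ∃ t ∈ Tk k, gw inv t = w) = ∅ := by
        apply Finset.filter_eq_empty_iff.2
        rintro k _ ⟨t, ht, htw⟩
        exact hne ⟨t, Finset.mem_filter.2 ⟨(Finset.mem_filter.1 ht).1, htw⟩⟩
      rw [this]; simp
  have := Bd_mult K Tk hcov (fun k => A * ((Sw S κ k.1).card * (Sw Y κ k.2).card)) 4
    (fun k _ => by positivity) hb hm
  refine Bd_mono ?_ this
  have hsum : ∑ k ∈ K, A * (((Sw S κ k.1).card : ℝ) * (Sw Y κ k.2).card)
      = A * ((∑ a ∈ Finset.range N, ((Sw S κ a).card : ℝ)) *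
          (∑ b ∈ Finset.range N, ((Sw Y κ b).card : ℝ))) := by
    rw [← Finset.mul_sum, hK, Finset.sum_product, Finset.sum_mul_sum]
  rw [hsum]
  have h1 := sum_Sw_le S κ N hκ
  have h2 := sum_Sw_le Y κ N hκ
  have h3 : (∑ a ∈ Finset.range N, ((Sw S κ a).card : ℝ)) *
          (∑ b ∈ Finset.range N, ((Sw Y κ b).card : ℝ)) ≤ (2 * S.card) * (2 * Y.card) :=
    mul_le_mul h1 h2 (Finset.sum_nonneg (fun _ _ => Nat.cast_nonneg _)) (by positivity)
  push_cast
  calc 4 * (A * _) ≤ 4 * (A * ((2 * S.card) * (2 * Y.card))) := by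
        apply mul_le_mul_of_nonneg_left _ (by norm_num)
        exact mul_le_mul_of_nonneg_left h3 hA
    _ = _ := by ring

end RDCE
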