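import Pool.Agent.H23.CE.Pieces
import Pool.Agent.H23.CE.Leaf
import Pool.Agent.H23.CE.Wcomb

/-! # Families of languages; fixed class; stripping -/

open Finset Classical

namespace RDCE

variable {β 𝒞 : Type}

/-- a family of languages (one for each class of letters) -/
structure Fam (β 𝒞 : Type) where
  inv : β → β
  inv_inv : ∀ b, inv (inv b) = b
  cls : β → 𝒞
  cls_inv : ∀ b, cls (inv b) ≠ cls b
  sys : 𝒞 → Sys β
  mem_nil : ∀ c, (sys c).mem []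
  mem_cls : ∀ c w, (sys c).mem w → ∀ b ∈ w, cls b = c
  sing : ∀ b, (sys (cls b)).mem [b]

/-- pieces -/
def Fam.pie (F : Fam β 𝒞) (w : List β) : Prop := ∃ c, (F.sys c).mem w

lemma Fam.pieOK (F : Fam β 𝒞) [Nonempty 𝒞] : PieOK F.pie where
  nil := ⟨Classical.arbitrary 𝒞, F.mem_nil _⟩
  sing := fun b => ⟨_, F.sing b⟩
  pre := fun ⟨c, h⟩ => ⟨c, (F.sys c).mem_prefix h⟩
  suf := fun ⟨c, h⟩ => ⟨c, (F.sys c).mem_suffix h⟩

/-- class with good constants -/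
structure Good (F : Fam β 𝒞) (L0 κ R : ℕ) (c : 𝒞) : Prop where
  hH : (F.sys c).H ≤ L0
  hΛ : (F.sys c).Λ ≤ 2 ^ L0
  hM : (F.sys c).M + 1 ≤ R
  hlen : ∀ w, (F.sys c).mem w → w.length ≤ κ

/-- global constants -/
structure Cst (L0 κ : ℕ) : Prop where
  hL0 : 1 ≤ L0
  hκ : 1 ≤ κ
  hκ2 : 2 * κ ≤ 2 ^ L0

theorem mid (F : Fam β 𝒞) {L0 κ R : ℕ} (hc : Cst L0 κ) {c : 𝒞} (hgood : Good F L0 κ R c)
    {S Y : Finset (List β)} {T : Finset (Tri β)}
    (hTS : ∀ t ∈ T, t.1 ++ t.2.1 ∈ S) (hTY : ∀ t ∈ T, t.2.2 ++ t.2.1 ∈ Y)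
    (hq : ∀ t ∈ T, (F.sys c).mem t.2.1) (hlast : ∀ t ∈ T, t.1.getLast? ≠ t.2.2.getLast?)
    (hg : ∀ t ∈ T, ∀ t' ∈ T, gw F.inv t = gw F.inv t' → t.1.length ≤ t'.1.length + κ)
    (hLC : LC F.inv T) : Bd F.inv T (16 * leafC L0 R * (S.card * Y.card)) := by
  apply window_comb κ hc.hκ (leafC L0 R) (leafC_nonneg L0 (Nat.cast_nonneg R)) hTS hTY
    (fun t ht => hgood.hlen _ (hq t ht)) hg
  intro a₁ a₂ S' Y' T' hS' hY' hT' h1 h2 h3 h4 h5 h6
  have hd : LeafData (F.sys c) S' Y' T' L0 κ a₁ a₂ :=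
    { hL0 := hc.hL0
      hκ := hc.hκ2
      hH := hgood.hH
      hΛ := hgood.hΛ
      hTS := h1
      hTY := h2
      hS := h3
      hY := h4
      hT1 := h5
      hT2 := h6
      hq := fun t ht => hq t (hT' ht)
      hlast := fun t ht => hlast t (hT' ht) }
  refine Bd_mono ?_ (leaf F.inv_inv hd (LC_subset hT' hLC))
  apply mul_le_mul_of_nonneg_right _ (by positivity)
  unfold leafC
  apply mul_le_mul_of_nonneg_left _ (by positivity)
  exact_mod_cast hgood.hM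

lemma GC_strip {inv : β → β} {T : Finset (Tri β)} (ω : List β) (φ : Tri β → Tri β)
    (hφ : ∀ t ∈ T, ∃ q', q' ≠ [] ∧ t.2.1 = q' ++ ω ∧ φ t = (t.1, q', t.2.2)) (h : GC inv T) :
    GC inv (T.image φ) := by
  intro t ht t' ht' he
  obtain ⟨u, hu, rfl⟩ := Finset.mem_image.1 ht
  obtain ⟨u', hu', rfl⟩ := Finset.mem_image.1 ht'
  obtain ⟨q, -, -, h1⟩ := hφ u hu
  obtain ⟨q', -, -, h1'⟩ := hφ u' hu'
  rw [h1, h1'] at he ⊢
  exact h u hu u' hu' he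

lemma XC_strip {inv : β → β} {T : Finset (Tri β)} (ω : List β) (φ : Tri β → Tri β)
    (hφ : ∀ t ∈ T, ∃ q', q' ≠ [] ∧ t.2.1 = q' ++ ω ∧ φ t = (t.1, q', t.2.2)) (h : XC inv T) :
    XC inv (T.image φ) := by
  refine ⟨?_, ?_, ?_, ?_⟩
  · intro t ht
    obtain ⟨u, hu, rfl⟩ := Finset.mem_image.1 ht
    obtain ⟨q, -, -, h1⟩ := hφ u hu
    rw [h1]; exact h.1 u hu
  · intro t ht r₀ b hr
    obtain ⟨u, hu, rfl⟩ := Finset.mem_image.1 ht
    obtain ⟨q, hq, h2, h1⟩ := hφ u hu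
    rw [h1] at hr ⊢
    have := h.2.1 u hu r₀ b hr
    rw [h2] at this
    rcases q with _ | ⟨z, q⟩
    · exact absurd rfl hq
    · simpa using this
  · intro t ht t' ht' he
    obtain ⟨u, hu, rfl⟩ := Finset.mem_image.1 ht
    obtain ⟨u', hu', rfl⟩ := Finset.mem_image.1 ht'
    obtain ⟨q, -, h2, h1⟩ := hφ u hu
    obtain ⟨q', -, h2', h1'⟩ := hφ u' hu'
    rw [h1, h1'] at he ⊢
    apply h.2.2.1 u hu u' hu'
    rw [h2, h2', ← List.append_assoc, ← List.append_assoc]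
    have he' : u.2.2 ++ q = u'.2.2 ++ q' := he
    rw [he']
  · intro t ht t' ht' he
    obtain ⟨u, hu, rfl⟩ := Finset.mem_image.1 ht
    obtain ⟨u', hu', rfl⟩ := Finset.mem_image.1 ht'
    obtain ⟨q, -, -, h1⟩ := hφ u hu
    obtain ⟨q', -, -, h1'⟩ := hφ u' hu'
    rw [h1, h1'] at he ⊢
    exact h.2.2.2 u hu u' hu' he

lemma LC_strip {inv : β → β} {T : Finset (Tri β)} (ω : List β) (φ : Tri β → Tri β)
    (hφ : ∀ t ∈ T, ∃ q', q' ≠ [] ∧ t.2.1 = q' ++ ω ∧ φ t = (t.1, q', t.2.2)) (h : LC inv T) :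
    LC inv (T.image φ) := by
  rcases h with h | h | h
  · exact Or.inl (GC_strip ω φ hφ h)
  · exact Or.inr (Or.inl (XC_strip ω φ hφ h))
  · refine Or.inr (Or.inr ?_)
    have h1 : (T.image φ).image swap3
        = (T.image swap3).image (fun t => swap3 (φ (swap3 t))) := by
      ext t
      simp only [Finset.mem_image, exists_exists_and_eq_and, swap3_swap3]
    rw [h1]
    apply XC_strip ω _ _ h
    intro t ht
    obtain ⟨u, hu, rfl⟩ := Finset.mem_image.1 ht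
    obtain ⟨q, hq, h2, h3⟩ := hφ u hu
    refine ⟨q, hq, h2, ?_⟩
    rw [swap3_swap3, h3]; rfl

lemma Bd_empty {inv : β → β} {A : ℝ} (hA : 0 ≤ A) : Bd inv (∅ : Finset (Tri β)) A := by
  intro Γ h _ _
  simp only [Finset.sum_empty]
  have : 0 ≤ A * ∑ w ∈ Γ, h w ^ 2 := mul_nonneg hA (Finset.sum_nonneg (fun _ _ => sq_nonneg _))
  simpa using this

/-- the words `s'` with `s' ++ ω ∈ S` and key `(ω,c)` -/
noncomputable def Sk (F : Fam β 𝒞) (j : ℕ) (S : Finset (List β)) (k : List β × 𝒞) :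
    Finset (List β) :=
  (prefs S).filter (fun s' => s' ++ k.1 ∈ S ∧ ∃ s₀ b, s' = s₀ ++ [b] ∧ F.cls b = k.2 ∧
    Dec F.pie j k.1 ∧ ¬ Dec F.pie j (b :: k.1))

lemma mem_prefs_of {S : Finset (List β)} {a b : List β} (h : a ++ b ∈ S) : a ∈ prefs S := by
  unfold prefs
  rw [Finset.mem_biUnion]
  refine ⟨a ++ b, h, ?_⟩
  rw [List.mem_toFinset, List.mem_inits]
  exact ⟨b, rfl⟩

lemma mem_sufs_of {S : Finset (List β)} {a b : List β} (h : a ++ b ∈ S) : b ∈ sufs S := by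
  unfold sufs
  rw [Finset.mem_biUnion]
  refine ⟨a ++ b, h, ?_⟩
  rw [List.mem_toFinset, List.mem_tails]
  exact ⟨a, rfl⟩

lemma mem_Sk {F : Fam β 𝒞} {j : ℕ} {S : Finset (List β)} {k : List β × 𝒞} {s' : List β} :
    s' ∈ Sk F j S k ↔ s' ++ k.1 ∈ S ∧ ∃ s₀ b, s' = s₀ ++ [b] ∧ F.cls b = k.2 ∧
    Dec F.pie j k.1 ∧ ¬ Dec F.pie j (b :: k.1) := by
  unfold Sk
  rw [Finset.mem_filter]
  exact ⟨fun h => h.2, fun h => ⟨mem_prefs_of h.1, h⟩⟩

lemma sum_Sk_le [Nonempty 𝒞] (F : Fam β 𝒞) (j : ℕ) (S : Finset (List β))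
    (K : Finset (List β × 𝒞)) : ∑ k ∈ K, ((Sk F j S k).card : ℝ) ≤ S.card := by
  have h : (K.sigma (fun k => Sk F j S k)).card ≤ S.card := by
    apply Finset.card_le_card_of_injOn (fun x => x.2 ++ x.1.1)
    · rintro ⟨k, s'⟩ hx
      have hx' := (Finset.mem_sigma.1 hx).2
      exact (mem_Sk.1 hx').1
    · rintro ⟨⟨ω, c⟩, s'⟩ hx ⟨⟨ω₂, c₂⟩, s₂'⟩ hx₂ he
      have hx' := mem_Sk.1 (Finset.mem_sigma.1 hx).2
      have hx₂' := mem_Sk.1 (Finset.mem_sigma.1 hx₂).2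
      obtain ⟨-, s₀, b, rfl, hb, h1, h2⟩ := hx'
      obtain ⟨-, s₂, b₂, rfl, hb₂, h1₂, h2₂⟩ := hx₂'
      dsimp only at he hb hb₂ h1 h1₂ h2 h2₂
      have hω := omega_unique F.pieOK he h1 h2 h1₂ h2₂
      subst hω
      have h3 := List.append_cancel_right he
      have h4 : b = b₂ := by
        have := congrArg List.getLast? h3
        simpa using this
      subst h4
      rw [h3, ← hb, ← hb₂]
  rw [Finset.card_sigma] at h
  exact_mod_cast h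

theorem strip [Nonempty 𝒞] (F : Fam β 𝒞) {L0 κ R : ℕ} (hc : Cst L0 κ) (j : ℕ)
    {S Y : Finset (List β)} {T : Finset (Tri β)}
    (hcl : ∀ s ∈ S, ∀ b ∈ s, Good F L0 κ R (F.cls b))
    (hTS : ∀ t ∈ T, t.1 ++ t.2.1 ∈ S) (hTY : ∀ t ∈ T, t.2.2 ++ t.2.1 ∈ Y)
    (hq : ∀ t ∈ T, Dec F.pie (j + 1) t.2.1 ∧ ¬ Dec F.pie j t.2.1)
    (hlast : ∀ t ∈ T, t.1.getLast? ≠ t.2.2.getLast?)
    (hg : ∀ t ∈ T, ∀ t' ∈ T, gw F.inv t = gw F.inv t' → t.1.length ≤ t'.1.length + κ)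
    (hLC : LC F.inv T) : Bd F.inv T (16 * leafC L0 R * (S.card * Y.card)) := by
  set C : Finset 𝒞 := (S.biUnion (fun s => s.toFinset)).image F.cls with hC
  set K : Finset (List β × 𝒞) := sufs S ×ˢ C with hK
  set Tk : List β × 𝒞 → Finset (Tri β) := fun k => T.filter (fun t => ∃ q₀ b,
    t.2.1 = q₀ ++ [b] ++ k.1 ∧ F.cls b = k.2 ∧ Dec F.pie j k.1 ∧ ¬ Dec F.pie j (b :: k.1)) with hTk
  have hcov : ∀ t ∈ T, ∃ k ∈ K, t ∈ Tk k := by
    intro t ht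
    obtain ⟨q₀, b, ω, h1, h2, h3⟩ := exists_omega F.pieOK (hq t ht).2
    refine ⟨(ω, F.cls b), ?_, ?_⟩
    · rw [hK, Finset.mem_product]
      constructor
      · apply mem_sufs_of (a := t.1 ++ (q₀ ++ [b]))
        rw [List.append_assoc, ← h1]; exact hTS t ht
      · rw [hC]
        apply Finset.mem_image_of_mem
        rw [Finset.mem_biUnion]
        refine ⟨_, hTS t ht, ?_⟩
        rw [h1]; simp
    · exact Finset.mem_filter.2 ⟨ht, q₀, b, h1, rfl, h2, h3⟩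
  have hA : 0 ≤ 16 * leafC L0 R := mul_nonneg (by norm_num) (leafC_nonneg L0 (Nat.cast_nonneg R))
  apply Bd_keys K Tk hcov (16 * leafC L0 R) S.card Y.card (fun k => (Sk F j S k).card)
    (fun k => (Sk F j Y k).card) hA (fun _ _ => Nat.cast_nonneg _)
    (fun _ _ => Nat.cast_nonneg _) _ (sum_Sk_le F j S K) (sum_Sk_le F j Y K)
  rintro ⟨ω, c⟩ -
  by_cases hne : (Tk (ω, c)) = ∅
  · rw [hne]
    apply Bd_empty
    positivity
  set φ : Tri β → Tri β := fun t => (t.1, t.2.1.take (t.2.1.length - ω.length), t.2.2) with hφ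
  have hφ1 : ∀ t ∈ Tk (ω, c), ∃ q₀ b, t.2.1 = q₀ ++ [b] ++ ω ∧ F.cls b = c ∧
      Dec F.pie j ω ∧ ¬ Dec F.pie j (b :: ω) ∧ φ t = (t.1, q₀ ++ [b], t.2.2) := by
    intro t ht
    obtain ⟨-, q₀, b, h1, h2, h3, h4⟩ := Finset.mem_filter.1 ht
    refine ⟨q₀, b, h1, h2, h3, h4, ?_⟩
    simp only [hφ]
    dsimp only at h1
    rw [h1]
    congr 2
    rw [List.length_append, Nat.add_sub_cancel, List.take_left]
  have hφ2 : ∀ t ∈ Tk (ω, c), ∃ q', q' ≠ [] ∧ t.2.1 = q' ++ ω ∧ φ t = (t.1, q', t.2.2) := by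
    intro t ht
    obtain ⟨q₀, b, h1, -, -, -, h2⟩ := hφ1 t ht
    exact ⟨q₀ ++ [b], by simp, h1, h2⟩
  have hsub : Tk (ω, c) ⊆ T := Finset.filter_subset _ _
  have hgood : Good F L0 κ R c := by
    obtain ⟨t, ht⟩ := Finset.nonempty_of_ne_empty hne
    obtain ⟨q₀, b, h1, h2, -, -, -⟩ := hφ1 t ht
    rw [← h2]
    apply hcl _ (hTS t (hsub ht)) b
    rw [h1]; simp
  apply Bd_map φ
  · intro t ht t' ht' he
    obtain ⟨q, -, h1, h2⟩ := hφ2 t ht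
    obtain ⟨q', -, h1', h2'⟩ := hφ2 t' ht'
    rw [h2, h2'] at he
    obtain ⟨p, x, r⟩ := t
    obtain ⟨p', x', r'⟩ := t'
    simp only [Prod.mk.injEq] at he h1 h1' ⊢
    refine ⟨he.1, ?_, he.2.2⟩
    rw [h1, h1', he.2.1]
  · intro t ht
    obtain ⟨q, -, -, h2⟩ := hφ2 t ht
    rw [h2]; rfl
  · apply mid F hc hgood
    · intro t ht
      obtain ⟨u, hu, rfl⟩ := Finset.mem_image.1 ht
      obtain ⟨q₀, b, h1, h2, h3, h4, h5⟩ := hφ1 u hu
      rw [h5]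
      rw [mem_Sk]
      refine ⟨?_, u.1 ++ q₀, b, by simp, h2, h3, h4⟩
      dsimp only
      rw [List.append_assoc, ← h1]
      exact hTS u (hsub hu)
    · intro t ht
      obtain ⟨u, hu, rfl⟩ := Finset.mem_image.1 ht
      obtain ⟨q₀, b, h1, h2, h3, h4, h5⟩ := hφ1 u hu
      rw [h5]
      rw [mem_Sk]
      refine ⟨?_, u.2.2 ++ q₀, b, by simp, h2, h3, h4⟩
      dsimp only
      rw [List.append_assoc, ← h1]
      exact hTY u (hsub hu)
    · intro t ht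
      obtain ⟨u, hu, rfl⟩ := Finset.mem_image.1 ht
      obtain ⟨q₀, b, h1, h2, h3, h4, h5⟩ := hφ1 u hu
      rw [h5]
      dsimp only
      have h6 := (hq u (hsub hu)).1
      rw [h1] at h6
      obtain ⟨c', hc'⟩ := pie_of_omega F.pieOK h6 h4
      have h7 := F.mem_cls c' _ hc' b (by simp)
      rw [← h2, h7]
      exact hc'
    · intro t ht
      obtain ⟨u, hu, rfl⟩ := Finset.mem_image.1 ht
      obtain ⟨q, -, h1, h2⟩ := hφ2 u hu
      rw [h2]; exact hlast u (hsub hu)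
    · intro t ht t' ht'
      obtain ⟨u, hu, rfl⟩ := Finset.mem_image.1 ht
      obtain ⟨q, -, h1, h2⟩ := hφ2 u hu
      obtain ⟨u', hu', rfl⟩ := Finset.mem_image.1 ht'
      obtain ⟨q', -, h1', h2'⟩ := hφ2 u' hu'
      rw [h2, h2']
      exact hg u (hsub hu) u' (hsub hu')
    · exact LC_strip ω φ hφ2 (LC_subset hsub hLC)

end RDCE
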