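import Pool.Agent.H23.CE.Defs

open Finset Classical

namespace RDCE

variable {β : Type}

/-- the word of `g = s t⁻¹` for the triple `(p,q,r)` with `s = p ++ q`, `t = r ++ q` -/
def gw (inv : β → β) (t : List β × List β × List β) : List β :=
  t.1 ++ (t.2.2.map inv).reverse

/-- number of pairs of triples with the same `p` and the same `r` -/
noncomputable def EA (T : Finset (List β × List β × List β)) : ℕ :=
  ((T ×ˢ T).filter (fun x => x.1.1 = x.2.1 ∧ x.1.2.2 = x.2.2.2)).card

/-- crossing condition at level `l` for the hash `χ` -/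
def okc (lev : β → Option ℕ) (col : β → ℕ → ℕ) (χ : ℕ → List β → ℕ) (Kb : ℕ) (l : ℕ)
    (p q : List β) : Prop :=
  (∃ p₀ z, p = p₀ ++ z :: lh lev l p ∧ mark lev l z ∧
    χ l (lh lev l p ++ rh lev l q) = col z l) ∧
  (lh lev l p).length ≤ Kb ∧ (rh lev l q).length ≤ Kb

/-- odometer value of a word (read from the right end) -/
def stv (lev : β → Option ℕ) (B : ℕ) : List β → ℕ
  | [] => 0
  | z :: w => (stv lev B w / B ^ ((lev z).getD 0) + 1) * B ^ ((lev z).getD 0)

/-- parameters of the language -/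
structure LP (β : Type) where
  lev : β → Option ℕ
  col : β → ℕ → ℕ
  idn : β → ℕ
  χ : ℕ → List β → ℕ
  B : ℕ
  H : ℕ

/-- the positive language -/
def LangP (P : LP β) : List β → Prop
  | [] => True
  | z :: w => LangP P w ∧ P.idn z ∉ w.map P.idn ∧
      ∃ l, l < P.H ∧ P.lev z = some l ∧ (stv P.lev P.B w / P.B ^ l) % P.B ≠ P.B - 1 ∧
        (∀ i, 1 ≤ i → i ≤ l → (∃ b ∈ w, mark P.lev i b) → P.χ i (rh P.lev i w) = P.col z i) ∧
        (∀ i, (i = 0 ∨ l < i) → P.col z i = 0)

end RDCE
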