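import Pool.Agent.H23.CE.TDefs

/-!
# Counting lemmas for the crossing lemma `tX`
-/

open Finset Classical

namespace RDCE

section PC
variable {τ γ ε : Type*}

/-- number of pairs of elements of `T` with the same value of `g` -/
noncomputable def PC (T : Finset τ) (g : τ → γ) : ℕ :=
  ((T ×ˢ T).filter (fun x => g x.1 = g x.2)).card

theorem PC_eq (T : Finset τ) (g : τ → γ) (Γ : Finset γ) (hΓ : ∀ t ∈ T, g t ∈ Γ) :
    PC T g = ∑ w ∈ Γ, (T.filter (fun t => g t = w)).card ^ 2 := by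
  unfold PC
  rw [Finset.card_eq_sum_card_fiberwise (f := fun x : τ × τ => g x.1) (t := Γ)]
  · apply Finset.sum_congr rfl
    intro w hw
    rw [sq, ← Finset.card_product]
    congr 1
    ext ⟨x, y⟩
    simp only [Finset.mem_filter, Finset.mem_product]
    constructor
    · rintro ⟨⟨⟨hx, hy⟩, h1⟩, h2⟩
      exact ⟨⟨hx, h2⟩, hy, by rw [← h1, h2]⟩
    · rintro ⟨⟨hx, h2⟩, hy, h3⟩
      exact ⟨⟨⟨hx, hy⟩, by rw [h2, h3]⟩, h2⟩
  · intro x hx
    simp only [Finset.coe_filter, Finset.mem_product, Set.mem_ofPred_eq] at hx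
    exact hΓ _ hx.1.1

theorem cs_basic (T : Finset τ) (g : τ → γ) (Γ : Finset γ) (hΓ : ∀ t ∈ T, g t ∈ Γ)
    (h : γ → ℝ) :
    (∑ t ∈ T, h (g t)) ^ 2 ≤ (PC T g : ℝ) * ∑ w ∈ Γ, h w ^ 2 := by
  have h1 : ∑ t ∈ T, h (g t) = ∑ w ∈ Γ, ((T.filter (fun t => g t = w)).card : ℝ) * h w := by
    rw [← Finset.sum_fiberwise_of_maps_to hΓ]
    apply Finset.sum_congr rfl
    intro w hw
    rw [Finset.sum_congr rfl (g := fun _ => h w)]
    · simp
    · intro t ht
      rw [(Finset.mem_filter.1 ht).2]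
  rw [h1, PC_eq T g Γ hΓ]
  push_cast
  exact Finset.sum_mul_sq_le_sq_mul_sq _ _ _

theorem PC_class (T : Finset τ) (g : τ → γ) (c : τ → ε) (m : ℕ)
    (hm : ∀ w, ((T.filter (fun t => g t = w)).image c).card ≤ m) :
    PC T g ≤ m * PC T (fun t => (g t, c t)) := by
  rw [PC_eq T g (T.image g) (fun t ht => Finset.mem_image_of_mem _ ht),
    PC_eq T (fun t => (g t, c t)) (T.image g ×ˢ T.image c)
      (fun t ht => Finset.mem_product.2 ⟨Finset.mem_image_of_mem _ ht, Finset.mem_image_of_mem _ ht⟩),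
    Finset.sum_product, Finset.mul_sum]
  apply Finset.sum_le_sum
  intro w hw
  set Tw := T.filter (fun t => g t = w) with hTw
  have h1 : Tw.card = ∑ b ∈ Tw.image c, (Tw.filter (fun t => c t = b)).card :=
    Finset.card_eq_sum_card_image c Tw
  have h2 : Tw.card ^ 2 ≤ (Tw.image c).card * ∑ b ∈ Tw.image c, (Tw.filter (fun t => c t = b)).card ^ 2 := by
    conv_lhs => rw [h1]
    exact sq_sum_le_card_mul_sum_sq
  refine h2.trans ?_
  refine (Nat.mul_le_mul_right _ (hm w)).trans ?_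
  refine Nat.mul_le_mul_left _ ?_
  have h3 : ∑ b ∈ Tw.image c, (Tw.filter (fun t => c t = b)).card ^ 2
      ≤ ∑ b ∈ T.image c, (Tw.filter (fun t => c t = b)).card ^ 2 := by
    apply Finset.sum_le_sum_of_subset
    exact Finset.image_subset_image (Finset.filter_subset _ _)
  refine h3.trans (le_of_eq ?_)
  apply Finset.sum_congr rfl
  intro b hb
  congr 2
  ext t
  simp only [hTw, Finset.mem_filter, Prod.mk.injEq]
  tauto

/-- as `PC_class`, without filters in the hypothesis -/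
theorem PC_class' (T : Finset τ) (g : τ → γ) (c : τ → ε) (m : ℕ)
    (hm : ∀ w, ∃ F : Finset ε, F.card ≤ m ∧ ∀ t ∈ T, g t = w → c t ∈ F) :
    PC T g ≤ m * PC T (fun t => (g t, c t)) := by
  apply PC_class
  intro w
  obtain ⟨F, hF, hc⟩ := hm w
  refine (Finset.card_le_card ?_).trans hF
  intro b hb
  obtain ⟨t, ht, rfl⟩ := Finset.mem_image.1 hb
  exact hc t (Finset.mem_filter.1 ht).1 (Finset.mem_filter.1 ht).2

theorem PC_le_sum (T : Finset τ) (g : τ → γ) (Γ : Finset γ) (hΓ : ∀ t ∈ T, g t ∈ Γ) (K : ℕ)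
    (f : γ → ℕ) (hf : ∀ w ∈ Γ, ∀ A : Finset τ, (∀ t ∈ A, t ∈ T ∧ g t = w) →
      K * A.card ^ 2 ≤ f w) : K * PC T g ≤ ∑ w ∈ Γ, f w := by
  rw [PC_eq T g Γ hΓ, Finset.mul_sum]
  apply Finset.sum_le_sum
  intro w hw
  exact hf w hw _ (fun t ht => Finset.mem_filter.1 ht)

theorem PC_mono_rel (T : Finset τ) (g : τ → γ) (g' : τ → ε)
    (h : ∀ t ∈ T, ∀ t' ∈ T, g t = g t' → g' t = g' t') : PC T g ≤ PC T g' := by
  unfold PC
  apply Finset.card_le_card
  intro x hx
  simp only [Finset.mem_filter, Finset.mem_product] at hx ⊢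
  exact ⟨hx.1, h _ hx.1.1 _ hx.1.2 hx.2⟩

end PC

section words
variable {β : Type}

theorem sz_anti (S : Finset (List β)) {p p' : List β} (h : p <+: p') : sz S p' ≤ sz S p := by
  unfold sz
  apply Finset.card_le_card
  intro s hs
  simp only [Finset.mem_filter] at hs ⊢
  exact ⟨hs.1, h.trans hs.2⟩

/-- two large extensions of `p` have a common word -/
theorem common_of_big (S : Finset (List β)) {p p₁ p₂ : List β} {b : ℕ} (h1 : p <+: p₁)
    (h2 : p <+: p₂) (hp : sz S p < 2 ^ (b + 1)) (hb1 : 2 ^ b ≤ sz S p₁) (hb2 : 2 ^ b ≤ sz S p₂) :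
    p₁ <+: p₂ ∨ p₂ <+: p₁ := by
  by_contra hne
  have hdis : Disjoint (S.filter (fun s => p₁ <+: s)) (S.filter (fun s => p₂ <+: s)) := by
    rw [Finset.disjoint_left]
    intro s hs hs'
    simp only [Finset.mem_filter] at hs hs'
    exact hne (List.prefix_or_prefix_of_prefix hs.2 hs'.2)
  have hsub : (S.filter (fun s => p₁ <+: s)) ∪ (S.filter (fun s => p₂ <+: s))
      ⊆ S.filter (fun s => p <+: s) := by
    intro s hs
    simp only [Finset.mem_union, Finset.mem_filter] at hs ⊢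
    rcases hs with hs | hs
    · exact ⟨hs.1, h1.trans hs.2⟩
    · exact ⟨hs.1, h2.trans hs.2⟩
  have hc := Finset.card_le_card hsub
  rw [Finset.card_union_of_disjoint hdis] at hc
  unfold sz at hp hb1 hb2
  rw [pow_succ] at hp
  omega

/-- class of a node -/
noncomputable def cls (S : Finset (List β)) (p : List β) : ℕ := Nat.log 2 (sz S p)

/-- heavy letter -/
def Hv (S : Finset (List β)) (p : List β) (a : β) : Prop := 2 ^ cls S p ≤ sz S (p ++ [a])

theorem sz_lt_cls (S : Finset (List β)) (p : List β) : sz S p < 2 ^ (cls S p + 1) :=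
  Nat.lt_pow_succ_log_self (by norm_num) _

theorem cls_le_sz (S : Finset (List β)) {p : List β} (h : 1 ≤ sz S p) : 2 ^ cls S p ≤ sz S p :=
  Nat.pow_log_le_self 2 (by omega)

theorem Hv_unique (S : Finset (List β)) {p : List β} {a a' : β} (h : Hv S p a) (h' : Hv S p a') :
    a = a' := by
  have := common_of_big S (List.prefix_append p [a]) (List.prefix_append p [a']) (sz_lt_cls S p) h h'
  rcases this with h1 | h1
  · have := List.IsPrefix.eq_of_length h1 (by simp)
    simpa using this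
  · have := List.IsPrefix.eq_of_length h1 (by simp)
    simpa using this.symm

/-- next letter towards a node of the same class is heavy -/
theorem Hv_of_prefix (S : Finset (List β)) {p p' : List β} {a : β} (h : p ++ [a] <+: p')
    (hc : cls S p = cls S p') (h1 : 1 ≤ sz S p') : Hv S p a := by
  unfold Hv
  rw [hc]
  exact (cls_le_sz S h1).trans (sz_anti S h)

end words

end RDCE
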