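import Pool.Agent.H23.CE.TXA

/-!
# Structure lemmas for the words `gw inv t`
-/

open Finset Classical

namespace RDCE

variable {β : Type}

/-- inverse word -/
def iw (inv : β → β) (r : List β) : List β := (r.map inv).reverse

theorem gw_eq (inv : β → β) (t : List β × List β × List β) :
    gw inv t = t.1 ++ iw inv t.2.2 := rfl

theorem iw_iw (inv : β → β) (hinv : ∀ b, inv (inv b) = b) (r : List β) :
    iw inv (iw inv r) = r := by
  unfold iw
  rw [List.map_reverse, List.reverse_reverse, List.map_map]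
  conv_rhs => rw [← List.map_id r]
  apply List.map_congr_left
  intro a _
  exact hinv a

theorem iw_inj (inv : β → β) (hinv : ∀ b, inv (inv b) = b) {r r' : List β}
    (h : iw inv r = iw inv r') : r = r' := by
  rw [← iw_iw inv hinv r, h, iw_iw inv hinv]

theorem iw_append (inv : β → β) (a b : List β) : iw inv (a ++ b) = iw inv b ++ iw inv a := by
  unfold iw
  rw [List.map_append, List.reverse_append]

theorem iw_concat (inv : β → β) (a : List β) (b : β) : iw inv (a ++ [b]) = inv b :: iw inv a := by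
  rw [iw_append]; simp [iw]

theorem gw_same_len (inv : β → β) (hinv : ∀ b, inv (inv b) = b) {p p' r r' : List β}
    (h : p ++ iw inv r = p' ++ iw inv r') (hl : p.length = p'.length) : p = p' ∧ r = r' := by
  obtain ⟨h1, h2⟩ := List.append_inj h hl
  exact ⟨h1, iw_inj inv hinv h2⟩

theorem gw_prefix (inv : β → β) (hinv : ∀ b, inv (inv b) = b) {p p' r r' : List β}
    (h : p ++ iw inv r = p' ++ iw inv r') (hl : p.length ≤ p'.length) :
    p <+: p' ∧ r' <+: r := by
  have h1 : p <+: p' := by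
    apply List.prefix_of_prefix_length_le (l₃ := p' ++ iw inv r')
    · rw [← h]; exact List.prefix_append _ _
    · exact List.prefix_append _ _
    · exact hl
  refine ⟨h1, ?_⟩
  obtain ⟨x, rfl⟩ := h1
  rw [List.append_assoc] at h
  have h2 := List.append_cancel_left h
  have h3 := congrArg (iw inv) h2
  rw [iw_iw inv hinv, iw_append, iw_iw inv hinv] at h3
  rw [h3]
  exact List.prefix_append _ _

/-- the letter of `g` following `p` -/
theorem gw_get (inv : β → β) {p r₀ : List β} {b : β} :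
    (p ++ iw inv (r₀ ++ [b]))[p.length]? = some (inv b) := by
  rw [iw_concat]
  simp

theorem get_prefix {g p : List β} {c : β} (h : p ++ [c] <+: g) : g[p.length]? = some c := by
  obtain ⟨x, rfl⟩ := h
  simp

theorem prefix_get {g p : List β} {c : β} (h : p <+: g) (hc : g[p.length]? = some c) :
    p ++ [c] <+: g := by
  obtain ⟨x, rfl⟩ := h
  rcases x with _ | ⟨y, x⟩
  · simp at hc
  · simp at hc
    subst hc
    exact ⟨x, by simp⟩

/-- a letter occurring twice in a slice -/
theorem not_nodup_slice {g : List β} {i₀ i j k : ℕ} {a : β} (hi₀ : i₀ ≤ i) (hij : i < j)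
    (hjk : j ≤ k) (hi : g[i]? = some a) (hj : g[j]? = some a) :
    ¬ ((g.drop i₀).take (k + 1 - i₀)).Nodup := by
  intro hn
  have h1 : ((g.drop i₀).take (k + 1 - i₀))[i - i₀]? = some a := by
    rw [List.getElem?_take_of_lt (by omega), List.getElem?_drop]
    rw [show i₀ + (i - i₀) = i by omega]
    exact hi
  have h2 : ((g.drop i₀).take (k + 1 - i₀))[j - i₀]? = some a := by
    rw [List.getElem?_take_of_lt (by omega), List.getElem?_drop]
    rw [show i₀ + (j - i₀) = j by omega]
    exact hj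
  have hlt : i - i₀ < ((g.drop i₀).take (k + 1 - i₀)).length := by
    by_contra hlt
    rw [List.getElem?_eq_none (by omega)] at h1
    cases h1
  have h3 := (List.getElem?_inj hlt hn).1 (h1.trans h2.symm)
  omega

theorem log_le_of {x y e : ℕ} (hx : 1 ≤ x) (h : x ≤ 2 ^ e * y) :
    Nat.log 2 x ≤ Nat.log 2 y + e := by
  have hy : y < 2 ^ (Nat.log 2 y + 1) := Nat.lt_pow_succ_log_self (by norm_num) _
  have h1 : x < 2 ^ (Nat.log 2 y + e + 1) := by
    calc x ≤ 2 ^ e * y := h
      _ < 2 ^ e * 2 ^ (Nat.log 2 y + 1) := Nat.mul_lt_mul_of_pos_left hy (by positivity)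
      _ = 2 ^ (Nat.log 2 y + e + 1) := by rw [← pow_add]; congr 1; omega
  have h2 := Nat.log_lt_of_lt_pow (by omega) h1
  omega

theorem sum_sz_le (S P : Finset (List β)) (a κ : ℕ)
    (hP : ∀ p ∈ P, a ≤ p.length ∧ p.length < a + κ) : ∑ p ∈ P, sz S p ≤ κ * S.card := by
  unfold sz
  simp only [Finset.card_filter]
  rw [Finset.sum_comm]
  have h1 : ∀ s ∈ S, (∑ p ∈ P, if p <+: s then 1 else 0) ≤ κ := by
    intro s _
    rw [← Finset.card_filter]
    have h2 : ((P.filter (fun p => p <+: s)).image List.length) ⊆ Finset.Ico a (a + κ) := by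
      intro n hn
      obtain ⟨p, hp, rfl⟩ := Finset.mem_image.1 hn
      rw [Finset.mem_Ico]
      exact hP p (Finset.mem_filter.1 hp).1
    have h3 := Finset.card_le_card h2
    rw [Finset.card_image_of_injOn, Nat.card_Ico] at h3
    · omega
    · intro p hp p' hp' hl
      simp only [Finset.coe_filter, Set.mem_ofPred_eq] at hp hp'
      have h4 := List.prefix_of_prefix_length_le hp.2 hp'.2 (le_of_eq hl)
      exact List.IsPrefix.eq_of_length h4 hl
  calc _ ≤ ∑ s ∈ S, κ := Finset.sum_le_sum h1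
    _ = κ * S.card := by rw [Finset.sum_const, smul_eq_mul, mul_comm]

theorem leave_unique_aux (S : Finset (List β)) {p₁ p₂ q₁ q₂ : List β} {a₁ : β}
    (e : p₁ ++ q₁ = p₂ ++ q₂) (hc : cls S p₁ = cls S p₂) (h1 : Hv S p₁ a₁)
    (hq : q₁.head? ≠ some a₁) (hz : 1 ≤ sz S p₂) (hl : p₁.length ≤ p₂.length) : p₁ = p₂ := by
  have hp : p₁ <+: p₂ := by
    apply List.prefix_of_prefix_length_le (l₃ := p₂ ++ q₂)
    · rw [← e]; exact List.prefix_append _ _
    · exact List.prefix_append _ _
    · exact hl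
  obtain ⟨x, rfl⟩ := hp
  rcases x with _ | ⟨c, x⟩
  · simp
  · exfalso
    rw [List.append_assoc] at e
    have e' := List.append_cancel_left e
    have h2 : Hv S p₁ c := Hv_of_prefix S ⟨x, by simp⟩ hc hz
    have h3 := Hv_unique S h1 h2
    apply hq
    rw [e', h3]
    simp

theorem leave_unique (S : Finset (List β)) {p₁ p₂ q₁ q₂ : List β} {a₁ a₂ : β}
    (e : p₁ ++ q₁ = p₂ ++ q₂) (hc : cls S p₁ = cls S p₂) (h1 : Hv S p₁ a₁)
    (hq1 : q₁.head? ≠ some a₁) (h2 : Hv S p₂ a₂) (hq2 : q₂.head? ≠ some a₂)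
    (hz1 : 1 ≤ sz S p₁) (hz2 : 1 ≤ sz S p₂) : p₁ = p₂ := by
  rcases le_total p₁.length p₂.length with hl | hl
  · exact leave_unique_aux S e hc h1 hq1 hz2 hl
  · exact (leave_unique_aux S e.symm hc.symm h2 hq2 hz1 hl).symm

/-- case: the second cut is below -/
theorem up_unique_aux (inv : β → β) (S : Finset (List β)) {p₁ p₂ p' r r₁' r₀ : List β} {b : β}
    (hr : r = r₀ ++ [b]) (h2 : Hv S p₂ (inv b))
    (hc2 : cls S p₂ = cls S p') (hz : 1 ≤ sz S p')
    (e1 : p₁ ++ iw inv r = p' ++ iw inv r₁')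
    (hb' : ∃ r₀' b', r₁' = r₀' ++ [b'] ∧ Hv S p' (inv b'))
    (hp1 : p₁ <+: p') (hp2 : p₂ <+: p')
    (hl12 : p₁.length < p₂.length)
    (hn : (((p₁ ++ iw inv r).drop p₁.length).take (p'.length + 1 - p₁.length)).Nodup) : False := by
  have hl2 : p₂.length ≤ p'.length := hp2.length_le
  have g1 : (p₁ ++ iw inv r)[p₁.length]? = some (inv b) := by rw [hr]; exact gw_get inv
  have g2 : (p₁ ++ iw inv r)[p₂.length]? = some (inv b) := by
    rw [e1]
    rcases Nat.lt_or_ge p₂.length p'.length with h | h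
    · obtain ⟨x, rfl⟩ := hp2
      rcases x with _ | ⟨c, x⟩
      · simp at h
      · have h3 : Hv S p₂ c := Hv_of_prefix S ⟨x, by simp⟩ hc2 hz
        have h4 := Hv_unique S h2 h3
        rw [h4]
        simp
    · have hpe : p₂ = p' := List.IsPrefix.eq_of_length hp2 (by omega)
      obtain ⟨r₀', b', hr', hb⟩ := hb'
      subst hpe
      rw [hr', Hv_unique S h2 hb]
      exact gw_get inv
  exact not_nodup_slice le_rfl hl12 hl2 g1 g2 hn

/-- case: the second cut is above -/
theorem down_unique_aux (inv : β → β) (S : Finset (List β)) {p₁ p₂ p' r r₀ : List β} {b : β}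
    (hr : r = r₀ ++ [b]) (h1 : Hv S p₁ (inv b))
    (hc1 : cls S p₁ = cls S p₂) (hc' : cls S p' = cls S p₁) (hz1 : 1 ≤ sz S p₁) (hz2 : 1 ≤ sz S p₂)
    (hp1 : p' <+: p₁) (hp2 : p' <+: p₂)
    (hl12 : p₁.length < p₂.length)
    (hn : (((p₂ ++ iw inv r).drop p'.length).take (p₂.length + 1 - p'.length)).Nodup) :
    False := by
  have hcomp := common_of_big S (b := cls S p') hp1 hp2 (sz_lt_cls S p')
    (by rw [hc']; exact cls_le_sz S hz1) (by rw [hc', hc1]; exact cls_le_sz S hz2)
  have hp12 : p₁ <+: p₂ := by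
    rcases hcomp with h | h
    · exact h
    · have := h.length_le; omega
  have g2 : (p₂ ++ iw inv r)[p₂.length]? = some (inv b) := by rw [hr]; exact gw_get inv
  have g1 : (p₂ ++ iw inv r)[p₁.length]? = some (inv b) := by
    obtain ⟨x, rfl⟩ := hp12
    rcases x with _ | ⟨c, x⟩
    · simp at hl12
    · have h3 : Hv S p₁ c := Hv_of_prefix S ⟨x, by simp⟩ hc1 hz2
      rw [Hv_unique S h1 h3]
      simp
  exact not_nodup_slice hp1.length_le hl12 le_rfl g1 g2 hn

end RDCE
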