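import Pool.Agent.H23.CE.TXB

/-!
# The three parts of the crossing lemma
-/

open Finset Classical

namespace RDCE

variable {β : Type}

/-- hypotheses of `tX` which do not involve `Γ` and `h` -/
structure TXH (inv : β → β) (S Y : Finset (List β))
    (T : Finset (List β × List β × List β)) (L0 κ a₁ a₂ : ℕ) : Prop where
  hinv : ∀ b, inv (inv b) = b
  hκ : κ ≤ 2 ^ L0
  hTS : ∀ t ∈ T, t.1 ++ t.2.1 ∈ S
  hTY : ∀ t ∈ T, t.2.2 ++ t.2.1 ∈ Y
  hT1 : ∀ t ∈ T, a₁ ≤ t.1.length ∧ t.1.length < a₁ + κ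
  hT2 : ∀ t ∈ T, a₂ ≤ t.2.2.length ∧ t.2.2.length < a₂ + κ
  hr : ∀ t ∈ T, t.2.2 ≠ []
  hred : ∀ t ∈ T, ∀ (r₀ : List β) (b : β), t.2.2 = r₀ ++ [b] → t.2.1.head? ≠ some (inv b)
  huniq : ∀ t ∈ T, ∀ t' ∈ T, t.2.2 ++ t.2.1 = t'.2.2 ++ t'.2.1 →
      t.2.2.length = t'.2.2.length
  hnodup : ∀ t ∈ T, ∀ t' ∈ T, gw inv t = gw inv t' → t.1.length < t'.1.length →
      (((gw inv t).drop t.1.length).take (t'.1.length + 1 - t.1.length)).Nodup

def bal (S Y : Finset (List β)) (κ : ℕ) (t : List β × List β × List β) : Prop :=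
  sz S t.1 ≤ κ ^ 3 * sz Y t.2.2 ∧ sz Y t.2.2 ≤ κ ^ 3 * sz S t.1

def isB (inv : β → β) (S : Finset (List β)) (t : List β × List β × List β) : Prop :=
  ∃ r₀ b, t.2.2 = r₀ ++ [b] ∧ Hv S t.1 (inv b)

section
variable {inv : β → β} {S Y : Finset (List β)} {T : Finset (List β × List β × List β)}
  {L0 κ a₁ a₂ : ℕ} (H : TXH inv S Y T L0 κ a₁ a₂)
include H

theorem TXH.sz1 {t} (ht : t ∈ T) : 1 ≤ sz S t.1 := by
  unfold sz
  rw [Nat.one_le_iff_ne_zero, ← Nat.pos_iff_ne_zero, Finset.card_pos]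
  exact ⟨t.1 ++ t.2.1, Finset.mem_filter.2 ⟨H.hTS t ht, List.prefix_append _ _⟩⟩

theorem TXH.sz2 {t} (ht : t ∈ T) : 1 ≤ sz Y t.2.2 := by
  unfold sz
  rw [Nat.one_le_iff_ne_zero, ← Nat.pos_iff_ne_zero, Finset.card_pos]
  exact ⟨t.2.2 ++ t.2.1, Finset.mem_filter.2 ⟨H.hTY t ht, List.prefix_append _ _⟩⟩

theorem TXH.same {t t'} (h : gw inv t = gw inv t') (hl : t.1.length = t'.1.length) :
    t.1 = t'.1 ∧ t.2.2 = t'.2.2 := by
  rw [gw_eq, gw_eq] at h
  exact gw_same_len inv H.hinv h hl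

/-- unbalanced part -/
theorem TXH.partU : PC (T.filter (fun t => ¬ bal S Y κ t)) (gw inv) ≤ S.card * Y.card := by
  set U := T.filter (fun t => ¬ bal S Y κ t) with hU
  rcases U.eq_empty_or_nonempty with h0 | ⟨t₀, ht₀⟩
  · rw [h0]; simp [PC]
  have hUT : ∀ t ∈ U, t ∈ T := fun t ht => (Finset.mem_filter.1 ht).1
  have hκ0 : 0 < κ := by
    have := H.hT1 t₀ (hUT t₀ ht₀)
    omega
  -- step 1
  have s1 : PC U (gw inv) ≤ κ * PC U (fun t => (gw inv t, t.1.length)) := by
    apply PC_class'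
    intro w
    refine ⟨Finset.Ico a₁ (a₁ + κ), by rw [Nat.card_Ico]; omega, ?_⟩
    intro t ht _
    rw [Finset.mem_Ico]
    exact H.hT1 t (hUT t ht)
  have s2 : PC U (fun t => (gw inv t, t.1.length)) ≤ PC U (fun t => (t.1, t.2.2)) := by
    apply PC_mono_rel
    intro t _ t' _ h
    simp only [Prod.mk.injEq] at h ⊢
    exact H.same h.1 h.2
  -- step 3
  set P := U.image (fun t => t.1) with hP
  set R := U.image (fun t => t.2.2) with hR
  have s3 : κ ^ 3 * PC U (fun t => (t.1, t.2.2)) ≤ (κ * S.card) * (κ * Y.card) := by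
    have s4 : κ ^ 3 * PC U (fun t => (t.1, t.2.2)) ≤ ∑ x ∈ P ×ˢ R, sz S x.1 * sz Y x.2 := by
      apply PC_le_sum U (fun t => (t.1, t.2.2)) (P ×ˢ R)
        (fun t ht => Finset.mem_product.2 ⟨Finset.mem_image_of_mem _ ht, Finset.mem_image_of_mem _ ht⟩)
      rintro ⟨p, r⟩ _ A hA
      simp only [Prod.mk.injEq] at hA
      have hn1 : A.card ≤ sz S p := by
        unfold sz
        apply Finset.card_le_card_of_injOn (fun t => t.1 ++ t.2.1)
        · intro t ht
          simp only [Finset.coe_filter, Set.mem_ofPred_eq, Finset.mem_coe] at ht ⊢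
          obtain ⟨h1, h2, h3⟩ := hA t ht
          refine ⟨H.hTS t (hUT t h1), ?_⟩
          rw [← h2]
          exact List.prefix_append _ _
        · rintro ⟨t1, t2, t3⟩ ht ⟨t1', t2', t3'⟩ ht' he
          obtain ⟨_, rfl, rfl⟩ := hA _ (Finset.mem_coe.1 ht)
          obtain ⟨_, h1, h2⟩ := hA _ (Finset.mem_coe.1 ht')
          simp only at he h1 h2
          subst h1 h2
          rw [List.append_cancel_left he]
      have hn2 : A.card ≤ sz Y r := by
        unfold sz
        apply Finset.card_le_card_of_injOn (fun t => t.2.2 ++ t.2.1)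
        · intro t ht
          simp only [Finset.coe_filter, Set.mem_ofPred_eq, Finset.mem_coe] at ht ⊢
          obtain ⟨h1, h2, h3⟩ := hA t ht
          refine ⟨H.hTY t (hUT t h1), ?_⟩
          rw [← h3]
          exact List.prefix_append _ _
        · rintro ⟨t1, t2, t3⟩ ht ⟨t1', t2', t3'⟩ ht' he
          obtain ⟨_, rfl, rfl⟩ := hA _ (Finset.mem_coe.1 ht)
          obtain ⟨_, h1, h2⟩ := hA _ (Finset.mem_coe.1 ht')
          simp only at he h1 h2
          subst h1 h2
          rw [List.append_cancel_left he]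
      rcases A.eq_empty_or_nonempty with h0 | ⟨t, ht⟩
      · rw [h0]; simp
      · obtain ⟨hU1, h1, h2⟩ := hA t ht
        have hb := (Finset.mem_filter.1 hU1).2
        simp only [bal, not_and_or, not_le, h1, h2] at hb
        show κ ^ 3 * A.card ^ 2 ≤ sz S p * sz Y r
        rcases hb with hb | hb
        · calc κ ^ 3 * A.card ^ 2 = (κ ^ 3 * A.card) * A.card := by ring
            _ ≤ (κ ^ 3 * sz Y r) * sz Y r :=
              Nat.mul_le_mul (Nat.mul_le_mul_left _ hn2) hn2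
            _ ≤ _ := Nat.mul_le_mul_right _ hb.le
        · calc κ ^ 3 * A.card ^ 2 = A.card * (κ ^ 3 * A.card) := by ring
            _ ≤ sz S p * (κ ^ 3 * sz S p) :=
              Nat.mul_le_mul hn1 (Nat.mul_le_mul_left _ hn1)
            _ ≤ _ := Nat.mul_le_mul_left _ hb.le
    refine s4.trans ?_
    rw [Finset.sum_product]
    have s5 : ∑ p ∈ P, ∑ r ∈ R, sz S p * sz Y r = (∑ p ∈ P, sz S p) * ∑ r ∈ R, sz Y r := by
      rw [Finset.sum_mul_sum]
    show ∑ p ∈ P, ∑ r ∈ R, sz S p * sz Y r ≤ _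
    rw [s5]
    apply Nat.mul_le_mul
    · apply sum_sz_le S P a₁ κ
      intro p hp
      obtain ⟨t, ht, rfl⟩ := Finset.mem_image.1 hp
      exact H.hT1 t (hUT t ht)
    · apply sum_sz_le Y R a₂ κ
      intro p hp
      obtain ⟨t, ht, rfl⟩ := Finset.mem_image.1 hp
      exact H.hT2 t (hUT t ht)
  have s6 : κ * PC U (fun t => (t.1, t.2.2)) ≤ S.card * Y.card := by
    have h1 : κ ^ 2 * (κ * PC U (fun t => (t.1, t.2.2))) ≤ κ ^ 2 * (S.card * Y.card) := by
      calc κ ^ 2 * (κ * PC U (fun t => (t.1, t.2.2))) = κ ^ 3 * PC U (fun t => (t.1, t.2.2)) := by ring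
        _ ≤ _ := s3
        _ = _ := by ring
    exact Nat.le_of_mul_le_mul_left h1 (by positivity)
  exact s1.trans ((Nat.mul_le_mul_left _ s2).trans s6)

/-- along a word the classes of balanced cuts vary by at most `6 L0` -/
theorem TXH.cls_close {t t'} (ht : t ∈ T) (hb : bal S Y κ t) (_ht' : t' ∈ T)
    (hb' : bal S Y κ t') (h : gw inv t = gw inv t') : cls S t.1 ≤ cls S t'.1 + 6 * L0 := by
  have hκ6 : κ ^ 6 ≤ 2 ^ (6 * L0) := by
    calc κ ^ 6 ≤ (2 ^ L0) ^ 6 := Nat.pow_le_pow_left H.hκ 6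
      _ = 2 ^ (6 * L0) := by rw [← pow_mul]; congr 1; omega
  have hpos : 1 ≤ 2 ^ (6 * L0) := Nat.one_le_two_pow
  unfold cls
  apply log_le_of (H.sz1 ht)
  rw [gw_eq, gw_eq] at h
  rcases le_total t.1.length t'.1.length with hl | hl
  · obtain ⟨_, h2⟩ := gw_prefix inv H.hinv h hl
    calc sz S t.1 ≤ κ ^ 3 * sz Y t.2.2 := hb.1
      _ ≤ κ ^ 3 * sz Y t'.2.2 := Nat.mul_le_mul_left _ (sz_anti Y h2)
      _ ≤ κ ^ 3 * (κ ^ 3 * sz S t'.1) := Nat.mul_le_mul_left _ hb'.2
      _ = κ ^ 6 * sz S t'.1 := by ring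
      _ ≤ _ := Nat.mul_le_mul_right _ hκ6
  · obtain ⟨h1, _⟩ := gw_prefix inv H.hinv h.symm hl
    calc sz S t.1 ≤ sz S t'.1 := sz_anti S h1
      _ ≤ 2 ^ (6 * L0) * sz S t'.1 := Nat.le_mul_of_pos_left _ hpos

theorem TXH.class_count (A : Finset (List β × List β × List β)) (hA : ∀ t ∈ A, t ∈ T ∧ bal S Y κ t) :
    PC A (gw inv) ≤ (6 * L0 + 1) * PC A (fun t => (gw inv t, cls S t.1)) := by
  apply PC_class'
  intro w
  by_cases h0 : ∃ t ∈ A, gw inv t = w
  · obtain ⟨t₁, ht₁, hw₁⟩ := h0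
    have hne : (A.filter (fun t => gw inv t = w)).Nonempty :=
      ⟨t₁, Finset.mem_filter.2 ⟨ht₁, hw₁⟩⟩
    obtain ⟨t₀, ht₀, hmin⟩ := Finset.exists_min_image _ (fun t => cls S t.1) hne
    refine ⟨Finset.Ico (cls S t₀.1) (cls S t₀.1 + (6 * L0 + 1)), by rw [Nat.card_Ico]; omega, ?_⟩
    intro t ht htw
    rw [Finset.mem_Ico]
    refine ⟨hmin t (Finset.mem_filter.2 ⟨ht, htw⟩), ?_⟩
    rw [Finset.mem_filter] at ht₀
    have := H.cls_close (hA t ht).1 (hA t ht).2 (hA t₀ ht₀.1).1 (hA t₀ ht₀.1).2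
      (htw.trans ht₀.2.symm)
    omega
  · refine ⟨∅, by simp, ?_⟩
    intro t ht htw
    exact absurd ⟨t, ht, htw⟩ h0

/-- part (α) -/
theorem TXH.partA : PC ((T.filter (fun t => bal S Y κ t)).filter (fun t => ¬ isB inv S t)) (gw inv)
    ≤ (6 * L0 + 1) * EA T := by
  set A := (T.filter (fun t => bal S Y κ t)).filter (fun t => ¬ isB inv S t) with hA
  have hA' : ∀ t ∈ A, t ∈ T ∧ bal S Y κ t := by
    intro t ht
    rw [hA, Finset.mem_filter, Finset.mem_filter] at ht
    exact ht.1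
  refine (H.class_count A hA').trans (Nat.mul_le_mul_left _ ?_)
  have key : ∀ t ∈ A, ∀ t' ∈ A, gw inv t = gw inv t' → cls S t.1 = cls S t'.1 →
      t.1.length ≤ t'.1.length → t.1.length = t'.1.length := by
    intro t ht t' ht' h hc hl
    by_contra hne
    have htA := hA' t ht
    have htA' := hA' t' ht'
    have hgw := h
    rw [gw_eq, gw_eq] at hgw
    obtain ⟨hp, _⟩ := gw_prefix inv H.hinv hgw hl
    have hr := H.hr t htA.1
    obtain ⟨r₀, b, hrb⟩ : ∃ r₀ b, t.2.2 = r₀ ++ [b] :=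
      ⟨t.2.2.dropLast, t.2.2.getLast hr, (List.dropLast_append_getLast hr).symm⟩
    have hnb : ¬ isB inv S t := (Finset.mem_filter.1 ht).2
    apply hnb
    refine ⟨r₀, b, hrb, ?_⟩
    have g1 : (t.1 ++ iw inv t.2.2)[t.1.length]? = some (inv b) := by rw [hrb]; exact gw_get inv
    obtain ⟨x, hx⟩ := hp
    rcases x with _ | ⟨c, x⟩
    · rw [List.append_nil] at hx
      exact absurd (by rw [hx]) hne
    · have g2 : (t.1 ++ iw inv t.2.2)[t.1.length]? = some c := by
        rw [hgw, ← hx]; simp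
      have hcb : c = inv b := by
        rw [g1] at g2
        exact (Option.some.inj g2).symm
      rw [← hcb]
      exact Hv_of_prefix S ⟨x, by rw [← hx]; simp⟩ hc (H.sz1 htA'.1)
  unfold PC EA
  apply Finset.card_le_card
  intro x hx
  simp only [Finset.mem_filter, Finset.mem_product, Prod.mk.injEq] at hx ⊢
  obtain ⟨⟨h1, h2⟩, h3, h4⟩ := hx
  refine ⟨⟨(hA' _ h1).1, (hA' _ h2).1⟩, ?_⟩
  apply H.same h3
  rcases le_total x.1.1.length x.2.1.length with hl | hl
  · exact key _ h1 _ h2 h3 h4 hl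
  · exact (key _ h2 _ h1 h3.symm h4.symm hl).symm

/-- part (β) -/
theorem TXH.partB : PC ((T.filter (fun t => bal S Y κ t)).filter (fun t => isB inv S t)) (gw inv)
    ≤ (6 * L0 + 1) * (Y.card * ((6 * L0 + 1) * (S.card * 2))) := by
  set A := (T.filter (fun t => bal S Y κ t)).filter (fun t => isB inv S t) with hA
  have hA' : ∀ t ∈ A, t ∈ T ∧ bal S Y κ t := by
    intro t ht
    rw [hA, Finset.mem_filter, Finset.mem_filter] at ht
    exact ht.1
  have hAB : ∀ t ∈ A, isB inv S t := by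
    intro t ht
    rw [hA, Finset.mem_filter] at ht
    exact ht.2
  refine (H.class_count A hA').trans (Nat.mul_le_mul_left _ ?_)
  have hκ3 : κ ^ 3 ≤ 2 ^ (3 * L0) := by
    calc κ ^ 3 ≤ (2 ^ L0) ^ 3 := Nat.pow_le_pow_left H.hκ 3
      _ = 2 ^ (3 * L0) := by rw [← pow_mul]; congr 1; omega
  have hlo : ∀ t ∈ A, Nat.log 2 (sz Y t.2.2) ≤ cls S t.1 + 3 * L0 := by
    intro t ht
    apply log_le_of (H.sz2 (hA' t ht).1)
    exact (hA' t ht).2.2.trans (Nat.mul_le_mul_right _ hκ3)
  have hhi : ∀ t ∈ A, cls S t.1 ≤ Nat.log 2 (sz Y t.2.2) + 3 * L0 := by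
    intro t ht
    apply log_le_of (H.sz1 (hA' t ht).1)
    exact (hA' t ht).2.1.trans (Nat.mul_le_mul_right _ hκ3)
  have hcard : Y.card * ((6 * L0 + 1) * (S.card * 2))
      = (Y ×ˢ (Finset.range (6 * L0 + 1) ×ˢ (S ×ˢ (Finset.univ : Finset Bool)))).card := by
    simp [Finset.card_product]
  rw [hcard]
  unfold PC
  apply Finset.card_le_card_of_injOn (fun x => (x.1.2.2 ++ x.1.2.1,
    cls S x.1.1 + 3 * L0 - Nat.log 2 (sz Y x.1.2.2), x.2.1 ++ x.2.2.1,
    decide (x.1.1.length ≤ x.2.1.length)))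
  · intro x hx
    simp only [Finset.coe_filter, Set.mem_ofPred_eq, Finset.mem_product, Prod.mk.injEq] at hx
    obtain ⟨⟨h1, h2⟩, h3, h4⟩ := hx
    simp only [Finset.coe_product, Set.mem_prod, Finset.mem_coe, Finset.mem_range,
      Finset.coe_univ, Set.mem_univ, and_true]
    refine ⟨H.hTY _ (hA' _ h1).1, ?_, H.hTS _ (hA' _ h2).1⟩
    have := hlo _ h1
    have := hhi _ h1
    omega
  · intro x hx x' hx' hΦ
    simp only [Finset.coe_filter, Set.mem_ofPred_eq, Finset.mem_product, Prod.mk.injEq] at hx hx' hΦ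
    obtain ⟨⟨h1, h2⟩, h3, h4⟩ := hx
    obtain ⟨⟨h1', h2'⟩, h3', h4'⟩ := hx'
    obtain ⟨e1, e2, e3, e4⟩ := hΦ
    -- same `q`, `r`
    have hlen := H.huniq _ (hA' _ h1).1 _ (hA' _ h1').1 e1
    obtain ⟨er, eq⟩ := List.append_inj e1 hlen
    -- same class
    have ec : cls S x.1.1 = cls S x'.1.1 := by
      have hlo1 := hlo _ h1
      have hlo2 := hlo _ h1'
      rw [er] at e2 hlo1
      omega
    -- same `p'`
    obtain ⟨r₁, b₁, hr₁, hv₁⟩ := hAB _ h2
    obtain ⟨r₂, b₂, hr₂, hv₂⟩ := hAB _ h2'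
    have ep' : x.2.1 = x'.2.1 := by
      apply leave_unique S e3 (by rw [← h4, ← h4', ec]) hv₁ (H.hred _ (hA' _ h2).1 _ _ hr₁)
        hv₂ (H.hred _ (hA' _ h2').1 _ _ hr₂) (H.sz1 (hA' _ h2).1) (H.sz1 (hA' _ h2').1)
    have eq' : x.2.2.1 = x'.2.2.1 := by
      rw [ep'] at e3
      exact List.append_cancel_left e3
    -- same `p`
    obtain ⟨r₀, b, hr, hv⟩ := hAB _ h1
    obtain ⟨r₀', b', hr', hv'⟩ := hAB _ h1'
    have hbb : b = b' := by
      rw [er, hr'] at hr
      have := List.append_inj' hr (by simp)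
      simpa using this.2.symm
    have hg : x.1.1 ++ iw inv x.1.2.2 = x.2.1 ++ iw inv x.2.2.2 := h3
    have hg' : x'.1.1 ++ iw inv x'.1.2.2 = x'.2.1 ++ iw inv x'.2.2.2 := h3'
    have z1 := H.sz1 (hA' _ h1).1
    have z1' := H.sz1 (hA' _ h1').1
    have z2 := H.sz1 (hA' _ h2).1
    have z2' := H.sz1 (hA' _ h2').1
    have ep : x.1.1 = x'.1.1 := by
      rcases Nat.lt_or_ge x.2.1.length x.1.1.length with hs | hs
      · -- `p` is below `p'`
        have hs' : x'.2.1.length < x'.1.1.length := by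
          by_contra hcon
          rw [not_lt] at hcon
          rw [decide_eq_true hcon, decide_eq_false (by omega)] at e4
          cases e4
        have hp1 := (gw_prefix inv H.hinv hg.symm hs.le).1
        have hp1' := (gw_prefix inv H.hinv hg'.symm hs'.le).1
        by_contra hne
        have hlne : x.1.1.length ≠ x'.1.1.length := by
          intro hl
          have hcomp := common_of_big S (p := x.2.1) (p₁ := x.1.1) (p₂ := x'.1.1)
            (b := cls S x.2.1) hp1 (by rw [ep']; exact hp1')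
            (sz_lt_cls S _) (by rw [← h4]; exact cls_le_sz S z1)
            (by rw [← h4, ec]; exact cls_le_sz S z1')
          rcases hcomp with h | h
          · exact hne (List.IsPrefix.eq_of_length h hl)
          · exact hne (List.IsPrefix.eq_of_length h hl.symm).symm
        rcases lt_or_gt_of_ne hlne with hlt | hlt
        · refine down_unique_aux inv S (p₁ := x.1.1) (p₂ := x'.1.1) (p' := x'.2.1) hr' 
            (by rw [← hbb]; exact hv) ec (by rw [← h4', ec]) z1 z1' (by rw [← ep']; exact hp1) hp1'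
            hlt ?_
          have := H.hnodup _ (hA' _ h2').1 _ (hA' _ h1').1 h3'.symm hs'
          rw [← h3', gw_eq] at this
          exact this
        · refine down_unique_aux inv S (p₁ := x'.1.1) (p₂ := x.1.1) (p' := x.2.1) hr
            (by rw [hbb]; exact hv') ec.symm (by rw [← h4, ec]) z1' z1 (by rw [ep']; exact hp1') hp1
            hlt ?_
          have := H.hnodup _ (hA' _ h2).1 _ (hA' _ h1).1 h3.symm hs
          rw [← h3, gw_eq] at this
          exact this
      · -- `p` is above `p'`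
        have hs' : x'.1.1.length ≤ x'.2.1.length := by
          by_contra hcon
          rw [decide_eq_true hs, decide_eq_false hcon] at e4
          cases e4
        have hp1 := (gw_prefix inv H.hinv hg hs).1
        have hp1' := (gw_prefix inv H.hinv hg' hs').1
        by_contra hne
        have hlne : x.1.1.length ≠ x'.1.1.length := by
          intro hl
          have h := List.prefix_of_prefix_length_le hp1 (by rw [ep']; exact hp1') (le_of_eq hl)
          exact hne (List.IsPrefix.eq_of_length h hl)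
        rcases lt_or_gt_of_ne hlne with hlt | hlt
        · have hltp : x.1.1.length < x.2.1.length := by
            have := hp1'.length_le
            rw [← ep'] at this
            omega
          refine up_unique_aux inv S (p₁ := x.1.1) (p₂ := x'.1.1) (p' := x.2.1) (r := x.1.2.2)
            (r₁' := x.2.2.2) hr (by rw [hbb]; exact hv') (by rw [← ec, h4]) z2 hg (hAB _ h2) hp1
            (by rw [ep']; exact hp1') hlt ?_
          have := H.hnodup _ (hA' _ h1).1 _ (hA' _ h2).1 h3 hltp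
          rw [gw_eq] at this
          exact this
        · have hltp : x'.1.1.length < x'.2.1.length := by
            have := hp1.length_le
            rw [ep'] at this
            omega
          refine up_unique_aux inv S (p₁ := x'.1.1) (p₂ := x.1.1) (p' := x'.2.1) (r := x'.1.2.2)
            (r₁' := x'.2.2.2) hr' (by rw [← hbb]; exact hv) (by rw [ec, h4']) z2' hg' (hAB _ h2') hp1'
            (by rw [← ep']; exact hp1) hlt ?_
          have := H.hnodup _ (hA' _ h1').1 _ (hA' _ h2').1 h3' hltp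
          rw [gw_eq] at this
          exact this
    -- same `r'`
    have er' : x.2.2.2 = x'.2.2.2 := by
      rw [ep, er, hg', ep'] at hg
      exact iw_inj inv H.hinv (List.append_cancel_left hg).symm
    obtain ⟨⟨p, q, r⟩, ⟨p', q', r'⟩⟩ := x
    obtain ⟨⟨P, Q, R⟩, ⟨P', Q', R'⟩⟩ := x'
    simp only at ep er eq ep' eq' er'
    subst ep er eq ep' eq' er'
    rfl

end

end RDCE
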